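import Pool.Agent.Lib.MP_c03ca8_nt.Q.Defs

set_option autoImplicit false

noncomputable section

namespace Pool.Agent.Lib.MP_c03ca8_nt.Q

open Finset Real

/-- A character is determined by its conductor and primitive character. -/
theorem char_inj {q : ℕ} (χ χ' : DirichletCharacter ℂ q)
    (h : (⟨χ.conductor, χ.primitiveCharacter⟩ : Σ c : ℕ, DirichletCharacter ℂ c) =
      ⟨χ'.conductor, χ'.primitiveCharacter⟩) : χ = χ' := by
  have key : ∀ (x y : Σ c : ℕ, DirichletCharacter ℂ c) (hx : x.1 ∣ q) (hy : y.1 ∣ q), x = y →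
      DirichletCharacter.changeLevel hx x.2 = DirichletCharacter.changeLevel hy y.2 := by
    intro x y hx hy hxy
    subst hxy
    rfl
  have h1 := key _ _ χ.conductor_dvd_level χ'.conductor_dvd_level h
  rw [← χ.changeLevel_primitiveCharacter, ← χ'.changeLevel_primitiveCharacter]
  exact h1

/-- Inclusion and exclusion for one integer. -/
theorem char_ie {R : Type*} [CommRing R] {q : ℕ} (hq : 1 ≤ q) (k : ℕ) :
    (if Nat.Coprime k q then (1 : R) else 0) =
      ∑ E ∈ q.primeFactors.powerset, (-1 : R) ^ E.card * if (∏ p ∈ E, p) ∣ k then 1 else 0 := by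
  have h1 : (if Nat.Coprime k q then (1 : R) else 0) =
      ∏ p ∈ q.primeFactors, ((1 : R) - if p ∣ k then 1 else 0) := by
    by_cases h : Nat.Coprime k q
    · rw [if_pos h]
      refine (Finset.prod_eq_one fun p hp => ?_).symm
      have hp1 := Nat.prime_of_mem_primeFactors hp
      have hp2 := Nat.dvd_of_mem_primeFactors hp
      have : ¬ p ∣ k := fun hk => hp1.one_lt.ne' (Nat.eq_one_of_dvd_coprimes h hk hp2)
      rw [if_neg this, sub_zero]
    · rw [if_neg h]
      obtain ⟨p, hp, hk, hpq⟩ := Nat.Prime.not_coprime_iff_dvd.1 h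
      refine (Finset.prod_eq_zero (i := p) (Nat.mem_primeFactors.2 ⟨hp, hpq, by omega⟩) ?_).symm
      rw [if_pos hk, sub_self]
  rw [h1, Finset.prod_sub]
  refine Finset.sum_congr rfl fun E hE => ?_
  rw [Finset.prod_const_one, mul_one]
  congr 1
  by_cases h : (∏ p ∈ E, p) ∣ k
  · rw [if_pos h]
    exact Finset.prod_eq_one fun p hp => if_pos ((Finset.dvd_prod_of_mem _ hp).trans h)
  · rw [if_neg h]
    by_contra h2
    apply h
    refine Finset.prod_primes_dvd k (fun p hp =>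
      (Nat.prime_of_mem_primeFactors (Finset.mem_powerset.1 hE hp)).prime) fun p hp => ?_
    by_contra h3
    exact h2 (Finset.prod_eq_zero hp (if_neg h3))

/-- Multiples of `e` in an interval. -/
theorem char_mult {R : Type*} [CommRing R] (f : ℕ → R) {e : ℕ} (he : 0 < e) (A B : ℕ) :
    ∑ k ∈ Ioc A B, (if e ∣ k then 1 else 0) * f k = ∑ k ∈ Ioc (A / e) (B / e), f (e * k) := by
  have h1 : ∑ k ∈ Ioc A B, (if e ∣ k then 1 else 0) * f k =
      ∑ k ∈ (Ioc A B).filter (fun k => e ∣ k), f k := by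
    rw [Finset.sum_filter]
    refine Finset.sum_congr rfl fun k _ => ?_
    split_ifs <;> simp
  rw [h1]
  symm
  refine Finset.sum_nbij' (fun k => e * k) (fun k => k / e) ?_ ?_ ?_ ?_ ?_
  · intro k hk
    rw [Finset.mem_Ioc] at hk
    refine Finset.mem_filter.2 ⟨Finset.mem_Ioc.2 ⟨?_, ?_⟩, dvd_mul_right _ _⟩
    · have := (Nat.div_lt_iff_lt_mul he).1 hk.1
      rwa [mul_comm] at this
    · have := (Nat.le_div_iff_mul_le he).1 hk.2
      rwa [mul_comm] at this
  · intro k hk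
    obtain ⟨hk1, m, rfl⟩ := Finset.mem_filter.1 hk
    rw [Finset.mem_Ioc] at hk1
    rw [Nat.mul_div_cancel_left _ he]
    refine Finset.mem_Ioc.2 ⟨?_, ?_⟩
    · exact (Nat.div_lt_iff_lt_mul he).2 (by rw [mul_comm]; exact hk1.1)
    · exact (Nat.le_div_iff_mul_le he).2 (by rw [mul_comm]; exact hk1.2)
  · intro k _
    exact Nat.mul_div_cancel_left _ he
  · intro k hk
    exact Nat.mul_div_cancel' (Finset.mem_filter.1 hk).2
  · intro k _
    rfl

/-- Inclusion and exclusion for a sum over an interval. -/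
theorem char_sum_ie {R : Type*} [CommRing R] {q : ℕ} (hq : 1 ≤ q) (f : ℕ → R) (A B : ℕ) :
    ∑ k ∈ (Ioc A B).filter (fun k => Nat.Coprime k q), f k =
      ∑ E ∈ q.primeFactors.powerset, (-1 : R) ^ E.card *
        ∑ k ∈ Ioc (A / ∏ p ∈ E, p) (B / ∏ p ∈ E, p), f ((∏ p ∈ E, p) * k) := by
  have h1 : ∑ k ∈ (Ioc A B).filter (fun k => Nat.Coprime k q), f k =
      ∑ k ∈ Ioc A B, (if Nat.Coprime k q then (1 : R) else 0) * f k := by
    rw [Finset.sum_filter]
    refine Finset.sum_congr rfl fun k _ => ?_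
    split_ifs <;> simp
  rw [h1]
  simp_rw [char_ie hq, Finset.sum_mul]
  rw [Finset.sum_comm]
  refine Finset.sum_congr rfl fun E hE => ?_
  have he : 0 < ∏ p ∈ E, p := Finset.prod_pos fun p hp =>
    (Nat.prime_of_mem_primeFactors (Finset.mem_powerset.1 hE hp)).pos
  rw [← char_mult f he, Finset.mul_sum]
  refine Finset.sum_congr rfl fun k _ => ?_
  ring

/-- A nontrivial character sums to zero over a full period. -/
theorem char_period {c : ℕ} (hc : 1 ≤ c) (ψ : DirichletCharacter ℂ c) (hψ : ψ ≠ 1) (A : ℕ) :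
    ∑ k ∈ range c, ψ ((A + k : ℕ) : ZMod c) = 0 := by
  have : NeZero c := ⟨by omega⟩
  have h1 : ∑ k ∈ range c, ψ ((A + k : ℕ) : ZMod c) = ∑ a : ZMod c, ψ ((A : ZMod c) + a) := by
    refine Finset.sum_nbij' (fun k => (k : ZMod c)) (fun a => a.val) ?_ ?_ ?_ ?_ ?_
    · intro k _
      exact Finset.mem_univ _
    · intro a _
      exact Finset.mem_range.2 (ZMod.val_lt a)
    · intro k hk
      exact ZMod.val_cast_of_lt (Finset.mem_range.1 hk)
    · intro a _
      exact ZMod.natCast_zmod_val a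
    · intro k _
      rw [Nat.cast_add]
  rw [h1, ← MulChar.sum_eq_zero_of_ne_one hψ]
  exact Equiv.sum_comp (Equiv.addLeft (A : ZMod c)) (fun a => ψ a)

/-- A nontrivial character has initial sums of norm at most the level. -/
theorem char_range {c : ℕ} (hc : 1 ≤ c) (ψ : DirichletCharacter ℂ c) (hψ : ψ ≠ 1) (n : ℕ) :
    ∀ A : ℕ, ‖∑ k ∈ range n, ψ ((A + k : ℕ) : ZMod c)‖ ≤ c := by
  induction n using Nat.strong_induction_on with
  | _ n ih =>
    intro A
    by_cases hn : n ≤ c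
    · refine (norm_sum_le _ _).trans ?_
      refine (Finset.sum_le_sum fun k _ => ψ.norm_le_one _).trans ?_
      rw [Finset.sum_const, Finset.card_range, nsmul_eq_mul, mul_one]
      exact_mod_cast hn
    · obtain ⟨m, rfl⟩ : ∃ m, n = c + m := ⟨n - c, by omega⟩
      rw [Finset.sum_range_add, char_period hc ψ hψ A, zero_add]
      have h1 := ih m (by omega) (A + c)
      simp_rw [add_assoc] at h1
      exact h1

/-- The same over `Ioc`. -/
theorem char_interval {c : ℕ} (hc : 1 ≤ c) (ψ : DirichletCharacter ℂ c) (hψ : ψ ≠ 1)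
    (A B : ℕ) : ‖∑ k ∈ Ioc A B, ψ k‖ ≤ c := by
  have h1 : Ioc A B = Ico (A + 1) (B + 1) := by
    ext k
    simp only [Finset.mem_Ioc, Finset.mem_Ico]
    omega
  rw [h1, Finset.sum_Ico_eq_sum_range]
  exact char_range hc ψ hψ _ (A + 1)

/-- Counting multiples. -/
theorem char_floor {e A B : ℕ} (he : 0 < e) (hAB : A ≤ B) :
    |∑ _k ∈ Ioc (A / e) (B / e), (1 : ℝ) - (e : ℝ)⁻¹ * ((B : ℝ) - A)| ≤ 1 := by
  have h1 : A / e ≤ B / e := Nat.div_le_div_right hAB
  rw [Finset.sum_const, Nat.card_Ioc, nsmul_eq_mul, mul_one, Nat.cast_sub h1]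
  have he' : (0 : ℝ) < e := by exact_mod_cast he
  have key : ∀ n : ℕ, ((n / e : ℕ) : ℝ) ≤ (e : ℝ)⁻¹ * n ∧ (e : ℝ)⁻¹ * n ≤ ((n / e : ℕ) : ℝ) + 1 := by
    intro n
    have h2 : (n : ℝ) = e * ((n / e : ℕ) : ℝ) + ((n % e : ℕ) : ℝ) := by
      exact_mod_cast (Nat.div_add_mod n e).symm
    have h3 : ((n % e : ℕ) : ℝ) ≤ e := by exact_mod_cast (Nat.mod_lt n he).le
    have h4 : (0 : ℝ) ≤ ((n % e : ℕ) : ℝ) := Nat.cast_nonneg _
    constructor
    · rw [le_inv_mul_iff₀ he']
      linarith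
    · rw [inv_mul_le_iff₀ he']
      linarith
  obtain ⟨a1, a2⟩ := key A
  obtain ⟨b1, b2⟩ := key B
  rw [abs_le]
  constructor <;> linarith

/-- `DirichletCharacter.sum_char_inv_mul_char_eq`. -/
theorem char_orth {q a : ℕ} (hq : 1 ≤ q) (ha : Nat.Coprime a q) (n : ℕ) :
    (if n ≡ a [MOD q] then (1 : ℂ) else 0) =
      1 / (Nat.totient q : ℂ) * ∑ χ : DirichletCharacter ℂ q, χ (a : ZMod q)⁻¹ * χ n := by
  have : NeZero q := ⟨by omega⟩
  have hu : IsUnit (a : ZMod q) := (ZMod.isUnit_iff_coprime a q).2 ha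
  have ht : (Nat.totient q : ℂ) ≠ 0 := by
    have : 0 < Nat.totient q := Nat.totient_pos.2 (by omega)
    exact_mod_cast this.ne'
  rw [DirichletCharacter.sum_char_inv_mul_char_eq ℂ hu]
  by_cases h : n ≡ a [MOD q]
  · have h2 : (a : ZMod q) = n := (ZMod.natCast_eq_natCast_iff a n q).2 h.symm
    rw [if_pos h, if_pos h2]
    field_simp
  · have h2 : ¬ (a : ZMod q) = n := fun h3 => h ((ZMod.natCast_eq_natCast_iff a n q).1 h3).symm
    rw [if_neg h, if_neg h2, mul_zero]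

/-- `primitiveCharacter_apply_of_isCoprime`, `MulChar.map_nonunit`. -/
theorem char_eq_prim {q : ℕ} (χ : DirichletCharacter ℂ q) (n : ℕ) :
    χ n = if Nat.Coprime n q then χ.primitiveCharacter n else 0 := by
  by_cases h : Nat.Coprime n q
  · rw [if_pos h]
    have h2 : IsCoprime (n : ℤ) (q : ℤ) := Nat.isCoprime_iff_coprime.2 h
    have h3 := χ.primitiveCharacter_apply_of_isCoprime h2
    simpa using h3.symm
  · rw [if_neg h]
    exact MulChar.map_nonunit χ fun hu => h ((ZMod.isUnit_iff_coprime n q).1 hu)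

/-- `χ ↦ ⟨conductor, primitiveCharacter⟩` is injective (`changeLevel_primitiveCharacter`) into
`q.divisors.sigma prim`. -/
theorem sum_char_le {q : ℕ} (hq : 1 ≤ q) (g : (c : ℕ) → DirichletCharacter ℂ c → ℝ)
    (hg : ∀ c ψ, 0 ≤ g c ψ) :
    ∑ χ : DirichletCharacter ℂ q, g χ.conductor χ.primitiveCharacter ≤
      ∑ c ∈ q.divisors, ∑ ψ ∈ prim c, g c ψ := by
  classical
  rw [Finset.sum_sigma' q.divisors prim g]
  have hinj : Set.InjOn (fun χ : DirichletCharacter ℂ q =>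
      (⟨χ.conductor, χ.primitiveCharacter⟩ : Σ c : ℕ, DirichletCharacter ℂ c))
      (univ : Finset (DirichletCharacter ℂ q)) := by
    intro χ _ χ' _ h
    exact char_inj χ χ' h
  have h1 := Finset.sum_image (s := (univ : Finset (DirichletCharacter ℂ q)))
    (g := fun χ : DirichletCharacter ℂ q =>
      (⟨χ.conductor, χ.primitiveCharacter⟩ : Σ c : ℕ, DirichletCharacter ℂ c))
    (f := fun x : (Σ c : ℕ, DirichletCharacter ℂ c) => g x.1 x.2) hinj
  rw [← h1]
  refine Finset.sum_le_sum_of_subset_of_nonneg ?_ fun x _ _ => hg _ _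
  intro x hx
  obtain ⟨χ, -, rfl⟩ := Finset.mem_image.1 hx
  refine Finset.mem_sigma.2 ⟨Nat.mem_divisors.2 ⟨χ.conductor_dvd_level, by omega⟩, ?_⟩
  unfold prim
  exact Finset.mem_filter.2 ⟨Finset.mem_univ _, χ.primitiveCharacter_isPrimitive⟩

/-- At most `φ c ≤ c` characters modulo `c`
(`DirichletCharacter.card_eq_totient_of_hasEnoughRootsOfUnity`). -/
theorem card_prim_le {c : ℕ} (hc : 1 ≤ c) : (prim c).card ≤ c := by
  classical
  have : NeZero c := ⟨by omega⟩
  have h1 : (prim c).card ≤ Fintype.card (DirichletCharacter ℂ c) := Finset.card_le_univ _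
  have h2 := DirichletCharacter.card_eq_totient_of_hasEnoughRootsOfUnity ℂ c
  rw [Nat.card_eq_fintype_card] at h2
  have h3 := Nat.totient_le c
  omega

/-- `1_{(k, q) = 1} = ∑ E ⊆ q.primeFactors, (-1) ^ |E| 1_{∏ E ∣ k}`; write `k = e k'`; a nontrivial
character sums to zero over `c` consecutive integers (`MulChar.sum_eq_zero_of_ne_one`), so over
any interval the sum has norm at most `c`. -/
theorem norm_sum_char_le {c q : ℕ} (hc : 1 ≤ c) (hq : 1 ≤ q) (ψ : DirichletCharacter ℂ c)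
    (hψ : ψ ≠ 1) (A B : ℕ) :
    ‖∑ k ∈ (Ioc A B).filter (fun k => Nat.Coprime k q), ψ k‖ ≤ 2 ^ q.primeFactors.card * c := by
  rw [char_sum_ie hq (fun k => ψ k) A B]
  refine (norm_sum_le _ _).trans ?_
  have h1 : ∀ E ∈ q.primeFactors.powerset,
      ‖(-1 : ℂ) ^ E.card * ∑ k ∈ Ioc (A / ∏ p ∈ E, p) (B / ∏ p ∈ E, p),
        ψ ((((∏ p ∈ E, p) * k : ℕ)) : ZMod c)‖ ≤ c := by
    intro E _
    have h2 : ∑ k ∈ Ioc (A / ∏ p ∈ E, p) (B / ∏ p ∈ E, p),
        ψ ((((∏ p ∈ E, p) * k : ℕ)) : ZMod c) =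
        ψ (((∏ p ∈ E, p : ℕ)) : ZMod c) *
          ∑ k ∈ Ioc (A / ∏ p ∈ E, p) (B / ∏ p ∈ E, p), ψ k := by
      rw [Finset.mul_sum]
      refine Finset.sum_congr rfl fun k _ => ?_
      rw [Nat.cast_mul, map_mul]
    rw [h2, norm_mul, norm_mul, norm_pow, norm_neg, norm_one, one_pow, one_mul]
    have h3 := ψ.norm_le_one (((∏ p ∈ E, p : ℕ)) : ZMod c)
    have h4 := char_interval hc ψ hψ (A / ∏ p ∈ E, p) (B / ∏ p ∈ E, p)
    calc _ ≤ 1 * (c : ℝ) := mul_le_mul h3 h4 (norm_nonneg _) zero_le_one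
      _ = c := one_mul _
  refine (Finset.sum_le_sum h1).trans ?_
  rw [Finset.sum_const, Finset.card_powerset, nsmul_eq_mul]
  push_cast
  exact le_rfl

/-- The same inclusion and exclusion; `Nat.Ioc_filter_dvd_card_eq_div`,
`Nat.totient_eq_mul_prod_factors`. -/
theorem card_coprime {q : ℕ} (hq : 1 ≤ q) {A B : ℕ} (hAB : A ≤ B) :
    |(((Ioc A B).filter fun k => Nat.Coprime k q).card : ℝ) -
      (Nat.totient q : ℝ) / q * (B - A)| ≤ 2 ^ q.primeFactors.card := by
  have h0 : (((Ioc A B).filter fun k => Nat.Coprime k q).card : ℝ) =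
      ∑ k ∈ (Ioc A B).filter (fun k => Nat.Coprime k q), (1 : ℝ) := by simp
  have hq0 : (q : ℝ) ≠ 0 := by
    have : q ≠ 0 := by omega
    exact_mod_cast this
  have h1 : (Nat.totient q : ℝ) / q =
      ∑ E ∈ q.primeFactors.powerset, (-1 : ℝ) ^ E.card * (((∏ p ∈ E, p : ℕ)) : ℝ)⁻¹ := by
    have h2 := congrArg (fun x : ℚ => (x : ℝ)) (Nat.totient_eq_mul_prod_factors q)
    push_cast at h2
    rw [h2, mul_div_cancel_left₀ _ hq0, Finset.prod_sub]
    refine Finset.sum_congr rfl fun E _ => ?_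
    rw [Finset.prod_const_one, mul_one, Finset.prod_inv_distrib]
    push_cast
    rfl
  rw [h0, char_sum_ie hq (fun _ => (1 : ℝ)) A B, h1, Finset.sum_mul, ← Finset.sum_sub_distrib]
  refine (Finset.abs_sum_le_sum_abs _ _).trans ?_
  have h3 : ∀ E ∈ q.primeFactors.powerset,
      |(-1 : ℝ) ^ E.card * ∑ k ∈ Ioc (A / ∏ p ∈ E, p) (B / ∏ p ∈ E, p), (1 : ℝ) -
        (-1 : ℝ) ^ E.card * (((∏ p ∈ E, p : ℕ)) : ℝ)⁻¹ * ((B : ℝ) - A)| ≤ 1 := by
    intro E hE
    have he : 0 < ∏ p ∈ E, p := Finset.prod_pos fun p hp =>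
      (Nat.prime_of_mem_primeFactors (Finset.mem_powerset.1 hE hp)).pos
    rw [mul_assoc, ← mul_sub, abs_mul, abs_pow, abs_neg, abs_one, one_pow, one_mul]
    exact char_floor he hAB
  refine (Finset.sum_le_sum h3).trans ?_
  rw [Finset.sum_const, Finset.card_powerset, nsmul_eq_mul]
  push_cast
  exact (mul_one _).le

end Pool.Agent.Lib.MP_c03ca8_nt.Q
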