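import Pool.Agent.Lib.MP_c03ca8_nt.Q.LSMul

set_option autoImplicit false

noncomputable section

namespace Pool.Agent.Lib.MP_c03ca8_nt.Q

open Finset Real

theorem lsbil_abel (b : ℕ → ℝ) {C0 α β γ : ℝ} (hC : 1 ≤ C0) (hα : 0 ≤ α) (hβ : 0 ≤ β)
    (hγ : 0 ≤ γ) (Q0 : ℕ)
    (h0 : ∀ k : ℕ, (k : ℝ) ≤ C0 → ∑ c ∈ Icc 1 k, b c = 0)
    (h1 : ∀ k : ℕ, 1 ≤ k → k ≤ Q0 → ∑ c ∈ Icc 1 k, b c ≤ α + β * k + γ * k ^ 2) :
    ∀ Q : ℕ, Q ≤ Q0 → ∑ c ∈ Icc 1 Q, b c / c - (∑ c ∈ Icc 1 Q, b c) / (Q + 1) ≤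
      α * max 0 (1 / C0 - 1 / (Q + 1)) + β * Real.log (Q + 1) + γ * Q := by
  intro Q
  induction Q with
  | zero =>
    intro _
    have : 0 ≤ α * max 0 (1 / C0 - 1 / ((0 : ℕ) + 1)) := mul_nonneg hα (le_max_left _ _)
    simpa using this
  | succ Q ih =>
    intro hQ
    have ih' := ih (by omega)
    have hq : (0 : ℝ) < (Q : ℝ) + 1 := by positivity
    have hq2 : (0 : ℝ) < (Q : ℝ) + 1 + 1 := by positivity
    have e1 : ∑ c ∈ Icc 1 (Q + 1), b c / c - (∑ c ∈ Icc 1 (Q + 1), b c) / ((Q + 1 : ℕ) + 1) =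
        (∑ c ∈ Icc 1 Q, b c / c - (∑ c ∈ Icc 1 Q, b c) / (Q + 1)) +
          (∑ c ∈ Icc 1 (Q + 1), b c) / ((Q + 1) * (Q + 1 + 1)) := by
      rw [sum_Icc_succ_top (by omega : 1 ≤ Q + 1), sum_Icc_succ_top (by omega : 1 ≤ Q + 1)]
      push_cast
      field_simp
      ring
    have hlog : Real.log (Q + 1) + 1 / (Q + 1 + 1) ≤ Real.log (Q + 1 + 1) := by
      have h := Real.one_sub_inv_le_log_of_pos (div_pos hq2 hq)
      rw [Real.log_div hq2.ne' hq.ne'] at h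
      have e : 1 - (((Q : ℝ) + 1 + 1) / (Q + 1))⁻¹ = 1 / (Q + 1 + 1) := by
        field_simp
        ring
      linarith
    have hmono : 1 / ((Q : ℝ) + 1 + 1) ≤ 1 / (Q + 1) :=
      one_div_le_one_div_of_le hq (by linarith)
    have hpos : 0 ≤ 1 / ((Q : ℝ) + 1 + 1) := by positivity
    rw [e1]
    push_cast
    by_cases hc : ((Q + 1 : ℕ) : ℝ) ≤ C0
    · rw [h0 _ hc]
      have m1 : max 0 (1 / C0 - 1 / ((Q : ℝ) + 1)) ≤ max 0 (1 / C0 - 1 / ((Q : ℝ) + 1 + 1)) :=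
        max_le_max le_rfl (by linarith)
      have m2 := mul_le_mul_of_nonneg_left m1 hα
      have m3 := mul_le_mul_of_nonneg_left hlog hβ
      have m4 := mul_nonneg hβ hpos
      rw [zero_div]
      nlinarith
    · push_cast at hc
      have hc' : C0 < (Q : ℝ) + 1 := lt_of_not_ge hc
      have hC0 : 0 < C0 := by linarith
      have l1 : 1 / ((Q : ℝ) + 1) ≤ 1 / C0 := one_div_le_one_div_of_le hC0 hc'.le
      rw [max_eq_right (by linarith)] at ih'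
      rw [max_eq_right (by linarith)]
      have h2 := h1 (Q + 1) (by omega) hQ
      push_cast at h2
      have h3 : (∑ c ∈ Icc 1 (Q + 1), b c) / (((Q : ℝ) + 1) * (Q + 1 + 1)) ≤
          (α + β * (Q + 1) + γ * (Q + 1) ^ 2) / (((Q : ℝ) + 1) * (Q + 1 + 1)) :=
        div_le_div_of_nonneg_right h2 (by positivity)
      have e2 : (α + β * (Q + 1) + γ * (Q + 1) ^ 2) / (((Q : ℝ) + 1) * (Q + 1 + 1)) =
          α * (1 / (Q + 1) - 1 / (Q + 1 + 1)) + β * (1 / (Q + 1 + 1)) +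
            (γ - γ * (1 / (Q + 1 + 1))) := by
        field_simp
        ring
      have m3 := mul_le_mul_of_nonneg_left hlog hβ
      have m4 := mul_nonneg hγ hpos
      rw [e2] at h3
      nlinarith

theorem lsbil_sum (b : ℕ → ℝ) {C0 α β γ : ℝ} (hC : 1 ≤ C0) (hα : 0 ≤ α) (hβ : 0 ≤ β)
    (hγ : 0 ≤ γ) (Q : ℕ) (hQ : 1 ≤ Q)
    (h0 : ∀ k : ℕ, (k : ℝ) ≤ C0 → ∑ c ∈ Icc 1 k, b c = 0)
    (h1 : ∀ k : ℕ, 1 ≤ k → k ≤ Q → ∑ c ∈ Icc 1 k, b c ≤ α + β * k + γ * k ^ 2) :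
    ∑ c ∈ Icc 1 Q, b c / c ≤ 2 * (α / C0) + 2 * β * (1 + Real.log Q) + 2 * γ * Q := by
  have h := lsbil_abel b hC hα hβ hγ Q h0 h1 Q le_rfl
  have hC0 : 0 < C0 := by linarith
  have hq1 : (1 : ℝ) ≤ Q := by exact_mod_cast hQ
  have hq : (0 : ℝ) < (Q : ℝ) + 1 := by positivity
  have hl0 : 0 ≤ Real.log Q := Real.log_nonneg hq1
  have hl : Real.log (Q + 1) ≤ 1 + Real.log Q := by
    have h2 : Real.log (Q + 1) ≤ Real.log (2 * Q) := Real.log_le_log hq (by linarith)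
    rw [Real.log_mul (by norm_num) (by linarith)] at h2
    have := Real.log_two_lt_d9
    linarith
  have hm : max 0 (1 / C0 - 1 / ((Q : ℝ) + 1)) ≤ 1 / C0 := by
    have : 0 ≤ 1 / ((Q : ℝ) + 1) := by positivity
    have : 0 ≤ 1 / C0 := by positivity
    exact max_le (by positivity) (by linarith)
  have hm2 := mul_le_mul_of_nonneg_left hm hα
  have e0 : α * (1 / C0) = α / C0 := by ring
  have hl2 := mul_le_mul_of_nonneg_left hl hβ
  have hB : (∑ c ∈ Icc 1 Q, b c) / ((Q : ℝ) + 1) ≤ α / C0 + β + γ * Q := by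
    by_cases hc : (Q : ℝ) ≤ C0
    · rw [h0 _ hc, zero_div]
      positivity
    · have hc' : C0 < (Q : ℝ) := lt_of_not_ge hc
      have h2 := h1 Q hQ le_rfl
      rw [div_le_iff₀ hq]
      have h3 : α ≤ α / C0 * (Q + 1) := by
        rw [div_mul_eq_mul_div, le_div_iff₀ hC0]
        exact mul_le_mul_of_nonneg_left (by linarith) hα
      have h4 : 0 ≤ γ * Q := by positivity
      nlinarith
  have h5 := mul_nonneg hβ hl0
  nlinarith

theorem lsbil_cs (k M N M' N' : ℕ) (f g : ℕ → ℂ) :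
    ∑ c ∈ Icc 1 k, (c : ℝ) / Nat.totient c *
      ∑ ψ ∈ prim c, ‖∑ n ∈ Ico M (M + N), f n * ψ n‖ * ‖∑ n ∈ Ico M' (M' + N'), g n * ψ n‖ ≤
      √((N + 4 * (k : ℝ) ^ 2 * (1 + Real.log k)) * ∑ n ∈ Ico M (M + N), ‖f n‖ ^ 2) *
      √((N' + 4 * (k : ℝ) ^ 2 * (1 + Real.log k)) * ∑ n ∈ Ico M' (M' + N'), ‖g n‖ ^ 2) := by
  have h1 := ls_mul k M N f
  have h2 := ls_mul k M' N' g
  refine le_trans ?_ (mul_le_mul (Real.sqrt_le_sqrt h1) (Real.sqrt_le_sqrt h2)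
    (Real.sqrt_nonneg _) (Real.sqrt_nonneg _))
  refine le_trans ?_ (Real.sum_sqrt_mul_sqrt_le (Icc 1 k) (fun c => by positivity)
    (fun c => by positivity))
  refine sum_le_sum fun c _ => ?_
  have hw : (0 : ℝ) ≤ (c : ℝ) / Nat.totient c := by positivity
  rw [Real.sqrt_mul hw, Real.sqrt_mul hw, mul_mul_mul_comm, Real.mul_self_sqrt hw]
  exact mul_le_mul_of_nonneg_left (Real.sum_mul_le_sqrt_mul_sqrt _ _ _) hw

theorem lsbil_sqrt {N k l L : ℝ} (hN : 0 ≤ N) (hk : 0 ≤ k) (hl : l ≤ L) (hL : 1 ≤ L) :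
    √(N + 4 * k ^ 2 * l) ≤ √N + 2 * k * L := by
  rw [Real.sqrt_le_left (by positivity)]
  have h1 := Real.sq_sqrt hN
  have h2 : 0 ≤ √N * (k * L) := by positivity
  have h3 : l ≤ L ^ 2 := by nlinarith
  have h4 := mul_le_mul_of_nonneg_left h3 (sq_nonneg k)
  nlinarith

/-- Large conductors. Put `a c = c / φ c * ∑ ψ, ‖F ψ‖ ‖G ψ‖`. Cauchy-Schwarz and `ls_mul` give
`A k = ∑ c ≤ k, a c ≤ (√N + 2 k √Λ) (√N' + 2 k √Λ) ‖f‖ ‖g‖` for `k ≤ Q`, `Λ = 1 + log Q`.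
Write `1 / c = 1 / (Q + 1) + ∑ k ∈ Icc c Q, 1 / (k (k + 1))`, swap the sums, and use
`∑ k > C0, 1 / (k (k + 1)) ≤ 1 / C0`, `∑ k ≤ Q, 1 / (k + 1) ≤ Λ`. -/
theorem ls_bil (Q M N M' N' : ℕ) (f g : ℕ → ℂ) {C0 : ℝ} (hC : 1 ≤ C0) :
    ∑ c ∈ (Icc 1 Q).filter (fun c : ℕ => C0 < (c : ℝ)), 1 / (Nat.totient c : ℝ) *
      ∑ ψ ∈ prim c, ‖∑ n ∈ Ico M (M + N), f n * ψ n‖ * ‖∑ n ∈ Ico M' (M' + N'), g n * ψ n‖ ≤
      10 * (1 + Real.log Q) ^ 2 * (√(N * N') / C0 + √N + √N' + Q) *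
        (√(∑ n ∈ Ico M (M + N), ‖f n‖ ^ 2) * √(∑ n ∈ Ico M' (M' + N'), ‖g n‖ ^ 2)) := by
  rcases Nat.eq_zero_or_pos Q with rfl | hQ
  · simp only [Nat.cast_zero, Real.log_zero]
    rw [show Icc 1 0 = (∅ : Finset ℕ) from rfl, filter_empty, sum_empty]
    have : 0 < C0 := by linarith
    positivity
  have hC0 : 0 < C0 := by linarith
  have hq1 : (1 : ℝ) ≤ Q := by exact_mod_cast hQ
  have hl0 : 0 ≤ Real.log Q := Real.log_nonneg hq1
  set L : ℝ := 1 + Real.log Q with hL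
  have hL1 : 1 ≤ L := by linarith
  set u : ℝ := √(∑ n ∈ Ico M (M + N), ‖f n‖ ^ 2) * √(∑ n ∈ Ico M' (M' + N'), ‖g n‖ ^ 2) with hu
  have hu0 : 0 ≤ u := by positivity
  set a : ℕ → ℝ := fun c => (c : ℝ) / Nat.totient c *
      ∑ ψ ∈ prim c, ‖∑ n ∈ Ico M (M + N), f n * ψ n‖ * ‖∑ n ∈ Ico M' (M' + N'), g n * ψ n‖ with ha
  have ha0 : ∀ c, 0 ≤ a c := fun c => by
    simp only [ha]
    positivity
  have key := lsbil_sum (fun c => if C0 < (c : ℝ) then a c else 0) (C0 := C0)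
    (α := √N * √N' * u) (β := 2 * L * (√N + √N') * u) (γ := 4 * L ^ 2 * u) hC (by positivity)
    (by positivity) (by positivity) Q hQ
    (fun k hk => sum_eq_zero fun c hc => by
      have h1 : (c : ℝ) ≤ k := by exact_mod_cast (mem_Icc.1 hc).2
      exact if_neg (not_lt.2 (h1.trans hk)))
    (fun k hk hkQ => by
      have h1 : ∑ c ∈ Icc 1 k, (if C0 < (c : ℝ) then a c else 0) ≤ ∑ c ∈ Icc 1 k, a c :=
        sum_le_sum fun c _ => by
          split_ifs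
          · exact le_rfl
          · exact ha0 c
      refine h1.trans ((lsbil_cs k M N M' N' f g).trans ?_)
      have hk1 : (1 : ℝ) ≤ k := by exact_mod_cast hk
      have hkq : (k : ℝ) ≤ Q := by exact_mod_cast hkQ
      have hlk0 : 0 ≤ Real.log k := Real.log_nonneg hk1
      have hlk : 1 + Real.log k ≤ L := by
        have := Real.log_le_log (by linarith) hkq
        linarith
      rw [Real.sqrt_mul (by positivity), Real.sqrt_mul (by positivity), mul_mul_mul_comm, ← hu]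
      have s1 := lsbil_sqrt (Nat.cast_nonneg N) (Nat.cast_nonneg k) hlk hL1
      have s2 := lsbil_sqrt (Nat.cast_nonneg N') (Nat.cast_nonneg k) hlk hL1
      have s3 := mul_le_mul s1 s2 (Real.sqrt_nonneg _) (by positivity)
      refine (mul_le_mul_of_nonneg_right s3 hu0).trans (le_of_eq ?_)
      ring)
  rw [sum_filter]
  have e : ∀ c ∈ Icc 1 Q, (if C0 < (c : ℝ) then 1 / (Nat.totient c : ℝ) *
      ∑ ψ ∈ prim c, ‖∑ n ∈ Ico M (M + N), f n * ψ n‖ * ‖∑ n ∈ Ico M' (M' + N'), g n * ψ n‖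
      else 0) = (if C0 < (c : ℝ) then a c else 0) / c := by
    intro c hc
    have hc0 : (c : ℝ) ≠ 0 := by
      have := (mem_Icc.1 hc).1
      positivity
    split_ifs
    · simp only [ha]
      field_simp
    · rw [zero_div]
  rw [sum_congr rfl e]
  refine key.trans ?_
  rw [Real.sqrt_mul (Nat.cast_nonneg N), ← hL]
  have t1 : 0 ≤ √(N : ℝ) * √(N' : ℝ) / C0 * u := by positivity
  have t2 : 0 ≤ L ^ 2 * ((√(N : ℝ) + √(N' : ℝ)) * u) := by positivity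
  have t3 : 0 ≤ L ^ 2 * (Q * u) := by positivity
  have t4 : 1 ≤ L ^ 2 := by nlinarith
  have t5 := mul_le_mul_of_nonneg_right t4 t1
  have e1 : √(N : ℝ) * √(N' : ℝ) * u / C0 = √(N : ℝ) * √(N' : ℝ) / C0 * u := by ring
  rw [e1]
  nlinarith

end Pool.Agent.Lib.MP_c03ca8_nt.Q
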