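import Pool.Agent.Lib.MP_c03ca8_nt.Q.LSAdd

set_option autoImplicit false

noncomputable section

namespace Pool.Agent.Lib.MP_c03ca8_nt.Q

open Finset Real

/-- Parseval identity for an orthogonal system. -/
theorem lsmul_parseval {ι κ : Type} [Fintype ι] [Fintype κ] [DecidableEq κ] (u : ι → κ → ℂ)
    (w : κ → ℝ) (hu : ∀ a b, ∑ i, u i a * (starRingEnd ℂ) (u i b) = if a = b then (w a : ℂ) else 0)
    (g : κ → ℂ) : ∑ i, ‖∑ a, u i a * g a‖ ^ 2 = ∑ a, w a * ‖g a‖ ^ 2 := by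
  have h1 : ∀ z : ℂ, ((‖z‖ ^ 2 : ℝ) : ℂ) = z * (starRingEnd ℂ) z := fun z => by
    rw [Complex.mul_conj, Complex.normSq_eq_norm_sq]
  apply Complex.ofReal_injective
  rw [Complex.ofReal_sum, Complex.ofReal_sum]
  calc ∑ i, ((‖∑ a, u i a * g a‖ ^ 2 : ℝ) : ℂ)
      = ∑ i, ∑ a, ∑ b, (g a * (starRingEnd ℂ) (g b)) * (u i a * (starRingEnd ℂ) (u i b)) := by
        refine sum_congr rfl fun i _ => ?_
        rw [h1, map_sum, sum_mul_sum]
        refine sum_congr rfl fun a _ => sum_congr rfl fun b _ => ?_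
        rw [map_mul]; ring
    _ = ∑ a, ∑ b, (g a * (starRingEnd ℂ) (g b)) * ∑ i, u i a * (starRingEnd ℂ) (u i b) := by
        rw [sum_comm]
        refine sum_congr rfl fun a _ => ?_
        rw [sum_comm]
        exact sum_congr rfl fun b _ => (mul_sum _ _ _).symm
    _ = ∑ a, ((w a * ‖g a‖ ^ 2 : ℝ) : ℂ) := by
        refine sum_congr rfl fun a _ => ?_
        simp only [hu, mul_ite, mul_zero, sum_ite_eq, mem_univ, if_true]
        rw [Complex.ofReal_mul, h1]; ring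

/-- Parseval identity for the additive characters modulo `c`. -/
theorem lsmul_add {c : ℕ} [NeZero c] (g : ZMod c → ℂ) :
    ∑ n : ZMod c, ‖∑ b, ZMod.stdAddChar (n * b) * g b‖ ^ 2 = ∑ b, (c : ℝ) * ‖g b‖ ^ 2 := by
  refine lsmul_parseval (fun n b : ZMod c => ZMod.stdAddChar (n * b)) (fun _ => (c : ℝ)) ?_ g
  intro a b
  have h : ∀ n : ZMod c, ZMod.stdAddChar (n * a) * (starRingEnd ℂ) (ZMod.stdAddChar (n * b)) =
      ZMod.stdAddChar (n * (a - b)) := fun n => by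
    rw [← AddChar.map_neg_eq_conj, ← AddChar.map_add_eq_mul]
    congr 1; ring
  simp only [h, AddChar.sum_mulShift _ (ZMod.isPrimitive_stdAddChar c), sub_eq_zero, ZMod.card]
  split_ifs <;> simp

/-- Parseval identity for the multiplicative characters modulo `c`. -/
theorem lsmul_mul {c : ℕ} [NeZero c] (S : ZMod c → ℂ) :
    ∑ ψ : DirichletCharacter ℂ c, ‖∑ b, ψ⁻¹ b * S b‖ ^ 2 =
      ∑ b, (if IsUnit b then (Nat.totient c : ℝ) else 0) * ‖S b‖ ^ 2 := by
  refine lsmul_parseval (fun (ψ : DirichletCharacter ℂ c) (b : ZMod c) => ψ⁻¹ b)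
    (fun b => if IsUnit b then (Nat.totient c : ℝ) else 0) ?_ S
  intro a b
  by_cases ha : IsUnit a
  · have h : ∀ ψ : DirichletCharacter ℂ c,
        ψ⁻¹ a * (starRingEnd ℂ) (ψ⁻¹ b) = ψ a⁻¹ * ψ b := fun ψ => by
      rw [starRingEnd_apply, MulChar.star_apply', inv_inv, MulChar.inv_apply_eq_inv']
      congr 1
      refine (eq_inv_of_mul_eq_one_left ?_).symm
      rw [← map_mul, ZMod.inv_mul_of_unit a ha, map_one]
    simp only [h, DirichletCharacter.sum_char_inv_mul_char_eq ℂ ha, ha, if_true]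
    split_ifs <;> simp
  · simp [MulChar.map_nonunit _ ha, ha]

/-- A primitive character is the additive transform of its inverse. -/
theorem lsmul_gauss {c : ℕ} [NeZero c] {ψ : DirichletCharacter ℂ c} (hψ : ψ.IsPrimitive)
    (n : ZMod c) :
    ∑ b, ZMod.stdAddChar (n * b) * ψ⁻¹ b = ψ n * gaussSum ψ⁻¹ ZMod.stdAddChar := by
  have hp : DirichletCharacter.IsPrimitive ψ⁻¹ := by
    rw [DirichletCharacter.isPrimitive_def, DirichletCharacter.conductor_inv]
    exact hψ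
  have h := gaussSum_mulShift_of_isPrimitive ZMod.stdAddChar hp n
  rw [inv_inv] at h
  rw [← h, gaussSum]
  exact sum_congr rfl fun b _ => by rw [AddChar.mulShift_apply, mul_comm]

/-- The Gauss sum of a primitive character has absolute value `√c`. -/
theorem lsmul_norm_gauss {c : ℕ} [NeZero c] {ψ : DirichletCharacter ℂ c} (hψ : ψ.IsPrimitive) :
    ‖gaussSum ψ⁻¹ (ZMod.stdAddChar (N := c))‖ ^ 2 = c := by
  have h := lsmul_add (c := c) fun b => ψ⁻¹ b
  have hn : ∀ b : ZMod c, ‖ψ⁻¹ b‖ = ‖ψ b‖ := fun b => by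
    rw [← MulChar.star_apply', norm_star]
  simp only [lsmul_gauss hψ, norm_mul, mul_pow, hn] at h
  rw [← sum_mul, ← mul_sum, mul_comm (c : ℝ)] at h
  have hpos : 0 < ∑ b : ZMod c, ‖ψ b‖ ^ 2 :=
    sum_pos' (fun b _ => by positivity) ⟨1, mem_univ _, by simp⟩
  exact mul_left_cancel₀ hpos.ne' h

/-- One modulus. Let `e = ZMod.stdAddChar`, `τ = gaussSum ψ⁻¹ e`. For primitive `ψ`,
`gaussSum_mulShift_of_isPrimitive` gives `∑ b, ψ⁻¹ b * e (n b) = ψ n * τ` for all `n`; Parseval in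
`n` gives `‖τ‖ ^ 2 φ c = c φ c`. So `c ‖∑ f n ψ n‖ ^ 2 = ‖∑ b, ψ⁻¹ b S b‖ ^ 2` with
`S b = ∑ f n e (n b)`. Extend the sum to all characters modulo `c` and use orthogonality
(`DirichletCharacter.sum_char_inv_mul_char_eq`). -/
theorem ls_one {c : ℕ} (hc : 1 ≤ c) (J : Finset ℕ) (f : ℕ → ℂ) :
    (c : ℝ) / Nat.totient c * ∑ ψ ∈ prim c, ‖∑ n ∈ J, f n * ψ n‖ ^ 2 ≤
      ∑ b ∈ (range c).filter (fun b => Nat.Coprime b c),
        ‖∑ n ∈ J, f n * Complex.exp (2 * π * Complex.I * (n * b / c))‖ ^ 2 := by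
  haveI : NeZero c := ⟨by omega⟩
  set S : ZMod c → ℂ := fun b => ∑ n ∈ J, f n * ZMod.stdAddChar ((n : ZMod c) * b) with hS
  have hφ : (0 : ℝ) < Nat.totient c := by exact_mod_cast Nat.totient_pos.2 hc
  have h1 : ∀ ψ ∈ prim c, (c : ℝ) * ‖∑ n ∈ J, f n * ψ n‖ ^ 2 = ‖∑ b, ψ⁻¹ b * S b‖ ^ 2 := by
    intro ψ hψ
    have hp : ψ.IsPrimitive := by
      classical
      unfold prim at hψ
      exact (mem_filter.1 hψ).2
    rw [← lsmul_norm_gauss hp, ← mul_pow, ← norm_mul]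
    congr 2
    simp only [hS, mul_sum]
    rw [sum_comm]
    refine sum_congr rfl fun n _ => ?_
    rw [mul_left_comm, mul_comm (gaussSum _ _), ← lsmul_gauss hp, mul_sum]
    exact sum_congr rfl fun b _ => by ring
  have h2 : ∑ ψ ∈ prim c, ‖∑ b, ψ⁻¹ b * S b‖ ^ 2 ≤
      ∑ ψ : DirichletCharacter ℂ c, ‖∑ b, ψ⁻¹ b * S b‖ ^ 2 :=
    sum_le_sum_of_subset_of_nonneg (subset_univ _) fun _ _ _ => by positivity
  have h3 : ∑ b : ZMod c, (if IsUnit b then (Nat.totient c : ℝ) else 0) * ‖S b‖ ^ 2 =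
      Nat.totient c * ∑ b ∈ (range c).filter (fun b => Nat.Coprime b c),
        ‖∑ n ∈ J, f n * Complex.exp (2 * π * Complex.I * (n * b / c))‖ ^ 2 := by
    rw [sum_filter, mul_sum]
    refine sum_nbij' (fun b : ZMod c => b.val) (fun b => (b : ZMod c)) ?_ ?_ ?_ ?_ ?_
    · intro b _; exact mem_range.2 (ZMod.val_lt b)
    · intro b _; exact mem_univ _
    · intro b _; exact ZMod.natCast_zmod_val b
    · intro b hb; exact ZMod.val_cast_of_lt (mem_range.1 hb)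
    · intro b _
      have hu : IsUnit b ↔ Nat.Coprime b.val c := by
        rw [← ZMod.isUnit_iff_coprime, ZMod.natCast_zmod_val]
      have hb : S b = ∑ n ∈ J, f n * Complex.exp (2 * π * Complex.I * (n * b.val / c)) := by
        refine sum_congr rfl fun n _ => ?_
        have : ((n : ZMod c) * b) = (((n * b.val : ℕ) : ℤ) : ZMod c) := by
          push_cast; rw [ZMod.natCast_zmod_val]
        rw [this, ZMod.stdAddChar_coe]
        congr 2
        push_cast; ring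
      by_cases h : IsUnit b
      · rw [if_pos h, if_pos (hu.1 h), hb]
      · rw [if_neg h, if_neg (mt hu.2 h), zero_mul, mul_zero]
  rw [lsmul_mul, h3, ← sum_congr rfl h1, ← mul_sum] at h2
  rw [div_mul_eq_mul_div, div_le_iff₀ hφ, mul_comm _ (Nat.totient c : ℝ)]
  exact h2

theorem ls_mul (Q M N : ℕ) (f : ℕ → ℂ) :
    ∑ c ∈ Icc 1 Q, (c : ℝ) / Nat.totient c * ∑ ψ ∈ prim c, ‖∑ n ∈ Ico M (M + N), f n * ψ n‖ ^ 2 ≤
      (N + 4 * (Q : ℝ) ^ 2 * (1 + Real.log Q)) * ∑ n ∈ Ico M (M + N), ‖f n‖ ^ 2 :=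
  (sum_le_sum fun c hc => ls_one (mem_Icc.1 hc).1 _ f).trans (ls_add Q M N f)

end Pool.Agent.Lib.MP_c03ca8_nt.Q
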