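import Mathlib

/-!
Almost prime 4-tuples: definitions. See the blueprint `q4_BP.md`.
-/

set_option autoImplicit false

noncomputable section

namespace Pool.Agent.Lib.MP_c03ca8_nt.Q

open Finset Real

/-- `G` dominates everything subpolynomial up to `Y`. -/
structure Tame (Y G : ℝ) : Prop where
  one_le : 1 ≤ Y
  pow : ∀ n : ℕ, 1 ≤ n → (n : ℝ) ≤ Y → (2 : ℝ) ^ n.primeFactors.card ≤ G
  log : 1 + Real.log Y ≤ G
  ten : 10 ≤ G

/-- The residue class `a` modulo `q` inside `(x, x + X]`. -/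
def cls (x X q a : ℕ) : Finset ℕ := (Ioc x (x + X)).filter fun n => n ≡ a [MOD q]

/-- Product of a set of primes. -/
def pr (T : Finset ℕ) : ℕ := ∏ q ∈ T, q

/-- `1 / φ` of the product of a set of primes. -/
def wt (T : Finset ℕ) : ℝ := ∏ q ∈ T, 1 / ((q : ℝ) - 1)

/-- `(1 - q 1_{q ∣ m}) / (q - 1)`. -/
def zl (q m : ℕ) : ℝ := if q ∣ m then -1 else 1 / ((q : ℝ) - 1)

/-- One dimensional sieve weight with diagonal coefficients `z`. -/
def sv (P : Finset ℕ) (z : ℕ → ℝ) (m : ℕ) : ℝ := ∑ T ∈ P.powerset, z (pr T) * ∏ q ∈ T, zl q m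

/-- Four forms, two copies of each. -/
abbrev Slot := Fin 4 × Bool

/-- Product of eight one dimensional weights. -/
def Pw (P : Finset ℕ) (h : Fin 4 → ℕ) (z : Slot → ℕ → ℝ) (n : ℕ) : ℝ :=
  ∏ s, sv P (z s) (n + h s.1)

/-- Indicator of `p ∣ m`. -/
def ind (p m : ℕ) : ℝ := if p ∣ m then 1 else 0

/-- `z` is bounded by one and lives below `Z`. -/
def Supp (z : ℕ → ℝ) (Z : ℝ) : Prop := ∀ r, |z r| ≤ 1 ∧ (z r ≠ 0 → (r : ℝ) < Z)

/-- Value of the local factor at `q` when `q` divides the form `o` (no form if `o = none`). -/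
def val (p : ℕ) (i : Fin 4) (q : ℕ) (S : Finset Slot) (o : Option (Fin 4)) : ℝ :=
  (if q = p then (if o = some i then 1 else 0) else 1) *
    ∏ s ∈ S, (if o = some s.1 then -1 else 1 / ((q : ℝ) - 1))

/-- Mean of the local factor at `q`. -/
def vv (p : ℕ) (i : Fin 4) (q : ℕ) (S : Finset Slot) : ℝ :=
  (1 - 4 / (q : ℝ)) * val p i q S none + ∑ l, val p i q S (some l) / q

/-- The slots whose set of primes contains `q`. -/
def cfg (T : Slot → Finset ℕ) (q : ℕ) : Finset Slot := univ.filter fun s => q ∈ T s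

/-- Main term of `ind p (n + h i) * Pw P h z n` (take `p = 1` for no prime). -/
def M1 (P : Finset ℕ) (z : Slot → ℕ → ℝ) (p : ℕ) (i : Fin 4) : ℝ :=
  ∑ T ∈ Fintype.piFinset (fun _ : Slot => P.powerset),
    (∏ s, z s (pr (T s))) * ∏ q ∈ P, vv p i q (cfg T q)

/-- Diagonal form. -/
def ip (P : Finset ℕ) (z z' : ℕ → ℝ) : ℝ := ∑ T ∈ P.powerset, z (pr T) * z' (pr T) * wt T

/-- Mertens product. -/
def mert (P : Finset ℕ) : ℝ := ∏ q ∈ P, (1 + 1 / ((q : ℝ) - 1))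

/-- Density of the integers free of primes up to `w`. -/
def cW (w : ℕ) : ℝ := ∏ q ∈ Nat.primesLE w, (1 - 1 / (q : ℝ))

/-- Primes in `(w, y]`. -/
def PP (w y : ℕ) : Finset ℕ := (Nat.primesLE y).filter fun q => w < q

/-- Indicator of the cell `[H ^ σ, H ^ (σ + 1))`. -/
def cell (H : ℝ) (σ r : ℕ) : ℝ := if H ^ σ ≤ (r : ℝ) ∧ (r : ℝ) < H ^ (σ + 1) then 1 else 0

/-- The coefficients seen by multiples of `p`. -/
def dz (z : ℕ → ℝ) (p r : ℕ) : ℝ := if p ∣ r then 0 else z r - z (r * p)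

/-- Replace the two slots of the form `i` by their `dz`. -/
def zp (z : Slot → ℕ → ℝ) (i : Fin 4) (p : ℕ) : Slot → ℕ → ℝ :=
  fun s => if s.1 = i then dz (z s) p else z s

/-- Eight cells. -/
def cz (H : ℝ) (jj : Slot → ℕ) : Slot → ℕ → ℝ := fun s => cell H (jj s)

/-- Kronecker delta. -/
def dl (a b : ℕ) : ℝ := if a = b then 1 else 0

/-- The shift form. -/
def Tk (M k σ σ' : ℕ) : ℝ :=
  ∑ ρ ∈ range M, (dl σ ρ - dl σ (ρ + k)) * (dl σ' ρ - dl σ' (ρ + k))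

/-- `∫_m^{m+1} (m + 1 - v) / v`; it only meets `Tk M 0 = 0` when `m = 0`. -/
def al (m : ℕ) : ℝ := (m + 1) * Real.log (1 + 1 / (m : ℝ)) - 1

/-- `∫_m^{m+1} (v - m) / v`. -/
def be (m : ℕ) : ℝ := 1 - m * Real.log (1 + 1 / (m : ℝ))

/-- Primitive characters modulo `c`. -/
def prim (c : ℕ) : Finset (DirichletCharacter ℂ c) := by
  classical exact univ.filter fun ψ => ψ.IsPrimitive

/-- Shifts `h`, small prime bound `w`, residue `a`, interval `(x, x + X]`. -/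
structure Env where
  h : Fin 4 → ℕ
  w : ℕ
  a : ℕ
  x : ℕ
  X : ℕ

namespace Env

def W (E : Env) : ℕ := primorial E.w

def P (E : Env) : Finset ℕ := PP E.w (3 * E.x)

def I (E : Env) : Finset ℕ := cls E.x E.X E.W E.a

def H (E : Env) (ν : ℝ) : ℝ := (E.x : ℝ) ^ (1 / ν)

def L (E : Env) (ν : ℝ) : ℝ := cW E.w * Real.log (E.H ν)

/-- Size of a main term. -/
def Sc (E : Env) (ν : ℝ) : ℝ := E.X / E.W * E.L ν ^ 4

/-- Primes of the cell `m` above `H ^ η`. -/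
def pc (E : Env) (ν η : ℝ) (m : ℕ) : Finset ℕ :=
  E.P.filter fun p => E.H ν ^ m ≤ (p : ℝ) ∧ (p : ℝ) < E.H ν ^ (m + 1) ∧ E.H ν ^ η ≤ (p : ℝ)

/-- Primes below `H ^ η`. -/
def tiny (E : Env) (ν η : ℝ) : Finset ℕ := E.P.filter fun p => (p : ℝ) < E.H ν ^ η

open Classical in
/-- Integers of the class with `n + h i` divisible by the square of a prime above `H ^ η`. -/
def sq (E : Env) (ν η : ℝ) (i : Fin 4) : Finset ℕ :=
  E.I.filter fun n => ∃ p : ℕ, p.Prime ∧ E.H ν ^ η ≤ (p : ℝ) ∧ p ^ 2 ∣ n + E.h i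

structure Good (E : Env) : Prop where
  inj : Function.Injective E.h
  hlt : ∀ l, E.h l < E.w
  cop : ∀ l, Nat.Coprime (E.a + E.h l) E.W
  w10 : 10 ≤ E.w
  wx : E.w ≤ E.x
  Xx : E.X ≤ E.x

end Env

/-- First `w` large, then `x` large. -/
def Ev (θ : ℝ) (Φ : Env → Prop) : Prop :=
  ∃ w0 : ℕ, ∀ w, w0 ≤ w → ∃ x0 : ℕ, ∀ E : Env, E.w = w → x0 ≤ E.x → E.Good →
    (E.x : ℝ) ^ θ ≤ E.X → Φ E

/-- Levels of distribution, in units of `log H`, `H ^ ν = x`, `X ≥ x ^ θ`. -/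
structure Rng (ν θ : ℝ) (T1 T2 M : ℕ) : Prop where
  pos : 0 < ν
  le_one : θ ≤ 1
  t1 : (T1 : ℝ) < θ * ν
  t2 : (T2 : ℝ) + ν / 2 < θ * ν
  m : (1 - θ) * ν < M
  one_le : 1 ≤ M
  mt : M ≤ T1

/-- The pairs of cells whose correlation on multiples of a prime of the cell `m` is known. -/
def Kn (T1 T2 M : ℕ) (jj : Slot → ℕ) (i : Fin 4) (m : ℕ) : Prop :=
  m + 1 + ∑ s, (jj s + 1) ≤ T1 ∨
    (M ≤ m ∧ ∑ s ∈ univ.filter (fun s : Slot => s.1 ≠ i), (jj s + 1) ≤ T2 ∧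
      jj (i, false) + jj (i, true) + m + 3 ≤ T1)

/-- Data of a certificate. -/
structure Cert where
  nu : ℝ
  T1 : ℕ
  T2 : ℕ
  U : ℕ
  M : ℕ
  g : ℕ → ℝ
  om : ℕ → ℝ
  ell : ℕ → ℕ → ℝ
  D : ℕ → ℕ → ℕ → ℝ

namespace Cert

variable (c : Cert)

def known (m β σ β' σ' : ℕ) : Prop :=
  m + (β + σ) + (β' + σ') + 9 ≤ c.T1 ∨ (c.M ≤ m ∧ β + β' + 6 ≤ c.T2 ∧ σ + σ' + m + 3 ≤ c.T1)

instance (m β σ β' σ' : ℕ) : Decidable (c.known m β σ β' σ') := by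
  unfold known; infer_instance

def yy (m : ℕ) : ℝ := m / c.nu

def NN (m β σ : ℕ) : ℝ :=
  if m < c.M then 0 else c.yy m * max (c.ell β σ) (c.D m β σ) - 1

def kap (m β σ : ℕ) : ℝ :=
  if m < c.M then 0 else (c.yy m * c.ell β σ - 1) / c.NN m β σ

def Gam (m β σ β' σ' : ℕ) : ℝ :=
  if c.known m β σ β' σ' then
    1 - c.yy m * min (c.ell β σ) (c.ell β' σ') +
      c.kap m β σ * c.kap m β' σ' * min (c.NN m β σ) (c.NN m β' σ')
  else 0

structure Valid : Prop where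
  pos : 0 < c.nu
  lev : c.M + 2 * c.U + 8 ≤ c.T1
  hD : ∀ m β σ β' σ', c.M ≤ m → m + 3 ≤ c.T1 → σ < c.M → β + σ ≤ c.U → σ' < c.M →
    β' + σ' ≤ c.U → ¬ c.known m β σ β' σ' → c.D m β σ ≤ c.ell β' σ'
  hN : ∀ m β σ, c.M ≤ m → m + 3 ≤ c.T1 → σ < c.M → β + σ ≤ c.U → 0 < c.NN m β σ
  top : ∀ β σ, σ < c.M → β + σ ≤ c.U → 1 ≤ c.yy (c.T1 - 2) * c.ell β σ

/-- The four dimensional cells in use. -/
def J : Finset (Fin 4 → ℕ) :=
  (Fintype.piFinset fun _ : Fin 4 => range c.M).filter fun j => ∑ l, j l ≤ c.U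

/-- The coefficient of a cell. -/
def F (j : Fin 4 → ℕ) : ℝ := c.g (∑ l, j l) * ∏ l, c.om (j l)

/-- Sum of the coordinates other than `i`. -/
def bt (i : Fin 4) (j : Fin 4 → ℕ) : ℕ := ∑ l ∈ univ.erase i, j l

def Lam (i : Fin 4) (b : (Fin 4 → ℕ) → ℝ) : ℝ :=
  ∑ j ∈ c.J, ∑ j' ∈ c.J, min (c.ell (bt i j) (j i)) (c.ell (bt i j') (j' i)) * (b j * b j')

def GamF (i : Fin 4) (m : ℕ) (b : (Fin 4 → ℕ) → ℝ) : ℝ :=
  ∑ j ∈ c.J, ∑ j' ∈ c.J, c.Gam m (bt i j) (j i) (bt i j') (j' i) * (b j * b j')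

def Gf (β σ : ℕ) : ℝ := if σ < c.M ∧ β + σ ≤ c.U then c.g (β + σ) * c.om σ else 0

def Mb (β : ℕ) : ℝ :=
  ∑ a ∈ range c.M, ∑ b ∈ range c.M, ∑ d ∈ range c.M,
    if a + b + d = β then (c.om a * c.om b * c.om d) ^ 2 else 0

def Ival : ℝ := ∑ β ∈ range (c.U + 1), c.Mb β * ∑ σ ∈ range c.M, c.Gf β σ ^ 2

def B0 : ℝ := ∑ β ∈ range (c.U + 1), c.Mb β * ∑ σ ∈ range c.M, c.ell β σ * c.Gf β σ ^ 2

def Bm (m : ℕ) : ℝ :=
  ∑ β ∈ range (c.U + 1), c.Mb β * ∑ σ ∈ range c.M, ∑ σ' ∈ range c.M,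
    c.Gam m β σ β σ' * (al m * Tk c.M m σ σ' + be m * Tk c.M (m + 1) σ σ') *
      (c.Gf β σ * c.Gf β σ')

def Bval : ℝ := c.B0 + ∑ m ∈ range (c.T1 - 2), c.Bm m

end Cert

/-- The pair of cells `j`, `j'` as eight slots. -/
def pairS (j j' : Fin 4 → ℕ) : Slot → ℕ := fun s => if s.2 then j' s.1 else j s.1

/-- The weight of one four dimensional cell times its coefficient. -/
def bb (c : Cert) (E : Env) (n : ℕ) (j : Fin 4 → ℕ) : ℝ :=
  c.F j * ∏ l, sv E.P (cell (E.H c.nu) (j l)) (n + E.h l)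

end Pool.Agent.Lib.MP_c03ca8_nt.Q
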