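import Pool.Agent.Lib.MP_c03ca8_nt.Q.ZDefs

set_option autoImplicit false

namespace Pool.Agent.Lib.MP_c03ca8_nt.Q

def zc5 : ZC where
  nuN := 1001
  T1 := 80
  T2 := 30
  U := 23
  M := 26
  R := 13
  tg := 0xdf0001990002780003c100059d0007e4000ab4000e470012e70018d400202b00294000339f003fdd004e52005f5e00736d008aff00a69900c6c900ec53011825014b390186a0
  tom := 0x882000a87000a0a000c7b000cb1000bec000ae80009d90009070008310007700006c60006340005cc0005770005350004f60004b800048000044a0004160003e40003b500038800035a000324
  tls := 0x20459016c3b00baa700431f002693001add00166c00127d000e95000d25000bbd000a5100094000085b0007a900071d0006ae00065e00061f0005ef0005c200059900057000054b000527000504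
  tph := 0x78b0005e800057000056700056700056700056500052e00051d00050c0004dd0002640002070001b00001880001670001170000d100009800006f00005000003800002b00002a
  tps := 0x144b000eb4000cf1000a7b0007c90006bc00064b0006020005900004fa0004bd00035700035700035700033600033600033600033600033600029a00024700020c0001e30001bb

theorem zc5_ok1 : zc5.ok1 = true := by decide +kernel

theorem zc5_ok2 : zc5.ok2 = true := by decide +kernel

end Pool.Agent.Lib.MP_c03ca8_nt.Q
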