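import Pool.Agent.Lib.MP_c03ca8_nt.Q.ZDefs

set_option autoImplicit false

namespace Pool.Agent.Lib.MP_c03ca8_nt.Q

def zc1 : ZC where
  nuN := 1201
  T1 := 120
  T2 := 60
  U := 40
  M := 32
  R := 11
  tg := 0x1590002180002f10003e100051a0006640007d3000972000b50000d66000fc300127700157f0018dd001c7000205a0024a7002963002e94003442003a7700413d0048a00050ab00596c0062f0006d4600787d0084ab0091e500a04000afd300c0b800d30a00e6e700fc700113c9012d1b0148930166620186a0
  tom := 0x65e0006c80006e50006ea0006ed0006ee0006eb0006de0006cd0006bb0006a500068d0006700006520006320006120005ef0005cb0005a800058500056100053d0005180004f30004d00004ad00048a0004670004450004230003fe0003d7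
  tls := 0x25ef001c6d001688001272000f5a000d0c000b48000a160009280008570007ab00071300069c00063d0005ee0005b000057b00054f0005280005060004e80004cd0004b400049c00048500046f00045b000448000437000424000416000403
  tph := 0x14c7000e23000b3900092200087f00078d00069e0005de0005510005140005110004e50004b600026700021b0001bc0001b300017a0001210000e90000d30000c40000c40000c400009400007300006500006100005c00005800005200004200003d00003b00003900003600003500003400003300003100002f
  tps := 0xeb4000c9a000aa50009ea0007b30007150006c100068200060c0005d300059e00053d0004e90003950003620003200002d400028e00024d0002020001c90001780001470001470001470001470001470001470001470001470001220001030000e80000cb0000b80000a600009100007e00006c00005c00004d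

theorem zc1_ok1 : zc1.ok1 = true := by decide +kernel

theorem zc1_ok2 : zc1.ok2 = true := by decide +kernel

end Pool.Agent.Lib.MP_c03ca8_nt.Q
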