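import Pool.Agent.Lib.MP_c03ca8_nt.Q.ZVal

set_option autoImplicit false

noncomputable section

namespace Pool.Agent.Lib.MP_c03ca8_nt.Q

open Finset Real

theorem zrow_dl (M : ℕ) (f : ℕ → ℝ) (hf : ∀ σ, M ≤ σ → f σ = 0) (a : ℕ) :
    ∑ σ ∈ range M, dl σ a * f σ = f a := by
  unfold dl
  simp only [ite_mul, one_mul, zero_mul]
  rw [Finset.sum_ite_eq' (range M) a f]
  split_ifs with h
  · rfl
  · rw [hf a (by simpa using h)]

theorem zrow_dl2 (M : ℕ) (f : ℕ → ℝ) (hf : ∀ σ, M ≤ σ → f σ = 0) (a b : ℕ) :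
    ∑ σ ∈ range M, (dl σ a - dl σ b) * f σ = f a - f b := by
  simp only [sub_mul]
  rw [Finset.sum_sub_distrib, zrow_dl M f hf, zrow_dl M f hf]

theorem zrow_ok1 (c : ZC) (h : c.ok1 = true) : 1 ≤ c.nuN ∧ c.M + 2 * c.U + 8 ≤ c.T1 := by
  unfold ZC.ok1 at h
  simp only [Bool.and_eq_true, Nat.ble_eq] at h
  exact ⟨h.1.1.1.1.1, h.1.1.1.1.2⟩

theorem zrow_len_le (c : ZC) (β : ℕ) : c.len β ≤ c.M := by
  unfold ZC.len
  rw [mn_eq]
  exact min_le_left _ _

theorem zrow_G_zero (c : ZC) {β σ : ℕ} (h : c.len β ≤ σ) : c.G β σ = 0 := by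
  unfold ZC.G
  have : Nat.ble (σ + 1) (c.len β) = false := by
    rw [Bool.eq_false_iff]
    intro h2
    rw [Nat.ble_eq] at h2
    omega
  rw [this]
  rfl

theorem zrow_sum_len (c : ZC) (β : ℕ) (f : ℕ → ℝ) (hf : ∀ σ, c.len β ≤ σ → f σ = 0) :
    ∑ σ ∈ range c.M, f σ = ∑ σ ∈ range (c.len β), f σ := by
  symm
  apply Finset.sum_subset (Finset.range_subset_range.2 (zrow_len_le c β))
  intro σ _ h
  exact hf σ (by simpa using h)

theorem zrow_yy (c : ZC) (hnu : 1 ≤ c.nuN) (m : ℕ) (a : ℝ) :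
    (c.EE : ℝ) * (c.toCert.yy m * (a / 1000)) = 10 * m * a := by
  have h : (0 : ℝ) < c.nuN := by exact_mod_cast hnu
  unfold Cert.yy ZC.EE ZC.toCert
  push_cast
  field_simp

theorem zrow_EE_pos (c : ZC) (hnu : 1 ≤ c.nuN) : (0 : ℝ) < c.EE := by
  have h : (0 : ℝ) < c.nuN := by exact_mod_cast hnu
  unfold ZC.EE
  push_cast
  linarith

/-- For a symmetric kernel `K` and `G` vanishing from `M` on, the shift form is a sum over `ρ`. -/
theorem sum_Tk (M k : ℕ) (K : ℕ → ℕ → ℝ) (hK : ∀ a b, K a b = K b a) (G : ℕ → ℝ)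
    (hG : ∀ σ, M ≤ σ → G σ = 0) :
    ∑ σ ∈ range M, ∑ σ' ∈ range M, K σ σ' * Tk M k σ σ' * (G σ * G σ') =
      ∑ ρ ∈ range M, (K ρ ρ * G ρ ^ 2 - 2 * K ρ (ρ + k) * (G ρ * G (ρ + k)) +
        K (ρ + k) (ρ + k) * G (ρ + k) ^ 2) := by
  unfold Tk
  simp only [Finset.mul_sum, Finset.sum_mul]
  rw [Finset.sum_congr rfl (fun σ _ => Finset.sum_comm), Finset.sum_comm]
  apply Finset.sum_congr rfl
  intro ρ _
  have h1 : ∀ σ, ∑ σ' ∈ range M,
      K σ σ' * ((dl σ ρ - dl σ (ρ + k)) * (dl σ' ρ - dl σ' (ρ + k))) * (G σ * G σ') =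
      (dl σ ρ - dl σ (ρ + k)) * (G σ * (K σ ρ * G ρ - K σ (ρ + k) * G (ρ + k))) := by
    intro σ
    rw [← zrow_dl2 M (fun σ' => K σ σ' * G σ') (fun σ' h => by rw [hG σ' h, mul_zero]) ρ (ρ + k),
      Finset.mul_sum, Finset.mul_sum]
    apply Finset.sum_congr rfl
    intro σ' _
    ring
  rw [Finset.sum_congr rfl (fun σ _ => h1 σ),
    zrow_dl2 M (fun σ => G σ * (K σ ρ * G ρ - K σ (ρ + k) * G (ρ + k)))
      (fun σ h => by rw [hG σ h, zero_mul]) ρ (ρ + k), hK (ρ + k) ρ]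
  ring

theorem zrow_form (c : ZC) (hnu : 1 ≤ c.nuN) (β m k : ℕ) :
    (c.EE : ℝ) * ∑ σ ∈ range c.M, ∑ σ' ∈ range c.M,
      (1 - c.toCert.yy m * min (c.toCert.ell β σ) (c.toCert.ell β σ')) * Tk c.M k σ σ' *
        ((c.G β σ : ℝ) * c.G β σ') = (c.sP β m k : ℝ) - c.sN β m k := by
  rw [sum_Tk c.M k (fun σ σ' => 1 - c.toCert.yy m * min (c.toCert.ell β σ) (c.toCert.ell β σ'))
    (fun a b => by rw [min_comm]) (fun σ => (c.G β σ : ℝ))
    (fun σ h => by rw [zrow_G_zero c ((zrow_len_le c β).trans h), Nat.cast_zero])]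
  rw [zrow_sum_len c β _ (fun σ h => by
    rw [zrow_G_zero c h, zrow_G_zero c (h.trans (Nat.le_add_right σ k))]; simp)]
  unfold ZC.sP ZC.sN
  rw [sumTo_eq, sumTo_eq, Finset.mul_sum]
  push_cast
  rw [← Finset.sum_sub_distrib]
  apply Finset.sum_congr rfl
  intro ρ _
  have e0 : ∀ σ, c.toCert.ell β σ = (c.ell β σ : ℝ) / 1000 := fun _ => rfl
  have e1 : min (c.toCert.ell β ρ) (c.toCert.ell β (ρ + k)) =
      ((mn (c.ell β ρ) (c.ell β (ρ + k)) : ℕ) : ℝ) / 1000 := by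
    rw [e0, e0, mn_eq, Nat.cast_min, min_div_div_right (by norm_num)]
  rw [e1, min_self, min_self, e0, e0]
  have a1 := zrow_yy c hnu m (c.ell β ρ)
  have a2 := zrow_yy c hnu m (c.ell β (ρ + k))
  have a3 := zrow_yy c hnu m (mn (c.ell β ρ) (c.ell β (ρ + k)) : ℕ)
  linear_combination (-(c.G β ρ : ℝ) ^ 2) * a1 - (c.G β (ρ + k) : ℝ) ^ 2 * a2 +
    2 * ((c.G β ρ : ℝ) * c.G β (ρ + k)) * a3

theorem zrow_trunc {w lo hi : ℝ} (h1 : lo ≤ w) (h2 : w ≤ hi) (a b : ℕ) :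
    w * ((a : ℝ) - b) ≤ hi * ((a - b : ℕ) : ℝ) - lo * ((b - a : ℕ) : ℝ) := by
  rcases le_total a b with h | h
  · rw [Nat.sub_eq_zero_of_le h, Nat.cast_sub h]
    have : (0 : ℝ) ≤ (b : ℝ) - a := by
      have : (a : ℝ) ≤ b := by exact_mod_cast h
      linarith
    have := mul_le_mul_of_nonneg_right h1 this
    push_cast
    linarith
  · rw [Nat.sub_eq_zero_of_le h, Nat.cast_sub h]
    have : (0 : ℝ) ≤ (a : ℝ) - b := by
      have : (b : ℝ) ≤ a := by exact_mod_cast h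
      linarith
    have := mul_le_mul_of_nonneg_right h2 this
    push_cast
    linarith

/-- `m < M`. Where `Gf Gf' ≠ 0` the pair is known and `Gam = 1 - yy m * min ell ell'`; by `sum_Tk`
`EE` times the form with shift `k` is `sP β m k - sN β m k` (terms with `ρ ≥ len β` vanish);
`al m * S + be m * S' = w ((m + 1) S - m S') + S' - S`; `log_bounds`. -/
theorem small_le (c : ZC) (h : c.ok1 = true) (β : ℕ) {m : ℕ} (hm : m < c.M) :
    (c.EE * 1000000 : ℝ) * ∑ σ ∈ range c.M, ∑ σ' ∈ range c.M,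
      c.toCert.Gam m β σ β σ' * (al m * Tk c.M m σ σ' + be m * Tk c.M (m + 1) σ σ') *
        (c.toCert.Gf β σ * c.toCert.Gf β σ') ≤ (c.smP β m : ℝ) - c.smN β m := by
  obtain ⟨hnu, hT⟩ := zrow_ok1 c h
  have key : ∀ σ σ', c.toCert.Gam m β σ β σ' *
      (al m * Tk c.M m σ σ' + be m * Tk c.M (m + 1) σ σ') *
        (c.toCert.Gf β σ * c.toCert.Gf β σ') =
      al m * ((1 - c.toCert.yy m * min (c.toCert.ell β σ) (c.toCert.ell β σ')) *
        Tk c.M m σ σ' * ((c.G β σ : ℝ) * c.G β σ')) +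
      be m * ((1 - c.toCert.yy m * min (c.toCert.ell β σ) (c.toCert.ell β σ')) *
        Tk c.M (m + 1) σ σ' * ((c.G β σ : ℝ) * c.G β σ')) := by
    intro σ σ'
    rw [Gf_eq, Gf_eq]
    by_cases h1 : σ < c.len β
    · by_cases h2 : σ' < c.len β
      · have k1 := (lt_len c β σ).1 h1
        have k2 := (lt_len c β σ').1 h2
        have hk : c.toCert.known m β σ β σ' := by
          left
          show m + (β + σ) + (β + σ') + 9 ≤ c.T1
          omega
        have hm2 : m < c.toCert.M := hm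
        unfold Cert.Gam Cert.kap
        rw [if_pos hk, if_pos hm2]
        ring
      · rw [zrow_G_zero c (not_lt.1 h2)]
        simp
    · rw [zrow_G_zero c (not_lt.1 h1)]
      simp
  simp only [key, Finset.sum_add_distrib, ← Finset.mul_sum]
  have f1 := zrow_form c hnu β m m
  have f2 := zrow_form c hnu β m (m + 1)
  obtain ⟨l1, l2⟩ := log_bounds m
  have t := zrow_trunc l1 l2 (c.zP β m) (c.zN β m)
  have z1 : (c.zP β m : ℝ) = (m + 1) * c.sP β m m + m * c.sN β m (m + 1) := by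
    unfold ZC.zP; push_cast; ring
  have z2 : (c.zN β m : ℝ) = (m + 1) * c.sN β m m + m * c.sP β m (m + 1) := by
    unfold ZC.zN; push_cast; ring
  have s1 : (c.smP β m : ℝ) = whi m * ((c.zP β m - c.zN β m : ℕ) : ℝ) +
      1000000 * (c.sP β m (m + 1) + c.sN β m m) := by
    unfold ZC.smP; simp only [Nat.cast_add, Nat.cast_mul, Nat.cast_ofNat]
  have s2 : (c.smN β m : ℝ) = wlo m * ((c.zN β m - c.zP β m : ℕ) : ℝ) +
      1000000 * (c.sN β m (m + 1) + c.sP β m m) := by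
    unfold ZC.smN; simp only [Nat.cast_add, Nat.cast_mul, Nat.cast_ofNat]
  rw [s1, s2]
  rw [z1, z2] at t
  generalize (∑ σ ∈ range c.M, ∑ σ' ∈ range c.M,
      (1 - c.toCert.yy m * min (c.toCert.ell β σ) (c.toCert.ell β σ')) * Tk c.M m σ σ' *
        ((c.G β σ : ℝ) * c.G β σ')) = A at f1 ⊢
  generalize (∑ σ ∈ range c.M, ∑ σ' ∈ range c.M,
      (1 - c.toCert.yy m * min (c.toCert.ell β σ) (c.toCert.ell β σ')) * Tk c.M (m + 1) σ σ' *
        ((c.G β σ : ℝ) * c.G β σ')) = B at f2 ⊢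
  have e : (c.EE * 1000000 : ℝ) * (al m * A + be m * B) =
      1000000 * (al m * ((c.EE : ℝ) * A) + be m * ((c.EE : ℝ) * B)) := by ring
  rw [e, f1, f2]
  unfold al be
  linarith

theorem zrow_Tk_large {M k σ σ' : ℕ} (hk : M ≤ k) (h : σ < M) (h' : σ' < M) :
    Tk M k σ σ' = dl σ' σ := by
  unfold Tk
  have h1 : ∀ ρ, (dl σ ρ - dl σ (ρ + k)) * (dl σ' ρ - dl σ' (ρ + k)) =
      if ρ = σ then dl σ' ρ else 0 := by
    intro ρ
    have a1 : dl σ (ρ + k) = 0 := by unfold dl; rw [if_neg (by omega)]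
    have a2 : dl σ' (ρ + k) = 0 := by unfold dl; rw [if_neg (by omega)]
    rw [a1, a2, sub_zero, sub_zero]
    by_cases e : ρ = σ
    · rw [if_pos e, e]; unfold dl; rw [if_pos rfl, one_mul]
    · rw [if_neg e]; unfold dl; rw [if_neg (fun x => e x.symm), zero_mul]
  rw [Finset.sum_congr rfl (fun ρ _ => h1 ρ), Finset.sum_ite_eq' (range M) σ,
    if_pos (Finset.mem_range.2 h)]

theorem zrow_kn (c : ZC) {m : ℕ} (hm : c.M ≤ m) (β σ : ℕ) :
    c.toCert.known m β σ β σ ↔ c.kn m β σ = true := by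
  unfold ZC.kn
  simp only [Bool.or_eq_true, Bool.and_eq_true, Nat.ble_eq]
  show (m + (β + σ) + (β + σ) + 9 ≤ c.T1 ∨
    (c.M ≤ m ∧ β + β + 6 ≤ c.T2 ∧ σ + σ + m + 3 ≤ c.T1)) ↔ _
  omega

theorem zrow_div_lt (a b : ℕ) (hb : 1 ≤ b) : (a : ℝ) / b ≤ ((a / b + 1 : ℕ) : ℝ) := by
  have h0 : (0 : ℝ) < b := by exact_mod_cast hb
  rw [div_le_iff₀ h0]
  have h1 : a < (a / b + 1) * b := by
    have := Nat.lt_div_mul_add (a := a) (b := b) hb
    nlinarith
  exact_mod_cast h1.le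

theorem zrow_diag (c : ZC) (h : c.ok1 = true) {β m σ : ℕ} (hm : c.M ≤ m) (hm' : m + 3 ≤ c.T1)
    (hσ : σ < c.len β) :
    (c.EE * 1000000 : ℝ) * (c.toCert.Gam m β σ β σ * Real.log (1 + 1 / (m : ℝ))) ≤
      (c.gP m β σ : ℝ) - c.gN m β σ := by
  obtain ⟨hnu, _⟩ := zrow_ok1 c h
  have hed := ed_pos c h hm hm' hσ
  have hE := zrow_EE_pos c hnu
  have hd : (0 : ℝ) < c.ed m β σ := by exact_mod_cast hed
  obtain ⟨l1, l2⟩ := log_bounds m
  by_cases hk : c.kn m β σ = true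
  · have hm2 : ¬ m < c.toCert.M := not_lt.2 hm
    have hy := zrow_yy c hnu m (c.ell β σ)
    have e0 : c.toCert.ell β σ = (c.ell β σ : ℝ) / 1000 := rfl
    have hG : (c.EE : ℝ) * c.toCert.Gam m β σ β σ =
        -(10 * m * (c.ell β σ : ℝ) - c.EE) * (c.ed m β σ - (10 * m * (c.ell β σ : ℝ) - c.EE)) /
          c.ed m β σ := by
      unfold Cert.Gam Cert.kap
      rw [if_pos ((zrow_kn c hm β σ).2 hk), if_neg hm2, min_self, min_self, NN_eq c hnu hm hed, e0]
      have hy2 : c.toCert.yy m * ((c.ell β σ : ℝ) / 1000) = 10 * m * (c.ell β σ : ℝ) / c.EE := by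
        rw [← hy]; field_simp
      rw [hy2]
      field_simp
      ring
    have e1 : (c.EE * 1000000 : ℝ) * (c.toCert.Gam m β σ β σ * Real.log (1 + 1 / (m : ℝ))) =
        (1000000 * Real.log (1 + 1 / (m : ℝ))) * ((c.EE : ℝ) * c.toCert.Gam m β σ β σ) := by ring
    rw [e1, hG]
    by_cases hl : 10 * m * c.ell β σ ≤ c.EE
    · have g1 : c.gP m β σ = whi m * (c.EE - 10 * m * c.ell β σ) *
          (c.ed m β σ + (c.EE - 10 * m * c.ell β σ)) / c.ed m β σ + 1 := by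
        unfold ZC.gP
        rw [hk, Nat.ble_eq_true_of_le hl]
        rfl
      have g2 : c.gN m β σ = 0 := by
        unfold ZC.gN
        rw [hk, Nat.sub_eq_zero_of_le hl]
        simp
      have d1 := zrow_div_lt (whi m * (c.EE - 10 * m * c.ell β σ) *
          (c.ed m β σ + (c.EE - 10 * m * c.ell β σ))) (c.ed m β σ) hed
      rw [← g1] at d1
      rw [g2, Nat.cast_zero, sub_zero]
      refine le_trans ?_ d1
      have hf : (0 : ℝ) ≤ ((c.EE - 10 * m * c.ell β σ : ℕ) : ℝ) := Nat.cast_nonneg _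
      have hf2 : ((c.EE - 10 * m * c.ell β σ : ℕ) : ℝ) = c.EE - 10 * m * (c.ell β σ : ℝ) := by
        rw [Nat.cast_sub hl]; push_cast; ring
      simp only [Nat.cast_mul, Nat.cast_add]
      rw [← mul_div_assoc]
      apply div_le_div_of_nonneg_right _ hd.le
      rw [hf2] at hf ⊢
      have := mul_le_mul_of_nonneg_right l2
        (mul_nonneg hf (add_nonneg hd.le hf))
      linarith
    · have hl2 : c.EE ≤ 10 * m * c.ell β σ := (not_le.1 hl).le
      have g1 : c.gP m β σ = 0 := by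
        unfold ZC.gP
        have : Nat.ble (10 * m * c.ell β σ) c.EE = false := by
          rw [Bool.eq_false_iff]
          intro h2
          rw [Nat.ble_eq] at h2
          exact hl h2
        rw [this]
        simp
      have g2 : c.gN m β σ = wlo m * (10 * m * c.ell β σ - c.EE) *
          (c.ed m β σ - (10 * m * c.ell β σ - c.EE)) / c.ed m β σ := by
        unfold ZC.gN
        rw [hk]
        rfl
      have hle : 10 * m * c.ell β σ - c.EE ≤ c.ed m β σ := by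
        unfold ZC.ed
        rw [mx_eq]
        exact Nat.sub_le_sub_right (Nat.mul_le_mul_left _ (le_max_left _ _)) _
      have d1 : (c.gN m β σ : ℝ) ≤ ((wlo m * (10 * m * c.ell β σ - c.EE) *
          (c.ed m β σ - (10 * m * c.ell β σ - c.EE)) : ℕ) : ℝ) / c.ed m β σ := by
        rw [g2]; exact Nat.cast_div_le
      have hf : (0 : ℝ) ≤ ((10 * m * c.ell β σ - c.EE : ℕ) : ℝ) := Nat.cast_nonneg _
      have hf2 : ((10 * m * c.ell β σ - c.EE : ℕ) : ℝ) = 10 * m * (c.ell β σ : ℝ) - c.EE := by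
        rw [Nat.cast_sub hl2]; push_cast; ring
      have hf3 : (0 : ℝ) ≤ ((c.ed m β σ - (10 * m * c.ell β σ - c.EE) : ℕ) : ℝ) :=
        Nat.cast_nonneg _
      have hf4 : ((c.ed m β σ - (10 * m * c.ell β σ - c.EE) : ℕ) : ℝ) =
          c.ed m β σ - (10 * m * (c.ell β σ : ℝ) - c.EE) := by
        rw [Nat.cast_sub hle, hf2]
      simp only [Nat.cast_mul] at d1
      rw [hf2, hf4] at d1
      rw [hf2] at hf
      rw [hf4] at hf3
      rw [g1, Nat.cast_zero, zero_sub]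
      refine le_trans ?_ (neg_le_neg d1)
      rw [← mul_div_assoc, ← neg_div]
      apply div_le_div_of_nonneg_right _ hd.le
      have := mul_le_mul_of_nonneg_right l1 (mul_nonneg hf hf3)
      linarith
  · have g1 : c.gP m β σ = 0 := by
      unfold ZC.gP
      rw [Bool.eq_false_iff.2 hk]
      simp
    have g2 : c.gN m β σ = 0 := by
      unfold ZC.gN
      rw [Bool.eq_false_iff.2 hk]
      simp
    unfold Cert.Gam
    rw [if_neg (fun x => hk ((zrow_kn c hm β σ).1 x)), g1, g2]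
    simp

/-- `M ≤ m`: `Tk M k σ σ' = dl σ σ'` for `k ≥ M`, `al m + be m = log (1 + 1 / m)`, and on a known
diagonal pair `Gam = - e (ed - e) / (EE ed)` with `e = 10 m ell - EE ≤ ed`. -/
theorem large_le (c : ZC) (h : c.ok1 = true) (β : ℕ) {m : ℕ} (hm : c.M ≤ m) (hm' : m + 3 ≤ c.T1) :
    (c.EE * 1000000 : ℝ) * ∑ σ ∈ range c.M, ∑ σ' ∈ range c.M,
      c.toCert.Gam m β σ β σ' * (al m * Tk c.M m σ σ' + be m * Tk c.M (m + 1) σ σ') *
        (c.toCert.Gf β σ * c.toCert.Gf β σ') ≤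
      ∑ σ ∈ range (c.len β), (c.G β σ : ℝ) ^ 2 * ((c.gP m β σ : ℝ) - c.gN m β σ) := by
  have h1 : ∀ σ ∈ range c.M, ∑ σ' ∈ range c.M,
      c.toCert.Gam m β σ β σ' * (al m * Tk c.M m σ σ' + be m * Tk c.M (m + 1) σ σ') *
        (c.toCert.Gf β σ * c.toCert.Gf β σ') =
      (c.G β σ : ℝ) ^ 2 * (c.toCert.Gam m β σ β σ * Real.log (1 + 1 / (m : ℝ))) := by
    intro σ hσ
    rw [Finset.sum_eq_single_of_mem σ hσ]
    · rw [zrow_Tk_large hm (Finset.mem_range.1 hσ) (Finset.mem_range.1 hσ),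
        zrow_Tk_large (hm.trans (Nat.le_succ m)) (Finset.mem_range.1 hσ) (Finset.mem_range.1 hσ),
        Gf_eq]
      unfold dl al be
      rw [if_pos rfl]
      ring
    · intro σ' hσ' hne
      rw [zrow_Tk_large hm (Finset.mem_range.1 hσ) (Finset.mem_range.1 hσ'),
        zrow_Tk_large (hm.trans (Nat.le_succ m)) (Finset.mem_range.1 hσ) (Finset.mem_range.1 hσ')]
      unfold dl
      rw [if_neg hne]
      ring
  rw [Finset.sum_congr rfl h1, zrow_sum_len c β _ (fun σ hσ => by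
    rw [zrow_G_zero c hσ]; simp), Finset.mul_sum]
  apply Finset.sum_le_sum
  intro σ hσ
  have := mul_le_mul_of_nonneg_left (zrow_diag c h hm hm' (Finset.mem_range.1 hσ))
    (sq_nonneg (c.G β σ : ℝ))
  linarith

theorem zrow_row (c : ZC) (h : c.ok1 = true) (β : ℕ) :
    (c.EE * 1000000 : ℝ) * ((∑ σ ∈ range c.M, c.toCert.ell β σ * c.toCert.Gf β σ ^ 2) +
      ∑ m ∈ range (c.T1 - 2), ∑ σ ∈ range c.M, ∑ σ' ∈ range c.M,
        c.toCert.Gam m β σ β σ' * (al m * Tk c.M m σ σ' + be m * Tk c.M (m + 1) σ σ') *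
          (c.toCert.Gf β σ * c.toCert.Gf β σ')) ≤
      ((c.nuN * 1000000 * c.rB β + sumTo c.M (c.smP β) + c.lgP β : ℕ) : ℝ) -
        ((sumTo c.M (c.smN β) + c.lgN β : ℕ) : ℝ) := by
  obtain ⟨hnu, hT⟩ := zrow_ok1 c h
  have hs : c.T1 - 2 = c.M + (c.T1 - 2 - c.M) := by omega
  have a0 : (c.EE * 1000000 : ℝ) * ∑ σ ∈ range c.M, c.toCert.ell β σ * c.toCert.Gf β σ ^ 2 =
      c.nuN * 1000000 * (c.rB β : ℝ) := by
    simp only [Gf_eq]
    rw [zrow_sum_len c β _ (fun σ hσ => by rw [zrow_G_zero c hσ]; simp)]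
    unfold ZC.rB ZC.EE
    rw [sumTo_eq]
    push_cast
    rw [Finset.mul_sum, Finset.mul_sum]
    apply Finset.sum_congr rfl
    intro σ _
    have e0 : c.toCert.ell β σ = (c.ell β σ : ℝ) / 1000 := rfl
    rw [e0]
    ring
  have a1 := Finset.sum_le_sum (s := range c.M)
    (fun m hm => small_le c h β (Finset.mem_range.1 hm))
  have a2 := Finset.sum_le_sum (s := range (c.T1 - 2 - c.M))
    (fun t ht => large_le c h β (m := c.M + t) (Nat.le_add_right _ _)
      (by have := Finset.mem_range.1 ht; omega))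
  have b1 : ∑ t ∈ range (c.T1 - 2 - c.M), ∑ σ ∈ range (c.len β),
      (c.G β σ : ℝ) ^ 2 * ((c.gP (c.M + t) β σ : ℝ) - c.gN (c.M + t) β σ) =
      (c.lgP β : ℝ) - c.lgN β := by
    unfold ZC.lgP ZC.lgN
    simp only [sumTo_eq]
    push_cast
    rw [Finset.sum_comm, ← Finset.sum_sub_distrib]
    apply Finset.sum_congr rfl
    intro σ _
    rw [← mul_sub, ← Finset.sum_sub_distrib, Finset.mul_sum]
  rw [b1, ← Finset.mul_sum] at a2
  rw [← Finset.mul_sum, Finset.sum_sub_distrib] at a1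
  rw [hs, Finset.sum_range_add, mul_add, mul_add, a0]
  simp only [sumTo_eq]
  push_cast
  linarith

/-- Multiply by `EE * 10 ^ 6`, split `range (T1 - 2)` at `M`, swap the sums over `m` and `β`. -/
theorem ineq_of_ok (c : ZC) (h : c.ok1 = true) (h2 : c.ok2 = true) :
    4 * c.toCert.Bval < c.R * c.toCert.Ival := by
  obtain ⟨hnu, hT⟩ := zrow_ok1 c h
  have hE : (0 : ℝ) < c.EE * 1000000 := by
    have := zrow_EE_pos c hnu
    linarith
  have h3 : ∑ β ∈ range (c.U + 1), (c.rowP β : ℝ) < ∑ β ∈ range (c.U + 1), (c.rowN β : ℝ) := by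
    unfold ZC.ok2 at h2
    rw [Nat.ble_eq, sumTo_eq, sumTo_eq] at h2
    exact_mod_cast Nat.lt_of_succ_le h2
  have hB : c.toCert.Bval = ∑ β ∈ range (c.U + 1), (c.Mb β : ℝ) *
      ((∑ σ ∈ range c.M, c.toCert.ell β σ * c.toCert.Gf β σ ^ 2) +
      ∑ m ∈ range (c.T1 - 2), ∑ σ ∈ range c.M, ∑ σ' ∈ range c.M,
        c.toCert.Gam m β σ β σ' * (al m * Tk c.M m σ σ' + be m * Tk c.M (m + 1) σ σ') *
          (c.toCert.Gf β σ * c.toCert.Gf β σ')) := by
    unfold Cert.Bval Cert.B0 Cert.Bm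
    simp only [Mb_eq]
    rw [Finset.sum_comm, ← Finset.sum_add_distrib]
    apply Finset.sum_congr rfl
    intro β _
    rw [mul_add, Finset.mul_sum (range (c.T1 - 2))]
    rfl
  have hI : c.toCert.Ival = ∑ β ∈ range (c.U + 1), (c.Mb β : ℝ) * c.rI β := by
    unfold Cert.Ival
    simp only [Mb_eq, Gf_eq]
    apply Finset.sum_congr rfl
    intro β _
    congr 1
    unfold ZC.rI
    rw [sumTo_eq]
    push_cast
    exact zrow_sum_len c β _ (fun σ hσ => by rw [zrow_G_zero c hσ]; simp)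
  apply lt_of_mul_lt_mul_left _ hE.le
  have h4 : (c.EE * 1000000 : ℝ) * (4 * c.toCert.Bval) -
      (c.EE * 1000000 : ℝ) * (c.R * c.toCert.Ival) ≤
      ∑ β ∈ range (c.U + 1), (c.rowP β : ℝ) - ∑ β ∈ range (c.U + 1), (c.rowN β : ℝ) := by
    rw [hB, hI, Finset.mul_sum, Finset.mul_sum, Finset.mul_sum, Finset.mul_sum,
      ← Finset.sum_sub_distrib, ← Finset.sum_sub_distrib]
    apply Finset.sum_le_sum
    intro β _
    have r := mul_le_mul_of_nonneg_left (zrow_row c h β) (Nat.cast_nonneg (α := ℝ) (c.Mb β))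
    have p1 : (c.rowP β : ℝ) = c.Mb β *
        (4 * ((c.nuN * 1000000 * c.rB β + sumTo c.M (c.smP β) + c.lgP β : ℕ) : ℝ)) := by
      unfold ZC.rowP; push_cast; ring
    have p2 : (c.rowN β : ℝ) = c.Mb β * (4 * ((sumTo c.M (c.smN β) + c.lgN β : ℕ) : ℝ) +
        c.R * (c.EE * 1000000) * c.rI β) := by
      unfold ZC.rowN; push_cast; ring
    rw [p1, p2]
    linarith
  linarith

end Pool.Agent.Lib.MP_c03ca8_nt.Q
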