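import Pool.Agent.Lib.MP_c03ca8_nt.Q.Core
import Pool.Agent.Lib.MP_c03ca8_nt.Q.ZRow

set_option autoImplicit false

namespace Pool.Agent.Lib.MP_c03ca8_nt.Q

/-- An integer certificate gives almost prime 4-tuples in short intervals. -/
theorem of_zc (c : ZC) (h1 : c.ok1 = true) (h2 : c.ok2 = true) {θ : ℝ}
    (hr : Rng (c.nuN / 10) θ c.T1 c.T2 c.M) (h : Fin 4 → ℕ) (hinj : Function.Injective h)
    (adm : ∀ p : ℕ, p.Prime → ∃ a, ∀ l, ¬ p ∣ a + h l) :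
    ∃ x0 : ℕ, ∀ x X : ℕ, x0 ≤ x → (x : ℝ) ^ θ ≤ X → X ≤ x →
      ∃ n, x < n ∧ n ≤ x + X ∧ ArithmeticFunction.cardFactors (∏ l, (n + h l)) < c.R :=
  core c.toCert (valid_of_ok1 c h1) hr c.R (ineq_of_ok c h1 h2) h hinj adm

end Pool.Agent.Lib.MP_c03ca8_nt.Q
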