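import Pool.Agent.Lib.MP_c03ca8_nt.Q.MainA

set_option autoImplicit false

noncomputable section

namespace Pool.Agent.Lib.MP_c03ca8_nt.Q

open Finset Real

theorem maint_prod {ι : Type} [DecidableEq ι] (s : Finset ι) (a b : ι → ℝ) {δ : ℝ} (h0 : 0 ≤ δ)
    (h1 : δ ≤ 1) (hab : ∀ l ∈ s, |a l - b l| ≤ δ) (hb : ∀ l ∈ s, |b l| ≤ 1) :
    |∏ l ∈ s, a l - ∏ l ∈ s, b l| ≤ 2 ^ s.card * δ ∧ |∏ l ∈ s, a l| ≤ 2 ^ s.card := by
  induction s using Finset.induction_on with
  | empty => simpa using h0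
  | insert x s hx ih =>
    obtain ⟨i1, i2⟩ := ih (fun l hl => hab l (mem_insert_of_mem hl))
      (fun l hl => hb l (mem_insert_of_mem hl))
    have e1 := hab x (mem_insert_self _ _)
    have e2 := hb x (mem_insert_self _ _)
    have e3 : |a x| ≤ 2 := by
      have := abs_add_le (a x - b x) (b x)
      rw [sub_add_cancel] at this
      linarith
    rw [prod_insert hx, prod_insert hx, card_insert_of_notMem hx, pow_succ]
    constructor
    · have e : a x * ∏ l ∈ s, a l - b x * ∏ l ∈ s, b l =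
          (a x - b x) * ∏ l ∈ s, a l + b x * (∏ l ∈ s, a l - ∏ l ∈ s, b l) := by ring
      rw [e]
      refine (abs_add_le _ _).trans ?_
      rw [abs_mul, abs_mul]
      have f1 := mul_le_mul e1 i2 (abs_nonneg _) h0
      have f2 := mul_le_mul e2 i1 (abs_nonneg _) zero_le_one
      linarith
    · rw [abs_mul]
      have := mul_le_mul e3 i2 (abs_nonneg _) zero_le_two
      linarith

theorem maint_dl (a b : ℕ) : |dl a b| ≤ 1 := by
  unfold dl
  split_ifs <;> simp

theorem maint_cell (H : ℝ) (σ r : ℕ) : 0 ≤ cell H σ r ∧ cell H σ r ≤ 1 := by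
  unfold cell
  split_ifs <;> simp

theorem maint_zp (H : ℝ) (jj : Slot → ℕ) (i : Fin 4) (p : ℕ) (s : Slot) (r : ℕ) :
    |zp (cz H jj) i p s r| ≤ 1 := by
  have h1 := maint_cell H (jj s) r
  have h2 := maint_cell H (jj s) (r * p)
  unfold zp
  split_ifs
  · unfold dz cz
    split_ifs
    · simp
    · rw [abs_le]
      constructor <;> linarith [h1.1, h1.2, h2.1, h2.2]
  · unfold cz
    rw [abs_le]
    constructor <;> linarith [h1.1, h1.2]

/-- The four diagonal forms. -/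
theorem maint_four {L δ τ M : ℝ} (hL : 0 < L) (h0 : 0 ≤ δ) (h1 : δ ≤ 1) (i : Fin 4)
    (a b : Fin 4 → ℝ) (hb : ∀ l, |b l| ≤ 1) (hab : ∀ l, l ≠ i → |a l - b l * L| ≤ δ * L)
    (hi : |a i - L * τ| ≤ δ * L) (hτ : |τ| ≤ M) :
    |∏ l, a l - L ^ 4 * ((∏ l ∈ univ.erase i, b l) * τ)| ≤ 8 * (M + 1) * δ * L ^ 4 := by
  have hc : (univ.erase i).card = 3 := by simp
  have hd : ∀ u v : ℝ, |u - v * L| ≤ δ * L → |u / L - v| ≤ δ := fun u v h => by
    have : u / L - v = (u - v * L) / L := by field_simp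
    rw [this, abs_div, abs_of_pos hL, div_le_iff₀ hL]
    exact h
  obtain ⟨i1, i2⟩ := maint_prod (univ.erase i) (fun l => a l / L) b h0 h1
    (fun l hl => hd _ _ (hab l (ne_of_mem_erase hl))) (fun l _ => hb l)
  have i3 := hd (a i) τ (by rwa [mul_comm τ])
  rw [hc] at i1 i2
  have e : ∏ l, a l = L ^ 4 * ((∏ l ∈ univ.erase i, a l / L) * (a i / L)) := by
    rw [prod_div_distrib, prod_const, hc, ← mul_prod_erase univ a (mem_univ i)]
    field_simp
  rw [e, ← mul_sub, abs_mul, abs_of_pos (pow_pos hL 4), mul_comm]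
  refine mul_le_mul_of_nonneg_right ?_ (pow_pos hL 4).le
  set u := ∏ l ∈ univ.erase i, a l / L
  set v := ∏ l ∈ univ.erase i, b l
  have e2 : u * (a i / L) - v * τ = u * (a i / L - τ) + (u - v) * τ := by ring
  rw [e2]
  refine (abs_add_le _ _).trans ?_
  rw [abs_mul, abs_mul]
  have f1 := mul_le_mul i2 i3 (abs_nonneg _) (by positivity)
  have f2 := mul_le_mul i1 hτ (abs_nonneg _) (by positivity)
  linarith

theorem maint_conv {t m u v M : ℝ} (h1 : m ≤ t) (h2 : t ≤ m + 1) (hu : |u| ≤ M) (hv : |v| ≤ M) :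
    |(m + 1 - t) * u + (t - m) * v| ≤ M := by
  refine (abs_add_le _ _).trans ?_
  rw [abs_mul, abs_mul, abs_of_nonneg (by linarith : 0 ≤ m + 1 - t),
    abs_of_nonneg (by linarith : 0 ≤ t - m)]
  have f1 := mul_le_mul_of_nonneg_left hu (by linarith : 0 ≤ m + 1 - t)
  have f2 := mul_le_mul_of_nonneg_left hv (by linarith : 0 ≤ t - m)
  linarith

/-- The prime sums over one cell. -/
theorem maint_sums : ∃ C : ℝ, 0 ≤ C ∧ ∀ (H η : ℝ) (m T : ℕ) (S : Finset ℕ), 1 < H → 0 < η →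
    η < 1 → 2 ≤ H ^ η → m < T →
    (∀ p : ℕ, p ∈ S ↔ p.Prime ∧ H ^ m ≤ (p : ℝ) ∧ (p : ℝ) < H ^ (m + 1) ∧ H ^ η ≤ (p : ℝ)) →
    ∑ p ∈ S, 1 / (p : ℝ) ≤ T / η + C / (η * Real.log H) ∧
    ∀ u v M : ℝ, |u| ≤ M → |v| ≤ M → (m = 0 → u = 0) →
      |∑ p ∈ S, 1 / (p : ℝ) * ((m + 1 - Real.log p / Real.log H) * u +
        (Real.log p / Real.log H - m) * v) - (al m * u + be m * v)| ≤
        M * η + 2 * M * ((T + 1) * C / Real.log H) := by
  obtain ⟨C1, hC1, H1⟩ := mertens1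
  obtain ⟨C2, hC2, H2⟩ := mertens2
  refine ⟨max C1 C2, le_max_of_le_left hC1, ?_⟩
  intro H η m T S hH hη hη1 h2 hm hS
  set C := max C1 C2
  have hC : 0 ≤ C := le_max_of_le_left hC1
  have hH0 : 0 < H := by linarith
  have hl : 0 < Real.log H := Real.log_pos hH
  set μ : ℝ := max (m : ℝ) η with hμ
  have hμ0 : 0 < μ := lt_max_of_lt_right hη
  have hμ1 : μ ≤ m + 1 := max_le (by linarith) (by linarith [Nat.cast_nonneg (α := ℝ) m])
  have hY : 2 ≤ H ^ μ := h2.trans (Real.rpow_le_rpow_of_exponent_le hH.le (le_max_right _ _))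
  have hZ : H ^ (m + 1) = H ^ ((m : ℝ) + 1) := by
    rw [← Real.rpow_natCast]
    push_cast
    rfl
  have hYZ : H ^ μ ≤ H ^ (m + 1) := by
    rw [hZ]
    exact Real.rpow_le_rpow_of_exponent_le hH.le hμ1
  have hSe : S = pI (H ^ μ) (H ^ (m + 1)) := by
    ext p
    rw [hS, pI, mem_filter, Nat.mem_primesLE]
    have e : H ^ μ ≤ (p : ℝ) ↔ H ^ m ≤ (p : ℝ) ∧ H ^ η ≤ (p : ℝ) := by
      rw [← Real.rpow_natCast H m]
      rcases le_total (m : ℝ) η with h | h
      · rw [hμ, max_eq_right h]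
        exact ⟨fun g => ⟨(Real.rpow_le_rpow_of_exponent_le hH.le h).trans g, g⟩, fun g => g.2⟩
      · rw [hμ, max_eq_left h]
        exact ⟨fun g => ⟨g, (Real.rpow_le_rpow_of_exponent_le hH.le h).trans g⟩, fun g => g.1⟩
    rw [e]
    exact ⟨fun g => ⟨⟨Nat.le_floor g.2.2.1.le, g.1⟩, ⟨g.2.1, g.2.2.2⟩, g.2.2.1⟩,
      fun g => ⟨g.1.2, g.2.1.1, g.2.2, g.2.1.2⟩⟩
  have l1 : Real.log (H ^ μ) = μ * Real.log H := Real.log_rpow hH0 μ
  have l2 : Real.log (H ^ (m + 1)) = (m + 1) * Real.log H := by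
    rw [Real.log_pow]
    push_cast
    rfl
  have g1 := (H1 (H ^ μ) (H ^ (m + 1)) (by linarith) hYZ).trans (le_max_left C1 C2)
  have g2 := H2 (H ^ μ) (H ^ (m + 1)) hY hYZ
  rw [← hSe, Real.log_div (by positivity) (by positivity), l1, l2] at g1
  rw [← hSe, l1, l2, mul_div_mul_right _ _ hl.ne'] at g2
  have g2' : |∑ p ∈ S, 1 / (p : ℝ) - Real.log ((m + 1) / μ)| ≤ C / (μ * Real.log H) :=
    g2.trans (div_le_div_of_nonneg_right (le_max_right _ _) (by positivity))
  have hT : (m : ℝ) + 1 ≤ T := by exact_mod_cast hm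
  set S1 := ∑ p ∈ S, 1 / (p : ℝ)
  set S2 := ∑ p ∈ S, Real.log p / p
  have g1' : |S2 / Real.log H - (m + 1 - μ)| ≤ C / Real.log H := by
    have : S2 / Real.log H - (m + 1 - μ) =
        (S2 - ((m + 1) * Real.log H - μ * Real.log H)) / Real.log H := by field_simp
    rw [this, abs_div, abs_of_pos hl]
    exact div_le_div_of_nonneg_right g1 hl.le
  constructor
  · have a1 : Real.log ((m + 1) / μ) ≤ T / η := by
      refine (Real.log_le_self (by positivity)).trans ?_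
      exact div_le_div₀ (by positivity) hT hη (le_max_right _ _)
    have a2 : C / (μ * Real.log H) ≤ C / (η * Real.log H) :=
      div_le_div_of_nonneg_left hC (by positivity)
        (mul_le_mul_of_nonneg_right (le_max_right _ _) hl.le)
    linarith [(abs_le.mp g2').2]
  intro u v M hu hv hu0
  have hM : 0 ≤ M := (abs_nonneg _).trans hu
  have e : ∑ p ∈ S, 1 / (p : ℝ) * ((m + 1 - Real.log p / Real.log H) * u +
      (Real.log p / Real.log H - m) * v) =
      ((m + 1) * S1 - S2 / Real.log H) * u + (S2 / Real.log H - m * S1) * v := by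
    simp only [S1, S2, sum_div, mul_sum, ← sum_sub_distrib, sum_mul, ← sum_add_distrib]
    refine sum_congr rfl fun p _ => ?_
    ring
  rw [e]
  set x := C / Real.log H with hx
  have hx0 : 0 ≤ x := by positivity
  have hxe : (T + 1) * C / Real.log H = (T + 1) * x := by rw [hx]; ring
  rw [hxe]
  have hT0 : (0 : ℝ) ≤ T := Nat.cast_nonneg T
  rcases Nat.eq_zero_or_pos m with h | h
  · subst h
    have hμe : μ = η := by rw [hμ]; exact max_eq_right (by simpa using hη.le)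
    rw [hu0 rfl, be]
    rw [hμe] at g1'
    simp only [Nat.cast_zero, zero_add, zero_mul, mul_zero, sub_zero] at g1' ⊢
    rw [← sub_mul, abs_mul, mul_comm]
    have a1 : |S2 / Real.log H - 1| ≤ η + x := by
      rw [abs_le] at g1' ⊢
      constructor <;> linarith [g1'.1, g1'.2]
    have a2 := mul_le_mul hv a1 (abs_nonneg _) hM
    linarith only [a2, mul_nonneg hM hx0, mul_nonneg (mul_nonneg hM hx0) hT0]
  · have h1 : (1 : ℝ) ≤ m := by exact_mod_cast h
    have hμe : μ = m := by rw [hμ]; exact max_eq_left (by linarith)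
    rw [hμe] at g1' g2'
    have e1 : ((m : ℝ) + 1) / m = 1 + 1 / m := by field_simp
    have e2 : C / (m * Real.log H) ≤ x :=
      div_le_div_of_nonneg_left hC hl (le_mul_of_one_le_left hl.le h1)
    rw [e1] at g2'
    have g3 := g2'.trans e2
    rw [add_sub_cancel_left] at g1'
    set lg := Real.log (1 + 1 / (m : ℝ)) with hlg
    have e3 : ((m + 1) * S1 - S2 / Real.log H) * u + (S2 / Real.log H - m * S1) * v -
        (al m * u + be m * v) = ((m + 1) * (S1 - lg) - (S2 / Real.log H - 1)) * u +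
          ((S2 / Real.log H - 1) - m * (S1 - lg)) * v := by
      rw [al, be, ← hlg]
      ring
    rw [e3]
    have b1 : |(m + 1) * (S1 - lg) - (S2 / Real.log H - 1)| ≤ (T + 1) * x := by
      refine (abs_sub _ _).trans ?_
      rw [abs_mul, abs_of_nonneg (by linarith : (0 : ℝ) ≤ m + 1)]
      have := mul_le_mul hT g3 (abs_nonneg _) hT0
      linarith
    have b2 : |(S2 / Real.log H - 1) - m * (S1 - lg)| ≤ (T + 1) * x := by
      refine (abs_sub _ _).trans ?_
      rw [abs_mul, abs_of_nonneg (by linarith : (0 : ℝ) ≤ m)]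
      have := mul_le_mul (by linarith : (m : ℝ) ≤ T) g3 (abs_nonneg _) hT0
      linarith
    refine (abs_add_le _ _).trans ?_
    rw [abs_mul, abs_mul]
    have c1 := mul_le_mul b1 hu (abs_nonneg _) (by positivity)
    have c2 := mul_le_mul b2 hv (abs_nonneg _) (by positivity)
    linarith only [c1, c2, mul_nonneg hM hη.le]

/-- `decouple` for `zp`, `inner`, then the prime sums: `E.pc ν η m = pI (max (H ^ m) (H ^ η))
(H ^ (m + 1))` for `m < T1`, `∑ 1 / p ≤ log (T1 / η) + 1`; for `m ≥ 1`,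
`∑ 1 / p → log (1 + 1 / m)`, `∑ log p / (p log H) → 1`, which gives `al m` and `be m`; for `m = 0`,
`Tk M 0 = 0` and `∑ log p / (p log H) → 1 - η`, `be 0 = 1`, `|Tk| ≤ M`. -/
theorem main1 {ν θ : ℝ} {T1 T2 M : ℕ} (hr : Rng ν θ T1 T2 M) {ε η : ℝ} (hε : 0 < ε)
    (hη : 0 < η) (hη1 : η < 1) :
    Ev θ fun E => ∀ (jj : Slot → ℕ) (i : Fin 4) (m : ℕ), (∀ s, jj s < M) → m < T1 →
      |∑ p ∈ E.pc ν η m, M1 E.P (zp (cz (E.H ν) jj) i p) p i - E.L ν ^ 4 *
        ((∏ l ∈ univ.erase i, dl (jj (l, false)) (jj (l, true))) *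
          (al m * Tk M m (jj (i, false)) (jj (i, true)) +
            be m * Tk M (m + 1) (jj (i, false)) (jj (i, true))))| ≤
        (ε + M * η) * E.L ν ^ 4 := by
  obtain ⟨K, hK, HK⟩ := decouple
  obtain ⟨A, hA, HA⟩ := inner M
  choose! B hB0 hB using HA
  obtain ⟨C, hC, HC⟩ := maint_sums
  obtain ⟨C0, hC0, HS⟩ := ev_size (θ := θ) hr.pos
  set S0 : ℝ := T1 / η + 1 with hS0
  have hS0p : 0 < S0 := by positivity
  set c1 : ℝ := 3 * (K * C0 ^ 4 + 8 * (M + 1) * A) * S0 / ε with hc1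
  set c2 : ℝ := 24 * (M + 1) * S0 / ε with hc2
  set c3 : ℝ := 6 * M * ((T1 + 1) * C) / ε with hc3
  have p1 : 0 ≤ c1 := by positivity
  have p2 : 0 ≤ c2 := by positivity
  have p3 : 0 ≤ c3 := by positivity
  have p4 : 0 ≤ C / η := by positivity
  have hw : Ev θ fun E => c1 + 2 * A ≤ E.w :=
    Ev.of_forall ⌈c1 + 2 * A⌉₊ fun w hw => ⟨0, fun E hE _ _ _ => by
      rw [hE]
      exact Nat.ceil_le.mp hw⟩
  refine ((HS (fun w => B w * (c2 + 2) + c3 + C / η + 1) hη).and hw).mono ?_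
  rintro E hG - ⟨⟨s1, s2, s3, s4, s5, s6⟩, s7⟩ jj i m hj hm
  have hw10 : (10 : ℝ) ≤ E.w := by exact_mod_cast hG.w10
  have hw0 : (0 : ℝ) < E.w := by linarith
  have hb0 := hB0 E.w hG.w10
  have hb := hB E.w hG.w10 (E.H ν) (3 * E.x)
  set H := E.H ν with hH
  set L := E.L ν with hLd
  have hLe : cW E.w * Real.log H = L := rfl
  have hH1 : 1 < H := by linarith
  have q1 : 0 ≤ B E.w * c2 := mul_nonneg hb0 p2
  have q2 : B E.w * (c2 + 2) = B E.w * c2 + 2 * B E.w := by ring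
  simp only [q2] at s2 s3
  have hL : 0 < L := by linarith only [s2, q1, hb0, p3, p4]
  have hl : 0 < Real.log H := Real.log_pos hH1
  have hT : ∀ k : ℕ, k ≤ T1 → H ^ k ≤ ((3 * E.x : ℕ) : ℝ) := fun k hk => by
    have a1 : (k : ℝ) ≤ ν := by
      have b1 : (k : ℝ) ≤ T1 := by exact_mod_cast hk
      have b2 := mul_le_mul_of_nonneg_right hr.le_one hr.pos.le
      linarith [hr.t1]
    have a2 := Real.rpow_le_rpow_of_exponent_le hH1.le a1
    rw [Real.rpow_natCast, s6] at a2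
    push_cast
    linarith [Nat.cast_nonneg (α := ℝ) E.x]
  have hP : ∀ q ∈ E.P, q.Prime ∧ E.w < q := fun q hq => by
    rw [Env.P, PP, mem_filter, Nat.mem_primesLE] at hq
    exact ⟨hq.1.2, hq.2⟩
  have hmem : ∀ p : ℕ, p ∈ E.pc ν η m ↔
      p.Prime ∧ H ^ m ≤ (p : ℝ) ∧ (p : ℝ) < H ^ (m + 1) ∧ H ^ η ≤ (p : ℝ) := fun p => by
    rw [Env.pc, mem_filter]
    refine ⟨fun g => ⟨(hP p g.1).1, g.2⟩, fun g => ⟨?_, g.2⟩⟩
    rw [Env.P, PP, mem_filter, Nat.mem_primesLE]
    refine ⟨⟨?_, g.1⟩, ?_⟩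
    · exact_mod_cast g.2.2.1.le.trans (hT (m + 1) hm)
    · exact_mod_cast s4.trans_le g.2.2.2
  obtain ⟨u1, u2⟩ := HC H η m T1 _ hH1 hη hη1 (by linarith) hm hmem
  set u := Tk M m (jj (i, false)) (jj (i, true)) with hu
  set v := Tk M (m + 1) (jj (i, false)) (jj (i, true)) with hv
  have u3 := u2 u v M (abs_Tk_le _ _ _ _) (abs_Tk_le _ _ _ _)
    (fun h => by rw [hu, h, Tk_zero])
  set D := ∏ l ∈ univ.erase i, dl (jj (l, false)) (jj (l, true)) with hD
  have hD1 : |D| ≤ 1 := by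
    rw [hD, abs_prod]
    exact prod_le_one (fun _ _ => abs_nonneg _) fun _ _ => maint_dl _ _
  set δ : ℝ := A / E.w + B E.w / L with hδ
  have hδe : A / E.w * L + B E.w = δ * L := by
    rw [hδ]
    field_simp
  have d1 : A / E.w ≤ 1 / 2 := by
    rw [div_le_iff₀ hw0]
    linarith only [s7, p1]
  have d2 : B E.w / L ≤ 1 / 2 := by
    rw [div_le_iff₀ hL]
    linarith only [s2, q1, p3, p4]
  have hδ0 : 0 ≤ δ := by positivity
  have hδ1 : δ ≤ 1 := by linarith only [hδ, d1, d2]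
  set κ : ℝ := K * C0 ^ 4 / E.w + 8 * (M + 1) * δ with hκ
  have hκ0 : 0 ≤ κ := by positivity
  set τ : ℕ → ℝ := fun p => (m + 1 - Real.log p / Real.log H) * u +
    (Real.log p / Real.log H - m) * v with hτ
  have hmert : 0 ≤ mert E.P := prod_nonneg fun q hq => by
    have : (2 : ℝ) ≤ q := by exact_mod_cast (hP q hq).1.two_le
    have : (0 : ℝ) < q - 1 := by linarith
    positivity
  have key : ∀ p ∈ E.pc ν η m, |M1 E.P (zp (cz H jj) i p) p i - L ^ 4 * D * (1 / (p : ℝ) * τ p)| ≤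
      κ * L ^ 4 * (1 / (p : ℝ)) := fun p hp => by
    have hpP : p ∈ E.P := (mem_filter.mp hp).1
    obtain ⟨g1, g2, g3, -⟩ := (hmem p).mp hp
    have hp0 : (0 : ℝ) < p := by exact_mod_cast g1.pos
    have k1 := HK E.w hG.w10 E.P hP (zp (cz H jj) i p) (maint_zp H jj i p) p i (Or.inr hpP)
      (fun _ b r hr => by simp [zp, dz, hr])
    have t1 : (m : ℝ) ≤ Real.log p / Real.log H := by
      rw [le_div_iff₀ hl, ← Real.log_pow]
      exact Real.log_le_log (by positivity) g2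
    have t2 : Real.log p / Real.log H ≤ m + 1 := by
      rw [div_le_iff₀ hl]
      have := Real.log_le_log hp0 g3.le
      rw [Real.log_pow] at this
      push_cast at this
      exact this
    have k2 := maint_four (τ := τ p) (M := M) hL hδ0 hδ1 i
      (fun l => ip E.P (zp (cz H jj) i p (l, false)) (zp (cz H jj) i p (l, true)))
      (fun l => dl (jj (l, false)) (jj (l, true))) (fun l => maint_dl _ _)
      (fun l hl => by
        have := (hb hH1 (hT M hr.mt) _ _ (hj (l, false)) (hj (l, true))).1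
        rw [hLe, hδe] at this
        simpa only [zp, hl, if_false, cz, Env.P] using this)
      (by
        have := (hb hH1 (hT M hr.mt) _ _ (hj (i, false)) (hj (i, true))).2 p hpP m g2 g3
        rw [hLe, hδe] at this
        simpa only [zp, if_true, cz, Env.P] using this)
      (maint_conv t1 t2 (abs_Tk_le _ _ _ _) (abs_Tk_le _ _ _ _))
    rw [← hD] at k2
    set Q := ∏ l, ip E.P (zp (cz H jj) i p (l, false)) (zp (cz H jj) i p (l, true))
    have e : M1 E.P (zp (cz H jj) i p) p i - L ^ 4 * D * (1 / (p : ℝ) * τ p) =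
        (M1 E.P (zp (cz H jj) i p) p i - 1 / (p : ℝ) * Q) +
          1 / (p : ℝ) * (Q - L ^ 4 * (D * τ p)) := by ring
    rw [e]
    refine (abs_add_le _ _).trans ?_
    rw [abs_mul, abs_of_pos (by positivity : 0 < 1 / (p : ℝ))]
    have k3 := mul_le_mul_of_nonneg_left k2 (by positivity : 0 ≤ 1 / (p : ℝ))
    have k4 : K * mert E.P ^ 4 / (p * E.w) ≤ K * (C0 * L) ^ 4 / (p * E.w) := by gcongr
    have k5 : K * (C0 * L) ^ 4 / (p * E.w) = K * C0 ^ 4 / E.w * L ^ 4 * (1 / (p : ℝ)) := by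
      field_simp
    have k6 : κ * L ^ 4 * (1 / (p : ℝ)) = K * C0 ^ 4 / E.w * L ^ 4 * (1 / (p : ℝ)) +
        1 / (p : ℝ) * (8 * (M + 1) * δ * L ^ 4) := by
      rw [hκ]
      ring
    linarith only [k1, k3, k4, k5, k6]
  have e : ∑ p ∈ E.pc ν η m, M1 E.P (zp (cz H jj) i p) p i - L ^ 4 * (D * (al m * u + be m * v)) =
      ∑ p ∈ E.pc ν η m, (M1 E.P (zp (cz H jj) i p) p i - L ^ 4 * D * (1 / (p : ℝ) * τ p)) +
        L ^ 4 * D * (∑ p ∈ E.pc ν η m, 1 / (p : ℝ) * τ p - (al m * u + be m * v)) := by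
    rw [sum_sub_distrib, ← mul_sum]
    ring
  rw [e]
  refine (abs_add_le _ _).trans ?_
  have hL4 : 0 < L ^ 4 := pow_pos hL 4
  have r1 : C / (η * Real.log H) ≤ 1 := by
    rw [← div_div, div_le_one hl]
    linarith only [s3, q1, hb0, p3]
  have r2 : |∑ p ∈ E.pc ν η m, (M1 E.P (zp (cz H jj) i p) p i -
      L ^ 4 * D * (1 / (p : ℝ) * τ p))| ≤ κ * L ^ 4 * S0 := by
    refine (abs_sum_le_sum_abs _ _).trans ((sum_le_sum key).trans ?_)
    rw [← mul_sum]
    exact mul_le_mul_of_nonneg_left (by linarith only [u1, r1, hS0]) (mul_nonneg hκ0 hL4.le)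
  have r3 : |L ^ 4 * D * (∑ p ∈ E.pc ν η m, 1 / (p : ℝ) * τ p - (al m * u + be m * v))| ≤
      L ^ 4 * (M * η + 2 * M * ((T1 + 1) * C / Real.log H)) := by
    rw [mul_assoc, abs_mul, abs_of_pos hL4, abs_mul]
    refine mul_le_mul_of_nonneg_left ?_ hL4.le
    have := mul_le_mul hD1 u3 (abs_nonneg _) zero_le_one
    rwa [one_mul] at this
  have r4 : 2 * M * ((T1 + 1) * C / Real.log H) ≤ ε / 3 := by
    have a1 : 2 * M * ((T1 + 1) * C / Real.log H) = ε / 3 * (c3 / Real.log H) := by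
      rw [hc3]
      field_simp
      ring
    have a2 : c3 / Real.log H ≤ 1 := by
      rw [div_le_one hl]
      linarith only [s3, q1, hb0, p4]
    rw [a1]
    exact mul_le_of_le_one_right (by positivity) a2
  have r5 : κ * S0 ≤ 2 * ε / 3 := by
    have a1 : κ * S0 = ε / 3 * (c1 / E.w) + ε / 3 * (B E.w * c2 / L) := by
      rw [hκ, hδ, hc1, hc2]
      field_simp
      ring
    have a2 : c1 / E.w ≤ 1 := by
      rw [div_le_one hw0]
      linarith only [s7, hA]
    have a3 : B E.w * c2 / L ≤ 1 := by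
      rw [div_le_one hL]
      linarith only [s2, hb0, p3, p4]
    have a4 := mul_le_of_le_one_right (by positivity : 0 ≤ ε / 3) a2
    have a5 := mul_le_of_le_one_right (by positivity : 0 ≤ ε / 3) a3
    linarith only [a1, a4, a5]
  have r6 := mul_le_mul_of_nonneg_left r5 hL4.le
  have r7 := mul_le_mul_of_nonneg_left r4 hL4.le
  linarith only [r2, r3, r6, r7]

end Pool.Agent.Lib.MP_c03ca8_nt.Q
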