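import Pool.Agent.Lib.MP_c03ca8_nt.Q.Err
import Pool.Agent.Lib.MP_c03ca8_nt.Q.MainT

set_option autoImplicit false

noncomputable section

namespace Pool.Agent.Lib.MP_c03ca8_nt.Q

open Finset Real

theorem asym_tri {c L S M V e e' : ℝ} (hc : 0 ≤ c) (h1 : |S - c * M| ≤ e * (c * L))
    (h2 : |M - L * V| ≤ e' * L) : |S - c * L * V| ≤ (e + e') * (c * L) := by
  have h3 : S - c * L * V = (S - c * M) + c * (M - L * V) := by ring
  have h4 : |c * (M - L * V)| ≤ c * (e' * L) := by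
    rw [abs_mul, abs_of_nonneg hc]
    exact mul_le_mul_of_nonneg_left h2 hc
  rw [h3]
  calc |S - c * M + c * (M - L * V)| ≤ |S - c * M| + |c * (M - L * V)| := abs_add_le _ _
    _ ≤ e * (c * L) + c * (e' * L) := add_le_add h1 h4
    _ = (e + e') * (c * L) := by ring

theorem asym_c (E : Env) : (0 : ℝ) ≤ (E.X : ℝ) / E.W := by positivity

/-- `err1`, `main0`. -/
theorem asym0 {ν θ : ℝ} {T1 T2 M : ℕ} (hr : Rng ν θ T1 T2 M) {ε : ℝ} (hε : 0 < ε) :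
    Ev θ fun E => ∀ (jj : Slot → ℕ), (∀ s, jj s < M) → ∑ s, (jj s + 1) ≤ T1 →
      |∑ n ∈ E.I, Pw E.P E.h (cz (E.H ν) jj) n -
        E.Sc ν * ∏ l, dl (jj (l, false)) (jj (l, true))| ≤ ε * E.Sc ν := by
  have hε2 : 0 < ε / 2 := by positivity
  refine ((err1 hr hε2).and (main0 hr hε2)).mono ?_
  intro E _ _ h jj hj hT
  have h1 := (h.1 jj 0).1 hT
  have h2 := h.2 jj 0 hj
  have h3 := asym_tri (asym_c E) h1 h2
  rw [add_halves] at h3
  exact h3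

/-- `err1` or `err2`, and `main1`. -/
theorem asym1 {ν θ : ℝ} {T1 T2 M : ℕ} (hr : Rng ν θ T1 T2 M) {ε η : ℝ} (hε : 0 < ε)
    (hη : 0 < η) (hη1 : η < 1) :
    Ev θ fun E => ∀ (jj : Slot → ℕ) (i : Fin 4) (m : ℕ), (∀ s, jj s < M) → Kn T1 T2 M jj i m →
      |∑ p ∈ E.pc ν η m, ∑ n ∈ E.I, ind p (n + E.h i) * Pw E.P E.h (cz (E.H ν) jj) n - E.Sc ν *
        ((∏ l ∈ univ.erase i, dl (jj (l, false)) (jj (l, true))) *
          (al m * Tk M m (jj (i, false)) (jj (i, true)) +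
            be m * Tk M (m + 1) (jj (i, false)) (jj (i, true))))| ≤
        (ε + M * η) * E.Sc ν := by
  have hε2 : 0 < ε / 2 := by positivity
  refine (((err1 hr hε2).and (err2 hr hε2)).and (main1 hr hε2 hη hη1)).mono ?_
  intro E _ _ h jj i m hj hK
  obtain ⟨⟨h1, h2⟩, h3⟩ := h
  have hm : m < T1 := by
    rcases hK with hK | hK
    · omega
    · omega
  have hpc : ∀ p ∈ E.pc ν η m,
      p ∈ E.P ∧ E.H ν ^ m ≤ (p : ℝ) ∧ (p : ℝ) < E.H ν ^ (m + 1) := by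
    intro p hp
    have := mem_filter.mp hp
    exact ⟨this.1, this.2.1, this.2.2.1⟩
  have h4 : |∑ p ∈ E.pc ν η m, (∑ n ∈ E.I, ind p (n + E.h i) * Pw E.P E.h (cz (E.H ν) jj) n -
      E.X / E.W * M1 E.P (zp (cz (E.H ν) jj) i p) p i)| ≤ ε / 2 * E.Sc ν := by
    rcases hK with hK | hK
    · exact (abs_sum_le_sum_abs _ _).trans
        ((h1 jj i).2 m _ (fun p hp => ⟨(hpc p hp).1, (hpc p hp).2.2⟩) hK)
    · exact h2 jj i m _ hj hpc hK.1 hK.2.1 hK.2.2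
  rw [sum_sub_distrib, ← mul_sum] at h4
  have h5 := asym_tri (asym_c E) h4 (h3 jj i m hj hm)
  have h6 : ε / 2 + (ε / 2 + M * η) = ε + M * η := by ring
  rw [h6] at h5
  exact h5

/-- `err1` with `m = 0` (`H ^ η ≤ H`), and `main2`. -/
theorem asym2 {ν θ : ℝ} {T1 T2 M : ℕ} (hr : Rng ν θ T1 T2 M) : ∃ K : ℝ, 0 ≤ K ∧
    ∀ {ε η : ℝ}, 0 < ε → 0 < η → η < 1 →
    Ev θ fun E => ∀ (jj : Slot → ℕ) (i : Fin 4), 1 + ∑ s, (jj s + 1) ≤ T1 →
      ∑ p ∈ E.tiny ν η, |∑ n ∈ E.I, ind p (n + E.h i) * Pw E.P E.h (cz (E.H ν) jj) n| ≤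
        (K * η + ε) * E.Sc ν := by
  obtain ⟨K, hK, hmain⟩ := main2 hr
  refine ⟨K, hK, fun {ε η} hε hη hη1 => ?_⟩
  have hε2 : 0 < ε / 2 := by positivity
  refine ((err1 hr hε2).and (hmain hε2 hη hη1)).mono ?_
  intro E hG _ h jj i hT
  obtain ⟨h1, h2⟩ := h
  have hx : (1 : ℝ) ≤ E.x := by
    have := hG.w10
    have := hG.wx
    exact_mod_cast (by omega : 1 ≤ E.x)
  have hH : 1 ≤ E.H ν := Real.one_le_rpow hx (by have := hr.pos; positivity)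
  have hHη : E.H ν ^ η ≤ E.H ν ^ (0 + 1) := by
    have := Real.rpow_le_rpow_of_exponent_le hH hη1.le
    simpa using this
  have h3 := (h1 jj i).2 0 (E.tiny ν η) (fun p hp =>
    ⟨(mem_filter.mp hp).1, lt_of_lt_of_le (mem_filter.mp hp).2 hHη⟩) (by omega)
  have h4 := mul_le_mul_of_nonneg_left (h2 jj i) (asym_c E)
  rw [mul_sum] at h4
  have h5 : ∑ p ∈ E.tiny ν η, |∑ n ∈ E.I, ind p (n + E.h i) * Pw E.P E.h (cz (E.H ν) jj) n| ≤
      ∑ p ∈ E.tiny ν η, |∑ n ∈ E.I, ind p (n + E.h i) * Pw E.P E.h (cz (E.H ν) jj) n -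
          E.X / E.W * M1 E.P (zp (cz (E.H ν) jj) i p) p i| +
        ∑ p ∈ E.tiny ν η, (E.X : ℝ) / E.W * |M1 E.P (zp (cz (E.H ν) jj) i p) p i| := by
    rw [← sum_add_distrib]
    refine sum_le_sum fun p _ => ?_
    have h6 := abs_add_le
      (∑ n ∈ E.I, ind p (n + E.h i) * Pw E.P E.h (cz (E.H ν) jj) n -
        E.X / E.W * M1 E.P (zp (cz (E.H ν) jj) i p) p i)
      (E.X / E.W * M1 E.P (zp (cz (E.H ν) jj) i p) p i)
    rwa [sub_add_cancel, abs_mul, abs_of_nonneg (asym_c E)] at h6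
  have h7 : (K * η + ε) * E.Sc ν =
      ε / 2 * E.Sc ν + (E.X : ℝ) / E.W * ((K * η + ε / 2) * E.L ν ^ 4) := by
    unfold Env.Sc
    ring
  rw [h7]
  exact h5.trans (add_le_add h3 h4)

end Pool.Agent.Lib.MP_c03ca8_nt.Q
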