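import Pool.Agent.Lib.MP_c03ca8_nt.Q.Box

set_option autoImplicit false

noncomputable section

namespace Pool.Agent.Lib.MP_c03ca8_nt.Q

open Finset Real

/-- The bound of `bv`. -/
def bvB (x X Q P1 P2 Dm γ C0 : ℝ) : ℝ :=
  C0 ^ 3 * P2 * Dm + γ * x + Q + X / C0 + √(X * P2) + X / √(γ * P1) + Q * √(X / γ)

/-- Lower end of the range of the smooth variable. -/
def bv_A (x : ℕ) (P : ℝ) : ℕ := ⌈(x : ℝ) / P⌉₊

/-- Upper end of the range of the smooth variable. -/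
def bv_B (x X : ℕ) (P γ : ℝ) : ℕ := max (bv_A x P) ⌊((x : ℝ) + X) / (P * (1 + γ))⌋₊

/-- The two edges of the interval. -/
def bv_E (x X q a : ℕ) (P2 γ : ℝ) : Finset ℕ :=
  (cls x X q a).filter fun n => (n : ℝ) ≤ x + (γ * x + P2) ∨ (x : ℝ) + X - 2 * γ * x < n

theorem bv_AB (x X : ℕ) (P γ : ℝ) : bv_A x P ≤ bv_B x X P γ := le_max_left _ _

theorem bv_B_le {x X : ℕ} (hX : X ≤ x) {P γ : ℝ} (hP : 1 ≤ P) (hγ : 0 < γ) :
    (bv_B x X P γ : ℝ) ≤ 2 * x := by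
  have hx : (0 : ℝ) ≤ x := Nat.cast_nonneg x
  have hX' : (X : ℝ) ≤ x := by exact_mod_cast hX
  have hX0 : (0 : ℝ) ≤ X := Nat.cast_nonneg X
  have h1 : bv_A x P ≤ x := by
    unfold bv_A
    rw [Nat.ceil_le]
    exact div_le_self hx hP
  have h2 : (⌊((x : ℝ) + X) / (P * (1 + γ))⌋₊ : ℝ) ≤ 2 * x := by
    have hP' : 1 ≤ P * (1 + γ) := by nlinarith
    refine (Nat.floor_le (by positivity)).trans ?_
    refine (div_le_self (by positivity) hP').trans (by linarith)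
  unfold bv_B
  push_cast
  refine max_le ?_ h2
  have : (bv_A x P : ℝ) ≤ x := by exact_mod_cast h1
  linarith

theorem bv_len {x X : ℕ} {P γ p : ℝ} (hP : 0 < P) (hγ : 0 < γ) (h1 : P ≤ p)
    (h2 : p ≤ P * (1 + γ)) : (bv_B x X P γ : ℝ) - bv_A x P ≤ X / p := by
  have hx : (0 : ℝ) ≤ x := Nat.cast_nonneg x
  have hX0 : (0 : ℝ) ≤ X := Nat.cast_nonneg X
  have hp : 0 < p := hP.trans_le h1
  have ha : (x : ℝ) / P ≤ bv_A x P := Nat.le_ceil _
  have hb : (⌊((x : ℝ) + X) / (P * (1 + γ))⌋₊ : ℝ) ≤ ((x : ℝ) + X) / (P * (1 + γ)) :=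
    Nat.floor_le (by positivity)
  have h3 : ((x : ℝ) + X) / (P * (1 + γ)) ≤ ((x : ℝ) + X) / p :=
    div_le_div_of_nonneg_left (by positivity) hp h2
  have h4 : (x : ℝ) / p ≤ x / P := div_le_div_of_nonneg_left hx hP h1
  have h5 : ((x : ℝ) + X) / p = x / p + X / p := add_div _ _ _
  have h6 : (0 : ℝ) ≤ X / p := by positivity
  unfold bv_B
  push_cast
  rw [sub_le_iff_le_add]
  exact max_le (by linarith) (by linarith)

theorem bv_main {x X : ℕ} (hX : X ≤ x) {P γ p : ℝ} (hP : 0 < P) (hγ : 0 < γ) (h1 : P ≤ p)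
    (h2 : p ≤ P * (1 + γ)) :
    |(bv_B x X P γ : ℝ) - bv_A x P - X / p| ≤ 3 * γ * x * (1 / p) + 2 := by
  have hx : (0 : ℝ) ≤ x := Nat.cast_nonneg x
  have hX0 : (0 : ℝ) ≤ X := Nat.cast_nonneg X
  have hX' : (X : ℝ) ≤ x := by exact_mod_cast hX
  have hp : 0 < p := hP.trans_le h1
  have h0 := bv_len (x := x) (X := X) hP hγ h1 h2
  have ha : (bv_A x P : ℝ) < (x : ℝ) / P + 1 := Nat.ceil_lt_add_one (by positivity)
  have hb : ((x : ℝ) + X) / (P * (1 + γ)) < (⌊((x : ℝ) + X) / (P * (1 + γ))⌋₊ : ℝ) + 1 :=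
    Nat.lt_floor_add_one _
  have hB : (⌊((x : ℝ) + X) / (P * (1 + γ))⌋₊ : ℝ) ≤ bv_B x X P γ := by
    exact Nat.cast_le.mpr (le_max_right _ _)
  have h3 : (x : ℝ) / P ≤ (1 + γ) * x * (1 / p) := by
    rw [mul_one_div, div_le_div_iff₀ hP hp]
    nlinarith [mul_le_mul_of_nonneg_left h2 hx]
  have h4 : (1 - γ) * ((x : ℝ) + X) * (1 / p) ≤ ((x : ℝ) + X) / (P * (1 + γ)) := by
    rw [mul_one_div, div_le_div_iff₀ hp (by positivity)]
    have e : (1 - γ) * (P * (1 + γ)) ≤ p := by nlinarith [mul_pos hP (mul_pos hγ hγ)]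
    nlinarith [mul_le_mul_of_nonneg_left e (by positivity : (0 : ℝ) ≤ (x : ℝ) + X)]
  have h5 : (X : ℝ) / p = X * (1 / p) := by ring
  have h6 : 0 < 1 / p := by positivity
  have h7 : γ * X * (1 / p) ≤ γ * x * (1 / p) := by gcongr
  rw [abs_sub_comm, abs_of_nonneg (by linarith)]
  nlinarith

theorem bv_split {x X : ℕ} (hX : X ≤ x) (q a d : ℕ) {p : ℕ} {P P2 γ : ℝ} (hP : 0 < P)
    (hγ : 0 < γ) (h1 : P ≤ p) (h2 : (p : ℝ) ≤ P * (1 + γ)) (h3 : (p : ℝ) ≤ P2) :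
    |(((cls x X q a).filter fun n => p * d ∣ n).card : ℝ) -
      (((Ioc (bv_A x P) (bv_B x X P γ)).filter fun k => d ∣ k ∧ p * k ≡ a [MOD q]).card : ℝ)| ≤
      (((bv_E x X q a P2 γ).filter fun n => p ∣ n ∧ d ∣ n).card : ℝ) := by
  have hx : (0 : ℝ) ≤ x := Nat.cast_nonneg x
  have hX0 : (0 : ℝ) ≤ X := Nat.cast_nonneg X
  have hX' : (X : ℝ) ≤ x := by exact_mod_cast hX
  have hp : (0 : ℝ) < p := hP.trans_le h1
  have hp' : 0 < p := by exact_mod_cast hp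
  set Nn := (cls x X q a).filter fun n => p * d ∣ n
  set Mm := (Ioc (bv_A x P) (bv_B x X P γ)).filter fun k => d ∣ k ∧ p * k ≡ a [MOD q]
  set Ee := (bv_E x X q a P2 γ).filter fun n => p ∣ n ∧ d ∣ n
  have hle : Mm.card ≤ Nn.card := by
    refine card_le_card_of_injOn (fun k => p * k) ?_ ?_
    · intro k hk
      simp only [Mm, coe_filter, mem_Ioc, Set.mem_ofPred_eq] at hk
      obtain ⟨⟨k1, k2⟩, k3, k4⟩ := hk
      simp only [Nn, cls, coe_filter, mem_filter, mem_Ioc, Set.mem_ofPred_eq]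
      refine ⟨⟨⟨?_, ?_⟩, k4⟩, Nat.mul_dvd_mul_left p k3⟩
      · have ha : (x : ℝ) / P ≤ bv_A x P := Nat.le_ceil _
        have k1' : (bv_A x P : ℝ) < k := by exact_mod_cast k1
        have : (x : ℝ) < k * P := by
          rw [← div_lt_iff₀ hP]
          linarith
        have k0 : (0 : ℝ) ≤ k := Nat.cast_nonneg k
        have : (x : ℝ) < p * k := by nlinarith
        exact_mod_cast this
      · have k5 : k ≤ ⌊((x : ℝ) + X) / (P * (1 + γ))⌋₊ := by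
          unfold bv_B at k2
          rcases le_max_iff.mp k2 with h | h
          · omega
          · exact h
        have k6 : (k : ℝ) ≤ ((x : ℝ) + X) / (P * (1 + γ)) :=
          (Nat.le_floor_iff (by positivity)).mp k5
        rw [le_div_iff₀ (by positivity)] at k6
        have k0 : (0 : ℝ) ≤ k := Nat.cast_nonneg k
        have : (p : ℝ) * k ≤ x + X := by nlinarith
        exact_mod_cast this
    · intro k _ k' _ h
      exact Nat.eq_of_mul_eq_mul_left hp' h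
  have hge : Nn.card ≤ Mm.card + Ee.card := by
    have hsub : Nn ⊆ Mm.image (fun k => p * k) ∪ Ee := by
      intro n hn
      simp only [Nn, mem_filter] at hn
      obtain ⟨hn1, hn2⟩ := hn
      obtain ⟨k, rfl⟩ : p ∣ n := Dvd.dvd.trans (Nat.dvd_mul_right p d) hn2
      have hdk : d ∣ k := Nat.dvd_of_mul_dvd_mul_left hp' hn2
      have hn3 : p * k ≡ a [MOD q] := (mem_filter.mp hn1).2
      by_cases hk : k ∈ Ioc (bv_A x P) (bv_B x X P γ)
      · exact mem_union_left _ (mem_image.mpr ⟨k, mem_filter.mpr ⟨hk, hdk, hn3⟩, rfl⟩)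
      · refine mem_union_right _ (mem_filter.mpr ⟨mem_filter.mpr ⟨hn1, ?_⟩,
          Nat.dvd_mul_right p k, hdk.mul_left p⟩)
        rw [mem_Ioc, not_and_or, not_lt, not_le] at hk
        push_cast
        rcases hk with hk | hk
        · left
          have ha : (bv_A x P : ℝ) < (x : ℝ) / P + 1 := Nat.ceil_lt_add_one (by positivity)
          have k1 : (k : ℝ) ≤ bv_A x P := by exact_mod_cast hk
          have k2 : (p : ℝ) * k ≤ p * (x / P + 1) := by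
            apply mul_le_mul_of_nonneg_left _ hp.le
            linarith
          have k3 : (p : ℝ) * (x / P) ≤ P * (1 + γ) * (x / P) :=
            mul_le_mul_of_nonneg_right h2 (by positivity)
          have k4 : P * (1 + γ) * (x / P) = (1 + γ) * x := by field_simp
          nlinarith
        · right
          have k1 : ⌊((x : ℝ) + X) / (P * (1 + γ))⌋₊ < k := (le_max_right _ _).trans_lt hk
          have k2 : ((x : ℝ) + X) / (P * (1 + γ)) < k := (Nat.floor_lt (by positivity)).mp k1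
          rw [div_lt_iff₀ (by positivity)] at k2
          have k0 : (0 : ℝ) ≤ k := Nat.cast_nonneg k
          have k3 : (k : ℝ) * P ≤ p * k := by nlinarith
          have k4 : (x : ℝ) + X < p * k * (1 + γ) := by nlinarith
          have k5 : (p : ℝ) * k ≤ x + X := by
            have := (mem_Ioc.mp (mem_filter.mp hn1).1).2
            exact_mod_cast this
          nlinarith
    exact (card_le_card hsub).trans ((card_union_le _ _).trans
      (Nat.add_le_add_right card_image_le _))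
  have a1 : (Mm.card : ℝ) ≤ Nn.card := by exact_mod_cast hle
  have a2 : (Nn.card : ℝ) ≤ Mm.card + Ee.card := by exact_mod_cast hge
  rw [abs_of_nonneg (by linarith)]
  linarith

theorem bv_cls_le {q : ℕ} (hq : 1 ≤ q) (u a : ℕ) {L : ℝ} (hL : 0 ≤ L) :
    ((cls u (⌊L⌋₊ + 1) q a).card : ℝ) ≤ L * (1 / q) + 2 := by
  have h := (abs_le.mp (card_cls hq u (⌊L⌋₊ + 1) a)).2
  have hq' : (1 : ℝ) ≤ q := by exact_mod_cast hq
  have h1 : (⌊L⌋₊ : ℝ) ≤ L := Nat.floor_le hL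
  have h2 : (((⌊L⌋₊ + 1 : ℕ) : ℝ)) / q ≤ L * (1 / q) + 1 := by
    push_cast
    rw [add_div, mul_one_div]
    have : (1 : ℝ) / q ≤ 1 := div_le_self zero_le_one hq'
    have : (⌊L⌋₊ : ℝ) / q ≤ L / q := by gcongr
    linarith
  linarith

theorem bv_edge {q : ℕ} (hq : 1 ≤ q) (x X a : ℕ) {P2 γ : ℝ} (hP2 : 0 ≤ P2) (hγ : 0 < γ) :
    ((bv_E x X q a P2 γ).card : ℝ) ≤ (3 * γ * x + P2) * (1 / q) + 4 := by
  have hx : (0 : ℝ) ≤ x := Nat.cast_nonneg x
  have l1 : 0 ≤ γ * x + P2 := by positivity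
  have l2 : 0 ≤ 2 * γ * x := by positivity
  have hsub : bv_E x X q a P2 γ ⊆ cls x (⌊γ * x + P2⌋₊ + 1) q a ∪
      cls (x + X - (⌊2 * γ * x⌋₊ + 1)) (⌊2 * γ * x⌋₊ + 1) q a := by
    intro n hn
    simp only [bv_E, cls, mem_filter, mem_Ioc] at hn
    obtain ⟨⟨⟨n1, n2⟩, n3⟩, n4⟩ := hn
    simp only [cls, mem_union, mem_filter, mem_Ioc]
    rcases n4 with n4 | n4
    · left
      refine ⟨⟨n1, ?_⟩, n3⟩
      have := Nat.lt_floor_add_one (γ * x + P2)
      have : (n : ℝ) ≤ x + (⌊γ * x + P2⌋₊ + 1) := by linarith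
      exact_mod_cast this
    · right
      refine ⟨?_, n3⟩
      have := Nat.lt_floor_add_one (2 * γ * x)
      have h5 : (x : ℝ) + X < n + (⌊2 * γ * x⌋₊ + 1) := by linarith
      have h6 : x + X < n + (⌊2 * γ * x⌋₊ + 1) := by exact_mod_cast h5
      omega
  have h1 := bv_cls_le hq x a l1
  have h2 := bv_cls_le hq (x + X - (⌊2 * γ * x⌋₊ + 1)) a l2
  have h3 := (card_le_card hsub).trans (card_union_le _ _)
  have h4 : ((bv_E x X q a P2 γ).card : ℝ) ≤ ((cls x (⌊γ * x + P2⌋₊ + 1) q a).card : ℝ) +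
      ((cls (x + X - (⌊2 * γ * x⌋₊ + 1)) (⌊2 * γ * x⌋₊ + 1) q a).card : ℝ) := by
    exact_mod_cast h3
  linarith

theorem bv_pairs {Y G : ℝ} (hG : Tame Y G) (S D T : Finset ℕ) (hS : ∀ p ∈ S, Squarefree p)
    (hD : ∀ d ∈ D, Squarefree d) (hT : ∀ n ∈ T, 1 ≤ n ∧ (n : ℝ) ≤ Y) :
    ∑ p ∈ S, ∑ d ∈ D, ((T.filter fun n => p ∣ n ∧ d ∣ n).card : ℝ) ≤ G ^ 2 * T.card := by
  have e : ∑ p ∈ S, ∑ d ∈ D, ((T.filter fun n => p ∣ n ∧ d ∣ n).card : ℝ) =
      ∑ n ∈ T, ((S.filter fun p => p ∣ n).card : ℝ) * ((D.filter fun d => d ∣ n).card : ℝ) := by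
    simp only [card_filter]
    push_cast
    simp only [sum_mul_sum]
    rw [sum_comm (s := T)]
    refine sum_congr rfl fun p _ => ?_
    rw [sum_comm (s := T)]
    refine sum_congr rfl fun d _ => sum_congr rfl fun n _ => ?_
    by_cases h1 : p ∣ n <;> by_cases h2 : d ∣ n <;> simp [h1, h2]
  rw [e]
  have hG0 : 0 ≤ G := by linarith [hG.ten]
  calc _ ≤ ∑ _n ∈ T, G ^ 2 := by
        refine sum_le_sum fun n hn => ?_
        obtain ⟨n1, n2⟩ := hT n hn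
        have a1 := (card_sqf_dvd n1 S hS).trans (hG.pow n n1 n2)
        have a2 := (card_sqf_dvd n1 D hD).trans (hG.pow n n1 n2)
        rw [sq]
        exact mul_le_mul a1 a2 (Nat.cast_nonneg _) hG0
    _ = G ^ 2 * T.card := by
        rw [sum_const, nsmul_eq_mul, mul_comm]

/-- The bound for one box. -/
theorem bv_num {X Q P P1 P2 Dm γ C0 Δ L : ℝ} (hX : 0 ≤ X) (hQ : 0 ≤ Q) (hP1 : 0 < P1)
    (h1 : P1 ≤ P) (h2 : P ≤ P2) (hDm : 0 ≤ Dm) (hγ : 0 < γ) (hC0 : 0 < C0) (hΔ0 : 0 ≤ Δ)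
    (hΔ : Δ ≤ 2 * γ * P) (hL0 : 0 ≤ L) (hL : L ≤ X / P) :
    C0 ^ 3 * Δ * Dm + Δ * L / C0 + √(Δ * L) * (√Δ + √L + Q) ≤
      2 * γ * (C0 ^ 3 * P2 * Dm + X / C0 + √(X * P2) + X / √(γ * P1) + Q * √(X / γ)) := by
  have hP : 0 < P := hP1.trans_le h1
  have hP2 : 0 < P2 := hP.trans_le h2
  have hΔL : Δ * L ≤ 2 * γ * X := by
    calc Δ * L ≤ 2 * γ * P * (X / P) := mul_le_mul hΔ hL hL0 (by positivity)
      _ = 2 * γ * X := by field_simp
  have hΔ2 : Δ ≤ 2 * γ * P2 := hΔ.trans (by gcongr)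
  have t1 : C0 ^ 3 * Δ * Dm ≤ 2 * γ * (C0 ^ 3 * P2 * Dm) := by
    calc C0 ^ 3 * Δ * Dm ≤ C0 ^ 3 * (2 * γ * P2) * Dm := by gcongr
      _ = _ := by ring
  have t2 : Δ * L / C0 ≤ 2 * γ * (X / C0) := by
    rw [← mul_div_assoc]
    gcongr
  have t3 : √(Δ * L) * √Δ ≤ 2 * γ * √(X * P2) := by
    rw [← Real.sqrt_mul (by positivity)]
    apply Real.sqrt_le_iff.mpr ⟨by positivity, ?_⟩
    rw [mul_pow, Real.sq_sqrt (by positivity)]
    calc Δ * L * Δ ≤ 2 * γ * X * (2 * γ * P2) := mul_le_mul hΔL hΔ2 hΔ0 (by positivity)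
      _ = _ := by ring
  have t4 : √(Δ * L) * √L ≤ 2 * γ * (X / √(γ * P1)) := by
    rw [← Real.sqrt_mul (by positivity)]
    apply Real.sqrt_le_iff.mpr ⟨by positivity, ?_⟩
    rw [mul_pow, div_pow, Real.sq_sqrt (by positivity)]
    have hL1 : L ≤ X / P1 := hL.trans (div_le_div_of_nonneg_left hX hP1 h1)
    calc Δ * L * L ≤ 2 * γ * X * (X / P1) := mul_le_mul hΔL hL1 hL0 (by positivity)
      _ = (2 * γ) ^ 2 * (X ^ 2 / (γ * P1)) / 2 := by field_simp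
      _ ≤ _ := half_le_self (by positivity)
  have t5 : √(Δ * L) ≤ 2 * γ * √(X / γ) := by
    apply Real.sqrt_le_iff.mpr ⟨by positivity, ?_⟩
    rw [mul_pow, Real.sq_sqrt (by positivity)]
    calc Δ * L ≤ 2 * γ * X := hΔL
      _ = (2 * γ) ^ 2 * (X / γ) / 2 := by field_simp
      _ ≤ _ := half_le_self (by positivity)
  have t6 : √(Δ * L) * Q ≤ 2 * γ * √(X / γ) * Q := mul_le_mul_of_nonneg_right t5 hQ
  nlinarith

theorem bv_count {Y G P1 γ : ℝ} (hG : Tame Y G) (hP1 : 1 ≤ P1) (hγ : 0 < γ) (hγ1 : γ ≤ 1)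
    (I : Finset ℕ) (hI : ∀ j ∈ I, P1 * (1 + γ) ^ j ≤ Y) : (I.card : ℝ) * γ ≤ 2 * G := by
  have hlog : γ / 2 ≤ Real.log (1 + γ) := by
    have h := Real.one_sub_inv_le_log_of_pos (show 0 < 1 + γ by linarith)
    have : γ / 2 ≤ 1 - (1 + γ)⁻¹ := by
      rw [le_sub_iff_add_le, ← le_sub_iff_add_le', inv_eq_one_div, div_le_iff₀ (by linarith)]
      nlinarith
    linarith
  have hY := hG.log
  have hl0 : 0 ≤ Real.log Y := Real.log_nonneg hG.one_le
  have hsub : I ⊆ range (⌊2 * (G - 1) / γ⌋₊ + 1) := by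
    intro j hj
    rw [mem_range, Nat.lt_add_one_iff]
    apply Nat.le_floor
    have h1 : (1 + γ) ^ j ≤ Y := by
      refine le_trans ?_ (hI j hj)
      exact le_mul_of_one_le_left (by positivity) hP1
    have h2 := Real.log_le_log (by positivity) h1
    rw [Real.log_pow] at h2
    rw [le_div_iff₀ hγ]
    have : (j : ℝ) * (γ / 2) ≤ j * Real.log (1 + γ) :=
      mul_le_mul_of_nonneg_left hlog (Nat.cast_nonneg j)
    linarith
  have h3 : I.card ≤ ⌊2 * (G - 1) / γ⌋₊ + 1 := by simpa using card_le_card hsub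
  have h4 : (I.card : ℝ) ≤ 2 * (G - 1) / γ + 1 := by
    have h5 : (⌊2 * (G - 1) / γ⌋₊ : ℝ) ≤ 2 * (G - 1) / γ :=
      Nat.floor_le (div_nonneg (by linarith) hγ.le)
    have h6 : (I.card : ℝ) ≤ ⌊2 * (G - 1) / γ⌋₊ + 1 := by exact_mod_cast h3
    linarith
  have h7 : (I.card : ℝ) * γ ≤ (2 * (G - 1) / γ + 1) * γ := mul_le_mul_of_nonneg_right h4 hγ.le
  have h8 : (2 * (G - 1) / γ + 1) * γ = 2 * (G - 1) + γ := by field_simp
  linarith

theorem bv_fin {G R y Q P2 : ℝ} (hG : 10 ≤ G) (hR : 0 ≤ R) (hy : 0 ≤ y) (hQ : 0 ≤ Q)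
    (hP2 : 0 ≤ P2) (hPR : P2 ≤ R) :
    G ^ 6 * (4 * G * R) + (G ^ 2 * ((3 * y + P2) * G + 4 * Q) + (3 * y * G + 2 * P2) * G * G) ≤
      G ^ 9 * (R + y + Q) := by
  have g1 : 1 ≤ G := by linarith
  have g2 : G ^ 2 ≤ G ^ 7 := pow_le_pow_right₀ g1 (by norm_num)
  have g3 : G ^ 3 ≤ G ^ 7 := pow_le_pow_right₀ g1 (by norm_num)
  have g7 : 0 ≤ G ^ 7 := by positivity
  have g9 : 10 * G ^ 7 ≤ G ^ 9 := by
    have : 10 ≤ G ^ 2 := by nlinarith
    calc 10 * G ^ 7 ≤ G ^ 2 * G ^ 7 := by gcongr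
      _ = G ^ 9 := by ring
  have k1 : G ^ 3 * y ≤ G ^ 7 * y := by gcongr
  have k2 : G ^ 3 * P2 ≤ G ^ 7 * R := by gcongr
  have k3 : G ^ 2 * P2 ≤ G ^ 7 * R := by gcongr
  have k4 : G ^ 2 * Q ≤ G ^ 7 * Q := by gcongr
  have k5 : 10 * G ^ 7 * (R + y + Q) ≤ G ^ 9 * (R + y + Q) := by gcongr
  have k6 : 0 ≤ G ^ 7 * R := by positivity
  have k7 : 0 ≤ G ^ 7 * y := by positivity
  have k8 : 0 ≤ G ^ 7 * Q := by positivity
  linarith

/-- Bilinear Bombieri-Vinogradov with one smooth factor. Boxes: `Pj = P1 (1 + γ) ^ j`,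
`Jj = {p ∈ S | Pj ≤ p < P(j+1)} ⊆ Ico ⌈Pj⌉₊ (⌈Pj⌉₊ + Δj)`, `Δj = ⌊γ Pj⌋₊ + 1 ≤ 2 γ Pj`, only the
`j ≤ log (P2 / P1) / log (1 + γ) ≤ 2 G / γ` occur, and only those with `Pj < P2`.
`Aj = ⌈x / Pj⌉₊`, `Bj = max Aj ⌊(x + X) / P(j+1)⌋₊`, so `Bj - Aj ≤ X / Pj`, and `k ∈ Ioc Aj Bj`,
`p ∈ Jj` give `x < p k ≤ x + X`. An `n = p k` of the class with `k ∉ Ioc Aj Bj` lies in
`(x, x + γ x + 2 P2]` or in `(x + X - 2 γ x - 2 P2, x + X]`; each such `n` has at most `G` primes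
`p` and `G` squarefree divisors `d` (`card_sqf_dvd`, `card_cls`). Main terms:
`|Bj - Aj - X / p| ≤ 6 γ x / p + 4` for `p ∈ Jj`, sum with `sum_inv_le`. Then `box`. -/
theorem bv {Y G : ℝ} (hG : Tame Y G) (x X Q : ℕ) (hX : X ≤ x) (hx : 2 * (x : ℝ) ≤ Y)
    (hQ : (Q : ℝ) ≤ Y) (a : ℕ → ℕ) (ha : ∀ q ∈ Icc 1 Q, Nat.Coprime (a q) q) (S : Finset ℕ)
    {P1 P2 Dm Bc γ C0 : ℝ} (hS : ∀ p ∈ S, p.Prime ∧ P1 ≤ (p : ℝ) ∧ (p : ℝ) < P2) (hP2 : P2 ≤ Y)
    (hP12 : P1 ≤ P2) (hγ : 0 < γ) (hγ1 : γ ≤ 1) (hγP : 1 ≤ γ * P1)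
    (D : Finset ℕ) (C : ℕ → ℝ) (hDm : 1 ≤ Dm) (hDY : Dm ≤ Y) (hC0 : 1 ≤ C0) (hBc : 0 ≤ Bc)
    (hD : ∀ d ∈ D, Squarefree d ∧ (d : ℝ) < Dm ∧ |C d| ≤ Bc) :
    ∑ q ∈ Icc 1 Q, |∑ p ∈ S, ∑ d ∈ D, C d *
      ((((cls x X q (a q)).filter fun n => p * d ∣ n).card : ℝ) -
        if Nat.Coprime (p * d) q then (X : ℝ) / (q * (p * d)) else 0)| ≤
      Bc * G ^ 9 * bvB x X Q P1 P2 Dm γ C0 := by
  have hG10 := hG.ten
  have hG0 : 0 ≤ G := by linarith
  have hx0 : (0 : ℝ) ≤ x := Nat.cast_nonneg x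
  have hX0 : (0 : ℝ) ≤ X := Nat.cast_nonneg X
  have hX' : (X : ℝ) ≤ x := by exact_mod_cast hX
  have hP1 : 1 ≤ P1 := by
    by_contra hc
    rw [not_le] at hc
    rcases le_or_gt P1 0 with h | h
    · nlinarith
    · nlinarith
  have hP20 : 0 ≤ P2 := by linarith
  have hj : ∀ p : ℕ, ∃ j : ℕ, p ∈ S → P1 * (1 + γ) ^ j ≤ p ∧
      (p : ℝ) < P1 * (1 + γ) ^ j * (1 + γ) := by
    intro p
    by_cases hp : p ∈ S
    · have h1 : 1 ≤ (p : ℝ) / P1 := by
        rw [le_div_iff₀ (by linarith)]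
        linarith [(hS p hp).2.1]
      obtain ⟨j, j1, j2⟩ := exists_nat_pow_near h1 (show 1 < 1 + γ by linarith)
      refine ⟨j, fun _ => ⟨?_, ?_⟩⟩
      · rw [le_div_iff₀ (by linarith)] at j1
        linarith
      · rw [div_lt_iff₀ (by linarith), pow_succ] at j2
        linarith
    · exact ⟨0, fun h => absurd h hp⟩
  choose jx hjx using hj
  set Pj : ℕ → ℝ := fun j => P1 * (1 + γ) ^ j with hPj
  have hPj1 : ∀ j, P1 ≤ Pj j := fun j =>
    le_mul_of_one_le_right (by linarith) (one_le_pow₀ (by linarith))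
  have hPj0 : ∀ j, 0 < Pj j := fun j => by linarith [hPj1 j]
  set I := S.image jx with hI
  have hIP : ∀ j ∈ I, Pj j ≤ P2 := by
    intro j hj
    obtain ⟨p, hp, rfl⟩ := mem_image.mp hj
    exact (hjx p hp).1.trans (hS p hp).2.2.le
  -- the three pieces
  set U : ℕ → ℕ → ℝ := fun q j => ∑ p ∈ S.filter (fun p => jx p = j), ∑ d ∈ D, C d *
    ((((Ioc (bv_A x (Pj j)) (bv_B x X (Pj j) γ)).filter
      fun k => d ∣ k ∧ p * k ≡ a q [MOD q]).card : ℝ) -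
      if Nat.Coprime (p * d) q then
        ((bv_B x X (Pj j) γ : ℝ) - bv_A x (Pj j)) / (q * d) else 0) with hU
  have hd1 : ∀ d ∈ D, 1 ≤ d := fun d hd => Nat.pos_of_ne_zero (hD d hd).1.ne_zero
  have step : ∀ q ∈ Icc 1 Q, |∑ p ∈ S, ∑ d ∈ D, C d *
      ((((cls x X q (a q)).filter fun n => p * d ∣ n).card : ℝ) -
        if Nat.Coprime (p * d) q then (X : ℝ) / (q * (p * d)) else 0)| ≤
      ∑ j ∈ I, |U q j| + (Bc * (G ^ 2 * ((3 * γ * x + P2) * (1 / q) + 4)) +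
        Bc * ((3 * γ * x * G + 2 * P2) * G) * (1 / q)) := by
    intro q hq
    have hq1 : 1 ≤ q := (mem_Icc.mp hq).1
    have hq0 : (0 : ℝ) < q := by exact_mod_cast hq1
    set V : ℕ → ℕ → ℝ := fun p d => C d *
      ((((Ioc (bv_A x (Pj (jx p))) (bv_B x X (Pj (jx p)) γ)).filter
        fun k => d ∣ k ∧ p * k ≡ a q [MOD q]).card : ℝ) -
        if Nat.Coprime (p * d) q then
          ((bv_B x X (Pj (jx p)) γ : ℝ) - bv_A x (Pj (jx p))) / (q * d) else 0) with hV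
    have e1 : ∑ p ∈ S, ∑ d ∈ D, V p d = ∑ j ∈ I, U q j := by
      rw [← sum_fiberwise_of_maps_to (s := S) (t := I) (g := jx)
        (fun p hp => mem_image_of_mem jx hp)]
      refine sum_congr rfl fun j _ => sum_congr rfl fun p hp => ?_
      have := (mem_filter.mp hp).2
      simp only [hV, this]
    have e2 : ∀ p ∈ S, ∀ d ∈ D, |C d *
        ((((cls x X q (a q)).filter fun n => p * d ∣ n).card : ℝ) -
          if Nat.Coprime (p * d) q then (X : ℝ) / (q * (p * d)) else 0) - V p d| ≤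
        Bc * (((bv_E x X q (a q) P2 γ).filter fun n => p ∣ n ∧ d ∣ n).card : ℝ) +
          Bc * ((3 * γ * x * (1 / p) + 2) * (1 / d)) * (1 / q) := by
      intro p hp d hd
      have hp0 : (0 : ℝ) < p := by exact_mod_cast (hS p hp).1.pos
      have hd0 : (0 : ℝ) < d := by exact_mod_cast hd1 d hd
      have s1 := bv_split hX q (a q) d (hPj0 (jx p)) hγ (hjx p hp).1 (hjx p hp).2.le
        (hS p hp).2.2.le
      have s2 := bv_main hX (hPj0 (jx p)) hγ (hjx p hp).1 (hjx p hp).2.le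
      have s3 : |(if Nat.Coprime (p * d) q then
          ((bv_B x X (Pj (jx p)) γ : ℝ) - bv_A x (Pj (jx p))) / (q * d) else 0) -
          (if Nat.Coprime (p * d) q then (X : ℝ) / (q * (p * d)) else 0)| ≤
          (3 * γ * x * (1 / p) + 2) * (1 / d) * (1 / q) := by
        split_ifs
        · have e : ((bv_B x X (Pj (jx p)) γ : ℝ) - bv_A x (Pj (jx p))) / (q * d) -
              (X : ℝ) / (q * (p * d)) =
              ((bv_B x X (Pj (jx p)) γ : ℝ) - bv_A x (Pj (jx p)) - X / p) * (1 / d) * (1 / q) := by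
            field_simp
          rw [e, abs_mul, abs_mul, abs_of_pos (by positivity : (0 : ℝ) < 1 / d),
            abs_of_pos (by positivity : (0 : ℝ) < 1 / q)]
          gcongr
        · rw [sub_zero, abs_zero]
          positivity
      simp only [hV]
      rw [← mul_sub, abs_mul, mul_assoc, ← mul_add]
      refine mul_le_mul (hD d hd).2.2 ?_ (abs_nonneg _) hBc
      refine le_trans (le_of_eq ?_) ((abs_add_le _ _).trans (add_le_add s1 s3))
      congr 1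
      ring
    have e3 : ∑ p ∈ S, ∑ d ∈ D,
        Bc * (((bv_E x X q (a q) P2 γ).filter fun n => p ∣ n ∧ d ∣ n).card : ℝ) ≤
        Bc * (G ^ 2 * ((3 * γ * x + P2) * (1 / q) + 4)) := by
      simp only [← mul_sum]
      refine mul_le_mul_of_nonneg_left ?_ hBc
      refine (bv_pairs hG S D _ (fun p hp => (hS p hp).1.prime.squarefree)
        (fun d hd => (hD d hd).1) ?_).trans ?_
      · intro n hn
        have := mem_Ioc.mp (mem_filter.mp (mem_filter.mp hn).1).1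
        refine ⟨by omega, ?_⟩
        have h2 : (n : ℝ) ≤ x + X := by exact_mod_cast this.2
        linarith
      · exact mul_le_mul_of_nonneg_left (bv_edge hq1 x X (a q) hP20 hγ) (by positivity)
    have e4 : ∑ p ∈ S, ∑ d ∈ D, Bc * ((3 * γ * x * (1 / p) + 2) * (1 / d)) * (1 / q) ≤
        Bc * ((3 * γ * x * G + 2 * P2) * G) * (1 / q) := by
      simp only [← sum_mul, ← mul_sum]
      have i1 := sum_inv_le hG S fun p hp => (hS p hp).2.2.le.trans hP2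
      have i2 := sum_inv_le hG D fun d hd => (hD d hd).2.1.le.trans hDY
      have i3 : (S.card : ℝ) ≤ P2 := by
        have : S ⊆ Icc 1 ⌊P2⌋₊ := fun p hp =>
          mem_Icc.mpr ⟨(hS p hp).1.one_le, Nat.le_floor (hS p hp).2.2.le⟩
        have h1 : S.card ≤ ⌊P2⌋₊ := by simpa using card_le_card this
        exact (Nat.cast_le.mpr h1).trans (Nat.floor_le hP20)
      have i4 : ∑ p ∈ S, (3 * γ * x * (1 / (p : ℝ)) + 2) ≤ 3 * γ * x * G + 2 * P2 := by
        rw [sum_add_distrib, ← mul_sum, sum_const, nsmul_eq_mul]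
        have := mul_le_mul_of_nonneg_left i1 (by positivity : (0 : ℝ) ≤ 3 * γ * x)
        linarith
      have i5 : 0 ≤ ∑ d ∈ D, 1 / (d : ℝ) := sum_nonneg fun d _ => by positivity
      gcongr
    set T : ℕ → ℕ → ℝ := fun p d => C d *
      ((((cls x X q (a q)).filter fun n => p * d ∣ n).card : ℝ) -
        if Nat.Coprime (p * d) q then (X : ℝ) / (q * (p * d)) else 0) with hT
    have e5 : ∑ p ∈ S, ∑ d ∈ D, T p d =
        ∑ j ∈ I, U q j + ∑ p ∈ S, ∑ d ∈ D, (T p d - V p d) := by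
      rw [← e1]
      simp only [sum_sub_distrib]
      ring
    have e6 : |∑ p ∈ S, ∑ d ∈ D, (T p d - V p d)| ≤
        Bc * (G ^ 2 * ((3 * γ * x + P2) * (1 / q) + 4)) +
          Bc * ((3 * γ * x * G + 2 * P2) * G) * (1 / q) := by
      refine (abs_sum_le_sum_abs _ _).trans ?_
      refine le_trans (sum_le_sum fun p hp => (abs_sum_le_sum_abs _ _).trans
        (sum_le_sum fun d hd => e2 p hp d hd)) ?_
      simp only [sum_add_distrib]
      exact add_le_add e3 e4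
    change |∑ p ∈ S, ∑ d ∈ D, T p d| ≤ _
    rw [e5]
    exact (abs_add_le _ _).trans (add_le_add (abs_sum_le_sum_abs _ _) e6)
  refine (sum_le_sum step).trans ?_
  set R : ℝ := C0 ^ 3 * P2 * Dm + X / C0 + √(X * P2) + X / √(γ * P1) + Q * √(X / γ) with hR
  have hR0 : 0 ≤ R := by positivity
  have b1 : ∀ j ∈ I, ∑ q ∈ Icc 1 Q, |U q j| ≤ Bc * G ^ 6 * (2 * γ * R) := by
    intro j hj
    have hγj : 1 ≤ γ * Pj j := hγP.trans (mul_le_mul_of_nonneg_left (hPj1 j) hγ.le)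
    have hJ : S.filter (fun p => jx p = j) ⊆
        Ico ⌈Pj j⌉₊ (⌈Pj j⌉₊ + (⌊γ * Pj j⌋₊ + 1)) := by
      intro p hp
      obtain ⟨hp1, rfl⟩ := mem_filter.mp hp
      obtain ⟨k1, k2⟩ := hjx p hp1
      refine mem_Ico.mpr ⟨Nat.ceil_le.mpr k1, ?_⟩
      have k3 := Nat.le_ceil (Pj (jx p))
      have k4 := Nat.lt_floor_add_one (γ * Pj (jx p))
      have k5 : (p : ℝ) < Pj (jx p) * (1 + γ) := k2
      have : (p : ℝ) < ⌈Pj (jx p)⌉₊ + (⌊γ * Pj (jx p)⌋₊ + 1) := by nlinarith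
      exact_mod_cast this
    have hb := box hG Q hQ a ha _ _ _ _ _ hJ (bv_AB x X (Pj j) γ)
      ((bv_B_le hX (hP1.trans (hPj1 j)) hγ).trans hx) D C hDm hC0 hBc hD
    refine hb.trans (mul_le_mul_of_nonneg_left ?_ (by positivity))
    refine bv_num hX0 (Nat.cast_nonneg Q) (by linarith) (hPj1 j) (hIP j hj) (by linarith) hγ
      (by linarith) (Nat.cast_nonneg _) ?_ ?_ ?_
    · have := Nat.floor_le (show 0 ≤ γ * Pj j by linarith)
      push_cast
      linarith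
    · have : (bv_A x (Pj j) : ℝ) ≤ bv_B x X (Pj j) γ := Nat.cast_le.mpr (bv_AB x X (Pj j) γ)
      linarith
    · refine bv_len (hPj0 j) hγ le_rfl ?_
      exact le_mul_of_one_le_right (hPj0 j).le (by linarith)
  have b2 : ∑ q ∈ Icc 1 Q, ∑ j ∈ I, |U q j| ≤ Bc * G ^ 6 * (4 * G * R) := by
    rw [sum_comm]
    refine (sum_le_sum b1).trans ?_
    rw [sum_const, nsmul_eq_mul]
    have hc := bv_count hG hP1 hγ hγ1 I fun j hj => (hIP j hj).trans hP2
    calc (I.card : ℝ) * (Bc * G ^ 6 * (2 * γ * R)) = Bc * G ^ 6 * (2 * (I.card * γ) * R) := by ring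
      _ ≤ Bc * G ^ 6 * (2 * (2 * G) * R) := by gcongr
      _ = _ := by ring
  have b3 : ∑ q ∈ Icc 1 Q, (Bc * (G ^ 2 * ((3 * γ * x + P2) * (1 / (q : ℝ)) + 4)) +
      Bc * ((3 * γ * x * G + 2 * P2) * G) * (1 / q)) ≤
      Bc * (G ^ 2 * ((3 * γ * x + P2) * G + 4 * Q)) +
        Bc * ((3 * γ * x * G + 2 * P2) * G) * G := by
    have i1 := sum_inv_le hG (Icc 1 Q) fun q hq =>
      (Nat.cast_le.mpr (mem_Icc.mp hq).2).trans hQ
    rw [sum_add_distrib]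
    simp only [← mul_sum, sum_add_distrib, sum_const, Nat.card_Icc, add_tsub_cancel_right,
      nsmul_eq_mul]
    rw [mul_comm (Q : ℝ) 4]
    gcongr
  rw [sum_add_distrib]
  refine (add_le_add b2 b3).trans ?_
  have hB : bvB x X Q P1 P2 Dm γ C0 = R + γ * x + Q := by
    rw [hR, bvB]
    ring
  have hPR : P2 ≤ R := by
    have h1 : P2 ≤ C0 ^ 3 * P2 * Dm := by
      have : 1 ≤ C0 ^ 3 := one_le_pow₀ hC0
      calc P2 = 1 * P2 * 1 := by ring
        _ ≤ C0 ^ 3 * P2 * Dm := by gcongr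
    have h2 : 0 ≤ X / C0 + √(X * P2) + X / √(γ * P1) + Q * √(X / γ) := by positivity
    rw [hR]
    linarith
  rw [hB]
  have hγx : 0 ≤ γ * x := by positivity
  have hQ0 : (0 : ℝ) ≤ Q := Nat.cast_nonneg Q
  have fin := bv_fin hG10 hR0 hγx hQ0 hP20 hPR
  calc _ = Bc * (G ^ 6 * (4 * G * R) + (G ^ 2 * ((3 * (γ * x) + P2) * G + 4 * Q) +
        (3 * (γ * x) * G + 2 * P2) * G * G)) := by ring
    _ ≤ Bc * (G ^ 9 * (R + γ * x + Q)) := mul_le_mul_of_nonneg_left fin hBc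
    _ = _ := by ring

end Pool.Agent.Lib.MP_c03ca8_nt.Q
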