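import Pool.Agent.Lib.MP_c03ca8_nt.Q.Defs

set_option autoImplicit false

noncomputable section

namespace Pool.Agent.Lib.MP_c03ca8_nt.Q

open Finset Real

theorem basic_two_pow {δ : ℝ} (hδ : 0 < δ) :
    ∃ C : ℝ, 0 < C ∧ ∀ n : ℕ, 1 ≤ n → (2 : ℝ) ^ n.primeFactors.card ≤ C * (n : ℝ) ^ δ := by
  classical
  set K : ℕ := ⌈(2 : ℝ) ^ (1 / δ)⌉₊ with hK
  refine ⟨2 ^ K, by positivity, fun n hn => ?_⟩
  have h1 : ∀ p ∈ n.primeFactors, (2 : ℝ) ≤ (if p < K then 2 else 1) * (p : ℝ) ^ δ := by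
    intro p hp
    have hp1 : (1 : ℝ) ≤ p := by exact_mod_cast (Nat.prime_of_mem_primeFactors hp).one_le
    split_ifs with h
    · have := Real.one_le_rpow hp1 hδ.le
      linarith
    · have h2 : (2 : ℝ) ^ (1 / δ) ≤ p :=
        (Nat.le_ceil _).trans (by exact_mod_cast not_lt.1 h)
      have h3 : ((2 : ℝ) ^ (1 / δ)) ^ δ ≤ (p : ℝ) ^ δ :=
        Real.rpow_le_rpow (by positivity) h2 hδ.le
      rw [← Real.rpow_mul (by norm_num), one_div_mul_cancel hδ.ne', Real.rpow_one] at h3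
      linarith
  have h2 : ∏ p ∈ n.primeFactors, (if p < K then (2 : ℝ) else 1) ≤ 2 ^ K := by
    rw [Finset.prod_ite, Finset.prod_const, Finset.prod_const_one, mul_one]
    refine pow_le_pow_right₀ (by norm_num) ?_
    calc (n.primeFactors.filter fun p => p < K).card ≤ (range K).card :=
          Finset.card_le_card fun p hp => Finset.mem_range.2 (Finset.mem_filter.1 hp).2
      _ = K := Finset.card_range K
  have h3 : ∏ p ∈ n.primeFactors, (p : ℝ) ^ δ ≤ (n : ℝ) ^ δ := by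
    rw [Real.finsetProd_rpow _ _ (fun p _ => Nat.cast_nonneg p)]
    refine Real.rpow_le_rpow (Finset.prod_nonneg fun p _ => Nat.cast_nonneg p) ?_ hδ.le
    have := Nat.le_of_dvd hn (Nat.prod_primeFactors_dvd n)
    rw [← Nat.cast_prod]
    exact Nat.cast_le.2 this
  calc (2 : ℝ) ^ n.primeFactors.card = ∏ _p ∈ n.primeFactors, (2 : ℝ) := by
        rw [Finset.prod_const]
    _ ≤ ∏ p ∈ n.primeFactors, ((if p < K then 2 else 1) * (p : ℝ) ^ δ) :=
        Finset.prod_le_prod (fun _ _ => by norm_num) h1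
    _ = (∏ p ∈ n.primeFactors, (if p < K then (2 : ℝ) else 1)) *
          ∏ p ∈ n.primeFactors, (p : ℝ) ^ δ := Finset.prod_mul_distrib
    _ ≤ 2 ^ K * (n : ℝ) ^ δ :=
        mul_le_mul h2 h3 (Finset.prod_nonneg fun p _ => by positivity) (by positivity)

/-- `∏ 1 / (q - 1) ≤ 2 ^ |T| / ∏ q`. -/
theorem basic_wt_le {T : Finset ℕ} (hT : ∀ q ∈ T, q.Prime) :
    wt T ≤ 2 ^ T.card * (1 / (pr T : ℝ)) := by
  have h : ∀ q ∈ T, 1 / ((q : ℝ) - 1) ≤ 2 * (1 / (q : ℝ)) := by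
    intro q hq
    have h2 : (2 : ℝ) ≤ q := by exact_mod_cast (hT q hq).two_le
    rw [mul_one_div, div_le_div_iff₀ (by linarith) (by linarith)]
    linarith
  have h0 : ∀ q ∈ T, 0 ≤ 1 / ((q : ℝ) - 1) := by
    intro q hq
    have h2 : (2 : ℝ) ≤ q := by exact_mod_cast (hT q hq).two_le
    exact one_div_nonneg.2 (by linarith)
  calc wt T ≤ ∏ q ∈ T, 2 * (1 / (q : ℝ)) := Finset.prod_le_prod h0 h
    _ = 2 ^ T.card * (1 / (pr T : ℝ)) := by
        rw [Finset.prod_mul_distrib, Finset.prod_const, Finset.prod_div_distrib,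
          Finset.prod_const_one, pr, Nat.cast_prod]

theorem basic_inv_totient {n : ℕ} (hn : 1 ≤ n) :
    1 / (Nat.totient n : ℝ) ≤ 2 ^ n.primeFactors.card * (1 / (n : ℝ)) := by
  have h1 : (∏ p ∈ n.primeFactors, p) ≤ 2 ^ n.primeFactors.card * ∏ p ∈ n.primeFactors, (p - 1) := by
    rw [← Finset.prod_const, ← Finset.prod_mul_distrib]
    refine Finset.prod_le_prod' fun p hp => ?_
    have := (Nat.prime_of_mem_primeFactors hp).two_le
    omega
  have hpos : 0 < ∏ p ∈ n.primeFactors, (p - 1) := by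
    refine Finset.prod_pos fun p hp => ?_
    have := (Nat.prime_of_mem_primeFactors hp).two_le
    omega
  have h2 := Nat.totient_mul_prod_primeFactors n
  have h3 : n ≤ 2 ^ n.primeFactors.card * Nat.totient n := by
    refine Nat.le_of_mul_le_mul_right ?_ hpos
    rw [← h2]
    calc Nat.totient n * ∏ p ∈ n.primeFactors, p
        ≤ Nat.totient n * (2 ^ n.primeFactors.card * ∏ p ∈ n.primeFactors, (p - 1)) :=
          Nat.mul_le_mul_left _ h1
      _ = 2 ^ n.primeFactors.card * Nat.totient n * ∏ p ∈ n.primeFactors, (p - 1) := by ring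
  have hφ : (0 : ℝ) < Nat.totient n := by exact_mod_cast Nat.totient_pos.2 hn
  have hn' : (0 : ℝ) < n := by exact_mod_cast hn
  rw [mul_one_div, div_le_div_iff₀ hφ hn', one_mul]
  exact_mod_cast h3

theorem basic_sum_inv {Y G : ℝ} (hG : Tame Y G) (S : Finset ℕ) (hS : ∀ n ∈ S, (n : ℝ) ≤ Y) :
    ∑ n ∈ S, 1 / (n : ℝ) ≤ G := by
  have hY := hG.one_le
  have h1 : ∑ n ∈ S, 1 / (n : ℝ) ≤ ∑ n ∈ insert 0 (Icc 1 ⌊Y⌋₊), 1 / (n : ℝ) := by
    refine Finset.sum_le_sum_of_subset_of_nonneg (fun n hn => ?_) fun n _ _ => by positivity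
    have := Nat.le_floor (hS n hn)
    simp only [Finset.mem_insert, Finset.mem_Icc]
    omega
  rw [Finset.sum_insert (by simp), Nat.cast_zero, div_zero, zero_add] at h1
  have h2 : ∑ n ∈ Icc 1 ⌊Y⌋₊, 1 / (n : ℝ) = (harmonic ⌊Y⌋₊ : ℝ) := by
    rw [harmonic_eq_sum_Icc]
    push_cast
    simp only [one_div]
  have h3 := harmonic_le_one_add_log ⌊Y⌋₊
  have h4 : Real.log (⌊Y⌋₊ : ℝ) ≤ Real.log Y := by
    refine Real.log_le_log ?_ (Nat.floor_le (by linarith))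
    exact_mod_cast Nat.floor_pos.2 hY
  have h5 := hG.log
  linarith

/-- For a prime `p`, `2 ≤ p ^ ε` unless `p < 2 ^ (1 / ε)`; so `2 ^ ω n ≤ C n ^ ε` with
`C = 2 ^ ⌈2 ^ (1 / ε)⌉` (use `∏ p ∈ n.primeFactors, p ≤ n`). Apply it with `ε / 2`; also
`1 + log (3 x) ≤ x ^ ε` and `10 ≤ x ^ ε` for large `x` (`isLittleO_log_rpow_atTop`). -/
theorem tame_eventually {ε : ℝ} (hε : 0 < ε) :
    ∃ x0 : ℕ, ∀ x : ℕ, x0 ≤ x → Tame (3 * (x : ℝ)) ((x : ℝ) ^ ε) := by
  obtain ⟨C, hC, hb⟩ := basic_two_pow (half_pos hε)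
  have t1 : Filter.Tendsto (fun x : ℕ => (x : ℝ) ^ (ε / 2)) Filter.atTop Filter.atTop :=
    (tendsto_rpow_atTop (half_pos hε)).comp tendsto_natCast_atTop_atTop
  have e1 := t1.eventually_ge_atTop (C * 3 ^ (ε / 2))
  have e2 := t1.eventually_ge_atTop (10 + 2 / ε)
  obtain ⟨x0, hx0⟩ := Filter.eventually_atTop.1 (e1.and (e2.and (Filter.eventually_ge_atTop 1)))
  refine ⟨x0, fun x hx => ?_⟩
  obtain ⟨a1, a2, a3⟩ := hx0 x hx
  have hx1 : (1 : ℝ) ≤ x := by exact_mod_cast a3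
  have hsq : (x : ℝ) ^ ε = (x : ℝ) ^ (ε / 2) * (x : ℝ) ^ (ε / 2) := by
    rw [← Real.rpow_add (by linarith), add_halves]
  have he : 0 < 2 / ε := by positivity
  set y : ℝ := (x : ℝ) ^ (ε / 2) with hy
  refine ⟨by linarith, fun n hn hn' => ?_, ?_, by rw [hsq]; nlinarith⟩
  · have h1 : (n : ℝ) ^ (ε / 2) ≤ 3 ^ (ε / 2) * y := by
      rw [hy, ← Real.mul_rpow (by norm_num) (by linarith)]
      exact Real.rpow_le_rpow (Nat.cast_nonneg n) hn' (half_pos hε).le
    calc (2 : ℝ) ^ n.primeFactors.card ≤ C * (n : ℝ) ^ (ε / 2) := hb n hn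
      _ ≤ C * (3 ^ (ε / 2) * y) := by gcongr
      _ = C * 3 ^ (ε / 2) * y := by ring
      _ ≤ y * y := mul_le_mul_of_nonneg_right a1 (by linarith)
      _ = (x : ℝ) ^ ε := hsq.symm
  · have h1 : Real.log (x : ℝ) ≤ y / (ε / 2) := Real.log_le_rpow_div (by linarith) (half_pos hε)
    have h2 : y / (ε / 2) = 2 / ε * y := by field_simp
    have h3 : Real.log 3 ≤ 3 - 1 := Real.log_le_sub_one_of_pos (by norm_num)
    rw [Real.log_mul (by norm_num) (by linarith), hsq]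
    nlinarith

/-- `Nat.count_modEq_card` or `Nat.Ioc_filter_modEq_card`; compare `count_modEq` used in
`Pool/Agent/Lib/MP_c03ca8_nt/Period.lean`. -/
theorem card_cls {q : ℕ} (hq : 0 < q) (x X a : ℕ) :
    |((cls x X q a).card : ℝ) - X / q| ≤ 1 := by
  have h := Nat.Ioc_filter_modEq_card x (x + X) hq a
  have hq' : (0 : ℚ) < q := by exact_mod_cast hq
  set u : ℚ := ((x : ℚ) - a) / q with hu
  have e : (((x + X : ℕ) : ℚ) - a) / q = u + X / q := by
    rw [hu]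
    push_cast
    ring
  have hX : (0 : ℚ) ≤ X / q := by positivity
  rw [e, max_eq_left (sub_nonneg.2 (Int.floor_le_floor (by linarith)))] at h
  have h1 : ((cls x X q a).card : ℚ) = (⌊u + X / q⌋ : ℚ) - (⌊u⌋ : ℚ) := by
    unfold cls
    exact_mod_cast h
  have h2 : |((cls x X q a).card : ℚ) - X / q| ≤ 1 := by
    rw [h1, abs_le]
    have a1 := Int.floor_le (u + X / q)
    have a2 := Int.lt_floor_add_one (u + X / q)
    have a3 := Int.floor_le u
    have a4 := Int.lt_floor_add_one u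
    constructor <;> linarith
  have h3 := (Rat.cast_le (K := ℝ)).2 h2
  simpa only [Rat.cast_abs, Rat.cast_sub, Rat.cast_div, Rat.cast_natCast, Rat.cast_one] using h3

/-- If `m` is coprime to `q` this is one class modulo `q m` (Chinese remainder theorem);
otherwise a common prime of `m` and `q` would divide `a`, so the set is empty. -/
theorem card_cls_dvd {q m a : ℕ} (hq : 0 < q) (hm : 0 < m) (ha : Nat.Coprime a q) (x X : ℕ) :
    |(((cls x X q a).filter fun n => m ∣ n).card : ℝ) -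
      (if Nat.Coprime m q then (X : ℝ) / (q * m) else 0)| ≤ 1 := by
  split_ifs with h
  · have co : Nat.Coprime q m := h.symm
    have e : ((cls x X q a).filter fun n => m ∣ n) =
        cls x X (q * m) (Nat.chineseRemainder co a 0) := by
      ext n
      have hc := (Nat.chineseRemainder co a 0).prop
      simp only [cls, Finset.mem_filter, and_assoc]
      refine and_congr_right fun _ => ?_
      rw [← Nat.modEq_and_modEq_iff_modEq_mul co, ← Nat.modEq_zero_iff_dvd]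
      exact ⟨fun hh => ⟨hh.1.trans hc.1.symm, hh.2.trans hc.2.symm⟩,
        fun hh => ⟨hh.1.trans hc.1, hh.2.trans hc.2⟩⟩
    rw [e]
    have := card_cls (Nat.mul_pos hq hm) x X (Nat.chineseRemainder co a 0)
    rwa [Nat.cast_mul] at this
  · have e : ((cls x X q a).filter fun n => m ∣ n) = ∅ := by
      refine Finset.filter_eq_empty_iff.2 fun n hn hd => h ?_
      have h1 : n ≡ a [MOD q] := (Finset.mem_filter.1 hn).2
      have h2 : Nat.Coprime n q := by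
        unfold Nat.Coprime
        rw [h1.gcd_eq]
        exact ha
      exact Nat.Coprime.coprime_dvd_left hd h2
    rw [e]
    simp

theorem pr_pos {T : Finset ℕ} (hT : ∀ q ∈ T, q.Prime) : 0 < pr T := by
  exact Finset.prod_pos fun q hq => (hT q hq).pos

/-- `Nat.primeFactors_prod`. -/
theorem primeFactors_pr {T : Finset ℕ} (hT : ∀ q ∈ T, q.Prime) : (pr T).primeFactors = T := by
  exact Nat.primeFactors_prod hT

theorem squarefree_pr {T : Finset ℕ} (hT : ∀ q ∈ T, q.Prime) : Squarefree (pr T) := by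
  refine Finset.squarefree_prod_of_pairwise_isCoprime (fun p hp q hq hpq => ?_)
    fun p hp => (hT p hp).squarefree
  simp only [Function.onFun, ← Nat.coprime_iff_isRelPrime]
  exact (Nat.coprime_primes (hT p hp) (hT q hq)).mpr hpq

/-- `T ↦ pr T` is injective on sets of primes (`primeFactors_pr`), with values in `[1, Z)`. -/
theorem sum_pr_le {P : Finset ℕ} (hP : ∀ q ∈ P, q.Prime) (f : ℕ → ℝ) (hf : ∀ r, 0 ≤ f r)
    (S : Finset ℕ) (A : Finset (Finset ℕ)) (hA : A ⊆ P.powerset) (hS : ∀ T ∈ A, pr T ∈ S) :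
    ∑ T ∈ A, f (pr T) ≤ ∑ r ∈ S, f r := by
  have hi : Set.InjOn pr (A : Set (Finset ℕ)) := by
    intro T hT T' hT' h
    have h1 := primeFactors_pr fun q hq => hP q (Finset.mem_powerset.1 (hA hT) hq)
    have h2 := primeFactors_pr fun q hq => hP q (Finset.mem_powerset.1 (hA hT') hq)
    rw [← h1, ← h2, h]
  rw [← Finset.sum_image (f := f) hi]
  refine Finset.sum_le_sum_of_subset_of_nonneg (fun r hr => ?_) fun r _ _ => hf r
  obtain ⟨T, hT, rfl⟩ := Finset.mem_image.1 hr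
  exact hS T hT

/-- Squarefree divisors of `n` inject into the subsets of `n.primeFactors`. -/
theorem card_sqf_dvd {n : ℕ} (hn : 1 ≤ n) (D : Finset ℕ) (hD : ∀ d ∈ D, Squarefree d) :
    (((D.filter fun d => d ∣ n).card : ℕ) : ℝ) ≤ 2 ^ n.primeFactors.card := by
  have h : (D.filter fun d => d ∣ n).card ≤ n.primeFactors.powerset.card := by
    refine Finset.card_le_card_of_injOn Nat.primeFactors (fun d hd => ?_) ?_
    · have hd' := Finset.mem_filter.1 (Finset.mem_coe.1 hd)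
      exact Finset.mem_coe.2 (Finset.mem_powerset.2 (Nat.primeFactors_mono hd'.2 (by omega)))
    · intro d hd d' hd' e
      have h1 := Nat.prod_primeFactors_of_squarefree
        (hD d (Finset.mem_filter.1 (Finset.mem_coe.1 hd)).1)
      have h2 := Nat.prod_primeFactors_of_squarefree
        (hD d' (Finset.mem_filter.1 (Finset.mem_coe.1 hd')).1)
      rw [← h1, ← h2, e]
  rw [Finset.card_powerset] at h
  exact_mod_cast h

/-- `q / φ q = ∏ p / (p - 1) ≤ 2 ^ ω q ≤ G` (`Nat.totient_eq_mul_prod_factors`) and the harmonic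
sum is at most `1 + log Q ≤ G` (`harmonic_le_one_add_log`). -/
theorem sum_inv_totient_le {Y G : ℝ} (hG : Tame Y G) {Q : ℕ} (hQ : (Q : ℝ) ≤ Y) :
    ∑ q ∈ Icc 1 Q, 1 / (Nat.totient q : ℝ) ≤ G ^ 2 := by
  have hle : ∀ n ∈ Icc 1 Q, (n : ℝ) ≤ Y := fun n hn =>
    le_trans (by exact_mod_cast (Finset.mem_Icc.1 hn).2) hQ
  have hG0 : 0 ≤ G := by linarith [hG.ten]
  calc ∑ q ∈ Icc 1 Q, 1 / (Nat.totient q : ℝ) ≤ ∑ q ∈ Icc 1 Q, G * (1 / (q : ℝ)) := by
        refine Finset.sum_le_sum fun q hq => ?_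
        have h1 := (Finset.mem_Icc.1 hq).1
        exact (basic_inv_totient h1).trans
          (mul_le_mul_of_nonneg_right (hG.pow q h1 (hle q hq)) (by positivity))
    _ = G * ∑ q ∈ Icc 1 Q, 1 / (q : ℝ) := by rw [Finset.mul_sum]
    _ ≤ G * G := mul_le_mul_of_nonneg_left (basic_sum_inv hG _ hle) hG0
    _ = G ^ 2 := by ring

theorem sum_inv_le {Y G : ℝ} (hG : Tame Y G) (S : Finset ℕ) (hS : ∀ n ∈ S, (n : ℝ) ≤ Y) :
    ∑ n ∈ S, 1 / (n : ℝ) ≤ G := by
  exact basic_sum_inv hG S hS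

/-- `wt T ≤ 2 ^ |T| / pr T ≤ G / pr T`, then `sum_pr_le` and `sum_inv_le`. -/
theorem sum_wt_le {Y G Z : ℝ} (hG : Tame Y G) {P : Finset ℕ} (hP : ∀ q ∈ P, q.Prime)
    (hZ : Z ≤ Y) : ∑ T ∈ P.powerset.filter (fun T => (pr T : ℝ) < Z), wt T ≤ G ^ 2 := by
  classical
  have hG0 : 0 ≤ G := by linarith [hG.ten]
  set A := P.powerset.filter (fun T => (pr T : ℝ) < Z) with hA
  have hpr : ∀ T ∈ A, ∀ q ∈ T, q.Prime := fun T hT q hq =>
    hP q (Finset.mem_powerset.1 (Finset.mem_filter.1 hT).1 hq)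
  have hY : ∀ T ∈ A, (pr T : ℝ) ≤ Y := fun T hT => (Finset.mem_filter.1 hT).2.le.trans hZ
  have h1 : ∑ T ∈ A, 1 / (pr T : ℝ) ≤ ∑ r ∈ A.image pr, 1 / (r : ℝ) :=
    sum_pr_le hP (fun r => 1 / (r : ℝ)) (fun r => by positivity) _ A (Finset.filter_subset _ _)
      fun T hT => Finset.mem_image_of_mem _ hT
  have h2 : ∑ r ∈ A.image pr, 1 / (r : ℝ) ≤ G := by
    refine sum_inv_le hG _ fun n hn => ?_
    obtain ⟨T, hT, rfl⟩ := Finset.mem_image.1 hn
    exact hY T hT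
  calc ∑ T ∈ A, wt T ≤ ∑ T ∈ A, G * (1 / (pr T : ℝ)) := by
        refine Finset.sum_le_sum fun T hT => (basic_wt_le (hpr T hT)).trans ?_
        have h3 := hG.pow (pr T) (pr_pos (hpr T hT)) (hY T hT)
        rw [primeFactors_pr (hpr T hT)] at h3
        exact mul_le_mul_of_nonneg_right h3 (by positivity)
    _ = G * ∑ T ∈ A, 1 / (pr T : ℝ) := by rw [Finset.mul_sum]
    _ ≤ G * G := mul_le_mul_of_nonneg_left (h1.trans h2) hG0
    _ = G ^ 2 := by ring

theorem Ev.mono {θ : ℝ} {Φ Ψ : Env → Prop} (h : Ev θ Φ)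
    (hi : ∀ E : Env, E.Good → (E.x : ℝ) ^ θ ≤ E.X → Φ E → Ψ E) : Ev θ Ψ := by
  obtain ⟨w0, h⟩ := h
  refine ⟨w0, fun w hw => ?_⟩
  obtain ⟨x0, h⟩ := h w hw
  exact ⟨x0, fun E h1 h2 h3 h4 => hi E h3 h4 (h E h1 h2 h3 h4)⟩

theorem Ev.and {θ : ℝ} {Φ Ψ : Env → Prop} (h : Ev θ Φ) (h' : Ev θ Ψ) :
    Ev θ fun E => Φ E ∧ Ψ E := by
  obtain ⟨w0, h⟩ := h
  obtain ⟨w1, h'⟩ := h'
  refine ⟨max w0 w1, fun w hw => ?_⟩
  obtain ⟨x0, h⟩ := h w (le_of_max_le_left hw)
  obtain ⟨x1, h'⟩ := h' w (le_of_max_le_right hw)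
  exact ⟨max x0 x1, fun E h1 h2 h3 h4 =>
    ⟨h E h1 (le_of_max_le_left h2) h3 h4, h' E h1 (le_of_max_le_right h2) h3 h4⟩⟩

/-- A statement that holds for every `w ≥ w0` once `x ≥ x0 w`. -/
theorem Ev.of_forall {θ : ℝ} {Φ : Env → Prop} (w0 : ℕ)
    (h : ∀ w, w0 ≤ w → ∃ x0 : ℕ, ∀ E : Env, E.w = w → x0 ≤ E.x → E.Good →
      (E.x : ℝ) ^ θ ≤ E.X → Φ E) : Ev θ Φ := ⟨w0, h⟩

end Pool.Agent.Lib.MP_c03ca8_nt.Q
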