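import Pool.Agent.Lib.MP_c03ca8_nt.Q.BoxA
import Pool.Agent.Lib.MP_c03ca8_nt.Q.LSBil

set_option autoImplicit false

noncomputable section

namespace Pool.Agent.Lib.MP_c03ca8_nt.Q

open Finset Real

/-- Write `q = c e` and let `c` and `e` run freely. -/
theorem box_swap (Q : ℕ) (C0 : ℝ) (t : ℕ → ℕ → ℝ) (ht : ∀ c e, 0 ≤ t c e) :
    ∑ q ∈ Icc 1 Q, 1 / (Nat.totient q : ℝ) *
        ∑ c ∈ q.divisors.filter (fun c : ℕ => C0 < (c : ℝ)), t c (q / c) ≤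
      ∑ e ∈ Icc 1 Q, 1 / (Nat.totient e : ℝ) *
        ∑ c ∈ (Icc 1 Q).filter (fun c : ℕ => C0 < (c : ℝ)), 1 / (Nat.totient c : ℝ) * t c e := by
  simp only [mul_sum]
  rw [sum_sigma', ← sum_product']
  have hinj : Set.InjOn (fun x : (_ : ℕ) × ℕ => (x.1 / x.2, x.2))
      ((Icc 1 Q).sigma fun q => q.divisors.filter (fun c : ℕ => C0 < (c : ℝ)) : Finset _) := by
    rintro ⟨q, c⟩ hx ⟨q', c'⟩ hy h
    simp only [coe_sigma, Set.mem_sigma_iff, mem_coe, mem_filter, Nat.mem_divisors] at hx hy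
    simp only [Prod.mk.injEq] at h
    obtain ⟨h1, rfl⟩ := h
    have : q = q' := by
      rw [← Nat.div_mul_cancel hx.2.1.1, h1, Nat.div_mul_cancel hy.2.1.1]
    rw [this]
  refine le_trans (sum_le_sum fun x hx => ?_) ((sum_image (f := fun y : ℕ × ℕ =>
    1 / (Nat.totient y.1 : ℝ) * (1 / (Nat.totient y.2 : ℝ) * t y.2 y.1)) hinj).ge.trans
      (sum_le_sum_of_subset_of_nonneg ?_ fun y _ _ => by have := ht y.2 y.1; positivity))
  · obtain ⟨q, c⟩ := x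
    simp only [mem_sigma, mem_Icc, mem_filter, Nat.mem_divisors] at hx
    obtain ⟨⟨hq1, -⟩, ⟨hc, -⟩, -⟩ := hx
    have hc0 : 0 < c := Nat.pos_of_dvd_of_pos hc hq1
    have he0 : 0 < q / c := Nat.div_pos (Nat.le_of_dvd hq1 hc) hc0
    have h1 : (0 : ℝ) < Nat.totient c := by exact_mod_cast Nat.totient_pos.2 hc0
    have h2 : (0 : ℝ) < Nat.totient (q / c) := by exact_mod_cast Nat.totient_pos.2 he0
    have h3 : (Nat.totient (q / c) : ℝ) * Nat.totient c ≤ Nat.totient q := by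
      have := Nat.totient_super_multiplicative (q / c) c
      rw [Nat.div_mul_cancel hc] at this
      exact_mod_cast this
    rw [← mul_assoc, div_mul_div_comm, one_mul]
    exact mul_le_mul_of_nonneg_right (one_div_le_one_div_of_le (mul_pos h2 h1) h3) (ht _ _)
  · intro y hy
    obtain ⟨⟨q, c⟩, hx, rfl⟩ := mem_image.1 hy
    simp only [mem_sigma, mem_Icc, mem_filter, Nat.mem_divisors] at hx
    obtain ⟨⟨hq1, hq2⟩, ⟨hc, -⟩, hC⟩ := hx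
    have hc0 : 0 < c := Nat.pos_of_dvd_of_pos hc hq1
    have he0 : 0 < q / c := Nat.div_pos (Nat.le_of_dvd hq1 hc) hc0
    simp only [mem_product, mem_Icc, mem_filter]
    exact ⟨⟨he0, (Nat.div_le_self _ _).trans hq2⟩, ⟨hc0, (Nat.le_of_dvd hq1 hc).trans hq2⟩, hC⟩

theorem box_alp {Y G : ℝ} (hG : Tame Y G) (D : Finset ℕ) (C : ℕ → ℝ) {Bc : ℝ} (hBc : 0 ≤ Bc)
    (hD : ∀ d ∈ D, Squarefree d ∧ |C d| ≤ Bc) {k : ℕ} (hk : 1 ≤ k) (hkY : (k : ℝ) ≤ Y) :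
    |alp D C k| ≤ Bc * G := by
  unfold alp
  rw [← sum_filter]
  calc |∑ d ∈ D.filter (fun d => d ∣ k), C d| ≤ ∑ d ∈ D.filter (fun d => d ∣ k), |C d| :=
        abs_sum_le_sum_abs _ _
    _ ≤ ∑ d ∈ D.filter (fun d => d ∣ k), Bc :=
        sum_le_sum fun d hd => (hD d (mem_filter.1 hd).1).2
    _ = Bc * ((D.filter fun d => d ∣ k).card : ℕ) := by rw [sum_const, nsmul_eq_mul, mul_comm]
    _ ≤ Bc * G := mul_le_mul_of_nonneg_left
        ((card_sqf_dvd hk D fun d hd => (hD d hd).1).trans (hG.pow k hk hkY)) hBc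

/-- The `ℓ²` norm of a bounded sequence. -/
theorem box_l2 (M N : ℕ) (f : ℕ → ℂ) {K : ℝ} (hK : 0 ≤ K)
    (hf : ∀ n ∈ Ico M (M + N), ‖f n‖ ≤ K) :
    √(∑ n ∈ Ico M (M + N), ‖f n‖ ^ 2) ≤ √N * K := by
  rw [← Real.sqrt_sq hK, ← Real.sqrt_mul (Nat.cast_nonneg N)]
  refine Real.sqrt_le_sqrt ?_
  calc ∑ n ∈ Ico M (M + N), ‖f n‖ ^ 2 ≤ ∑ n ∈ Ico M (M + N), K ^ 2 :=
        sum_le_sum fun n hn => pow_le_pow_left₀ (norm_nonneg _) (hf n hn) 2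
    _ = N * K ^ 2 := by simp

/-- Sum `box_one` over `q`. Write `q = c e`, `φ c φ e ≤ φ q` (`Nat.totient_super_multiplicative`),
enlarge to all `e, c ≤ Q`, apply `ls_bil` for each `e`; `|alp D C k| ≤ Bc G` for `1 ≤ k ≤ Y`
(`card_sqf_dvd`); `sum_inv_totient_le`. -/
theorem box {Y G : ℝ} (hG : Tame Y G) (Q : ℕ) (hQ : (Q : ℝ) ≤ Y) (a : ℕ → ℕ)
    (ha : ∀ q ∈ Icc 1 Q, Nat.Coprime (a q) q) (J : Finset ℕ) (P Δ A B : ℕ)
    (hJ : J ⊆ Ico P (P + Δ)) (hAB : A ≤ B) (hB : (B : ℝ) ≤ Y)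
    (D : Finset ℕ) (C : ℕ → ℝ) {Dm Bc C0 : ℝ} (hDm : 1 ≤ Dm) (hC0 : 1 ≤ C0) (hBc : 0 ≤ Bc)
    (hD : ∀ d ∈ D, Squarefree d ∧ (d : ℝ) < Dm ∧ |C d| ≤ Bc) :
    ∑ q ∈ Icc 1 Q, |∑ p ∈ J, ∑ d ∈ D, C d *
      ((((Ioc A B).filter fun k => d ∣ k ∧ p * k ≡ a q [MOD q]).card : ℝ) -
        if Nat.Coprime (p * d) q then ((B : ℝ) - A) / (q * d) else 0)| ≤
      Bc * G ^ 6 * (C0 ^ 3 * Δ * Dm + Δ * ((B : ℝ) - A) / C0 +
        √(Δ * ((B : ℝ) - A)) * (√Δ + √((B : ℝ) - A) + Q)) := by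
  have hG10 := hG.ten
  have hG0 : (0 : ℝ) ≤ G := by linarith
  have hN : (((B - A : ℕ) : ℕ) : ℝ) = (B : ℝ) - A := Nat.cast_sub hAB
  have hN0 : (0 : ℝ) ≤ (B : ℝ) - A := by rw [← hN]; exact Nat.cast_nonneg _
  have hΔ : (0 : ℝ) ≤ Δ := Nat.cast_nonneg _
  set f : ℕ → ℕ → ℂ := fun e n => if n ∈ J ∧ Nat.Coprime n e then (1 : ℂ) else 0 with hf
  set g : ℕ → ℕ → ℂ := fun e k => if Nat.Coprime k e then ((alp D C k : ℝ) : ℂ) else 0 with hg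
  set t : ℕ → ℕ → ℝ := fun c e => ∑ ψ ∈ prim c, ‖∑ n ∈ Ico P (P + Δ), f e n * ψ n‖ *
    ‖∑ k ∈ Ico (A + 1) (A + 1 + (B - A)), g e k * ψ k‖ with ht
  have ht0 : ∀ c e, 0 ≤ t c e := fun c e => sum_nonneg fun _ _ => by positivity
  have hlog : 0 ≤ 1 + Real.log Q ∧ 1 + Real.log Q ≤ G := by
    refine ⟨by have := Real.log_natCast_nonneg Q; linarith, le_trans ?_ hG.log⟩
    rcases Nat.eq_zero_or_pos Q with rfl | hQ0
    · have := Real.log_nonneg hG.one_le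
      simpa using this
    · have : Real.log Q ≤ Real.log Y := Real.log_le_log (by exact_mod_cast hQ0) hQ
      linarith
  set R : ℝ := Δ * ((B : ℝ) - A) / C0 + √(Δ * ((B : ℝ) - A)) * (√Δ + √((B : ℝ) - A) + Q) with hR
  have hR0 : 0 ≤ R := by positivity
  have h2 : ∀ e ∈ Icc 1 Q, ∑ c ∈ (Icc 1 Q).filter (fun c : ℕ => C0 < (c : ℝ)),
      1 / (Nat.totient c : ℝ) * t c e ≤ Bc * G ^ 4 * R := by
    intro e _
    refine (ls_bil Q P Δ (A + 1) (B - A) (f e) (g e) hC0).trans ?_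
    have hf1 := box_l2 P Δ (f e) zero_le_one fun n _ => by
      simp only [hf]; split_ifs <;> simp
    have hg1 := box_l2 (A + 1) (B - A) (g e) (mul_nonneg hBc hG0) fun k hk => by
      have hk' := mem_Ico.1 hk
      have hkB : (k : ℝ) ≤ B := by exact_mod_cast (by omega : k ≤ B)
      simp only [hg]
      split_ifs
      · rw [Complex.norm_real, Real.norm_eq_abs]
        exact box_alp hG D C hBc (fun d hd => ⟨(hD d hd).1, (hD d hd).2.2⟩) (by omega)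
          (hkB.trans hB)
      · simpa using mul_nonneg hBc hG0
    rw [hN] at hg1 ⊢
    have h3 : 10 * (1 + Real.log Q) ^ 2 ≤ G ^ 3 := by
      have := pow_le_pow_left₀ hlog.1 hlog.2 2
      calc 10 * (1 + Real.log Q) ^ 2 ≤ G * G ^ 2 := mul_le_mul hG10 this (by positivity) hG0
        _ = G ^ 3 := by ring
    have h4 : √(Δ * ((B : ℝ) - A)) * √(Δ * ((B : ℝ) - A)) = Δ * ((B : ℝ) - A) :=
      Real.mul_self_sqrt (mul_nonneg hΔ hN0)
    have h5 : √(Δ * ((B : ℝ) - A)) = √Δ * √((B : ℝ) - A) := Real.sqrt_mul hΔ _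
    calc _ ≤ G ^ 3 * (√(Δ * ((B : ℝ) - A)) / C0 + √Δ + √((B : ℝ) - A) + Q) *
          (√Δ * 1 * (√((B : ℝ) - A) * (Bc * G))) := by gcongr
      _ = Bc * G ^ 4 * (√(Δ * ((B : ℝ) - A)) * (√Δ * √((B : ℝ) - A)) / C0 +
          √Δ * √((B : ℝ) - A) * (√Δ + √((B : ℝ) - A) + Q)) := by ring
      _ = Bc * G ^ 4 * R := by rw [← h5, h4]
  have hφ := sum_inv_totient_le hG hQ
  have hK : 0 ≤ C0 ^ 3 * Δ * Dm := by positivity
  calc _ ≤ ∑ q ∈ Icc 1 Q, 1 / (Nat.totient q : ℝ) * (3 * Bc * G * C0 ^ 3 * Δ * Dm +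
        ∑ c ∈ q.divisors.filter (fun c : ℕ => C0 < (c : ℝ)), t c (q / c)) := by
        refine sum_le_sum fun q hq => ?_
        have hq' := mem_Icc.1 hq
        have hqQ : (q : ℝ) ≤ Q := by exact_mod_cast hq'.2
        exact box_one hG hq'.1 (hqQ.trans hQ) (ha q hq) J P Δ A B hJ hAB D C hDm hC0 hBc
          fun d hd => ⟨Nat.pos_of_ne_zero (hD d hd).1.ne_zero, (hD d hd).2⟩
    _ = (∑ q ∈ Icc 1 Q, 1 / (Nat.totient q : ℝ)) * (3 * Bc * G * (C0 ^ 3 * Δ * Dm)) +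
        ∑ q ∈ Icc 1 Q, 1 / (Nat.totient q : ℝ) *
          ∑ c ∈ q.divisors.filter (fun c : ℕ => C0 < (c : ℝ)), t c (q / c) := by
        rw [sum_mul, ← sum_add_distrib]
        exact sum_congr rfl fun q _ => by ring
    _ ≤ G ^ 2 * (3 * Bc * G * (C0 ^ 3 * Δ * Dm)) + G ^ 2 * (Bc * G ^ 4 * R) := by
        refine add_le_add (mul_le_mul_of_nonneg_right hφ (by positivity))
          ((box_swap Q C0 t ht0).trans ?_)
        calc _ ≤ ∑ e ∈ Icc 1 Q, 1 / (Nat.totient e : ℝ) * (Bc * G ^ 4 * R) :=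
              sum_le_sum fun e he => mul_le_mul_of_nonneg_left (h2 e he) (by positivity)
          _ ≤ G ^ 2 * (Bc * G ^ 4 * R) := by
              rw [← sum_mul]
              exact mul_le_mul_of_nonneg_right hφ (by positivity)
    _ ≤ Bc * G ^ 6 * (C0 ^ 3 * Δ * Dm + R) := by
        have h3 : (3 : ℝ) ≤ G ^ 3 := by
          have := pow_le_pow_left₀ (by norm_num : (0 : ℝ) ≤ 10) hG10 3
          linarith
        have h4 : Bc * G ^ 3 * (C0 ^ 3 * Δ * Dm) * 3 ≤ Bc * G ^ 3 * (C0 ^ 3 * Δ * Dm) * G ^ 3 :=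
          mul_le_mul_of_nonneg_left h3 (by positivity)
        calc _ = Bc * G ^ 3 * (C0 ^ 3 * Δ * Dm) * 3 + Bc * G ^ 6 * R := by ring
          _ ≤ Bc * G ^ 3 * (C0 ^ 3 * Δ * Dm) * G ^ 3 + Bc * G ^ 6 * R := by linarith
          _ = _ := by ring
    _ = _ := by rw [hR]; ring

end Pool.Agent.Lib.MP_c03ca8_nt.Q
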