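import Pool.Agent.Lib.MP_c03ca8_nt.Q.Basic
import Pool.Agent.Lib.MP_c03ca8_nt.Q.Char

set_option autoImplicit false

noncomputable section

namespace Pool.Agent.Lib.MP_c03ca8_nt.Q

open Finset Real

/-- `α k = ∑ d ∣ k, C d`. -/
def alp (D : Finset ℕ) (C : ℕ → ℝ) (k : ℕ) : ℝ := ∑ d ∈ D, if d ∣ k then C d else 0

theorem boxa_sum_dvd {M : Type*} [AddCommMonoid M] (f : ℕ → M) {d : ℕ} (hd : 1 ≤ d) (A B : ℕ) :
    ∑ k ∈ Ioc A B, (if d ∣ k then f k else 0) = ∑ k ∈ Ioc (A / d) (B / d), f (d * k) := by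
  rw [← sum_filter]
  symm
  refine sum_bij (fun k _ => d * k) ?_ ?_ ?_ ?_
  · intro k hk
    rw [mem_Ioc, Nat.div_lt_iff_lt_mul hd, Nat.le_div_iff_mul_le hd] at hk
    simp only [mem_filter, mem_Ioc, mul_comm d k]
    exact ⟨hk, dvd_mul_left _ _⟩
  · intro k _ k' _ h
    exact Nat.eq_of_mul_eq_mul_left hd h
  · intro k hk
    rw [mem_filter, mem_Ioc] at hk
    obtain ⟨hk, m, rfl⟩ := hk
    refine ⟨m, ?_, rfl⟩
    rw [mem_Ioc, Nat.div_lt_iff_lt_mul hd, Nat.le_div_iff_mul_le hd, mul_comm m d]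
    exact hk
  · intro k _
    rfl

theorem boxa_card_D (D : Finset ℕ) {Dm : ℝ} (hDm : 1 ≤ Dm)
    (hD : ∀ d ∈ D, 1 ≤ d ∧ (d : ℝ) < Dm) : (D.card : ℝ) ≤ Dm := by
  have h : D ⊆ Icc 1 ⌊Dm⌋₊ := fun d hd =>
    mem_Icc.2 ⟨(hD d hd).1, Nat.le_floor (hD d hd).2.le⟩
  have h1 := card_le_card h
  rw [Nat.card_Icc, Nat.add_sub_cancel] at h1
  exact (Nat.cast_le.2 h1).trans (Nat.floor_le (by linarith))

theorem boxa_card_J {J : Finset ℕ} {P Δ : ℕ} (hJ : J ⊆ Ico P (P + Δ)) : (J.card : ℝ) ≤ Δ := by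
  have h1 := card_le_card hJ
  rw [Nat.card_Ico, Nat.add_sub_cancel_left] at h1
  exact_mod_cast h1

/-- The second factor, expanded. -/
theorem boxa_G_eq {q : ℕ} (χ : DirichletCharacter ℂ q) (A B : ℕ) (D : Finset ℕ) (C : ℕ → ℝ)
    (hD : ∀ d ∈ D, 1 ≤ d) :
    ∑ k ∈ Ioc A B, ((alp D C k : ℝ) : ℂ) * χ k =
      ∑ d ∈ D, (C d : ℂ) * χ d * ∑ k ∈ Ioc (A / d) (B / d), χ k := by
  have h1 : ∀ k : ℕ, ((alp D C k : ℝ) : ℂ) * χ k =
      ∑ d ∈ D, if d ∣ k then (C d : ℂ) * χ k else 0 := by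
    intro k
    rw [alp, Complex.ofReal_sum, sum_mul]
    refine sum_congr rfl fun d _ => ?_
    split_ifs <;> simp
  simp_rw [h1]
  rw [sum_comm]
  refine sum_congr rfl fun d hd => ?_
  rw [boxa_sum_dvd (fun k => (C d : ℂ) * χ k) (hD d hd), mul_sum]
  refine sum_congr rfl fun k _ => ?_
  rw [Nat.cast_mul, map_mul, mul_assoc]

theorem boxa_expand {q a : ℕ} (hq : 1 ≤ q) (ha : Nat.Coprime a q) (J : Finset ℕ) (A B : ℕ)
    (D : Finset ℕ) (C : ℕ → ℝ) :
    ((∑ p ∈ J, ∑ d ∈ D, C d *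
      (((Ioc A B).filter fun k => d ∣ k ∧ p * k ≡ a [MOD q]).card : ℝ) : ℝ) : ℂ) =
      1 / (Nat.totient q : ℂ) * ∑ χ : DirichletCharacter ℂ q, χ (a : ZMod q)⁻¹ *
        ((∑ p ∈ J, χ p) * ∑ k ∈ Ioc A B, ((alp D C k : ℝ) : ℂ) * χ k) := by
  have h1 : ∀ p : ℕ, ((∑ d ∈ D, C d *
      (((Ioc A B).filter fun k => d ∣ k ∧ p * k ≡ a [MOD q]).card : ℝ) : ℝ) : ℂ) =
      ∑ k ∈ Ioc A B, ((alp D C k : ℝ) : ℂ) * (if p * k ≡ a [MOD q] then (1 : ℂ) else 0) := by
    intro p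
    simp_rw [alp, Complex.ofReal_sum, sum_mul]
    rw [sum_comm]
    refine sum_congr rfl fun d _ => ?_
    rw [card_filter, Nat.cast_sum, mul_sum, Complex.ofReal_sum]
    refine sum_congr rfl fun k _ => ?_
    by_cases h1 : d ∣ k <;> by_cases h2 : p * k ≡ a [MOD q] <;> simp [h1, h2]
  rw [Complex.ofReal_sum]
  simp_rw [h1, char_orth hq ha, sum_mul_sum, mul_sum]
  rw [sum_comm (s := (univ : Finset (DirichletCharacter ℂ q)))]
  refine sum_congr rfl fun p _ => ?_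
  rw [sum_comm (s := (univ : Finset (DirichletCharacter ℂ q)))]
  refine sum_congr rfl fun k _ => sum_congr rfl fun χ _ => ?_
  rw [Nat.cast_mul, map_mul]
  ring

theorem boxa_one_apply (q n : ℕ) :
    (1 : DirichletCharacter ℂ q) n = if Nat.Coprime n q then 1 else 0 := by
  split_ifs with h
  · exact MulChar.one_apply ((ZMod.isUnit_iff_coprime n q).2 h)
  · exact MulChar.map_nonunit _ (fun h' => h ((ZMod.isUnit_iff_coprime n q).1 h'))

theorem boxa_div_err {d : ℕ} (hd : 1 ≤ d) (A B : ℕ) :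
    |(((B / d : ℕ) : ℝ) - (A / d : ℕ)) - ((B : ℝ) - A) / d| ≤ 1 := by
  have hd' : (0 : ℝ) < d := by exact_mod_cast hd
  have key : ∀ n : ℕ, ((n / d : ℕ) : ℝ) ≤ n / d ∧ (n : ℝ) / d ≤ (n / d : ℕ) + 1 := by
    intro n
    refine ⟨Nat.cast_div_le, ?_⟩
    rw [div_le_iff₀ hd']
    have h1 : n < (n / d + 1) * d := (Nat.div_lt_iff_lt_mul hd).1 (Nat.lt_succ_self _)
    exact_mod_cast h1.le
  have h1 := key A
  have h2 := key B
  rw [sub_div, abs_le]
  constructor <;> linarith [h1.1, h1.2, h2.1, h2.2]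

/-- The trivial character. -/
theorem boxa_triv {G : ℝ} {q : ℕ} (hq : 1 ≤ q) (hG : (2 : ℝ) ^ q.primeFactors.card ≤ G)
    (J : Finset ℕ) {A B : ℕ} (hAB : A ≤ B) (D : Finset ℕ) (C : ℕ → ℝ) {Bc : ℝ} (hBc : 0 ≤ Bc)
    (hD : ∀ d ∈ D, 1 ≤ d ∧ |C d| ≤ Bc) :
    ‖(∑ p ∈ J, (1 : DirichletCharacter ℂ q) p) *
        (∑ k ∈ Ioc A B, ((alp D C k : ℝ) : ℂ) * (1 : DirichletCharacter ℂ q) k) -
      (Nat.totient q : ℂ) * ((∑ p ∈ J, ∑ d ∈ D, C d *
        (if Nat.Coprime (p * d) q then ((B : ℝ) - A) / (q * d) else 0) : ℝ) : ℂ)‖ ≤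
      J.card * (D.card * (Bc * (G + 1))) := by
  have hq' : (0 : ℝ) < q := by exact_mod_cast hq
  have hG0 : 0 ≤ G := le_trans (by positivity) hG
  rw [boxa_G_eq _ A B D C fun d hd => (hD d hd).1, sum_mul_sum, Complex.ofReal_sum, mul_sum,
    ← sum_sub_distrib, ← nsmul_eq_mul, ← sum_const]
  refine (norm_sum_le _ _).trans (sum_le_sum fun p _ => ?_)
  rw [Complex.ofReal_sum, mul_sum, ← sum_sub_distrib, ← nsmul_eq_mul, ← sum_const]
  refine (norm_sum_le _ _).trans (sum_le_sum fun d hd => ?_)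
  have hd1 := (hD d hd).1
  have hd' : (0 : ℝ) < d := by exact_mod_cast hd1
  have hs : ∑ k ∈ Ioc (A / d) (B / d), (1 : DirichletCharacter ℂ q) k =
      ((((Ioc (A / d) (B / d)).filter fun k => Nat.Coprime k q).card : ℝ) : ℂ) := by
    simp_rw [boxa_one_apply]
    rw [card_filter]
    push_cast
    exact sum_congr rfl fun i _ => by split_ifs <;> simp
  rw [hs, boxa_one_apply, boxa_one_apply]
  by_cases h1 : Nat.Coprime p q
  · by_cases h2 : Nat.Coprime d q
    · have h3 : Nat.Coprime (p * d) q := Nat.Coprime.mul_left h1 h2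
      rw [if_pos h1, if_pos h2, if_pos h3]
      set N : ℝ := (((Ioc (A / d) (B / d)).filter fun k => Nat.Coprime k q).card : ℝ) with hN
      have e : (1 : ℂ) * ((C d : ℂ) * 1 * (N : ℂ)) -
          (Nat.totient q : ℂ) * ((C d * (((B : ℝ) - A) / (q * d)) : ℝ) : ℂ) =
          ((C d * (N - (Nat.totient q : ℝ) / q * (((B : ℝ) - A) / d)) : ℝ) : ℂ) := by
        have : (q : ℂ) ≠ 0 := by exact_mod_cast hq'.ne'
        have : (d : ℂ) ≠ 0 := by exact_mod_cast hd'.ne'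
        push_cast
        field_simp
      rw [e, Complex.norm_real, Real.norm_eq_abs, abs_mul]
      refine mul_le_mul (hD d hd).2 ?_ (abs_nonneg _) hBc
      have h4 := card_coprime hq (Nat.div_le_div_right (c := d) hAB)
      have h5 := boxa_div_err hd1 A B
      have h6 : (Nat.totient q : ℝ) / q ≤ 1 := by
        rw [div_le_one hq']; exact_mod_cast Nat.totient_le q
      have h7 : 0 ≤ (Nat.totient q : ℝ) / q := by positivity
      have e2 : N - (Nat.totient q : ℝ) / q * (((B : ℝ) - A) / d) =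
          (N - (Nat.totient q : ℝ) / q * (((B / d : ℕ) : ℝ) - (A / d : ℕ))) +
            (Nat.totient q : ℝ) / q *
              ((((B / d : ℕ) : ℝ) - (A / d : ℕ)) - ((B : ℝ) - A) / d) := by ring
      rw [e2]
      refine (abs_add_le _ _).trans (add_le_add (h4.trans hG) ?_)
      rw [abs_mul, abs_of_nonneg h7]
      exact mul_le_one₀ h6 (abs_nonneg _) h5
    · have h3 : ¬ Nat.Coprime (p * d) q := fun h => h2 (Nat.Coprime.coprime_mul_left h)
      rw [if_neg h2, if_neg h3]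
      simp only [mul_zero, zero_mul, Complex.ofReal_zero, sub_zero, norm_zero]
      positivity
  · have h3 : ¬ Nat.Coprime (p * d) q := fun h => h1 (Nat.Coprime.coprime_mul_right h)
    rw [if_neg h1, if_neg h3]
    simp only [mul_zero, zero_mul, Complex.ofReal_zero, sub_zero, norm_zero]
    positivity

/-- A nontrivial character: the trivial bound. -/
theorem boxa_small {G : ℝ} {q : ℕ} (hq : 1 ≤ q) (hG : (2 : ℝ) ^ q.primeFactors.card ≤ G)
    (χ : DirichletCharacter ℂ q) (hχ : χ ≠ 1)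
    (J : Finset ℕ) (A B : ℕ) (D : Finset ℕ) (C : ℕ → ℝ) {Bc : ℝ} (hBc : 0 ≤ Bc)
    (hD : ∀ d ∈ D, 1 ≤ d ∧ |C d| ≤ Bc) :
    ‖∑ p ∈ J, χ p‖ * ‖∑ k ∈ Ioc A B, ((alp D C k : ℝ) : ℂ) * χ k‖ ≤
      J.card * (D.card * (Bc * (G * χ.conductor))) := by
  have : NeZero q := ⟨by omega⟩
  have hG0 : 0 ≤ G := le_trans (by positivity) hG
  refine mul_le_mul ?_ ?_ (norm_nonneg _) (by positivity)
  · refine (norm_sum_le _ _).trans ?_
    rw [← mul_one (J.card : ℝ), ← nsmul_eq_mul, ← sum_const]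
    exact sum_le_sum fun p _ => χ.norm_le_one _
  · rw [boxa_G_eq _ A B D C fun d hd => (hD d hd).1, ← nsmul_eq_mul, ← sum_const]
    refine (norm_sum_le _ _).trans (sum_le_sum fun d hd => ?_)
    rw [norm_mul, norm_mul, Complex.norm_real, Real.norm_eq_abs]
    refine mul_le_mul ?_ ?_ (norm_nonneg _) hBc
    · exact (mul_le_of_le_one_right (abs_nonneg _) (χ.norm_le_one _)).trans (hD d hd).2
    · have hψ : χ.primitiveCharacter ≠ 1 := by
        intro h
        apply hχ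
        rw [← χ.changeLevel_primitiveCharacter, h, DirichletCharacter.changeLevel_one]
      have h1 := norm_sum_char_le (Nat.one_le_iff_ne_zero.2 χ.conductor_ne_zero) hq _ hψ
        (A / d) (B / d)
      rw [sum_filter] at h1
      simp_rw [char_eq_prim χ]
      exact h1.trans (mul_le_mul_of_nonneg_right hG (by positivity))

theorem boxa_prim {q : ℕ} (χ : DirichletCharacter ℂ q) (n : ℕ) :
    χ n = if Nat.Coprime n (q / χ.conductor) then χ.primitiveCharacter n else 0 := by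
  rw [char_eq_prim χ]
  have hq : χ.conductor * (q / χ.conductor) = q := Nat.mul_div_cancel' χ.conductor_dvd_level
  by_cases h1 : Nat.Coprime n q
  · rw [if_pos h1, if_pos (Nat.Coprime.coprime_dvd_right (Dvd.intro_left _ hq) h1)]
  · rw [if_neg h1]
    split_ifs with h2
    · symm
      refine MulChar.map_nonunit _ fun h' => h1 ?_
      have h3 := Nat.Coprime.mul_right ((ZMod.isUnit_iff_coprime n _).1 h') h2
      rwa [hq] at h3
    · rfl

/-- One modulus. Expand with `char_orth`: the first double sum is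
`1 / φ q * ∑ χ, χ a⁻¹ * (∑ p ∈ J, χ p) * (∑ k ∈ Ioc A B, alp D C k * χ k)`.
Trivial character: `k = d k'`, `k' ∈ Ioc (A / d) (B / d)`, `card_coprime`; the error is at most
`Δ Dm Bc (G + 1) / φ q`. Characters with conductor in `(1, C0]`: at most `C0 ^ 2` of them
(`sum_char_le`, `card_prim_le`), each at most `Δ Dm Bc G C0` (`char_eq_prim`,
`norm_sum_char_le`; conductor `≠ 1` gives a nontrivial primitive character). The others:
`sum_char_le` with `g c ψ = if C0 < c then ‖…‖ ‖…‖ else 0`; since `ψ` vanishes on integers not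
coprime to `c`, coprimality with `q` may be replaced by coprimality with `q / c`. -/
theorem box_one {Y G : ℝ} (hG : Tame Y G) {q a : ℕ} (hq : 1 ≤ q) (hqY : (q : ℝ) ≤ Y)
    (ha : Nat.Coprime a q) (J : Finset ℕ) (P Δ A B : ℕ) (hJ : J ⊆ Ico P (P + Δ)) (hAB : A ≤ B)
    (D : Finset ℕ) (C : ℕ → ℝ) {Dm Bc C0 : ℝ} (hDm : 1 ≤ Dm) (hC0 : 1 ≤ C0) (hBc : 0 ≤ Bc)
    (hD : ∀ d ∈ D, 1 ≤ d ∧ (d : ℝ) < Dm ∧ |C d| ≤ Bc) :
    |∑ p ∈ J, ∑ d ∈ D, C d *
      ((((Ioc A B).filter fun k => d ∣ k ∧ p * k ≡ a [MOD q]).card : ℝ) -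
        if Nat.Coprime (p * d) q then ((B : ℝ) - A) / (q * d) else 0)| ≤
      1 / (Nat.totient q : ℝ) * (3 * Bc * G * C0 ^ 3 * Δ * Dm +
        ∑ c ∈ q.divisors.filter (fun c : ℕ => C0 < (c : ℝ)), ∑ ψ ∈ prim c,
          ‖∑ n ∈ Ico P (P + Δ), (if n ∈ J ∧ Nat.Coprime n (q / c) then (1 : ℂ) else 0) * ψ n‖ *
          ‖∑ k ∈ Ico (A + 1) (A + 1 + (B - A)),
            (if Nat.Coprime k (q / c) then ((alp D C k : ℝ) : ℂ) else 0) * ψ k‖) := by
  classical
  have : NeZero q := ⟨by omega⟩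
  have hφ : (0 : ℝ) < Nat.totient q := by exact_mod_cast Nat.totient_pos.2 hq
  have hφc : (Nat.totient q : ℂ) ≠ 0 := by exact_mod_cast hφ.ne'
  have hGq := hG.pow q hq hqY
  have hG10 := hG.ten
  have hD1 : ∀ d ∈ D, 1 ≤ d ∧ |C d| ≤ Bc := fun d hd => ⟨(hD d hd).1, (hD d hd).2.2⟩
  have hcD := boxa_card_D D hDm fun d hd => ⟨(hD d hd).1, (hD d hd).2.1⟩
  have hcJ := boxa_card_J hJ
  set big : (c : ℕ) → DirichletCharacter ℂ c → ℝ := fun c ψ =>
    ‖∑ n ∈ Ico P (P + Δ), (if n ∈ J ∧ Nat.Coprime n (q / c) then (1 : ℂ) else 0) * ψ n‖ *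
      ‖∑ k ∈ Ico (A + 1) (A + 1 + (B - A)),
        (if Nat.Coprime k (q / c) then ((alp D C k : ℝ) : ℂ) else 0) * ψ k‖ with hbig
  set K : ℝ := Bc * G * Δ * Dm with hK
  have hK0 : 0 ≤ K := by positivity
  set g : (c : ℕ) → DirichletCharacter ℂ c → ℝ := fun c ψ =>
    if C0 < (c : ℝ) then big c ψ else K * C0 with hg
  have hg0 : ∀ c ψ, 0 ≤ g c ψ := by
    intro c ψ
    simp only [hg, hbig]
    split_ifs <;> positivity
  set t : DirichletCharacter ℂ q → ℂ := fun χ => χ (a : ZMod q)⁻¹ *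
    ((∑ p ∈ J, χ p) * ∑ k ∈ Ioc A B, ((alp D C k : ℝ) : ℂ) * χ k) with ht
  have hterm : ∀ χ : DirichletCharacter ℂ q, χ ≠ 1 →
      ‖t χ‖ ≤ g χ.conductor χ.primitiveCharacter := by
    intro χ hχ
    have h1 : ‖t χ‖ ≤ ‖∑ p ∈ J, χ p‖ * ‖∑ k ∈ Ioc A B, ((alp D C k : ℝ) : ℂ) * χ k‖ := by
      simp only [ht]
      rw [norm_mul, norm_mul]
      exact mul_le_of_le_one_left (by positivity) (χ.norm_le_one _)
    refine h1.trans ?_
    simp only [hg]
    split_ifs with hc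
    · simp only [hbig]
      refine le_of_eq ?_
      congr 2
      · rw [← sum_subset hJ fun n _ hn => by simp [hn]]
        refine sum_congr rfl fun n hn => ?_
        rw [boxa_prim χ n]
        by_cases h : Nat.Coprime n (q / χ.conductor) <;> simp [hn, h]
      · have e : Ico (A + 1) (A + 1 + (B - A)) = Ioc A B := by
          ext k; simp only [mem_Ico, mem_Ioc]; omega
        rw [e]
        refine sum_congr rfl fun n _ => ?_
        rw [boxa_prim χ n]
        by_cases h : Nat.Coprime n (q / χ.conductor) <;> simp [h]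
    · refine (boxa_small hq hGq χ hχ J A B D C hBc hD1).trans ?_
      have h2 : (J.card : ℝ) * (D.card * (Bc * (G * χ.conductor))) ≤ Δ * (Dm * (Bc * (G * C0))) := by
        have := not_lt.1 hc
        gcongr
      exact h2.trans (le_of_eq (by rw [hK]; ring))
  have hsum : ∑ c ∈ q.divisors, ∑ ψ ∈ prim c, g c ψ ≤ K * C0 ^ 3 +
      ∑ c ∈ q.divisors.filter (fun c : ℕ => C0 < (c : ℝ)), ∑ ψ ∈ prim c, big c ψ := by
    rw [← sum_filter_add_sum_filter_not q.divisors (fun c : ℕ => C0 < (c : ℝ)), add_comm]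
    refine add_le_add ?_ (le_of_eq (sum_congr rfl fun c hc => sum_congr rfl fun ψ _ => ?_))
    · have h1 : ∀ c ∈ q.divisors.filter (fun c : ℕ => ¬ C0 < (c : ℝ)),
          ∑ ψ ∈ prim c, g c ψ ≤ C0 * (K * C0) := by
        intro c hc
        rw [mem_filter] at hc
        have h2 : ∀ ψ, g c ψ = K * C0 := fun ψ => by simp only [hg]; rw [if_neg hc.2]
        simp_rw [h2]
        rw [sum_const, nsmul_eq_mul]
        refine mul_le_mul_of_nonneg_right ?_ (by positivity)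
        exact (Nat.cast_le.2 (card_prim_le (Nat.pos_of_mem_divisors hc.1))).trans (not_lt.1 hc.2)
      refine (sum_le_sum h1).trans ?_
      rw [sum_const, nsmul_eq_mul]
      have h3 : ((q.divisors.filter (fun c : ℕ => ¬ C0 < (c : ℝ))).card : ℝ) ≤ C0 := by
        have h : q.divisors.filter (fun c : ℕ => ¬ C0 < (c : ℝ)) ⊆ Icc 1 ⌊C0⌋₊ := by
          intro c hc
          rw [mem_filter] at hc
          exact mem_Icc.2 ⟨Nat.pos_of_mem_divisors hc.1, Nat.le_floor (not_lt.1 hc.2)⟩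
        have h4 := card_le_card h
        rw [Nat.card_Icc, Nat.add_sub_cancel] at h4
        exact (Nat.cast_le.2 h4).trans (Nat.floor_le (by linarith))
      refine (mul_le_mul_of_nonneg_right h3 (by positivity)).trans (le_of_eq (by ring))
    · simp only [hg]
      rw [if_pos (mem_filter.1 hc).2]
  have hrest : ‖∑ χ ∈ univ.erase (1 : DirichletCharacter ℂ q), t χ‖ ≤ K * C0 ^ 3 +
      ∑ c ∈ q.divisors.filter (fun c : ℕ => C0 < (c : ℝ)), ∑ ψ ∈ prim c, big c ψ := by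
    refine (norm_sum_le _ _).trans ?_
    refine (sum_le_sum fun χ hχ => hterm χ (ne_of_mem_erase hχ)).trans ?_
    refine (sum_le_sum_of_subset_of_nonneg (erase_subset _ _) fun χ _ _ => hg0 _ _).trans ?_
    exact (sum_char_le hq g hg0).trans hsum
  have htriv := boxa_triv hq hGq J hAB D C hBc hD1
  have hone : (1 : DirichletCharacter ℂ q) (a : ZMod q)⁻¹ = 1 := by
    refine MulChar.one_apply ?_
    have := ZMod.inv_mul_of_unit (a : ZMod q) ((ZMod.isUnit_iff_coprime a q).2 ha)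
    exact IsUnit.of_mul_eq_one _ this
  have hex := boxa_expand hq ha J A B D C
  simp_rw [mul_sub, sum_sub_distrib]
  rw [← Real.norm_eq_abs, ← Complex.norm_real, Complex.ofReal_sub, hex,
    ← add_sum_erase _ _ (mem_univ (1 : DirichletCharacter ℂ q)), hone, one_mul]
  set T : ℂ := ((∑ p ∈ J, ∑ d ∈ D, C d *
    (if Nat.Coprime (p * d) q then ((B : ℝ) - A) / (q * d) else 0) : ℝ) : ℂ) with hT
  set u : ℂ := (∑ p ∈ J, (1 : DirichletCharacter ℂ q) p) *
    (∑ k ∈ Ioc A B, ((alp D C k : ℝ) : ℂ) * (1 : DirichletCharacter ℂ q) k) with hu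
  set R : ℂ := ∑ χ ∈ univ.erase (1 : DirichletCharacter ℂ q), t χ with hR
  have e : 1 / (Nat.totient q : ℂ) * (u + R) - T =
      1 / (Nat.totient q : ℂ) * ((u - Nat.totient q * T) + R) := by
    field_simp
    ring
  rw [e, norm_mul, norm_div, norm_one, Complex.norm_natCast]
  refine mul_le_mul_of_nonneg_left ?_ (by positivity)
  refine (norm_add_le _ _).trans ((add_le_add htriv hrest).trans ?_)
  have h5 : (J.card : ℝ) * (D.card * (Bc * (G + 1))) ≤ Δ * (Dm * (Bc * (2 * G))) := by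
    have : G + 1 ≤ 2 * G := by linarith
    gcongr
  have h6 : K ≤ K * C0 ^ 3 := le_mul_of_one_le_right hK0 (one_le_pow₀ hC0)
  have h7 : (Δ : ℝ) * (Dm * (Bc * (2 * G))) = 2 * K := by rw [hK]; ring
  have h8 : 3 * Bc * G * C0 ^ 3 * Δ * Dm = 3 * (K * C0 ^ 3) := by rw [hK]; ring
  simp only [hbig] at *
  linarith

end Pool.Agent.Lib.MP_c03ca8_nt.Q
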