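import Pool.Agent.Lib.MP_c03ca8_nt.Q.Basic

set_option autoImplicit false

noncomputable section

namespace Pool.Agent.Lib.MP_c03ca8_nt.Q

open Finset Real

/-- Tuples of subsets of `P` are the same as maps from `P` to sets of slots. Induction on `P`,
or `Finset.prod_univ_sum` style with an explicit bijection. -/
theorem sum_cfg {ι : Type} [Fintype ι] [DecidableEq ι] (P : Finset ℕ) (v : ℕ → Finset ι → ℝ) :
    ∑ T ∈ Fintype.piFinset (fun _ : ι => P.powerset),
      ∏ q ∈ P, v q (univ.filter fun s => q ∈ T s) = ∏ q ∈ P, ∑ S : Finset ι, v q S := by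
  classical
  rw [Finset.prod_sum]
  refine Finset.sum_nbij' (fun T q _ => univ.filter fun s => q ∈ T s)
    (fun p s => P.filter fun q => ∃ h : q ∈ P, s ∈ p q h) ?_ ?_ ?_ ?_ ?_
  · intro T _
    simp
  · intro p _
    simp [Fintype.mem_piFinset]
  · intro T hT
    have hT' : ∀ s, T s ⊆ P := by simpa [Fintype.mem_piFinset] using hT
    funext s
    ext q
    simp only [mem_filter, mem_univ, true_and, exists_prop]
    exact ⟨fun h => h.2.2, fun h => ⟨hT' s h, hT' s h, h⟩⟩
  · intro p _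
    funext q hq
    ext s
    simp only [mem_filter, mem_univ, true_and]
    exact ⟨fun h => h.2.2, fun h => ⟨hq, hq, h⟩⟩
  · intro T _
    exact (Finset.prod_attach P fun q => v q (univ.filter fun s => q ∈ T s)).symm

theorem config_ind {P T T0 : Finset ℕ} (hT : T ⊆ P) (hT0 : T0 ⊆ P) :
    (∏ q ∈ P, if (q ∈ T ↔ q ∈ T0) then (1 : ℝ) else 0) = if T = T0 then 1 else 0 := by
  split_ifs with h
  · subst h
    simp
  · have : ∃ q ∈ P, ¬ (q ∈ T ↔ q ∈ T0) := by
      by_contra hc
      push Not at hc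
      apply h
      ext q
      by_cases hq : q ∈ P
      · exact hc q hq
      · exact ⟨fun h1 => absurd (hT h1) hq, fun h1 => absurd (hT0 h1) hq⟩
    obtain ⟨q, hq, hq'⟩ := this
    exact Finset.prod_eq_zero hq (if_neg hq')

/-- One coordinate fixed: apply `sum_cfg` to `v q S * 1 {s0 ∈ S ↔ q ∈ T0}` for each `T0`. -/
theorem sum_cfg_fix {ι : Type} [Fintype ι] [DecidableEq ι] (P : Finset ℕ) (s0 : ι)
    (f : Finset ℕ → ℝ) (v : ℕ → Finset ι → ℝ) :
    ∑ T ∈ Fintype.piFinset (fun _ : ι => P.powerset),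
      f (T s0) * ∏ q ∈ P, v q (univ.filter fun s => q ∈ T s) =
      ∑ T0 ∈ P.powerset, f T0 * ∏ q ∈ P,
        ∑ S ∈ univ.filter (fun S : Finset ι => s0 ∈ S ↔ q ∈ T0), v q S := by
  have h1 : ∀ T0 ∈ P.powerset, f T0 * ∏ q ∈ P,
      ∑ S ∈ univ.filter (fun S : Finset ι => s0 ∈ S ↔ q ∈ T0), v q S =
      ∑ T ∈ Fintype.piFinset (fun _ : ι => P.powerset),
        if T s0 = T0 then f (T s0) * ∏ q ∈ P, v q (univ.filter fun s => q ∈ T s) else 0 := by
    intro T0 hT0
    have h2 := sum_cfg P fun q (S : Finset ι) =>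
      (if (s0 ∈ S ↔ q ∈ T0) then (1 : ℝ) else 0) * v q S
    have h3 : ∏ q ∈ P, ∑ S ∈ univ.filter (fun S : Finset ι => s0 ∈ S ↔ q ∈ T0), v q S =
        ∏ q ∈ P, ∑ S : Finset ι, (if (s0 ∈ S ↔ q ∈ T0) then (1 : ℝ) else 0) * v q S := by
      refine prod_congr rfl fun q _ => ?_
      rw [sum_filter]
      refine sum_congr rfl fun S _ => ?_
      split_ifs <;> simp
    rw [h3, ← h2, mul_sum]
    refine sum_congr rfl fun T hT => ?_
    have hT' : ∀ s, T s ⊆ P := by simpa [Fintype.mem_piFinset] using hT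
    rw [prod_mul_distrib]
    have h4 : (∏ q ∈ P, if (s0 ∈ (univ.filter fun s => q ∈ T s) ↔ q ∈ T0) then (1 : ℝ) else 0) =
        if T s0 = T0 then 1 else 0 := by
      rw [← config_ind (hT' s0) (mem_powerset.1 hT0)]
      refine prod_congr rfl fun q _ => ?_
      simp only [mem_filter, mem_univ, true_and]
    rw [h4]
    split_ifs with h
    · rw [h, one_mul]
    · simp
  rw [sum_congr rfl h1, sum_comm]
  refine sum_congr rfl fun T hT => ?_
  have hT' : T s0 ∈ P.powerset := Fintype.mem_piFinset.1 hT s0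
  rw [sum_ite_eq, if_pos hT']

/-- Telescoping, by induction on `P`. -/
theorem abs_prod_sub_prod (P : Finset ℕ) (a b : ℕ → ℝ) :
    |∏ q ∈ P, a q - ∏ q ∈ P, b q| ≤
      ∑ q0 ∈ P, ∏ q ∈ P, if q = q0 then |a q - b q| else max |a q| |b q| := by
  induction P using Finset.induction_on with
  | empty => simp
  | insert r P hr ih =>
    rw [prod_insert hr, prod_insert hr, sum_insert hr, prod_insert hr, if_pos rfl]
    have h1 : (∏ q ∈ P, if q = r then |a q - b q| else max |a q| |b q|) =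
        ∏ q ∈ P, max |a q| |b q| :=
      prod_congr rfl fun q hq => if_neg (by rintro rfl; exact hr hq)
    have h2 : ∑ q0 ∈ P, ∏ q ∈ insert r P, (if q = q0 then |a q - b q| else max |a q| |b q|) =
        max |a r| |b r| *
          ∑ q0 ∈ P, ∏ q ∈ P, (if q = q0 then |a q - b q| else max |a q| |b q|) := by
      rw [mul_sum]
      refine sum_congr rfl fun q0 hq0 => ?_
      rw [prod_insert hr, if_neg (by rintro rfl; exact hr hq0)]
    rw [h1, h2]
    have h3 : |∏ q ∈ P, a q| ≤ ∏ q ∈ P, max |a q| |b q| := by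
      rw [abs_prod]
      exact prod_le_prod (fun q _ => abs_nonneg _) fun q _ => le_max_left _ _
    have e : a r * ∏ q ∈ P, a q - b r * ∏ q ∈ P, b q =
        (a r - b r) * ∏ q ∈ P, a q + b r * (∏ q ∈ P, a q - ∏ q ∈ P, b q) := by ring
    rw [e]
    refine (abs_add_le _ _).trans ?_
    rw [abs_mul, abs_mul]
    exact add_le_add (mul_le_mul_of_nonneg_left h3 (abs_nonneg _))
      (mul_le_mul (le_max_right _ _) ih (abs_nonneg _) ((abs_nonneg _).trans (le_max_left _ _)))

theorem config_split {Q q : ℕ} (hq : 0 < q) (hc : Nat.Coprime Q q) (a k : ℕ) :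
    ∃ b : ℕ, ∀ (x X : ℕ) (F : ℕ → ℝ),
      ∑ n ∈ cls x X Q a, ind q (n + k) * F n = ∑ n ∈ cls x X (Q * q) b, F n := by
  obtain ⟨b, hb1, hb2⟩ := Nat.chineseRemainder hc a ((q - 1) * k)
  refine ⟨b, fun x X F => ?_⟩
  have hk : (q - 1) * k + k = q * k := by
    obtain ⟨r, rfl⟩ : ∃ r, q = r + 1 := ⟨q - 1, by omega⟩
    simp [add_mul]
  have key : ∀ n, n ≡ b [MOD Q * q] ↔ (n ≡ a [MOD Q] ∧ q ∣ n + k) := by
    intro n
    rw [← Nat.modEq_and_modEq_iff_modEq_mul hc]
    refine and_congr ⟨fun h => h.trans hb1, fun h => h.trans hb1.symm⟩ ⟨fun h => ?_, fun h => ?_⟩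
    · have h1 : n + k ≡ (q - 1) * k + k [MOD q] := (h.trans hb2).add_right k
      rw [hk] at h1
      exact (Nat.modEq_zero_iff_dvd).1
        (h1.trans ((Nat.modEq_zero_iff_dvd).2 (dvd_mul_right q k)))
    · have h1 : n + k ≡ (q - 1) * k + k [MOD q] := by
        rw [hk]
        exact ((Nat.modEq_zero_iff_dvd).2 h).trans
          ((Nat.modEq_zero_iff_dvd).2 (dvd_mul_right q k)).symm
      exact (Nat.ModEq.add_right_cancel' k h1).trans hb2.symm
  unfold cls
  rw [sum_filter, sum_filter]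
  refine sum_congr rfl fun n _ => ?_
  unfold ind
  by_cases h1 : n ≡ a [MOD Q] <;> by_cases h2 : q ∣ n + k <;> simp [key, h1, h2]

/-- Sum over a residue class of a product of local factors. Model: `sum_prod` in
`Pool/Agent/Lib/MP_c03ca8_nt/Period.lean` (induction on `U`, generalizing `Q` and `a`; the class
of `a` modulo `Q` with `q ∣ n + h l` is one class modulo `Q q`; base case `card_cls`). -/
theorem sum_prod_loc (h : Fin 4 → ℕ) (c : ℕ → ℝ) (e : ℕ → Fin 4 → ℝ) (x X : ℕ) (U : Finset ℕ)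
    (hU : ∀ q ∈ U, q.Prime) (Q a : ℕ) (hQ : 0 < Q) (hc : ∀ q ∈ U, Nat.Coprime Q q) :
    |∑ n ∈ cls x X Q a, ∏ q ∈ U, (c q + ∑ l, e q l * ind q (n + h l)) -
      X / Q * ∏ q ∈ U, (c q + ∑ l, e q l / q)| ≤ ∏ q ∈ U, (|c q| + ∑ l, |e q l|) := by
  induction U using Finset.induction_on generalizing Q a with
  | empty => simpa using card_cls hQ x X a
  | insert r U hr ih =>
    have hrp := hU r (mem_insert_self _ _)
    have hrr : (0 : ℝ) < r := by exact_mod_cast hrp.pos
    have hQr : (0 : ℝ) < Q := by exact_mod_cast hQ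
    have ih' := ih (fun m hm => hU m (mem_insert_of_mem hm))
    simp only [prod_insert hr]
    choose b hb using fun l => config_split hrp.pos (hc r (mem_insert_self _ _)) a (h l)
    set F : ℕ → ℝ := fun n => ∏ q ∈ U, (c q + ∑ l, e q l * ind q (n + h l)) with hF
    set M : ℝ := ∏ q ∈ U, (c q + ∑ l, e q l / q) with hM
    set E : ℝ := ∏ q ∈ U, (|c q| + ∑ l, |e q l|) with hE
    have h1 := ih' Q a hQ (fun m hm => hc m (mem_insert_of_mem hm))
    have h2 : ∀ l, |∑ n ∈ cls x X (Q * r) (b l), F n - X / ((Q * r : ℕ) : ℝ) * M| ≤ E := by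
      intro l
      refine ih' (Q * r) (b l) (Nat.mul_pos hQ hrp.pos) fun m hm => ?_
      refine Nat.Coprime.mul_left (hc m (mem_insert_of_mem hm)) ?_
      rw [Nat.coprime_primes hrp (hU m (mem_insert_of_mem hm))]
      rintro rfl
      exact hr hm
    have e0 : ∑ n ∈ cls x X Q a, (c r + ∑ l, e r l * ind r (n + h l)) * F n =
        c r * ∑ n ∈ cls x X Q a, F n + ∑ l, e r l * ∑ n ∈ cls x X (Q * r) (b l), F n := by
      simp only [← hb, add_mul, sum_add_distrib, sum_mul, mul_sum, mul_assoc]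
      rw [sum_comm]
    have e1 : ∑ n ∈ cls x X Q a, (c r + ∑ l, e r l * ind r (n + h l)) * F n -
        X / Q * ((c r + ∑ l, e r l / r) * M) =
        c r * (∑ n ∈ cls x X Q a, F n - X / Q * M) + ∑ l, e r l *
          (∑ n ∈ cls x X (Q * r) (b l), F n - X / ((Q * r : ℕ) : ℝ) * M) := by
      rw [e0]
      simp only [mul_sub, sum_sub_distrib, ← sum_mul, ← sum_div]
      push_cast
      field_simp
      ring
    rw [e1]
    have h3 : |∑ l, e r l * (∑ n ∈ cls x X (Q * r) (b l), F n - X / ((Q * r : ℕ) : ℝ) * M)| ≤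
        (∑ l, |e r l|) * E := by
      refine (abs_sum_le_sum_abs _ _).trans ?_
      rw [sum_mul]
      refine sum_le_sum fun l _ => ?_
      rw [abs_mul]
      exact mul_le_mul_of_nonneg_left (h2 l) (abs_nonneg _)
    calc _ ≤ |c r| * E + (∑ l, |e r l|) * E := by
          refine (abs_add_le _ _).trans ?_
          rw [abs_mul]
          exact add_le_add (mul_le_mul_of_nonneg_left h1 (abs_nonneg _)) h3
      _ = _ := by ring

end Pool.Agent.Lib.MP_c03ca8_nt.Q
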