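import Pool.Agent.Lib.MP_c03ca8_nt.Q.PointA
import Pool.Agent.Lib.MP_c03ca8_nt.Q.Basic

set_option autoImplicit false

noncomputable section

namespace Pool.Agent.Lib.MP_c03ca8_nt.Q

open Finset Real

theorem point_cell_unique {H t : ℝ} (hH : 1 < H) {m m' : ℕ} (h : H ^ m ≤ t ∧ t < H ^ (m + 1))
    (h' : H ^ m' ≤ t ∧ t < H ^ (m' + 1)) : m = m' := by
  have h1 := (pow_lt_pow_iff_right₀ hH).1 (h.1.trans_lt h'.2)
  have h2 := (pow_lt_pow_iff_right₀ hH).1 (h'.1.trans_lt h.2)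
  omega

/-- The inequality for one prime. -/
theorem point_prime (c : Cert) (hv : c.Valid) (i : Fin 4) (b : (Fin 4 → ℕ) → ℝ) {H x t : ℝ}
    (hH : 1 < H) (hHx : H ^ c.nu = x) (ht : 1 ≤ t) :
    (∑ j ∈ c.J, b j) ^ 2 ≤ Real.log t / Real.log x * c.Lam i b +
      ∑ m ∈ range (c.T1 - 2), if H ^ m ≤ t ∧ t < H ^ (m + 1) then c.GamF i m b else 0 := by
  obtain ⟨m, hm⟩ := exists_nat_pow_near ht hH
  have hl : 0 < Real.log H := Real.log_pos hH
  have hy : c.yy m ≤ Real.log t / Real.log x := by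
    have h1 : (m : ℝ) * Real.log H ≤ Real.log t := by
      rw [← Real.log_pow]
      exact Real.log_le_log (by positivity) hm.1
    rw [← hHx, Real.log_rpow (by linarith), Cert.yy, div_le_div_iff₀ hv.pos (mul_pos hv.pos hl)]
    nlinarith [hv.pos]
  have hL := mul_le_mul_of_nonneg_right hy (Lam_nonneg c hv i b)
  have e : ∀ m' ∈ range (c.T1 - 2),
      (if H ^ m' ≤ t ∧ t < H ^ (m' + 1) then c.GamF i m' b else 0) =
        if m = m' then c.GamF i m' b else 0 := fun m' _ =>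
    if_congr ⟨fun h => point_cell_unique hH hm h, fun h => h ▸ hm⟩ rfl rfl
  rw [Finset.sum_congr rfl e, Finset.sum_ite_eq]
  split_ifs with h
  · have := sq_le_known c hv i b (m := m) (by have := mem_range.1 h; omega)
    linarith
  · have := sq_le_top c hv i b (m := m) (by rw [mem_range] at h; omega)
    linarith

theorem point_log_sum {S : Finset ℕ} {N : ℕ} (hN : 0 < N) (hS : ∀ p ∈ S, p.Prime ∧ p ∣ N) :
    ∑ p ∈ S, Real.log p ≤ Real.log N := by
  have h1 : ∏ p ∈ S, p ∣ N :=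
    (Finset.prod_dvd_prod_of_subset _ _ (fun p => p) fun p hp =>
      Nat.mem_primeFactors.2 ⟨(hS p hp).1, (hS p hp).2, hN.ne'⟩).trans (Nat.prod_primeFactors_dvd N)
  rw [← Real.log_prod fun p hp => by exact_mod_cast (hS p hp).1.ne_zero, ← Nat.cast_prod]
  refine Real.log_le_log ?_ ?_
  · exact_mod_cast Finset.prod_pos fun p hp => (hS p hp).1.pos
  · exact_mod_cast Nat.le_of_dvd hN h1

/-- The inequality for one form. -/
theorem point_form (c : Cert) (hv : c.Valid) (E : Env) (η : ℝ) (i : Fin 4)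
    (b : (Fin 4 → ℕ) → ℝ) (hH : 1 < E.H c.nu) (hHx : E.H c.nu ^ c.nu = E.x) {N : ℕ} (hN : 0 < N)
    (hN3 : N ≤ 3 * E.x) :
    ((E.P.filter fun p => p ∣ N ∧ E.H c.nu ^ η ≤ (p : ℝ)).card : ℝ) * (∑ j ∈ c.J, b j) ^ 2 ≤
      Real.log (3 * E.x) / Real.log E.x * c.Lam i b +
        ∑ m ∈ range (c.T1 - 2), ∑ p ∈ E.pc c.nu η m, ind p N * c.GamF i m b := by
  set S := E.P.filter fun p => p ∣ N ∧ E.H c.nu ^ η ≤ (p : ℝ) with hS
  have hP : ∀ p ∈ S, p.Prime ∧ p ∣ N := fun p hp => by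
    have h := mem_filter.1 hp
    exact ⟨(Nat.mem_primesLE.1 (mem_filter.1 h.1).1).2, h.2.1⟩
  have e : ∑ m ∈ range (c.T1 - 2), ∑ p ∈ E.pc c.nu η m, ind p N * c.GamF i m b =
      ∑ p ∈ S, ∑ m ∈ range (c.T1 - 2),
        if E.H c.nu ^ m ≤ (p : ℝ) ∧ (p : ℝ) < E.H c.nu ^ (m + 1) then c.GamF i m b else 0 := by
    rw [Finset.sum_comm]
    refine Finset.sum_congr rfl fun m _ => ?_
    rw [Env.pc, hS, Finset.sum_filter, Finset.sum_filter]
    refine Finset.sum_congr rfl fun p _ => ?_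
    unfold ind
    by_cases h1 : p ∣ N <;> by_cases h2 : E.H c.nu ^ η ≤ (p : ℝ) <;>
      by_cases h3 : E.H c.nu ^ m ≤ (p : ℝ) <;> by_cases h4 : (p : ℝ) < E.H c.nu ^ (m + 1) <;>
      simp [h1, h2, h3, h4]
  have h1 := Finset.sum_le_sum fun p (hp : p ∈ S) =>
    point_prime c hv i b hH hHx (t := p) (by exact_mod_cast (hP p hp).1.one_le)
  rw [Finset.sum_const, nsmul_eq_mul, Finset.sum_add_distrib, ← e, ← Finset.sum_mul,
    ← Finset.sum_div] at h1
  have hx : 0 < Real.log E.x := by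
    rw [← hHx, Real.log_rpow (by linarith)]
    exact mul_pos hv.pos (Real.log_pos hH)
  have h2 : ∑ p ∈ S, Real.log p ≤ Real.log (3 * E.x) :=
    (point_log_sum hN hP).trans (Real.log_le_log (by exact_mod_cast hN) (by exact_mod_cast hN3))
  have h3 := mul_le_mul_of_nonneg_right (div_le_div_of_nonneg_right h2 hx.le)
    (Lam_nonneg c hv i b)
  linarith

theorem point_card {N : ℕ} (h : Squarefree N) :
    ArithmeticFunction.cardFactors N = N.primeFactors.card := by
  rw [← (ArithmeticFunction.cardDistinctFactors_eq_cardFactors_iff_squarefree h.ne_zero).2 h,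
    ArithmeticFunction.cardDistinctFactors_apply, ← List.card_toFinset, Nat.toFinset_factors]

/-- The inequality at one integer. If some tiny prime divides some `n + h i`, or `n ∈ E.sq`, the
last term alone is at least the left side (the other terms are nonnegative: group
`yy m * Lam + GamF ≥ a ^ 2 ≥ 0`, see below). Otherwise every `n + h i` is squarefree with all
primes in `E.P` above `H ^ η` (no prime up to `w` divides it by `cop`; primes are at most `3 x`),
so `R ≤ ∑ i, ω (n + h i)`. In all cases, for each `i`, each prime `p ∣ n + h i` above `H ^ η`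
lies in one cell `m p`; `a ^ 2 ≤ yy (m p) Lam + GamF (m p)` or `≤ yy (m p) Lam`, and
`∑ p, yy (m p) ≤ ∑ log p / (ν log H) ≤ log (3 x) / log x`. So the `i`-th bracket is at least
`a ^ 2` times the number of such primes. -/
theorem point (c : Cert) (hv : c.Valid) (E : Env) (hE : E.Good) {η : ℝ}
    (hH : 1 < E.H c.nu) (hHx : E.H c.nu ^ c.nu = E.x) (R : ℕ) {n : ℕ} (hn : n ∈ E.I)
    (hR : R ≤ ArithmeticFunction.cardFactors (∏ l, (n + E.h l))) :
    R * (∑ j ∈ c.J, bb c E n j) ^ 2 ≤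
      ∑ i, (Real.log (3 * E.x) / Real.log E.x * c.Lam i (bb c E n) +
        ∑ m ∈ range (c.T1 - 2), ∑ p ∈ E.pc c.nu η m,
          ind p (n + E.h i) * c.GamF i m (bb c E n)) +
      R * ∑ i, (∑ p ∈ E.tiny c.nu η, ind p (n + E.h i) + if n ∈ E.sq c.nu η i then 1 else 0) *
        (∑ j ∈ c.J, bb c E n j) ^ 2 := by
  obtain ⟨hI, hmod⟩ := mem_filter.1 hn
  obtain ⟨hn1, hn2⟩ := mem_Ioc.1 hI
  have hpos : ∀ i, 0 < n + E.h i := fun i => by omega
  have hle : ∀ i, n + E.h i ≤ 3 * E.x := fun i => by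
    have := hE.hlt i
    have := hE.wx
    have := hE.Xx
    omega
  set A := (∑ j ∈ c.J, bb c E n j) ^ 2 with hA
  have hA0 : 0 ≤ A := sq_nonneg _
  have h1 := Finset.sum_le_sum fun i (_ : i ∈ (univ : Finset (Fin 4))) =>
    point_form c hv E η i (bb c E n) hH hHx (hpos i) (hle i)
  rw [← Finset.sum_mul, ← hA] at h1
  have hind : ∀ p N, 0 ≤ ind p N := fun p N => by unfold ind; split_ifs <;> norm_num
  have hite : ∀ i, (0 : ℝ) ≤ if n ∈ E.sq c.nu η i then 1 else 0 := fun i => by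
    split_ifs <;> norm_num
  have hX : ∀ i, 0 ≤ ∑ p ∈ E.tiny c.nu η, ind p (n + E.h i) +
      if n ∈ E.sq c.nu η i then 1 else 0 := fun i =>
    add_nonneg (Finset.sum_nonneg fun p _ => hind _ _) (hite i)
  rw [← Finset.sum_mul]
  by_cases hb : ∃ i, (∃ p ∈ E.tiny c.nu η, p ∣ n + E.h i) ∨ n ∈ E.sq c.nu η i
  · obtain ⟨i, hi⟩ := hb
    have h2 : 1 ≤ ∑ p ∈ E.tiny c.nu η, ind p (n + E.h i) +
        if n ∈ E.sq c.nu η i then 1 else 0 := by
      rcases hi with ⟨p, hp, hd⟩ | hi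
      · have h3 := Finset.single_le_sum (f := fun p => ind p (n + E.h i)) (fun p _ => hind _ _) hp
        have h4 : ind p (n + E.h i) = 1 := if_pos hd
        linarith [hite i]
      · rw [if_pos hi]
        linarith [Finset.sum_nonneg (s := E.tiny c.nu η) fun p _ => hind p (n + E.h i)]
    have h3 := h2.trans (Finset.single_le_sum (f := fun i => ∑ p ∈ E.tiny c.nu η,
      ind p (n + E.h i) + if n ∈ E.sq c.nu η i then 1 else 0) (fun i _ => hX i) (mem_univ i))
    have h4 := mul_le_mul_of_nonneg_left (mul_le_mul_of_nonneg_right h3 hA0)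
      (Nat.cast_nonneg (α := ℝ) R)
    have h5 := (mul_nonneg (Finset.sum_nonneg fun i _ => Nat.cast_nonneg _) hA0).trans h1
    linarith
  · have hb1 : ∀ i, ∀ p ∈ E.tiny c.nu η, ¬ p ∣ n + E.h i := fun i p hp hd =>
      hb ⟨i, Or.inl ⟨p, hp, hd⟩⟩
    have hb2 : ∀ i, n ∉ E.sq c.nu η i := fun i h => hb ⟨i, Or.inr h⟩
    have hP : ∀ i p, p.Prime → p ∣ n + E.h i → p ∈ E.P ∧ E.H c.nu ^ η ≤ (p : ℝ) := by
      intro i p hp hd
      have h2 : p ∈ E.P := by
        refine mem_filter.2 ⟨Nat.mem_primesLE.2 ⟨(Nat.le_of_dvd (hpos i) hd).trans (hle i), hp⟩, ?_⟩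
        by_contra hw
        have hW : p ∣ E.W := hp.dvd_primorial_iff.2 (not_lt.1 hw)
        have h3 : p ∣ E.a + E.h i :=
          (((hmod.of_dvd hW).add_right (E.h i)).dvd_iff dvd_rfl).1 hd
        exact hp.one_lt.ne' (Nat.eq_one_of_dvd_coprimes (hE.cop i) h3 hW)
      exact ⟨h2, not_lt.1 fun h => hb1 i p (mem_filter.2 ⟨h2, h⟩) hd⟩
    have hc : ∀ i, ArithmeticFunction.cardFactors (n + E.h i) ≤
        (E.P.filter fun p => p ∣ n + E.h i ∧ E.H c.nu ^ η ≤ (p : ℝ)).card := by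
      intro i
      have hs : Squarefree (n + E.h i) := by
        rw [Nat.squarefree_iff_prime_squarefree]
        intro p hp hd
        refine hb2 i ?_
        classical
        exact mem_filter.2 ⟨hn, p, hp, (hP i p hp ((dvd_mul_right p p).trans hd)).2, by rwa [sq]⟩
      rw [point_card hs]
      refine Finset.card_le_card fun p hp => ?_
      obtain ⟨h2, h3, -⟩ := Nat.mem_primeFactors.1 hp
      exact mem_filter.2 ⟨(hP i p h2 h3).1, h3, (hP i p h2 h3).2⟩
    have hsum : ArithmeticFunction.cardFactors (∏ l, (n + E.h l)) =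
        ∑ l, ArithmeticFunction.cardFactors (n + E.h l) := by
      have h0 := fun i => (hpos i).ne'
      rw [Fin.prod_univ_four, Fin.sum_univ_four,
        ArithmeticFunction.cardFactors_mul (mul_ne_zero (mul_ne_zero (h0 0) (h0 1)) (h0 2)) (h0 3),
        ArithmeticFunction.cardFactors_mul (mul_ne_zero (h0 0) (h0 1)) (h0 2),
        ArithmeticFunction.cardFactors_mul (h0 0) (h0 1)]
    have h2 : (R : ℝ) ≤ ∑ i, ((E.P.filter fun p =>
        p ∣ n + E.h i ∧ E.H c.nu ^ η ≤ (p : ℝ)).card : ℝ) := by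
      exact_mod_cast hR.trans (hsum.le.trans (Finset.sum_le_sum fun i _ => hc i))
    have h3 := mul_le_mul_of_nonneg_right h2 hA0
    have h4 := mul_nonneg (Nat.cast_nonneg (α := ℝ) R)
      (mul_nonneg (Finset.sum_nonneg fun i (_ : i ∈ (univ : Finset (Fin 4))) => hX i) hA0)
    linarith

end Pool.Agent.Lib.MP_c03ca8_nt.Q
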