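import Pool.Agent.Lib.MP_c03ca8_nt.Q.CoreA
import Pool.Agent.Lib.MP_c03ca8_nt.Q.Point

set_option autoImplicit false

noncomputable section

namespace Pool.Agent.Lib.MP_c03ca8_nt.Q

open Finset Real

theorem core_log {ε : ℝ} (hε : 0 < ε) : ∃ x1 : ℕ, 2 ≤ x1 ∧ ∀ x : ℕ, x1 ≤ x →
    1 ≤ Real.log (3 * x) / Real.log x ∧ Real.log (3 * x) / Real.log x ≤ 1 + ε := by
  refine ⟨⌈Real.exp (Real.log 3 / ε)⌉₊ + 2, by omega, fun x hx => ?_⟩
  have h2 : (2 : ℝ) ≤ x := by exact_mod_cast (le_trans (by omega) hx : 2 ≤ x)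
  have hx0 : (0 : ℝ) < x := by linarith
  have hl : 0 < Real.log x := Real.log_pos (by linarith)
  have h3 : 0 < Real.log 3 := Real.log_pos (by norm_num)
  have he : Real.exp (Real.log 3 / ε) ≤ x := by
    refine (Nat.le_ceil _).trans ?_
    exact_mod_cast (le_trans (by omega) hx : ⌈Real.exp (Real.log 3 / ε)⌉₊ ≤ x)
  have hle : Real.log 3 / ε ≤ Real.log x := (Real.le_log_iff_exp_le hx0).2 he
  rw [div_le_iff₀ hε] at hle
  rw [Real.log_mul (by norm_num) hx0.ne']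
  constructor
  · rw [le_div_iff₀ hl]; linarith
  · rw [div_le_iff₀ hl]; linarith

theorem core_arith {R T I B0 Bs S A lam ε : ℝ} {L G Z : Fin 4 → ℝ} (hR : 0 ≤ R)
    (hS : 0 < S) (hε1 : ε ≤ 1) (hl1 : 1 ≤ lam) (hl2 : lam ≤ 1 + ε)
    (hA : |A - I * S| ≤ ε * S) (hL : ∀ i, |L i - B0 * S| ≤ ε * S)
    (hG : ∀ i, G i ≤ (Bs + T * ε) * S) (hZ : ∀ i, Z i ≤ ε * S)
    (h : R * A ≤ ∑ i, (lam * L i + G i) + R * ∑ i, Z i) :
    R * I - 4 * (B0 + Bs) ≤ ε * (5 * R + 8 + 4 * |B0| + 4 * T) := by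
  have h1 : ∀ i, lam * L i + G i ≤ (B0 + ε + ε * (|B0| + 1) + Bs + T * ε) * S := by
    intro i
    have a1 : L i ≤ (B0 + ε) * S := by have := (abs_le.1 (hL i)).2; linarith
    have a2 : lam * L i ≤ lam * ((B0 + ε) * S) := mul_le_mul_of_nonneg_left a1 (by linarith)
    have a3 : (lam - 1) * (B0 + ε) ≤ ε * (|B0| + 1) := by
      have b1 : B0 + ε ≤ |B0| + 1 := by have := le_abs_self B0; linarith
      have b2 : (lam - 1) * (B0 + ε) ≤ (lam - 1) * (|B0| + 1) :=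
        mul_le_mul_of_nonneg_left b1 (by linarith)
      have b3 : (lam - 1) * (|B0| + 1) ≤ ε * (|B0| + 1) :=
        mul_le_mul_of_nonneg_right (by linarith) (by positivity)
      linarith
    have a4 : (lam - 1) * (B0 + ε) * S ≤ ε * (|B0| + 1) * S :=
      mul_le_mul_of_nonneg_right a3 hS.le
    have := hG i
    nlinarith
  have h2 : ∑ i, (lam * L i + G i) ≤ 4 * ((B0 + ε + ε * (|B0| + 1) + Bs + T * ε) * S) := by
    have := Finset.sum_le_sum (s := univ) fun i _ => h1 i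
    simpa using this
  have h3 : ∑ i, Z i ≤ 4 * (ε * S) := by
    have := Finset.sum_le_sum (s := univ) fun i _ => hZ i
    simpa using this
  have h4 : R * ∑ i, Z i ≤ R * (4 * (ε * S)) := mul_le_mul_of_nonneg_left h3 hR
  have h5 : (I - ε) * S ≤ A := by have := (abs_le.1 hA).1; linarith
  have h6 : R * ((I - ε) * S) ≤ R * A := mul_le_mul_of_nonneg_left h5 hR
  have h7 : (R * I - 4 * (B0 + Bs)) * S ≤ (ε * (5 * R + 8 + 4 * |B0| + 4 * T)) * S := by
    nlinarith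
  exact le_of_mul_le_mul_right h7 hS

/-- Sum `point` over `E.I`; `log (3 x) / log x → 1`, `Sc > 0`; take `w` above all `h l`, `a` from
`exists_residue`. -/
theorem core (c : Cert) (hv : c.Valid) {θ : ℝ} (hr : Rng c.nu θ c.T1 c.T2 c.M) (R : ℕ)
    (hin : 4 * c.Bval < R * c.Ival) (h : Fin 4 → ℕ) (hinj : Function.Injective h)
    (adm : ∀ p : ℕ, p.Prime → ∃ a, ∀ l, ¬ p ∣ a + h l) :
    ∃ x0 : ℕ, ∀ x X : ℕ, x0 ≤ x → (x : ℝ) ^ θ ≤ X → X ≤ x →
      ∃ n, x < n ∧ n ≤ x + X ∧ ArithmeticFunction.cardFactors (∏ l, (n + h l)) < R := by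
  set K : ℝ := 5 * R + 8 + 4 * |c.B0| + 4 * ((c.T1 - 2 : ℕ) : ℝ) with hK
  have hK0 : 0 < K := by positivity
  set δ : ℝ := R * c.Ival - 4 * c.Bval with hδ
  have hδ0 : 0 < δ := by linarith
  set ε : ℝ := min 1 (δ / (2 * K)) with hεd
  have hε : 0 < ε := lt_min one_pos (by positivity)
  have hε1 : ε ≤ 1 := min_le_left _ _
  have hεK : ε * K < δ := by
    have h1 : ε ≤ δ / (2 * K) := min_le_right _ _
    rw [le_div_iff₀ (by positivity)] at h1
    nlinarith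
  obtain ⟨η, -, w0, hw0⟩ := sums c hv hr hε
  set w : ℕ := w0 + 10 + ∑ l, h l + 1 with hw
  obtain ⟨x0, hx0⟩ := hw0 w (by omega)
  obtain ⟨a, ha⟩ := exists_residue h adm w
  obtain ⟨x1, hx12, hx1⟩ := core_log hε
  refine ⟨x0 + x1 + w, fun x X hx hX hXx => ?_⟩
  by_contra hcon
  push Not at hcon
  let E : Env := ⟨h, w, a, x, X⟩
  have hE : E.Good := by
    refine ⟨hinj, fun l => ?_, ha, ?_, ?_, hXx⟩
    · have : h l ≤ ∑ l, h l := Finset.single_le_sum (f := h) (fun _ _ => Nat.zero_le _) (mem_univ l)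
      show h l < w
      omega
    · show 10 ≤ w
      omega
    · show w ≤ x
      omega
  obtain ⟨hA, hrest⟩ := hx0 E rfl (show x0 ≤ x by omega) hE hX
  obtain ⟨hl1, hl2⟩ := hx1 x (by omega)
  have h2 : (2 : ℝ) ≤ x := by exact_mod_cast (show 2 ≤ x by omega)
  have hx0' : (0 : ℝ) < x := by linarith
  have hH : 1 < E.H c.nu := Real.one_lt_rpow (show (1 : ℝ) < x by linarith) (by
    have := hv.pos; positivity)
  have hHx : E.H c.nu ^ c.nu = E.x := by
    show ((x : ℝ) ^ (1 / c.nu)) ^ c.nu = x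
    rw [← Real.rpow_mul hx0'.le, one_div, inv_mul_cancel₀ hv.pos.ne', Real.rpow_one]
  have hS : 0 < E.Sc c.nu := by
    have hX0 : (0 : ℝ) < X := lt_of_lt_of_le (Real.rpow_pos_of_pos hx0' θ) hX
    have hW : (0 : ℝ) < E.W := by exact_mod_cast primorial_pos w
    have hL : 0 < E.L c.nu := mul_pos (cW_pos _) (Real.log_pos hH)
    exact mul_pos (div_pos hX0 hW) (pow_pos hL 4)
  have hpt := Finset.sum_le_sum (s := E.I) fun n hn =>
    point c hv E hE (η := η) hH hHx R hn (by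
      have hn' := (Finset.mem_filter.1 hn).1
      rw [Finset.mem_Ioc] at hn'
      exact hcon n hn'.1 hn'.2)
  have key := core_arith (R := R) (T := ((c.T1 - 2 : ℕ) : ℝ)) (I := c.Ival) (B0 := c.B0)
    (Bs := ∑ m ∈ range (c.T1 - 2), c.Bm m) (S := E.Sc c.nu)
    (A := ∑ n ∈ E.I, (∑ j ∈ c.J, bb c E n j) ^ 2)
    (lam := Real.log (3 * x) / Real.log x) (ε := ε)
    (L := fun i => ∑ n ∈ E.I, c.Lam i (bb c E n))
    (G := fun i => ∑ m ∈ range (c.T1 - 2), ∑ n ∈ E.I, ∑ p ∈ E.pc c.nu η m,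
      ind p (n + E.h i) * c.GamF i m (bb c E n))
    (Z := fun i => ∑ n ∈ E.I, (∑ p ∈ E.tiny c.nu η, ind p (n + E.h i) +
      if n ∈ E.sq c.nu η i then 1 else 0) * (∑ j ∈ c.J, bb c E n j) ^ 2)
    (Nat.cast_nonneg R) hS hε1 hl1 hl2 hA (fun i => (hrest i).1) ?_
    (fun i => (hrest i).2.2) ?_
  · have : c.Bval = c.B0 + ∑ m ∈ range (c.T1 - 2), c.Bm m := rfl
    rw [← this] at key
    linarith
  · intro i
    have h1 := Finset.sum_le_sum (s := range (c.T1 - 2))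
      (g := fun m => c.Bm m * E.Sc c.nu + ε * E.Sc c.nu)
      (f := fun m => ∑ n ∈ E.I, ∑ p ∈ E.pc c.nu η m, ind p (n + E.h i) * c.GamF i m (bb c E n))
      fun m hm => by have := (abs_le.1 ((hrest i).2.1 m hm)).2; linarith
    refine h1.trans (le_of_eq ?_)
    rw [Finset.sum_add_distrib, ← Finset.sum_mul, Finset.sum_const, card_range, nsmul_eq_mul]
    ring
  · rw [← Finset.mul_sum] at hpt
    refine hpt.trans (le_of_eq ?_)
    rw [Finset.sum_add_distrib, ← Finset.mul_sum, Finset.sum_comm (s := E.I)]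
    congr 1
    · refine Finset.sum_congr rfl fun i _ => ?_
      rw [Finset.sum_add_distrib, ← Finset.mul_sum, Finset.sum_comm (s := E.I)]
    · rw [Finset.sum_comm]

end Pool.Agent.Lib.MP_c03ca8_nt.Q
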