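import Pool.Agent.Lib.MP_c03ca8_nt.Q.Defs

set_option autoImplicit false

noncomputable section

namespace Pool.Agent.Lib.MP_c03ca8_nt.Q

open Finset Real

theorem reduce_sum4 (s : Finset ℕ) (i : Fin 4) (f : (Fin 4 → ℕ) → ℝ) :
    ∑ j ∈ Fintype.piFinset (fun _ : Fin 4 => s), f j =
      ∑ σ ∈ s, ∑ t ∈ Fintype.piFinset (fun _ : Fin 3 => s), f (Fin.insertNth i σ t) := by
  rw [← Finset.sum_product']
  symm
  refine Finset.sum_bij' (fun x _ => Fin.insertNth i x.1 x.2)
    (fun j _ => (j i, fun l => j (i.succAbove l))) ?_ ?_ ?_ ?_ ?_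
  · rintro ⟨σ, t⟩ hx
    rw [mem_product] at hx
    rw [Fintype.mem_piFinset]
    intro l
    refine Fin.succAboveCases i ?_ ?_ l
    · simpa using hx.1
    · intro k
      simpa using (Fintype.mem_piFinset.1 hx.2 k)
  · intro j hj
    rw [Fintype.mem_piFinset] at hj
    rw [mem_product]
    exact ⟨hj i, Fintype.mem_piFinset.2 fun l => hj _⟩
  · rintro ⟨σ, t⟩ _
    simp
  · intro j _
    exact Fin.insertNth_self_removeNth i j
  · intro x _
    rfl

theorem reduce_sum3 (s : Finset ℕ) (f : (Fin 3 → ℕ) → ℝ) :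
    ∑ t ∈ Fintype.piFinset (fun _ : Fin 3 => s), f t =
      ∑ a ∈ s, ∑ b ∈ s, ∑ d ∈ s, f ![a, b, d] := by
  have h1 : ∑ a ∈ s, ∑ b ∈ s, ∑ d ∈ s, f ![a, b, d] =
      ∑ x ∈ s ×ˢ (s ×ˢ s), f ![x.1, x.2.1, x.2.2] := by
    rw [Finset.sum_product]
    refine Finset.sum_congr rfl fun a _ => ?_
    rw [Finset.sum_product]
  rw [h1]
  symm
  refine Finset.sum_bij' (fun x _ => ![x.1, x.2.1, x.2.2])
    (fun t _ => (t 0, t 1, t 2)) ?_ ?_ ?_ ?_ ?_
  · rintro ⟨a, b, d⟩ hx
    simp only [mem_product] at hx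
    rw [Fintype.mem_piFinset]
    intro l
    fin_cases l
    · simpa using hx.1
    · simpa using hx.2.1
    · simpa using hx.2.2
  · intro t ht
    rw [Fintype.mem_piFinset] at ht
    simp only [mem_product]
    exact ⟨ht 0, ht 1, ht 2⟩
  · rintro ⟨a, b, d⟩ _
    simp
  · intro t _
    funext l
    fin_cases l <;> simp
  · intro x _
    rfl

theorem reduce_erase_sum (i : Fin 4) (f : Fin 4 → ℕ) :
    ∑ l ∈ univ.erase i, f l = ∑ k : Fin 3, f (i.succAbove k) := by
  have h1 : ∑ l, f l = f i + ∑ k : Fin 3, f (i.succAbove k) := Fin.sum_univ_succAbove f i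
  have h2 : f i + ∑ l ∈ univ.erase i, f l = ∑ l, f l := Finset.add_sum_erase univ f (mem_univ i)
  omega

theorem reduce_erase_prod (i : Fin 4) (f : Fin 4 → ℝ) :
    ∏ l ∈ univ.erase i, f l = ∏ k : Fin 3, f (i.succAbove k) := by
  have h : univ.erase i = univ.map (Fin.succAboveEmb i) := by
    ext l
    simp only [mem_erase, mem_univ, and_true, mem_map, true_and]
    constructor
    · intro hl
      exact Fin.exists_succAbove_eq hl
    · rintro ⟨k, rfl⟩
      exact Fin.succAbove_ne i k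
  rw [h, Finset.prod_map]
  rfl

theorem reduce_bt (i : Fin 4) (σ : ℕ) (t : Fin 3 → ℕ) :
    Cert.bt i (Fin.insertNth i σ t) = ∑ k, t k := by
  unfold Cert.bt
  rw [reduce_erase_sum]
  simp

theorem reduce_tot (i : Fin 4) (σ : ℕ) (t : Fin 3 → ℕ) :
    ∑ l, (Fin.insertNth i σ t : Fin 4 → ℕ) l = ∑ k, t k + σ := by
  rw [Fin.sum_univ_succAbove _ i]
  simp [add_comm]

theorem reduce_F (c : Cert) (i : Fin 4) {σ : ℕ} (hσ : σ < c.M) (t : Fin 3 → ℕ) :
    (if ∑ l, (Fin.insertNth i σ t : Fin 4 → ℕ) l ≤ c.U then c.F (Fin.insertNth i σ t) else 0) =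
      c.Gf (∑ k, t k) σ * ∏ k, c.om (t k) := by
  unfold Cert.F Cert.Gf
  rw [reduce_tot, Fin.prod_univ_succAbove _ i]
  by_cases h : ∑ k, t k + σ ≤ c.U
  · simp [h, hσ, mul_assoc]
  · simp [h]

theorem reduce_dl (t t' : Fin 3 → ℕ) :
    ∏ k, dl (t k) (t' k) = if t = t' then 1 else 0 := by
  by_cases h : t = t'
  · subst h
    simp [dl]
  · rw [if_neg h]
    obtain ⟨k, hk⟩ := Function.ne_iff.1 h
    exact Finset.prod_eq_zero (mem_univ k) (by simp [dl, hk])

theorem reduce_J (c : Cert) (i : Fin 4) (f : (Fin 4 → ℕ) → ℝ) :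
    ∑ j ∈ c.J, f j * c.F j =
      ∑ σ ∈ range c.M, ∑ t ∈ Fintype.piFinset (fun _ : Fin 3 => range c.M),
        f (Fin.insertNth i σ t) * (c.Gf (∑ k, t k) σ * ∏ k, c.om (t k)) := by
  unfold Cert.J
  rw [Finset.sum_filter, reduce_sum4 _ i]
  refine Finset.sum_congr rfl fun σ hσ => Finset.sum_congr rfl fun t _ => ?_
  rw [← reduce_F c i (mem_range.1 hσ) t]
  split_ifs <;> simp

theorem reduce_rhs (c : Cert) (K : ℕ → ℝ) (hK : ∀ β, c.U < β → K β = 0) :
    ∑ β ∈ range (c.U + 1), c.Mb β * K β =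
      ∑ t ∈ Fintype.piFinset (fun _ : Fin 3 => range c.M),
        (∏ k, c.om (t k)) ^ 2 * K (∑ k, t k) := by
  have h1 : ∀ β, c.Mb β = ∑ t ∈ Fintype.piFinset (fun _ : Fin 3 => range c.M),
      if ∑ k, t k = β then (∏ k, c.om (t k)) ^ 2 else 0 := by
    intro β
    rw [reduce_sum3]
    unfold Cert.Mb
    simp [Fin.sum_univ_three, Fin.prod_univ_three]
  simp_rw [h1, Finset.sum_mul]
  rw [Finset.sum_comm]
  refine Finset.sum_congr rfl fun t _ => ?_
  simp_rw [ite_mul, zero_mul]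
  rw [Finset.sum_ite_eq]
  split_ifs with h
  · rfl
  · rw [hK _ (by simpa using h), mul_zero]

/-- Split `j` into `j i` and the other three coordinates (`Fin.insertNthEquiv`,
`Fin.sum_univ_succAbove`, `Fin.prod_univ_succAbove`), then sum over the fibres of their sum `β`.
-/
theorem reduce (c : Cert) (i : Fin 4) (Ψ : ℕ → ℕ → ℕ → ℕ → ℝ) :
    ∑ j ∈ c.J, ∑ j' ∈ c.J, Ψ (Cert.bt i j) (j i) (Cert.bt i j') (j' i) * (c.F j * c.F j') *
      ∏ l ∈ univ.erase i, dl (j l) (j' l) =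
    ∑ β ∈ range (c.U + 1), c.Mb β * ∑ σ ∈ range c.M, ∑ σ' ∈ range c.M,
      Ψ β σ β σ' * (c.Gf β σ * c.Gf β σ') := by
  have hK : ∀ β, c.U < β → ∑ σ ∈ range c.M, ∑ σ' ∈ range c.M,
      Ψ β σ β σ' * (c.Gf β σ * c.Gf β σ') = 0 := by
    intro β hβ
    refine Finset.sum_eq_zero fun σ _ => Finset.sum_eq_zero fun σ' _ => ?_
    have : c.Gf β σ = 0 := by
      unfold Cert.Gf
      rw [if_neg (by omega)]
    rw [this]
    simp
  rw [reduce_rhs c _ hK]
  have h1 : ∀ j : Fin 4 → ℕ, ∑ j' ∈ c.J, Ψ (Cert.bt i j) (j i) (Cert.bt i j') (j' i) *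
      (c.F j * c.F j') * ∏ l ∈ univ.erase i, dl (j l) (j' l) =
      (∑ j' ∈ c.J, (Ψ (Cert.bt i j) (j i) (Cert.bt i j') (j' i) *
        ∏ l ∈ univ.erase i, dl (j l) (j' l)) * c.F j') * c.F j := by
    intro j
    rw [Finset.sum_mul]
    refine Finset.sum_congr rfl fun j' _ => ?_
    ring
  simp_rw [h1]
  rw [reduce_J c i, Finset.sum_comm]
  refine Finset.sum_congr rfl fun t ht => ?_
  rw [Finset.mul_sum]
  refine Finset.sum_congr rfl fun σ _ => ?_
  rw [reduce_J c i, Finset.sum_mul, Finset.mul_sum]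
  refine Finset.sum_congr rfl fun σ' _ => ?_
  simp only [reduce_bt, reduce_erase_prod, Fin.insertNth_apply_same,
    Fin.insertNth_apply_succAbove, reduce_dl, mul_ite, mul_one, mul_zero, ite_mul, zero_mul]
  rw [Finset.sum_ite_eq, if_pos ht]
  ring

theorem bb_mul (c : Cert) (E : Env) (n : ℕ) (j j' : Fin 4 → ℕ) :
    bb c E n j * bb c E n j' =
      c.F j * c.F j' * Pw E.P E.h (cz (E.H c.nu) (pairS j j')) n := by
  unfold bb Pw
  rw [Fintype.prod_prod_type]
  simp only [Fintype.prod_bool, cz, pairS, if_true, Bool.false_eq_true, if_false,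
    Finset.prod_mul_distrib]
  ring

theorem reduce_pairS_aux (j j' : Fin 4 → ℕ) (S : Finset (Fin 4)) :
    ∑ s ∈ univ.filter (fun s : Slot => s.1 ∈ S), (pairS j j' s + 1) =
      ∑ l ∈ S, j l + ∑ l ∈ S, j' l + 2 * S.card := by
  have h : univ.filter (fun s : Slot => s.1 ∈ S) = S ×ˢ (univ : Finset Bool) := by
    ext s
    simp
  rw [h, Finset.sum_product]
  simp only [Fintype.sum_bool, pairS, if_true, Bool.false_eq_true, if_false,
    Finset.sum_add_distrib, Finset.sum_const, smul_eq_mul, mul_one, Finset.card_univ,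
    Fintype.card_bool]
  ring

theorem reduce_pairS (j j' : Fin 4 → ℕ) :
    ∑ s, (pairS j j' s + 1) = ∑ l, j l + ∑ l, j' l + 8 := by
  have h := reduce_pairS_aux j j' univ
  simpa using h

theorem kn_of_known (c : Cert) (i : Fin 4) (m : ℕ) (j j' : Fin 4 → ℕ)
    (h : c.known m (Cert.bt i j) (j i) (Cert.bt i j') (j' i)) :
    Kn c.T1 c.T2 c.M (pairS j j') i m := by
  unfold Cert.known Cert.bt at h
  unfold Kn
  have h1 := Finset.add_sum_erase univ j (mem_univ i)
  have h2 := Finset.add_sum_erase univ j' (mem_univ i)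
  rcases h with h | ⟨ha, hb, hc⟩
  · left
    rw [reduce_pairS]
    omega
  · right
    refine ⟨ha, ?_, ?_⟩
    · have h3 := reduce_pairS_aux j j' (univ.erase i)
      have h4 : univ.filter (fun s : Slot => s.1 ≠ i) =
          univ.filter (fun s : Slot => s.1 ∈ univ.erase i) := by
        ext s
        simp
      rw [h4, h3]
      have h5 : (univ.erase i).card = 3 := by simp
      rw [h5]
      omega
    · simpa [pairS] using hc

theorem sum_pairS (j j' : Fin 4 → ℕ) :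
    ∑ s, (pairS j j' s + 1) = ∑ l, j l + ∑ l, j' l + 8 := reduce_pairS j j'

/-- Chinese remainder theorem over the primes up to `w`. -/
theorem exists_residue (h : Fin 4 → ℕ) (adm : ∀ p : ℕ, p.Prime → ∃ a, ∀ l, ¬ p ∣ a + h l)
    (w : ℕ) : ∃ a, ∀ l, Nat.Coprime (a + h l) (primorial w) := by
  classical
  choose! r hr using adm
  have hS : ∀ p ∈ (range (w + 1)).filter Nat.Prime, p.Prime := fun p hp => (mem_filter.1 hp).2
  obtain ⟨a, ha⟩ := Nat.chineseRemainderOfFinset r id ((range (w + 1)).filter Nat.Prime)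
    (fun p hp => (hS p hp).ne_zero)
    (fun p hp q hq hpq => (Nat.coprime_primes (hS p hp) (hS q hq)).2 hpq)
  refine ⟨a, fun l => ?_⟩
  unfold primorial
  refine Nat.Coprime.prod_right fun p hp => ?_
  have hp' := hS p hp
  refine ((Nat.Prime.coprime_iff_not_dvd hp').2 ?_).symm
  intro hd
  apply hr p hp' l
  have h1 : a + h l ≡ r p + h l [MOD p] := (ha p hp).add_right _
  exact (h1.dvd_iff (dvd_refl p)).1 hd

end Pool.Agent.Lib.MP_c03ca8_nt.Q
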