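import Pool.Agent.Lib.MP_c03ca8_nt.Q.Asym
import Pool.Agent.Lib.MP_c03ca8_nt.Q.Reduce

set_option autoImplicit false

noncomputable section

namespace Pool.Agent.Lib.MP_c03ca8_nt.Q

open Finset Real

/-- A bilinear form in the cell weights whose pair sums are known up to `e`. -/
theorem form_est (c : Cert) (Kf S Mn : (Fin 4 → ℕ) → (Fin 4 → ℕ) → ℝ) {e : ℝ}
    (h : ∀ j ∈ c.J, ∀ j' ∈ c.J, Kf j j' ≠ 0 → |S j j' - Mn j j'| ≤ e) (he : 0 ≤ e) :
    |∑ j ∈ c.J, ∑ j' ∈ c.J, Kf j j' * S j j' - ∑ j ∈ c.J, ∑ j' ∈ c.J, Kf j j' * Mn j j'| ≤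
      (∑ j ∈ c.J, ∑ j' ∈ c.J, |Kf j j'|) * e := by
  rw [← Finset.sum_sub_distrib, Finset.sum_mul]
  refine (Finset.abs_sum_le_sum_abs _ _).trans (Finset.sum_le_sum fun j hj => ?_)
  rw [← Finset.sum_sub_distrib, Finset.sum_mul]
  refine (Finset.abs_sum_le_sum_abs _ _).trans (Finset.sum_le_sum fun j' hj' => ?_)
  rw [← mul_sub, abs_mul]
  by_cases h0 : Kf j j' = 0
  · simp [h0]
  · exact mul_le_mul_of_nonneg_left (h j hj j' hj' h0) (abs_nonneg _)

theorem corea_Sc_nonneg (E : Env) (ν : ℝ) : 0 ≤ E.Sc ν := by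
  unfold Env.Sc
  have h : 0 ≤ E.L ν ^ 4 := by positivity
  positivity

theorem corea_lt (c : Cert) {j j' : Fin 4 → ℕ} (hj : j ∈ c.J) (hj' : j' ∈ c.J) (s : Slot) :
    pairS j j' s < c.M := by
  unfold Cert.J at hj hj'
  rw [Finset.mem_filter, Fintype.mem_piFinset] at hj hj'
  unfold pairS
  split_ifs
  · exact Finset.mem_range.1 (hj'.1 _)
  · exact Finset.mem_range.1 (hj.1 _)

theorem corea_sum_le (c : Cert) {j j' : Fin 4 → ℕ} (hj : j ∈ c.J) (hj' : j' ∈ c.J) :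
    ∑ s, (pairS j j' s + 1) ≤ 2 * c.U + 8 := by
  rw [sum_pairS]
  unfold Cert.J at hj hj'
  rw [Finset.mem_filter] at hj hj'
  have h1 := hj.2
  have h2 := hj'.2
  omega

/-- Expansion of a weighted quadratic form summed over a set of integers. -/
theorem corea_expand (c : Cert) (E : Env) (A : Finset ℕ) (u : ℕ → ℝ)
    (Kf : (Fin 4 → ℕ) → (Fin 4 → ℕ) → ℝ) :
    ∑ n ∈ A, u n * ∑ j ∈ c.J, ∑ j' ∈ c.J, Kf j j' * (bb c E n j * bb c E n j') =
      ∑ j ∈ c.J, ∑ j' ∈ c.J, Kf j j' * (c.F j * c.F j') *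
        ∑ n ∈ A, u n * Pw E.P E.h (cz (E.H c.nu) (pairS j j')) n := by
  simp only [Finset.mul_sum]
  rw [Finset.sum_comm]
  refine Finset.sum_congr rfl fun j _ => ?_
  rw [Finset.sum_comm]
  refine Finset.sum_congr rfl fun j' _ => Finset.sum_congr rfl fun n _ => ?_
  rw [bb_mul]
  ring

theorem corea_sq (c : Cert) (b : (Fin 4 → ℕ) → ℝ) :
    (∑ j ∈ c.J, b j) ^ 2 = ∑ j ∈ c.J, ∑ j' ∈ c.J, (1 : ℝ) * (b j * b j') := by
  rw [sq, Finset.sum_mul_sum]
  simp only [one_mul]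

theorem corea_diag (M : ℕ) (f : ℕ → ℕ → ℝ) :
    ∑ σ ∈ range M, ∑ σ' ∈ range M, f σ σ' * dl σ σ' = ∑ σ ∈ range M, f σ σ := by
  refine Finset.sum_congr rfl fun σ hσ => ?_
  rw [Finset.sum_eq_single σ]
  · simp [dl]
  · intro b _ hb
    simp [dl, Ne.symm hb]
  · intro h
    exact absurd hσ h

/-- The main term of a form with a kernel depending on the two reduced cells. -/
theorem corea_main0 (c : Cert) (i : Fin 4) (Φ : ℕ → ℕ → ℕ → ℕ → ℝ) (t : ℝ) :
    ∑ j ∈ c.J, ∑ j' ∈ c.J, Φ (Cert.bt i j) (j i) (Cert.bt i j') (j' i) * (c.F j * c.F j') *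
      (t * ∏ l, dl (pairS j j' (l, false)) (pairS j j' (l, true))) =
    (∑ β ∈ range (c.U + 1), c.Mb β * ∑ σ ∈ range c.M, Φ β σ β σ * c.Gf β σ ^ 2) * t := by
  have h := reduce c i (fun β σ β' σ' => Φ β σ β' σ' * dl σ σ')
  have h2 : ∀ β, ∑ σ ∈ range c.M, ∑ σ' ∈ range c.M,
      Φ β σ β σ' * dl σ σ' * (c.Gf β σ * c.Gf β σ') =
      ∑ σ ∈ range c.M, Φ β σ β σ * c.Gf β σ ^ 2 := by
    intro β
    have h3 := corea_diag c.M (fun σ σ' => Φ β σ β σ' * (c.Gf β σ * c.Gf β σ'))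
    simp only [sq]
    rw [← h3]
    refine Finset.sum_congr rfl fun σ _ => Finset.sum_congr rfl fun σ' _ => ?_
    ring
  simp only [h2] at h
  rw [← h, Finset.sum_mul]
  refine Finset.sum_congr rfl fun j _ => ?_
  rw [Finset.sum_mul]
  refine Finset.sum_congr rfl fun j' _ => ?_
  have h4 : ∏ l, dl (pairS j j' (l, false)) (pairS j j' (l, true)) =
      dl (j i) (j' i) * ∏ l ∈ univ.erase i, dl (j l) (j' l) := by
    rw [Finset.mul_prod_erase univ (fun l => dl (j l) (j' l)) (Finset.mem_univ i)]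
    simp [pairS]
  rw [h4]
  ring

theorem corea_main1 (c : Cert) (i : Fin 4) (m : ℕ) (t : ℝ) :
    ∑ j ∈ c.J, ∑ j' ∈ c.J, c.Gam m (Cert.bt i j) (j i) (Cert.bt i j') (j' i) * (c.F j * c.F j') *
      (t * ((∏ l ∈ univ.erase i, dl (pairS j j' (l, false)) (pairS j j' (l, true))) *
        (al m * Tk c.M m (pairS j j' (i, false)) (pairS j j' (i, true)) +
          be m * Tk c.M (m + 1) (pairS j j' (i, false)) (pairS j j' (i, true))))) =
    c.Bm m * t := by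
  have h := reduce c i (fun β σ β' σ' => c.Gam m β σ β' σ' *
    (al m * Tk c.M m σ σ' + be m * Tk c.M (m + 1) σ σ'))
  unfold Cert.Bm
  rw [← h, Finset.sum_mul]
  refine Finset.sum_congr rfl fun j _ => ?_
  rw [Finset.sum_mul]
  refine Finset.sum_congr rfl fun j' _ => ?_
  simp only [pairS, Bool.false_eq_true, if_false, if_true]
  ring

/-- One constant above all the constants of the certificate. -/
theorem corea_const (c : Cert) : ∃ A : ℝ, 0 < A ∧
    ∑ j ∈ c.J, ∑ j' ∈ c.J, |(1 : ℝ) * (c.F j * c.F j')| ≤ A ∧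
    (∀ i, ∑ j ∈ c.J, ∑ j' ∈ c.J, |min (c.ell (Cert.bt i j) (j i)) (c.ell (Cert.bt i j') (j' i)) *
      (c.F j * c.F j')| ≤ A) ∧
    ∀ i, ∀ m ∈ range (c.T1 - 2), ∑ j ∈ c.J, ∑ j' ∈ c.J,
      |c.Gam m (Cert.bt i j) (j i) (Cert.bt i j') (j' i) * (c.F j * c.F j')| ≤ A := by
  set a0 : ℝ := ∑ j ∈ c.J, ∑ j' ∈ c.J, |(1 : ℝ) * (c.F j * c.F j')| with ha0
  set a1 : Fin 4 → ℝ := fun i => ∑ j ∈ c.J, ∑ j' ∈ c.J,
    |min (c.ell (Cert.bt i j) (j i)) (c.ell (Cert.bt i j') (j' i)) * (c.F j * c.F j')| with ha1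
  set a2 : Fin 4 → ℕ → ℝ := fun i m => ∑ j ∈ c.J, ∑ j' ∈ c.J,
    |c.Gam m (Cert.bt i j) (j i) (Cert.bt i j') (j' i) * (c.F j * c.F j')| with ha2
  have p0 : 0 ≤ a0 := Finset.sum_nonneg fun _ _ => Finset.sum_nonneg fun _ _ => abs_nonneg _
  have p1 : ∀ i, 0 ≤ a1 i := fun i =>
    Finset.sum_nonneg fun _ _ => Finset.sum_nonneg fun _ _ => abs_nonneg _
  have p2 : ∀ i m, 0 ≤ a2 i m := fun i m =>
    Finset.sum_nonneg fun _ _ => Finset.sum_nonneg fun _ _ => abs_nonneg _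
  have p3 : ∀ i, 0 ≤ ∑ m ∈ range (c.T1 - 2), a2 i m := fun i =>
    Finset.sum_nonneg fun m _ => p2 i m
  have s1 : 0 ≤ ∑ i, a1 i := Finset.sum_nonneg fun i _ => p1 i
  have s2 : 0 ≤ ∑ i, ∑ m ∈ range (c.T1 - 2), a2 i m := Finset.sum_nonneg fun i _ => p3 i
  refine ⟨1 + a0 + ∑ i, a1 i + ∑ i, ∑ m ∈ range (c.T1 - 2), a2 i m, by linarith, by linarith,
    fun i => ?_, fun i m hm => ?_⟩
  · have h1 : a1 i ≤ ∑ i, a1 i := Finset.single_le_sum (fun i _ => p1 i) (Finset.mem_univ i)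
    change a1 i ≤ _
    linarith
  · have h1 : a2 i m ≤ ∑ m ∈ range (c.T1 - 2), a2 i m :=
      Finset.single_le_sum (fun m _ => p2 i m) hm
    have h2 : ∑ m ∈ range (c.T1 - 2), a2 i m ≤ ∑ i, ∑ m ∈ range (c.T1 - 2), a2 i m :=
      Finset.single_le_sum (fun i _ => p3 i) (Finset.mem_univ i)
    change a2 i m ≤ _
    linarith

/-- A form whose pair sums are bounded by `e`. -/
theorem corea_form_le (c : Cert) (Kf S : (Fin 4 → ℕ) → (Fin 4 → ℕ) → ℝ) {e : ℝ}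
    (h : ∀ j ∈ c.J, ∀ j' ∈ c.J, |S j j'| ≤ e) (he : 0 ≤ e) :
    ∑ j ∈ c.J, ∑ j' ∈ c.J, Kf j j' * S j j' ≤ (∑ j ∈ c.J, ∑ j' ∈ c.J, |Kf j j'|) * e := by
  have h1 := form_est c Kf S (fun _ _ => 0) (e := e)
    (fun j hj j' hj' _ => by simpa using h j hj j' hj') he
  simp only [mul_zero, Finset.sum_const_zero, sub_zero] at h1
  exact (le_abs_self _).trans h1

/-- The five sums. Expand with `bb_mul`, use `asym0` to `asym3` with a smaller `ε` and `η` so
small that `(M + K) η` times the constants of the certificate is below `ε`, `form_est`, and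
`reduce` (for the first two, `∏ l, dl = dl (j i) (j' i) * ∏ l ∈ univ.erase i, dl`). -/
theorem sums (c : Cert) (hv : c.Valid) {θ : ℝ} (hr : Rng c.nu θ c.T1 c.T2 c.M) {ε : ℝ}
    (hε : 0 < ε) : ∃ η : ℝ, 0 < η ∧ Ev θ fun E =>
      |∑ n ∈ E.I, (∑ j ∈ c.J, bb c E n j) ^ 2 - c.Ival * E.Sc c.nu| ≤ ε * E.Sc c.nu ∧
      ∀ i, |∑ n ∈ E.I, c.Lam i (bb c E n) - c.B0 * E.Sc c.nu| ≤ ε * E.Sc c.nu ∧
        (∀ m ∈ range (c.T1 - 2), |∑ n ∈ E.I, ∑ p ∈ E.pc c.nu η m,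
          ind p (n + E.h i) * c.GamF i m (bb c E n) - c.Bm m * E.Sc c.nu| ≤ ε * E.Sc c.nu) ∧
        ∑ n ∈ E.I, (∑ p ∈ E.tiny c.nu η, ind p (n + E.h i) +
          if n ∈ E.sq c.nu η i then 1 else 0) * (∑ j ∈ c.J, bb c E n j) ^ 2 ≤
          ε * E.Sc c.nu := by
  obtain ⟨A, hA, hA0, hA1, hA2⟩ := corea_const c
  obtain ⟨K, hK, h2⟩ := asym2 hr
  set e : ℝ := ε / (3 * A) with he
  have he0 : 0 < e := by positivity
  have heA : 3 * A * e = ε := by
    rw [he]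
    field_simp
  set η : ℝ := min (1 / 2) (e / (c.M + K + 1)) with hη
  have hD : (0 : ℝ) < c.M + K + 1 := by positivity
  have hη0 : 0 < η := lt_min (by norm_num) (by positivity)
  have hη1 : η < 1 := (min_le_left _ _).trans_lt (by norm_num)
  have hηe : η * (c.M + K + 1) ≤ e := (le_div_iff₀ hD).1 (min_le_right _ _)
  have hM0 : (0 : ℝ) ≤ c.M := Nat.cast_nonneg _
  have hMη : (c.M : ℝ) * η ≤ e := by nlinarith [mul_nonneg hK hη0.le]
  have hKη : K * η ≤ e := by nlinarith [mul_nonneg hM0 hη0.le]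
  refine ⟨η, hη0, ?_⟩
  refine Ev.mono (((asym0 hr he0).and (asym1 hr he0 hη0 hη1)).and
    ((h2 he0 hη0 hη1).and (asym3 hr he0 hη0))) ?_
  rintro E - - ⟨⟨a0, a1⟩, a2, a3⟩
  have hS := corea_Sc_nonneg E c.nu
  have hlev := hv.lev
  have hM1 := hr.one_le
  have key : ∀ {B t : ℝ}, B ≤ A → 0 ≤ t → t ≤ 3 * e → B * (t * E.Sc c.nu) ≤ ε * E.Sc c.nu := by
    intro B t hB ht ht3
    have h1 : B * t ≤ ε := by
      have h3 : B * t ≤ A * t := mul_le_mul_of_nonneg_right hB ht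
      have h4 : A * t ≤ A * (3 * e) := mul_le_mul_of_nonneg_left ht3 hA.le
      linarith
    calc B * (t * E.Sc c.nu) = B * t * E.Sc c.nu := by ring
      _ ≤ ε * E.Sc c.nu := mul_le_mul_of_nonneg_right h1 hS
  have form0 : ∀ (i : Fin 4) (Φ : ℕ → ℕ → ℕ → ℕ → ℝ),
      ∑ j ∈ c.J, ∑ j' ∈ c.J, |Φ (Cert.bt i j) (j i) (Cert.bt i j') (j' i) * (c.F j * c.F j')| ≤ A →
      |∑ n ∈ E.I, ∑ j ∈ c.J, ∑ j' ∈ c.J, Φ (Cert.bt i j) (j i) (Cert.bt i j') (j' i) *
          (bb c E n j * bb c E n j') -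
        (∑ β ∈ range (c.U + 1), c.Mb β * ∑ σ ∈ range c.M, Φ β σ β σ * c.Gf β σ ^ 2) *
          E.Sc c.nu| ≤ ε * E.Sc c.nu := by
    intro i Φ hΦ
    have h1 := corea_expand c E E.I (fun _ => 1)
      (fun j j' => Φ (Cert.bt i j) (j i) (Cert.bt i j') (j' i))
    simp only [one_mul] at h1
    rw [h1, ← corea_main0 c i Φ (E.Sc c.nu)]
    refine (form_est c _ _ _ (e := e * E.Sc c.nu) (fun j hj j' hj' _ => ?_)
      (by positivity)).trans (key hΦ he0.le (by linarith))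
    exact a0 _ (corea_lt c hj hj') ((corea_sum_le c hj hj').trans (by omega))
  refine ⟨?_, fun i => ⟨?_, fun m hm => ?_, ?_⟩⟩
  · have h1 := form0 0 (fun _ _ _ _ => 1) hA0
    simp only [corea_sq]
    unfold Cert.Ival
    simpa only [one_mul] using h1
  · have h1 := form0 i (fun β σ β' σ' => min (c.ell β σ) (c.ell β' σ')) (hA1 i)
    unfold Cert.Lam Cert.B0
    simpa only [min_self] using h1
  · have h1 : ∑ n ∈ E.I, ∑ p ∈ E.pc c.nu η m, ind p (n + E.h i) * c.GamF i m (bb c E n) =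
        ∑ j ∈ c.J, ∑ j' ∈ c.J,
          c.Gam m (Cert.bt i j) (j i) (Cert.bt i j') (j' i) * (c.F j * c.F j') *
            ∑ p ∈ E.pc c.nu η m, ∑ n ∈ E.I,
              ind p (n + E.h i) * Pw E.P E.h (cz (E.H c.nu) (pairS j j')) n := by
      rw [Finset.sum_comm]
      unfold Cert.GamF
      simp only [corea_expand c E E.I]
      rw [Finset.sum_comm]
      refine Finset.sum_congr rfl fun j _ => ?_
      rw [Finset.sum_comm]
      refine Finset.sum_congr rfl fun j' _ => ?_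
      rw [Finset.mul_sum]
    rw [h1, ← corea_main1 c i m (E.Sc c.nu)]
    have hpos : 0 ≤ e + c.M * η := by positivity
    refine (form_est c _ _ _ (e := (e + c.M * η) * E.Sc c.nu) (fun j hj j' hj' hne => ?_)
      (by positivity)).trans (key (hA2 i m hm) hpos (by linarith))
    refine a1 _ i m (corea_lt c hj hj') (kn_of_known c i m j j' ?_)
    by_contra hk
    apply hne
    simp [Cert.Gam, hk]
  · have hsub : E.I.filter (fun n => n ∈ E.sq c.nu η i) = E.sq c.nu η i := by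
      ext n
      rw [Finset.mem_filter]
      refine ⟨fun h => h.2, fun h => ⟨?_, h⟩⟩
      classical
      unfold Env.sq at h
      exact Finset.mem_of_mem_filter _ h
    have h1 : ∑ n ∈ E.I, (∑ p ∈ E.tiny c.nu η, ind p (n + E.h i) +
          if n ∈ E.sq c.nu η i then 1 else 0) * (∑ j ∈ c.J, bb c E n j) ^ 2 =
        ∑ j ∈ c.J, ∑ j' ∈ c.J, (1 : ℝ) * (c.F j * c.F j') *
          (∑ p ∈ E.tiny c.nu η, ∑ n ∈ E.I,
              ind p (n + E.h i) * Pw E.P E.h (cz (E.H c.nu) (pairS j j')) n +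
            ∑ n ∈ E.sq c.nu η i, Pw E.P E.h (cz (E.H c.nu) (pairS j j')) n) := by
      simp only [corea_sq]
      rw [corea_expand c E E.I _ (fun _ _ => 1)]
      refine Finset.sum_congr rfl fun j _ => Finset.sum_congr rfl fun j' _ => ?_
      congr 1
      simp only [add_mul, Finset.sum_add_distrib, Finset.sum_mul]
      congr 1
      · exact Finset.sum_comm
      · conv_rhs => rw [← hsub, Finset.sum_filter]
        refine Finset.sum_congr rfl fun n _ => ?_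
        split_ifs <;> simp
    rw [h1]
    have hpos : 0 ≤ K * η + e + e := by positivity
    refine (corea_form_le c _ _ (e := (K * η + e + e) * E.Sc c.nu) (fun j hj j' hj' => ?_)
      (by positivity)).trans (key hA0 hpos (by linarith))
    have b2 := a2 (pairS j j') i (by have := corea_sum_le c hj hj'; omega)
    have b3 := a3 (pairS j j') i (corea_lt c hj hj')
    refine (abs_add_le _ _).trans ?_
    have c2 := (Finset.abs_sum_le_sum_abs _ _).trans b2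
    have c3 := (Finset.abs_sum_le_sum_abs _ _).trans b3
    linarith

end Pool.Agent.Lib.MP_c03ca8_nt.Q
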