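import Pool.Agent.Lib.MP_c03ca8_nt.Q.Defs

set_option autoImplicit false

noncomputable section

namespace Pool.Agent.Lib.MP_c03ca8_nt.Q

open Finset Real

/-- Mean of the local factor of one form when the forms are independent. -/
def u1 (q : ℕ) (mark e e' : Prop) [Decidable mark] [Decidable e] [Decidable e'] : ℝ :=
  if mark then (if e ∨ e' then 0 else 1 / (q : ℝ))
  else if e ∧ e' then 1 / ((q : ℝ) - 1) else if e ∨ e' then 0 else 1

/-- The independent model. -/
def v0 (p : ℕ) (i : Fin 4) (q : ℕ) (S : Finset Slot) : ℝ :=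
  ∏ l, u1 q (q = p ∧ l = i) ((l, false) ∈ S) ((l, true) ∈ S)

/-- `vv` with the configurations removed that put `p` into a slot of the form `i`. -/
def v1 (p : ℕ) (i : Fin 4) (q : ℕ) (S : Finset Slot) : ℝ :=
  if q = p ∧ ((i, false) ∈ S ∨ (i, true) ∈ S) then 0 else vv p i q S

theorem local_abs4 (x y z w : ℝ) (hx : |x| ≤ 2) (hy : |y| ≤ 2) (hz : |z| ≤ 2) (hw : |w| ≤ 2) :
    |x * y * z * w| ≤ 16 := by
  rw [abs_mul, abs_mul, abs_mul]
  have h1 : |x| * |y| ≤ 2 * 2 := mul_le_mul hx hy (abs_nonneg _) (by norm_num)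
  have h2 : |x| * |y| * |z| ≤ 2 * 2 * 2 := mul_le_mul h1 hz (abs_nonneg _) (by norm_num)
  have h3 : |x| * |y| * |z| * |w| ≤ 2 * 2 * 2 * 2 := mul_le_mul h2 hw (abs_nonneg _) (by norm_num)
  linarith

theorem local_abs_mul (r t : ℝ) (h0 : 0 ≤ r) (h1 : r ≤ 1) (ht : |t| ≤ 16) : |r * t| ≤ 16 := by
  rw [abs_mul, abs_of_nonneg h0]
  nlinarith [abs_nonneg t]

theorem local_second (a d : Fin 4 → ℝ) (r : ℝ) (ha : ∀ l, |a l| ≤ 2) (hd : ∀ l, |d l| ≤ 2)
    (h0 : 0 ≤ r) (h1 : r ≤ 1) :
    |(∏ l, a l + r * ∑ l, ∏ m, (if l = m then d m else a m)) - ∏ l, (a l + r * d l)| ≤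
      176 * r ^ 2 := by
  have e : (∏ l, a l + r * ∑ l, ∏ m, (if l = m then d m else a m)) - ∏ l, (a l + r * d l) =
      -(r ^ 2 * (d 0 * d 1 * a 2 * a 3 + d 0 * a 1 * d 2 * a 3 + d 0 * a 1 * a 2 * d 3 +
        a 0 * d 1 * d 2 * a 3 + a 0 * d 1 * a 2 * d 3 + a 0 * a 1 * d 2 * d 3 +
        r * (d 0 * d 1 * d 2 * a 3) + r * (d 0 * d 1 * a 2 * d 3) + r * (d 0 * a 1 * d 2 * d 3) +
        r * (a 0 * d 1 * d 2 * d 3) + r * (r * (d 0 * d 1 * d 2 * d 3)))) := by
    simp only [Fin.prod_univ_four, Fin.sum_univ_four]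
    simp
    ring
  rw [e, abs_neg, abs_mul, abs_of_nonneg (by positivity : (0 : ℝ) ≤ r ^ 2), mul_comm]
  refine mul_le_mul_of_nonneg_right ?_ (by positivity)
  have t1 := abs_le.1 (local_abs4 _ _ _ _ (hd 0) (hd 1) (ha 2) (ha 3))
  have t2 := abs_le.1 (local_abs4 _ _ _ _ (hd 0) (ha 1) (hd 2) (ha 3))
  have t3 := abs_le.1 (local_abs4 _ _ _ _ (hd 0) (ha 1) (ha 2) (hd 3))
  have t4 := abs_le.1 (local_abs4 _ _ _ _ (ha 0) (hd 1) (hd 2) (ha 3))
  have t5 := abs_le.1 (local_abs4 _ _ _ _ (ha 0) (hd 1) (ha 2) (hd 3))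
  have t6 := abs_le.1 (local_abs4 _ _ _ _ (ha 0) (ha 1) (hd 2) (hd 3))
  have t7 := abs_le.1 (local_abs_mul r _ h0 h1 (local_abs4 _ _ _ _ (hd 0) (hd 1) (hd 2) (ha 3)))
  have t8 := abs_le.1 (local_abs_mul r _ h0 h1 (local_abs4 _ _ _ _ (hd 0) (hd 1) (ha 2) (hd 3)))
  have t9 := abs_le.1 (local_abs_mul r _ h0 h1 (local_abs4 _ _ _ _ (hd 0) (ha 1) (hd 2) (hd 3)))
  have t10 := abs_le.1 (local_abs_mul r _ h0 h1 (local_abs4 _ _ _ _ (ha 0) (hd 1) (hd 2) (hd 3)))
  have t11 := abs_le.1 (local_abs_mul r _ h0 h1 (local_abs_mul r _ h0 h1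
    (local_abs4 _ _ _ _ (hd 0) (hd 1) (hd 2) (hd 3))))
  rw [abs_le]
  constructor <;> linarith [t1.1, t1.2, t2.1, t2.2, t3.1, t3.2, t4.1, t4.2, t5.1, t5.2, t6.1,
    t6.2, t7.1, t7.2, t8.1, t8.2, t9.1, t9.2, t10.1, t10.2, t11.1, t11.2]

theorem local_first (a d : Fin 4 → ℝ) (r : ℝ) (ha : ∀ l, |a l| ≤ 2) (hd : ∀ l, |d l| ≤ 2)
    (h0 : 0 ≤ r) (h1 : r ≤ 1) : |∏ l, a l - ∏ l, (a l + r * d l)| ≤ 240 * r := by
  have h := abs_le.1 (local_second a d r ha hd h0 h1)
  have hs : |∑ l, ∏ m, (if l = m then d m else a m)| ≤ 64 := by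
    refine (abs_sum_le_sum_abs _ _).trans ?_
    have : ∀ l : Fin 4, |∏ m, (if l = m then d m else a m)| ≤ 16 := by
      intro l
      rw [Fin.prod_univ_four]
      refine local_abs4 _ _ _ _ ?_ ?_ ?_ ?_ <;> split_ifs <;> first | exact hd _ | exact ha _
    refine (sum_le_sum fun l _ => this l).trans ?_
    simp
    norm_num
  have hs' := abs_le.1 hs
  have hr : r ^ 2 ≤ r := by nlinarith
  rw [abs_le]
  constructor <;> nlinarith [h.1, h.2, hs'.1, hs'.2]

/-- Product of a constant over the slots of the form `l` in `S`. -/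
def local_sl (S : Finset Slot) (c : ℝ) (l : Fin 4) : ℝ :=
  (if (l, false) ∈ S then c else 1) * (if (l, true) ∈ S then c else 1)

theorem local_prod (S : Finset Slot) (F : Fin 4 → ℝ) :
    ∏ s ∈ S, F s.1 = ∏ l, local_sl S (F l) l := by
  have : ∏ s ∈ S, F s.1 = ∏ s : Slot, if s ∈ S then F s.1 else 1 := by
    rw [Finset.prod_ite_mem]
    simp
  rw [this, Fintype.prod_prod_type]
  refine prod_congr rfl fun l _ => ?_
  rw [Fintype.prod_bool, local_sl, mul_comm]

theorem local_sl_abs (S : Finset Slot) (c : ℝ) (l : Fin 4) (hc : |c| ≤ 1) :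
    |local_sl S c l| ≤ 1 := by
  unfold local_sl
  rw [abs_mul]
  have h1 : |if (l, false) ∈ S then c else 1| ≤ 1 := by split_ifs <;> simp [hc]
  have h2 : |if (l, true) ∈ S then c else 1| ≤ 1 := by split_ifs <;> simp [hc]
  nlinarith [abs_nonneg (if (l, false) ∈ S then c else 1),
    abs_nonneg (if (l, true) ∈ S then c else 1)]

theorem local_val (p : ℕ) (i : Fin 4) (q : ℕ) (S : Finset Slot) (o : Option (Fin 4)) :
    val p i q S o = (if q = p then (if o = some i then 1 else 0) else 1) *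
      ∏ l, (if o = some l then local_sl S (-1) l else local_sl S (1 / ((q : ℝ) - 1)) l) := by
  unfold val
  rw [local_prod S (fun l => if o = some l then -1 else 1 / ((q : ℝ) - 1))]
  congr 1
  refine prod_congr rfl fun l _ => ?_
  split_ifs <;> rfl

theorem local_u1 (q : ℕ) (hq : 11 ≤ q) (mark : Prop) [Decidable mark] (hm : ¬ mark)
    (S : Finset Slot) (l : Fin 4) :
    u1 q mark ((l, false) ∈ S) ((l, true) ∈ S) = local_sl S (1 / ((q : ℝ) - 1)) l +
      1 / (q : ℝ) * (local_sl S (-1) l - local_sl S (1 / ((q : ℝ) - 1)) l) := by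
  have hq' : (11 : ℝ) ≤ q := by exact_mod_cast hq
  have h0 : (q : ℝ) ≠ 0 := by linarith
  have h1 : (q : ℝ) - 1 ≠ 0 := by linarith
  unfold u1 local_sl
  by_cases e : (l, false) ∈ S <;> by_cases e' : (l, true) ∈ S <;> simp [hm, e, e'] <;>
    field_simp <;> ring

theorem local_point (p : ℕ) (i : Fin 4) (q : ℕ) (hq : 11 ≤ q) (S : Finset Slot) :
    |v1 p i q S - v0 p i q S| ≤ 240 / (q : ℝ) ^ 2 := by
  have hq' : (11 : ℝ) ≤ q := by exact_mod_cast hq
  have hu : |1 / ((q : ℝ) - 1)| ≤ 1 := by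
    rw [abs_of_pos (by apply div_pos <;> linarith), div_le_one (by linarith)]
    linarith
  have hr0 : (0 : ℝ) ≤ 1 / q := by positivity
  have hr1 : (1 : ℝ) / q ≤ 1 := by
    rw [div_le_one (by linarith)]
    linarith
  set a : Fin 4 → ℝ := local_sl S (1 / ((q : ℝ) - 1)) with ha
  set g : Fin 4 → ℝ := local_sl S (-1) with hg
  have ha1 : ∀ l, |a l| ≤ 1 := fun l => local_sl_abs S _ l hu
  have hg1 : ∀ l, |g l| ≤ 1 := fun l => local_sl_abs S _ l (by simp)
  have hd : ∀ l, |g l - a l| ≤ 2 := fun l => by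
    have := abs_sub (g l) (a l)
    linarith [ha1 l, hg1 l]
  by_cases hp : q = p
  · by_cases hS : (i, false) ∈ S ∨ (i, true) ∈ S
    · have e1 : v1 p i q S = 0 := by simp [v1, hp, hS]
      have e0 : v0 p i q S = 0 := by
        unfold v0
        refine prod_eq_zero (mem_univ i) ?_
        simp [u1, hp, hS]
      rw [e1, e0]
      simp
      positivity
    · have hS1 : (i, false) ∉ S := fun h => hS (Or.inl h)
      have hS2 : (i, true) ∉ S := fun h => hS (Or.inr h)
      have hai : a i = 1 := by simp [ha, local_sl, hS1, hS2]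
      have hgi : g i = 1 := by simp [hg, local_sl, hS1, hS2]
      have e1 : v1 p i q S = 1 / (q : ℝ) * ∏ l, a l := by
        unfold v1
        rw [if_neg (fun h => hS h.2)]
        unfold vv
        simp only [local_val, if_pos hp]
        rw [sum_eq_single i]
        · have : ∏ l, (if some i = some l then local_sl S (-1) l
              else local_sl S (1 / ((q : ℝ) - 1)) l) = ∏ l, a l := by
            refine prod_congr rfl fun l _ => ?_
            split_ifs with h
            · have : i = l := Option.some.inj h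
              subst this
              rw [hai]
              exact hgi
            · rfl
          rw [this]
          simp
          ring
        · intro b _ hb
          simp [hb]
        · simp
      have e0 : v0 p i q S = 1 / (q : ℝ) * ∏ l, (a l + 1 / (q : ℝ) * (g l - a l)) := by
        unfold v0
        rw [← mul_prod_erase univ _ (mem_univ i),
          ← mul_prod_erase univ (fun l => a l + 1 / (q : ℝ) * (g l - a l)) (mem_univ i)]
        have : u1 q (q = p ∧ i = i) ((i, false) ∈ S) ((i, true) ∈ S) = 1 / (q : ℝ) := by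
          simp [u1, hp, hS1, hS2]
        rw [this, hai, hgi, sub_self, mul_zero, add_zero, one_mul]
        congr 1
        refine prod_congr rfl fun l hl => ?_
        exact local_u1 q hq _ (fun h => (mem_erase.1 hl).1 h.2) S l
      rw [e1, e0, ← mul_sub, abs_mul, abs_of_nonneg hr0]
      have := local_first a (fun l => g l - a l) (1 / q) (fun l => by linarith [ha1 l]) hd hr0 hr1
      calc 1 / (q : ℝ) * |∏ l, a l - ∏ l, (a l + 1 / (q : ℝ) * (g l - a l))|
          ≤ 1 / (q : ℝ) * (240 * (1 / q)) := mul_le_mul_of_nonneg_left this hr0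
        _ = 240 / (q : ℝ) ^ 2 := by ring
  · have e0 : v0 p i q S = ∏ l, (a l + 1 / (q : ℝ) * (g l - a l)) := by
      unfold v0
      exact prod_congr rfl fun l _ => local_u1 q hq _ (fun h => hp h.1) S l
    have e1 : v1 p i q S = ∏ l, a l + 1 / (q : ℝ) *
        ∑ l, ∏ m, (if l = m then g m - a m else a m) := by
      unfold v1
      rw [if_neg (fun h => hp h.1)]
      unfold vv
      simp only [local_val, if_neg hp, ← ha, ← hg, Fin.prod_univ_four, Fin.sum_univ_four]
      simp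
      ring
    rw [e1, e0]
    have := local_second a (fun l => g l - a l) (1 / q) (fun l => by linarith [ha1 l]) hd hr0 hr1
    refine this.trans ?_
    have : (176 : ℝ) * (1 / q) ^ 2 = 176 / (q : ℝ) ^ 2 := by ring
    rw [this]
    gcongr
    norm_num

/-- Sets of slots as functions. -/
def local_eq : (Fin 4 → Bool × Bool) ≃ Finset Slot where
  toFun c := univ.filter fun s => (if s.2 then (c s.1).2 else (c s.1).1) = true
  invFun S l := (decide ((l, false) ∈ S), decide ((l, true) ∈ S))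
  left_inv c := by
    funext l
    simp
  right_inv S := by
    ext ⟨l, b⟩
    cases b <;> simp

theorem local_sum (φ : Fin 4 → Bool × Bool → ℝ) :
    ∑ S : Finset Slot, ∏ l, φ l (decide ((l, false) ∈ S), decide ((l, true) ∈ S)) =
      ∏ l, (φ l (true, true) + φ l (true, false) + φ l (false, true) + φ l (false, false)) := by
  have h1 : ∑ S : Finset Slot, ∏ l, φ l (decide ((l, false) ∈ S), decide ((l, true) ∈ S)) =
      ∑ c : Fin 4 → Bool × Bool, ∏ l, φ l (c l) :=
    Fintype.sum_equiv local_eq.symm _ _ fun S => rfl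
  rw [h1, ← Fintype.piFinset_univ, ← prod_univ_sum]
  refine prod_congr rfl fun l _ => ?_
  rw [Fintype.sum_prod_type]
  simp only [Fintype.sum_bool]
  ring

theorem local_v0_nonneg (p : ℕ) (i : Fin 4) (q : ℕ) (hq : 11 ≤ q) (S : Finset Slot) :
    0 ≤ v0 p i q S := by
  have hq' : (11 : ℝ) ≤ q := by exact_mod_cast hq
  refine prod_nonneg fun l _ => ?_
  unfold u1
  have : (0 : ℝ) < (q : ℝ) - 1 := by linarith
  split_ifs <;> positivity

theorem local_v0_sum (p : ℕ) (i : Fin 4) (q : ℕ) (hp : q ≠ p) (c c' : ℝ) :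
    ∑ S : Finset Slot, (if (i, false) ∈ S then c else c') * v0 p i q S =
      (c * (1 / ((q : ℝ) - 1)) + c') * (1 + 1 / ((q : ℝ) - 1)) ^ 3 := by
  have h := local_sum fun l b => (if l = i then (if b.1 then c else c') else 1) *
    (if b.1 ∧ b.2 then 1 / ((q : ℝ) - 1) else if b.1 ∨ b.2 then 0 else 1)
  have e : ∀ S : Finset Slot, (if (i, false) ∈ S then c else c') * v0 p i q S =
      ∏ l, (if l = i then (if decide ((l, false) ∈ S) then c else c') else 1) *
        (if decide ((l, false) ∈ S) ∧ decide ((l, true) ∈ S) then 1 / ((q : ℝ) - 1)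
          else if decide ((l, false) ∈ S) ∨ decide ((l, true) ∈ S) then 0 else 1) := by
    intro S
    rw [prod_mul_distrib, prod_ite_eq']
    unfold v0 u1
    simp [hp]
  rw [sum_congr rfl fun S _ => e S, h, ← mul_prod_erase univ _ (mem_univ i)]
  have : ∀ l ∈ univ.erase i,
      ((if l = i then (if (true, true).1 then c else c') else 1) *
        (if (true, true).1 ∧ (true, true).2 then 1 / ((q : ℝ) - 1)
          else if (true, true).1 ∨ (true, true).2 then 0 else 1) +
      (if l = i then (if (true, false).1 then c else c') else 1) *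
        (if (true, false).1 ∧ (true, false).2 then 1 / ((q : ℝ) - 1)
          else if (true, false).1 ∨ (true, false).2 then 0 else 1) +
      (if l = i then (if (false, true).1 then c else c') else 1) *
        (if (false, true).1 ∧ (false, true).2 then 1 / ((q : ℝ) - 1)
          else if (false, true).1 ∨ (false, true).2 then 0 else 1) +
      (if l = i then (if (false, false).1 then c else c') else 1) *
        (if (false, false).1 ∧ (false, false).2 then 1 / ((q : ℝ) - 1)
          else if (false, false).1 ∨ (false, false).2 then 0 else 1)) =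
      1 + 1 / ((q : ℝ) - 1) := by
    intro l hl
    simp [(mem_erase.1 hl).1]
    ring
  rw [prod_congr rfl this, prod_const, card_erase_of_mem (mem_univ i)]
  simp

theorem local_v0_le (p : ℕ) (i : Fin 4) (q : ℕ) (hq : 11 ≤ q) (hp : q = p) (S : Finset Slot) :
    v0 p i q S ≤ 1 / q := by
  have hq' : (11 : ℝ) ≤ q := by exact_mod_cast hq
  have h1 : (0 : ℝ) < (q : ℝ) - 1 := by linarith
  unfold v0
  rw [← mul_prod_erase univ _ (mem_univ i)]
  have e1 : u1 q (q = p ∧ i = i) ((i, false) ∈ S) ((i, true) ∈ S) ≤ 1 / (q : ℝ) := by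
    unfold u1
    rw [if_pos ⟨hp, rfl⟩]
    split_ifs
    · positivity
    · exact le_rfl
  have e2 : ∏ l ∈ univ.erase i, u1 q (q = p ∧ l = i) ((l, false) ∈ S) ((l, true) ∈ S) ≤ 1 := by
    refine prod_le_one (fun l _ => ?_) fun l _ => ?_
    · unfold u1
      split_ifs <;> positivity
    · unfold u1
      split_ifs
      · norm_num
      · rw [div_le_one (by linarith)]
        linarith
      · rw [div_le_one h1]
        linarith
      · norm_num
      · exact le_rfl
  have e3 : 0 ≤ ∏ l ∈ univ.erase i, u1 q (q = p ∧ l = i) ((l, false) ∈ S) ((l, true) ∈ S) := by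
    refine prod_nonneg fun l _ => ?_
    unfold u1
    split_ifs <;> positivity
  calc _ ≤ 1 / (q : ℝ) * 1 := mul_le_mul e1 e2 e3 (by positivity)
    _ = _ := mul_one _

/-- Local estimates; there are `256` sets `S`. Let `q ≥ 11`, `u = 1 / (q - 1)`.
Case `q ≠ p`. If `S` meets at most one form then `vv = v0`: `1` for `S = ∅`, `0` for one slot,
`u` for the two slots of a form. If `S` meets two forms then `|S| ≥ 2`, `|val none| ≤ u ^ 2`, and
`|val (some l)| ≤ u` (a slot of another form gives a factor `u`), so `|vv| ≤ 6 / q ^ 2`, and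
`v0 ≤ u ^ 2` (it vanishes unless both forms have both slots).
Case `q = p`, no slot of `i` in `S`: `vv = u ^ |S| / q`, `v0 = 1 / q` for `S = ∅` and
`0 ≤ v0 ≤ u / q` otherwise. -/
theorem local_est : ∃ K : ℝ, 1 ≤ K ∧ ∀ (p : ℕ) (i : Fin 4) (q : ℕ), 11 ≤ q →
    (∑ S : Finset Slot, |v1 p i q S - v0 p i q S| ≤ K / (q : ℝ) ^ 2) ∧
    (q ≠ p → ∑ S : Finset Slot, max |v1 p i q S| |v0 p i q S| ≤
      (1 + 1 / ((q : ℝ) - 1)) ^ 4 * (1 + K / (q : ℝ) ^ 2)) ∧
    (q = p → ∑ S : Finset Slot, max |v1 p i q S| |v0 p i q S| ≤ K / q) ∧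
    (q ≠ p → ∑ S ∈ univ.filter (fun S : Finset Slot => (i, false) ∈ S), |v1 p i q S| ≤
      (1 + K / q) / q) ∧
    (q ≠ p → ∑ S ∈ univ.filter (fun S : Finset Slot => (i, false) ∉ S), |v1 p i q S| ≤
      (1 + 1 / ((q : ℝ) - 1)) ^ 3 * (1 + K / (q : ℝ) ^ 2)) := by
  refine ⟨70000, by norm_num, fun p i q hq => ?_⟩
  have hq' : (11 : ℝ) ≤ q := by exact_mod_cast hq
  have hq0 : (0 : ℝ) < q := by linarith
  have hq1 : (0 : ℝ) < (q : ℝ) - 1 := by linarith
  have hcard : (Fintype.card (Finset Slot) : ℝ) = 256 := by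
    simp
  have hD : ∑ S : Finset Slot, |v1 p i q S - v0 p i q S| ≤ 61440 / (q : ℝ) ^ 2 := by
    refine (sum_le_sum fun S _ => local_point p i q hq S).trans ?_
    rw [sum_const, card_univ, nsmul_eq_mul, hcard]
    exact le_of_eq (by ring)
  have hD' : (61440 : ℝ) / (q : ℝ) ^ 2 ≤ 70000 / (q : ℝ) ^ 2 := by
    gcongr
    norm_num
  have h1 : ∀ S, |v1 p i q S| ≤ v0 p i q S + |v1 p i q S - v0 p i q S| := fun S => by
    have := abs_add_le (v0 p i q S) (v1 p i q S - v0 p i q S)
    rw [abs_of_nonneg (local_v0_nonneg p i q hq S), add_sub_cancel] at this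
    exact this
  have hmax : ∀ S, max |v1 p i q S| |v0 p i q S| ≤
      v0 p i q S + |v1 p i q S - v0 p i q S| := fun S => by
    refine max_le (h1 S) ?_
    rw [abs_of_nonneg (local_v0_nonneg p i q hq S)]
    linarith [abs_nonneg (v1 p i q S - v0 p i q S)]
  have hu : (0 : ℝ) < 1 / ((q : ℝ) - 1) := by positivity
  have hfil : ∀ (P : Finset Slot → Prop) [DecidablePred P],
      ∑ S ∈ univ.filter P, |v1 p i q S| ≤
        ∑ S : Finset Slot, (if P S then 1 else 0) * v0 p i q S + 61440 / (q : ℝ) ^ 2 := by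
    intro P _
    refine le_trans ?_ (add_le_add le_rfl hD)
    rw [sum_filter, ← sum_add_distrib]
    refine sum_le_sum fun S _ => ?_
    split_ifs
    · rw [one_mul]
      exact h1 S
    · rw [zero_mul, zero_add]
      exact abs_nonneg _
  refine ⟨hD.trans hD', fun hp => ?_, fun hp => ?_, fun hp => ?_, fun hp => ?_⟩
  · refine (sum_le_sum fun S _ => hmax S).trans ?_
    rw [sum_add_distrib]
    have h := local_v0_sum p i q hp 1 1
    simp only [ite_self, one_mul] at h
    have h4 : (1 : ℝ) ≤ (1 + 1 / ((q : ℝ) - 1)) ^ 4 := one_le_pow₀ (by linarith)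
    have h5 : (0 : ℝ) ≤ 70000 / (q : ℝ) ^ 2 := by positivity
    have h6 : (1 / ((q : ℝ) - 1) + 1) * (1 + 1 / ((q : ℝ) - 1)) ^ 3 =
        (1 + 1 / ((q : ℝ) - 1)) ^ 4 := by ring
    rw [h, h6]
    nlinarith
  · refine (sum_le_sum fun S _ => hmax S).trans ?_
    rw [sum_add_distrib]
    have h : ∑ S : Finset Slot, v0 p i q S ≤ 256 / q := by
      refine (sum_le_sum fun S _ => local_v0_le p i q hq hp S).trans ?_
      rw [sum_const, card_univ, nsmul_eq_mul, hcard]
      exact le_of_eq (by ring)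
    have h2 : (61440 : ℝ) / (q : ℝ) ^ 2 ≤ 61440 / q := by
      apply div_le_div_of_nonneg_left (by norm_num) hq0
      nlinarith
    have h3 : (256 : ℝ) / q + 61440 / q ≤ 70000 / q := by
      rw [← add_div]
      gcongr
      norm_num
    linarith
  · refine (hfil _).trans ?_
    rw [local_v0_sum p i q hp 1 0]
    have hu1 : 1 / ((q : ℝ) - 1) ≤ 1 / q + 2 / (q : ℝ) ^ 2 := by
      rw [div_add_div _ _ hq0.ne' (by positivity), div_le_div_iff₀ hq1 (by positivity)]
      nlinarith [mul_pos hq0 hq0]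
    have hu2 : 1 / ((q : ℝ) - 1) ≤ 2 / q := by
      rw [div_le_div_iff₀ hq1 hq0]
      linarith
    have hu3 : 1 / ((q : ℝ) - 1) ≤ 1 := by
      rw [div_le_one hq1]
      linarith
    have hsq : (1 / ((q : ℝ) - 1)) ^ 2 ≤ 4 / (q : ℝ) ^ 2 := by
      calc (1 / ((q : ℝ) - 1)) ^ 2 ≤ (2 / q) ^ 2 := by gcongr
        _ = 4 / (q : ℝ) ^ 2 := by ring
    have e : (1 + 70000 / (q : ℝ)) / q = 1 / q + 70000 / (q : ℝ) ^ 2 := by
      field_simp
    rw [e]
    generalize 1 / ((q : ℝ) - 1) = u at hu hu1 hu3 hsq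
    have hu4 : (1 * u + 0) * (1 + u) ^ 3 ≤ u + 7 * u ^ 2 := by
      have a1 : u ^ 3 ≤ u ^ 2 := by nlinarith [mul_pos hu hu]
      have a2 : u ^ 4 ≤ u ^ 2 := by nlinarith [mul_pos hu hu]
      nlinarith
    have e2 : (70000 : ℝ) / (q : ℝ) ^ 2 = 61440 / (q : ℝ) ^ 2 + 2 / (q : ℝ) ^ 2 +
        7 * (4 / (q : ℝ) ^ 2) + 8530 / (q : ℝ) ^ 2 := by ring
    have e3 : (0 : ℝ) ≤ 8530 / (q : ℝ) ^ 2 := by positivity
    linarith
  · refine (hfil _).trans ?_
    have h := local_v0_sum p i q hp 0 1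
    have e : ∑ S : Finset Slot, (if (i, false) ∉ S then (1 : ℝ) else 0) * v0 p i q S =
        ∑ S : Finset Slot, (if (i, false) ∈ S then (0 : ℝ) else 1) * v0 p i q S :=
      sum_congr rfl fun S _ => by rw [ite_not]
    rw [e, h]
    have h4 : (1 : ℝ) ≤ (1 + 1 / ((q : ℝ) - 1)) ^ 3 := one_le_pow₀ (by linarith)
    have h5 : (0 : ℝ) ≤ 70000 / (q : ℝ) ^ 2 := by positivity
    nlinarith

end Pool.Agent.Lib.MP_c03ca8_nt.Q
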