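import Pool.Agent.Lib.MP_c03ca8_nt.Q.Config
import Pool.Agent.Lib.MP_c03ca8_nt.Q.Local

set_option autoImplicit false

noncomputable section

namespace Pool.Agent.Lib.MP_c03ca8_nt.Q

open Finset Real

/-- A sum over eight slots of a product over the four forms factors. -/
theorem deca_split (A : Finset (Finset ℕ)) (G : Fin 4 → Finset ℕ → Finset ℕ → ℝ) :
    ∑ T ∈ Fintype.piFinset (fun _ : Slot => A), ∏ l, G l (T (l, false)) (T (l, true)) =
      ∏ l, ∑ a ∈ A, ∑ b ∈ A, G l a b := by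
  have h1 : ∀ l, ∑ a ∈ A, ∑ b ∈ A, G l a b = ∑ ab ∈ A ×ˢ A, G l ab.1 ab.2 := fun l =>
    (Finset.sum_product A A (fun ab => G l ab.1 ab.2)).symm
  simp_rw [h1]
  rw [Finset.prod_univ_sum]
  refine Finset.sum_nbij' (fun T l => (T (l, false), T (l, true)))
    (fun x s => if s.2 then (x s.1).2 else (x s.1).1) ?_ ?_ ?_ ?_ ?_
  · intro T hT
    simp only [Fintype.mem_piFinset, Finset.mem_product] at hT ⊢
    exact fun l => ⟨hT _, hT _⟩
  · intro x hx
    simp only [Fintype.mem_piFinset, Finset.mem_product] at hx ⊢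
    rintro ⟨l, b⟩
    cases b
    · simpa using (hx l).1
    · simpa using (hx l).2
  · intro T _
    funext ⟨l, b⟩
    cases b <;> simp
  · intro x _
    funext l
    simp
  · intro T _
    rfl

/-- One unmarked form. -/
theorem deca_unmarked (P a b : Finset ℕ) (ha : a ⊆ P) (hb : b ⊆ P) :
    ∏ q ∈ P, u1 q False (q ∈ a) (q ∈ b) = if a = b then wt a else 0 := by
  split_ifs with hab
  · subst hab
    unfold wt
    rw [← Finset.prod_subset ha]
    · refine Finset.prod_congr rfl fun q hq => ?_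
      simp [u1, hq]
    · intro q _ hq
      simp [u1, hq]
  · have : ∃ q, ¬ (q ∈ a ↔ q ∈ b) := by
      by_contra hc
      exact hab (Finset.ext fun q => by
        by_contra h
        exact hc ⟨q, h⟩)
    obtain ⟨q, hq⟩ := this
    by_cases hqa : q ∈ a
    · have hqb : q ∉ b := fun h => hq ⟨fun _ => h, fun _ => hqa⟩
      exact Finset.prod_eq_zero (ha hqa) (by simp [u1, hqa, hqb])
    · have hqb : q ∈ b := by
        by_contra h
        exact hq ⟨fun h' => absurd h' hqa, fun h' => absurd h' h⟩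
      exact Finset.prod_eq_zero (hb hqb) (by simp [u1, hqa, hqb])

/-- One marked form, the marked prime outside both sets. -/
theorem deca_marked (P a b : Finset ℕ) {p : ℕ} (hp : p ∈ P) (hpa : p ∉ a) (hpb : p ∉ b) :
    ∏ q ∈ P, u1 q (q = p) (q ∈ a) (q ∈ b) =
      1 / (p : ℝ) * ∏ q ∈ P, u1 q False (q ∈ a) (q ∈ b) := by
  rw [← Finset.mul_prod_erase P _ hp, ← Finset.mul_prod_erase P _ hp]
  have h1 : u1 p (p = p) (p ∈ a) (p ∈ b) = 1 / (p : ℝ) := by simp [u1, hpa, hpb]
  have h2 : u1 p False (p ∈ a) (p ∈ b) = 1 := by simp [u1, hpa, hpb]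
  rw [h1, h2, one_mul]
  congr 1
  refine Finset.prod_congr rfl fun q hq => ?_
  have hqp : q ≠ p := Finset.ne_of_mem_erase hq
  simp [u1, hqp]

theorem deca_diag (P : Finset ℕ) (z z' : ℕ → ℝ) :
    ∑ a ∈ P.powerset, ∑ b ∈ P.powerset,
      z (pr a) * z' (pr b) * ∏ q ∈ P, u1 q False (q ∈ a) (q ∈ b) = ip P z z' := by
  unfold ip
  refine Finset.sum_congr rfl fun a ha => ?_
  rw [Finset.sum_eq_single a]
  · rw [deca_unmarked P a a (Finset.mem_powerset.1 ha) (Finset.mem_powerset.1 ha), if_pos rfl]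
  · intro b hb hba
    rw [deca_unmarked P a b (Finset.mem_powerset.1 ha) (Finset.mem_powerset.1 hb),
      if_neg (Ne.symm hba), mul_zero]
  · intro h
    exact absurd ha h

theorem deca_form {P : Finset ℕ} (hP : ∀ q ∈ P, q.Prime) (z : Slot → ℕ → ℝ) (p : ℕ)
    (hp : p = 1 ∨ p ∈ P) (i : Fin 4) (hz : p ∈ P → ∀ b r, p ∣ r → z (i, b) r = 0) (l : Fin 4) :
    ∑ a ∈ P.powerset, ∑ b ∈ P.powerset,
      z (l, false) (pr a) * z (l, true) (pr b) * ∏ q ∈ P, u1 q (q = p ∧ l = i) (q ∈ a) (q ∈ b) =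
      (if l = i then 1 / (p : ℝ) else 1) * ip P (z (l, false)) (z (l, true)) := by
  rw [← deca_diag, Finset.mul_sum]
  refine Finset.sum_congr rfl fun a _ => ?_
  rw [Finset.mul_sum]
  refine Finset.sum_congr rfl fun b _ => ?_
  by_cases hl : l = i
  · subst hl
    rw [if_pos rfl]
    by_cases hpP : p ∈ P
    · by_cases hpa : p ∈ a
      · have : z (l, false) (pr a) = 0 := hz hpP false _ (Finset.dvd_prod_of_mem _ hpa)
        simp [this]
      by_cases hpb : p ∈ b
      · have : z (l, true) (pr b) = 0 := hz hpP true _ (Finset.dvd_prod_of_mem _ hpb)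
        simp [this]
      have h1 : ∏ q ∈ P, u1 q (q = p ∧ l = l) (q ∈ a) (q ∈ b) =
          ∏ q ∈ P, u1 q (q = p) (q ∈ a) (q ∈ b) :=
        Finset.prod_congr rfl fun q _ => by simp [u1]
      rw [h1, deca_marked P a b hpP hpa hpb]
      ring
    · have hp1 : p = 1 := hp.resolve_right hpP
      have h1 : ∏ q ∈ P, u1 q (q = p ∧ l = l) (q ∈ a) (q ∈ b) =
          ∏ q ∈ P, u1 q False (q ∈ a) (q ∈ b) :=
        Finset.prod_congr rfl fun q hq => by
          have hqp : q ≠ p := fun h => hpP (h ▸ hq)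
          simp [u1, hqp]
      rw [h1, hp1]
      simp
  · have h1 : ∏ q ∈ P, u1 q (q = p ∧ l = i) (q ∈ a) (q ∈ b) =
        ∏ q ∈ P, u1 q False (q ∈ a) (q ∈ b) :=
      Finset.prod_congr rfl fun q _ => by simp [u1, hl]
    rw [h1, if_neg hl, one_mul]

/-- The independent model factors over the forms. Split `T : Slot → Finset ℕ` into the four pairs
`(T (l, false), T (l, true))`; for one form `∏ q ∈ P, u1 …` vanishes unless the two sets are
equal, and then it is `wt T`, times `1 / p` for the form `i` if `p ∈ P` (and `p ∉ T`, where `z`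
lives). If `p = 1` no prime is marked. -/
theorem sum_v0 {P : Finset ℕ} (hP : ∀ q ∈ P, q.Prime) (z : Slot → ℕ → ℝ) (p : ℕ)
    (hp : p = 1 ∨ p ∈ P) (i : Fin 4) (hz : p ∈ P → ∀ b r, p ∣ r → z (i, b) r = 0) :
    ∑ T ∈ Fintype.piFinset (fun _ : Slot => P.powerset),
      (∏ s, z s (pr (T s))) * ∏ q ∈ P, v0 p i q (cfg T q) =
      1 / (p : ℝ) * ∏ l, ip P (z (l, false)) (z (l, true)) := by
  have h1 : ∀ T : Slot → Finset ℕ, (∏ s, z s (pr (T s))) * ∏ q ∈ P, v0 p i q (cfg T q) =
      ∏ l, (z (l, false) (pr (T (l, false))) * z (l, true) (pr (T (l, true))) *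
        ∏ q ∈ P, u1 q (q = p ∧ l = i) (q ∈ T (l, false)) (q ∈ T (l, true))) := by
    intro T
    rw [Finset.prod_mul_distrib, Finset.prod_comm]
    congr 1
    · rw [Fintype.prod_prod_type]
      refine Finset.prod_congr rfl fun l _ => ?_
      rw [Fintype.prod_bool, mul_comm]
    · refine Finset.prod_congr rfl fun q _ => ?_
      unfold v0
      refine Finset.prod_congr rfl fun l _ => ?_
      simp [u1, cfg]
  simp_rw [h1]
  rw [deca_split P.powerset (fun l a b => z (l, false) (pr a) * z (l, true) (pr b) *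
    ∏ q ∈ P, u1 q (q = p ∧ l = i) (q ∈ a) (q ∈ b))]
  simp_rw [deca_form hP z p hp i hz]
  rw [Finset.prod_mul_distrib, Finset.prod_ite_eq']
  simp

end Pool.Agent.Lib.MP_c03ca8_nt.Q
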