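import Pool.Agent.Lib.MP_c03ca8_nt.Q.DecA

set_option autoImplicit false

noncomputable section

namespace Pool.Agent.Lib.MP_c03ca8_nt.Q

open Finset Real

theorem decouple_sum_sq {w : ℕ} (hw : 10 ≤ w) {P : Finset ℕ} (hP : ∀ q ∈ P, q.Prime ∧ w < q) :
    ∑ q ∈ P, (1 : ℝ) / (q : ℝ) ^ 2 ≤ (1 : ℝ) / (w : ℝ) := by
  have hsub : P ⊆ Ioc w (max w (P.sup id)) := fun q hq =>
    mem_Ioc.2 ⟨(hP q hq).2, le_max_of_le_right (le_sup (f := id) hq)⟩
  have h1 := sum_Ioc_inv_sq_le_sub (α := ℝ) (k := w) (n := max w (P.sup id)) (by omega)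
    (le_max_left _ _)
  have h2 : (0 : ℝ) ≤ ((max w (P.sup id) : ℕ) : ℝ)⁻¹ := by positivity
  calc ∑ q ∈ P, (1 : ℝ) / (q : ℝ) ^ 2
      ≤ ∑ q ∈ Ioc w (max w (P.sup id)), (1 : ℝ) / (q : ℝ) ^ 2 :=
        sum_le_sum_of_subset_of_nonneg hsub fun q _ _ => by positivity
    _ ≤ (1 : ℝ) / (w : ℝ) := by
        simp only [one_div]
        linarith

theorem decouple_prod_le {w : ℕ} (hw : 10 ≤ w) {P : Finset ℕ} (hP : ∀ q ∈ P, q.Prime ∧ w < q)
    {K : ℝ} (hK : 0 ≤ K) : ∏ q ∈ P, (1 + K / (q : ℝ) ^ 2) ≤ Real.exp K := by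
  have h1 := decouple_sum_sq hw hP
  have hw' : (10 : ℝ) ≤ w := by exact_mod_cast hw
  have h2 : (1 : ℝ) / w ≤ 1 := by
    rw [div_le_one (by linarith)]
    linarith
  calc ∏ q ∈ P, (1 + K / (q : ℝ) ^ 2) ≤ ∏ q ∈ P, Real.exp (K / (q : ℝ) ^ 2) :=
        prod_le_prod (fun q _ => by positivity) fun q _ => by
          rw [add_comm]
          exact Real.add_one_le_exp _
    _ = Real.exp (K * ∑ q ∈ P, 1 / (q : ℝ) ^ 2) := by
        rw [← Real.exp_sum, mul_sum]
        congr 1
        exact sum_congr rfl fun q _ => by ring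
    _ ≤ Real.exp K := by
        refine Real.exp_le_exp.2 ?_
        nlinarith

theorem decouple_one_le {q : ℕ} (hq : 11 ≤ q) {K : ℝ} (hK : 0 ≤ K) (k : ℕ) :
    1 ≤ (1 + 1 / ((q : ℝ) - 1)) ^ k * (1 + K / (q : ℝ) ^ 2) := by
  have hq' : (11 : ℝ) ≤ q := by exact_mod_cast hq
  have h1 : (0 : ℝ) ≤ 1 / ((q : ℝ) - 1) := div_nonneg zero_le_one (by linarith)
  have h2 : (0 : ℝ) ≤ K / (q : ℝ) ^ 2 := by positivity
  exact one_le_mul_of_one_le_of_one_le (one_le_pow₀ (by linarith)) (by linarith)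

theorem decouple_mert_nonneg {w : ℕ} (hw : 10 ≤ w) {P : Finset ℕ}
    (hP : ∀ q ∈ P, q.Prime ∧ w < q) : 0 ≤ mert P := by
  refine prod_nonneg fun q hq => ?_
  have hq' : (11 : ℝ) ≤ q := by exact_mod_cast (show 11 ≤ q by have := (hP q hq).2; omega)
  have h1 : (0 : ℝ) ≤ 1 / ((q : ℝ) - 1) := div_nonneg zero_le_one (by linarith)
  linarith

theorem decouple_prod_c {w : ℕ} (hw : 10 ≤ w) {P : Finset ℕ} (hP : ∀ q ∈ P, q.Prime ∧ w < q)
    {K : ℝ} (hK : 0 ≤ K) (k : ℕ) :
    ∏ q ∈ P, ((1 + 1 / ((q : ℝ) - 1)) ^ k * (1 + K / (q : ℝ) ^ 2)) ≤ mert P ^ k * Real.exp K := by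
  rw [prod_mul_distrib, prod_pow]
  exact mul_le_mul_of_nonneg_left (decouple_prod_le hw hP hK)
    (pow_nonneg (decouple_mert_nonneg hw hP) k)

theorem decouple_M1 (P : Finset ℕ) (z : Slot → ℕ → ℝ) (p : ℕ) (i : Fin 4)
    (hz : p ∈ P → ∀ b r, p ∣ r → z (i, b) r = 0) :
    M1 P z p i = ∑ T ∈ Fintype.piFinset (fun _ : Slot => P.powerset),
      (∏ s, z s (pr (T s))) * ∏ q ∈ P, v1 p i q (cfg T q) := by
  unfold M1
  refine sum_congr rfl fun T _ => ?_
  by_cases h : p ∈ P ∧ ∃ b, p ∈ T (i, b)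
  · obtain ⟨hp, b, hb⟩ := h
    have h0 : ∏ s, z s (pr (T s)) = 0 :=
      prod_eq_zero (mem_univ (i, b)) (hz hp b _ (dvd_prod_of_mem (fun q => q) hb))
    rw [h0, zero_mul, zero_mul]
  · congr 1
    refine prod_congr rfl fun q hq => ?_
    unfold v1
    rw [if_neg]
    rintro ⟨rfl, h2⟩
    refine h ⟨hq, ?_⟩
    simp only [cfg, mem_filter, mem_univ, true_and] at h2
    rcases h2 with h2 | h2
    · exact ⟨false, h2⟩
    · exact ⟨true, h2⟩

theorem decouple_abs_z {z : Slot → ℕ → ℝ} (hz : ∀ s r, |z s r| ≤ 1) (T : Slot → Finset ℕ)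
    (s0 : Slot) : |∏ s, z s (pr (T s))| ≤ |z s0 (pr (T s0))| := by
  rw [abs_prod, ← mul_prod_erase univ _ (mem_univ s0)]
  exact mul_le_of_le_one_right (abs_nonneg _)
    (prod_le_one (fun s _ => abs_nonneg _) fun s _ => hz s _)

theorem decouple_sum_d {w : ℕ} (hw : 10 ≤ w) {P : Finset ℕ} (hP : ∀ q ∈ P, q.Prime ∧ w < q)
    {K : ℝ} (hK : 1 ≤ K) {p : ℕ} (hp : p = 1 ∨ p ∈ P) :
    ∑ q0 ∈ P, K / (q0 : ℝ) ^ 2 * (if p ∈ P.erase q0 then K / (p : ℝ) else 1) ≤
      2 * K ^ 2 / (p * w) := by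
  have h1 := decouple_sum_sq hw hP
  have hw' : (10 : ℝ) ≤ w := by exact_mod_cast hw
  have hw0 : (0 : ℝ) < w := by linarith
  by_cases hpP : p ∈ P
  · have hwp : (w : ℝ) < p := by exact_mod_cast (hP p hpP).2
    have hp0 : (0 : ℝ) < p := by linarith
    calc ∑ q0 ∈ P, K / (q0 : ℝ) ^ 2 * (if p ∈ P.erase q0 then K / (p : ℝ) else 1)
        ≤ ∑ q0 ∈ P, (K ^ 2 / p * (1 / (q0 : ℝ) ^ 2) +
            if q0 = p then K / (q0 : ℝ) ^ 2 else 0) := by
          refine sum_le_sum fun q0 _ => ?_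
          by_cases h : q0 = p
          · subst h
            rw [if_neg (notMem_erase _ _), if_pos rfl, mul_one]
            have : 0 ≤ K ^ 2 / q0 * (1 / (q0 : ℝ) ^ 2) := by positivity
            linarith
          · rw [if_pos (mem_erase.2 ⟨fun h' => h h'.symm, hpP⟩), if_neg h, add_zero]
            exact le_of_eq (by ring)
      _ = K ^ 2 / p * ∑ q0 ∈ P, 1 / (q0 : ℝ) ^ 2 + K / (p : ℝ) ^ 2 := by
          rw [sum_add_distrib, ← mul_sum, sum_ite_eq' P p, if_pos hpP]
      _ ≤ K ^ 2 / p * (1 / w) + K ^ 2 / (p * w) := by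
          refine add_le_add (mul_le_mul_of_nonneg_left h1 (by positivity)) ?_
          refine div_le_div₀ (by positivity) (by nlinarith) (by positivity) ?_
          nlinarith
      _ = 2 * K ^ 2 / (p * w) := by
          field_simp
          ring
  · obtain rfl : p = 1 := hp.resolve_right hpP
    calc ∑ q0 ∈ P, K / (q0 : ℝ) ^ 2 * (if 1 ∈ P.erase q0 then K / ((1 : ℕ) : ℝ) else 1)
        = K * ∑ q0 ∈ P, 1 / (q0 : ℝ) ^ 2 := by
          rw [mul_sum]
          refine sum_congr rfl fun q0 _ => ?_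
          rw [if_neg fun h => hpP (mem_of_mem_erase h)]
          ring
      _ ≤ K * (1 / w) := mul_le_mul_of_nonneg_left h1 (by linarith)
      _ ≤ 2 * K ^ 2 / (((1 : ℕ) : ℝ) * w) := by
          rw [Nat.cast_one, one_mul, mul_one_div]
          exact div_le_div_of_nonneg_right (by nlinarith) hw0.le

/-- In `M1` one may replace `vv` by `v1` (if `p ∈ T (i, b)` then `z` vanishes). Then
`abs_prod_sub_prod`, `|z| ≤ 1`, `sum_cfg`, `local_est`, `∑ q > w, 1 / q ^ 2 ≤ 1 / w`,
`∏ (1 + K / q ^ 2) ≤ exp K`, `1 ≤ mert`. For `q0 ≠ p` the factor at `p` gives `K / p`, for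
`q0 = p` one has `K / p ^ 2 ≤ K / (p w)`. -/
theorem decouple : ∃ K : ℝ, 0 < K ∧ ∀ (w : ℕ), 10 ≤ w → ∀ (P : Finset ℕ),
    (∀ q ∈ P, q.Prime ∧ w < q) → ∀ (z : Slot → ℕ → ℝ), (∀ s r, |z s r| ≤ 1) →
    ∀ (p : ℕ) (i : Fin 4), (p = 1 ∨ p ∈ P) → (p ∈ P → ∀ b r, p ∣ r → z (i, b) r = 0) →
    |M1 P z p i - 1 / (p : ℝ) * ∏ l, ip P (z (l, false)) (z (l, true))| ≤
      K * mert P ^ 4 / (p * w) := by
  obtain ⟨K, hK, hloc⟩ := local_est
  have hK0 : 0 ≤ K := by linarith
  refine ⟨2 * K ^ 2 * Real.exp K, by positivity, fun w hw P hP z hz p i hp hzp => ?_⟩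
  have h11 : ∀ q ∈ P, 11 ≤ q := fun q hq => by have := (hP q hq).2; omega
  have hm := decouple_mert_nonneg hw hP
  rw [decouple_M1 P z p i hzp, ← sum_v0 (fun q hq => (hP q hq).1) z p hp i hzp,
    ← sum_sub_distrib]
  have hstep : ∀ q0 ∈ P, ∏ q ∈ P, ∑ S : Finset Slot,
      (if q = q0 then |v1 p i q S - v0 p i q S| else max |v1 p i q S| |v0 p i q S|) ≤
      mert P ^ 4 * Real.exp K *
        (K / (q0 : ℝ) ^ 2 * (if p ∈ P.erase q0 then K / (p : ℝ) else 1)) := by
    intro q0 hq0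
    calc ∏ q ∈ P, ∑ S : Finset Slot,
        (if q = q0 then |v1 p i q S - v0 p i q S| else max |v1 p i q S| |v0 p i q S|)
        ≤ ∏ q ∈ P, ((1 + 1 / ((q : ℝ) - 1)) ^ 4 * (1 + K / (q : ℝ) ^ 2) *
            (if q = q0 then K / (q : ℝ) ^ 2 else if q = p then K / (q : ℝ) else 1)) := by
          refine prod_le_prod (fun q _ => sum_nonneg fun S _ => ?_) fun q hq => ?_
          · split_ifs
            · exact abs_nonneg _
            · exact le_max_of_le_left (abs_nonneg _)
          · obtain ⟨l1, l2, l3, -, -⟩ := hloc p i q (h11 q hq)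
            have hc := decouple_one_le (h11 q hq) hK0 4
            by_cases h : q = q0
            · simp only [if_pos h]
              exact l1.trans (le_mul_of_one_le_left (by positivity) hc)
            · simp only [if_neg h]
              by_cases h' : q = p
              · rw [if_pos h']
                exact (l3 h').trans (le_mul_of_one_le_left (by positivity) hc)
              · rw [if_neg h', mul_one]
                exact l2 h'
      _ = (∏ q ∈ P, ((1 + 1 / ((q : ℝ) - 1)) ^ 4 * (1 + K / (q : ℝ) ^ 2))) *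
            (K / (q0 : ℝ) ^ 2 * (if p ∈ P.erase q0 then K / (p : ℝ) else 1)) := by
          rw [prod_mul_distrib]
          congr 1
          rw [← mul_prod_erase P _ hq0, if_pos rfl, ← prod_ite_eq' (P.erase q0) p
            (fun q : ℕ => K / (q : ℝ))]
          congr 1
          exact prod_congr rfl fun q hq => if_neg (ne_of_mem_erase hq)
      _ ≤ _ := by
          refine mul_le_mul_of_nonneg_right (decouple_prod_c hw hP hK0 4) ?_
          split_ifs <;> positivity
  calc |∑ T ∈ Fintype.piFinset (fun _ : Slot => P.powerset),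
        ((∏ s, z s (pr (T s))) * ∏ q ∈ P, v1 p i q (cfg T q) -
          (∏ s, z s (pr (T s))) * ∏ q ∈ P, v0 p i q (cfg T q))|
      ≤ ∑ T ∈ Fintype.piFinset (fun _ : Slot => P.powerset), ∑ q0 ∈ P, ∏ q ∈ P,
          (if q = q0 then |v1 p i q (cfg T q) - v0 p i q (cfg T q)|
            else max |v1 p i q (cfg T q)| |v0 p i q (cfg T q)|) := by
        refine (abs_sum_le_sum_abs _ _).trans (sum_le_sum fun T _ => ?_)
        rw [← mul_sub, abs_mul]
        refine (mul_le_of_le_one_left (abs_nonneg _) ?_).trans (abs_prod_sub_prod P _ _)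
        exact (decouple_abs_z hz T (i, false)).trans (hz _ _)
    _ = ∑ q0 ∈ P, ∏ q ∈ P, ∑ S : Finset Slot,
          (if q = q0 then |v1 p i q S - v0 p i q S| else max |v1 p i q S| |v0 p i q S|) := by
        rw [sum_comm]
        exact sum_congr rfl fun q0 _ => sum_cfg P fun q S =>
          if q = q0 then |v1 p i q S - v0 p i q S| else max |v1 p i q S| |v0 p i q S|
    _ ≤ mert P ^ 4 * Real.exp K * ∑ q0 ∈ P,
          (K / (q0 : ℝ) ^ 2 * (if p ∈ P.erase q0 then K / (p : ℝ) else 1)) := by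
        rw [mul_sum]
        exact sum_le_sum hstep
    _ ≤ mert P ^ 4 * Real.exp K * (2 * K ^ 2 / (p * w)) :=
        mul_le_mul_of_nonneg_left (decouple_sum_d hw hP hK hp) (by positivity)
    _ = 2 * K ^ 2 * Real.exp K * mert P ^ 4 / (p * w) := by ring

/-- Absolute values, `sum_cfg_fix` with the slot `(i, false)`, the last three parts of
`local_est`. -/
theorem abs_M1_le : ∃ K : ℝ, 0 < K ∧ ∀ (w : ℕ), 10 ≤ w → ∀ (P : Finset ℕ),
    (∀ q ∈ P, q.Prime ∧ w < q) → ∀ (z : Slot → ℕ → ℝ), (∀ s r, |z s r| ≤ 1) →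
    ∀ (p : ℕ) (i : Fin 4), p ∈ P → (∀ b r, p ∣ r → z (i, b) r = 0) →
    |M1 P z p i| ≤ K / p * mert P ^ 3 *
      ∑ T ∈ P.powerset, |z (i, false) (pr T)| * ∏ q ∈ T, ((1 + K / q) / q) := by
  obtain ⟨K, hK, hloc⟩ := local_est
  have hK0 : 0 ≤ K := by linarith
  have hKK : K ≤ K * Real.exp K := le_mul_of_one_le_right hK0 (Real.one_le_exp hK0)
  refine ⟨K * Real.exp K, by positivity, fun w hw P hP z hz p i hp hzp => ?_⟩
  have h11 : ∀ q ∈ P, 11 ≤ q := fun q hq => by have := (hP q hq).2; omega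
  have hm := decouple_mert_nonneg hw hP
  rw [decouple_M1 P z p i fun _ => hzp]
  calc |∑ T ∈ Fintype.piFinset (fun _ : Slot => P.powerset),
        (∏ s, z s (pr (T s))) * ∏ q ∈ P, v1 p i q (cfg T q)|
      ≤ ∑ T ∈ Fintype.piFinset (fun _ : Slot => P.powerset),
          |z (i, false) (pr (T (i, false)))| * ∏ q ∈ P, |v1 p i q (cfg T q)| := by
        refine (abs_sum_le_sum_abs _ _).trans (sum_le_sum fun T _ => ?_)
        rw [abs_mul, abs_prod P]
        exact mul_le_mul_of_nonneg_right (decouple_abs_z hz T (i, false))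
          (prod_nonneg fun q _ => abs_nonneg _)
    _ = ∑ T0 ∈ P.powerset, |z (i, false) (pr T0)| * ∏ q ∈ P,
          ∑ S ∈ univ.filter (fun S : Finset Slot => (i, false) ∈ S ↔ q ∈ T0), |v1 p i q S| :=
        sum_cfg_fix P (i, false) (fun T0 => |z (i, false) (pr T0)|) fun q S => |v1 p i q S|
    _ ≤ _ := by
        rw [mul_sum]
        refine sum_le_sum fun T0 hT0 => ?_
        have hT0P : T0 ⊆ P := mem_powerset.1 hT0
        by_cases hpT : p ∈ T0
        · rw [hzp false (pr T0) (dvd_prod_of_mem (fun q => q) hpT)]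
          simp
        rw [mul_left_comm]
        refine mul_le_mul_of_nonneg_left ?_ (abs_nonneg _)
        calc ∏ q ∈ P, ∑ S ∈ univ.filter (fun S : Finset Slot => (i, false) ∈ S ↔ q ∈ T0),
              |v1 p i q S|
            ≤ ∏ q ∈ P, ((1 + 1 / ((q : ℝ) - 1)) ^ 3 * (1 + K / (q : ℝ) ^ 2) *
                ((if q = p then K / (q : ℝ) else 1) *
                  (if q ∈ T0 then (1 + K * Real.exp K / q) / q else 1))) := by
              refine prod_le_prod (fun q _ => sum_nonneg fun S _ => abs_nonneg _) fun q hq => ?_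
              obtain ⟨-, -, l3, l4, l5⟩ := hloc p i q (h11 q hq)
              have hc := decouple_one_le (h11 q hq) hK0 3
              by_cases h : q = p
              · rw [if_pos h, if_neg (h ▸ hpT), mul_one]
                refine le_trans ?_ ((l3 h).trans (le_mul_of_one_le_left (by positivity) hc))
                refine (sum_le_sum_of_subset_of_nonneg (filter_subset _ _)
                  fun S _ _ => abs_nonneg _).trans (sum_le_sum fun S _ => le_max_left _ _)
              · rw [if_neg h, one_mul]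
                by_cases h' : q ∈ T0
                · simp only [h', iff_true, if_true]
                  refine (l4 h).trans (le_trans ?_ (le_mul_of_one_le_left (by positivity) hc))
                  gcongr
                · simp only [h', iff_false, if_false, mul_one]
                  exact l5 h
          _ = (∏ q ∈ P, ((1 + 1 / ((q : ℝ) - 1)) ^ 3 * (1 + K / (q : ℝ) ^ 2))) *
                (K / p * ∏ q ∈ T0, ((1 + K * Real.exp K / q) / q)) := by
              rw [prod_mul_distrib]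
              congr 1
              rw [prod_mul_distrib, prod_ite_eq' P p (fun q : ℕ => K / (q : ℝ)), if_pos hp,
                prod_ite_mem, inter_eq_right.2 hT0P]
          _ ≤ (mert P ^ 3 * Real.exp K) *
                (K / p * ∏ q ∈ T0, ((1 + K * Real.exp K / q) / q)) := by
              refine mul_le_mul_of_nonneg_right (decouple_prod_c hw hP hK0 3) ?_
              exact mul_nonneg (by positivity) (prod_nonneg fun q _ => by positivity)
          _ = _ := by ring

end Pool.Agent.Lib.MP_c03ca8_nt.Q
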