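import Pool.Agent.Lib.MP_c03ca8_nt.Q.Basic

set_option autoImplicit false

noncomputable section

namespace Pool.Agent.Lib.MP_c03ca8_nt.Q

open Finset Real

theorem expand_dvd_iff {D : Finset ℕ} (hD : ∀ q ∈ D, q.Prime) (m : ℕ) :
    pr D ∣ m ↔ ∀ q ∈ D, q ∣ m := by
  constructor
  · intro h q hq
    exact (Finset.dvd_prod_of_mem (fun q => q) hq).trans h
  · intro h
    exact Finset.prod_primes_dvd m (fun q hq => (hD q hq).prime) h

theorem expand_pr_mono {D T : Finset ℕ} (hT : ∀ q ∈ T, q.Prime) (h : D ⊆ T) : pr D ≤ pr T :=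
  Nat.le_of_dvd (pr_pos hT) (Finset.prod_dvd_prod_of_subset _ _ _ h)

theorem expand_wt_nonneg {T : Finset ℕ} (hT : ∀ q ∈ T, q.Prime) : 0 ≤ wt T := by
  refine Finset.prod_nonneg fun q hq => ?_
  have h2 : (2 : ℝ) ≤ q := by exact_mod_cast (hT q hq).two_le
  exact div_nonneg zero_le_one (by linarith)

theorem expand_prod_zl {T : Finset ℕ} (hT : ∀ q ∈ T, q.Prime) (m : ℕ) :
    ∏ q ∈ T, zl q m = ∑ D ∈ T.powerset,
      if pr D ∣ m then (∏ q ∈ D, (-((q : ℝ) / ((q : ℝ) - 1)))) * wt (T \ D) else 0 := by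
  have h1 : ∀ q ∈ T, zl q m =
      (if q ∣ m then -((q : ℝ) / ((q : ℝ) - 1)) else 0) + 1 / ((q : ℝ) - 1) := by
    intro q hq
    have h2 : (2 : ℝ) ≤ q := by exact_mod_cast (hT q hq).two_le
    have h3 : (q : ℝ) - 1 ≠ 0 := by linarith
    unfold zl
    split_ifs
    · field_simp
      ring
    · simp
  rw [Finset.prod_congr rfl h1, Finset.prod_add]
  refine Finset.sum_congr rfl fun D hD => ?_
  have hD' : ∀ q ∈ D, q.Prime := fun q hq => hT q (Finset.mem_powerset.1 hD hq)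
  by_cases h : pr D ∣ m
  · rw [if_pos h]
    have h4 := (expand_dvd_iff hD' m).1 h
    rw [Finset.prod_congr rfl fun q hq => if_pos (h4 q hq)]
    rfl
  · rw [if_neg h]
    rw [expand_dvd_iff hD' m] at h
    push Not at h
    obtain ⟨q, hq, hqm⟩ := h
    rw [Finset.prod_eq_zero hq (if_neg hqm), zero_mul]

theorem expand_abs_prod_le {D : Finset ℕ} (hD : ∀ q ∈ D, q.Prime) :
    |∏ q ∈ D, (-((q : ℝ) / ((q : ℝ) - 1)))| ≤ 2 ^ D.card := by
  rw [Finset.abs_prod, ← Finset.prod_const]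
  refine Finset.prod_le_prod (fun q _ => abs_nonneg _) fun q hq => ?_
  have h2 : (2 : ℝ) ≤ q := by exact_mod_cast (hD q hq).two_le
  rw [abs_neg, abs_of_nonneg (div_nonneg (by linarith) (by linarith)), div_le_iff₀ (by linarith)]
  linarith

theorem expand_pow_le {Y G : ℝ} (hG : Tame Y G) {D : Finset ℕ} (hD : ∀ q ∈ D, q.Prime)
    (h : (pr D : ℝ) ≤ Y) : (2 : ℝ) ^ D.card ≤ G := by
  have h1 := hG.pow (pr D) (pr_pos hD) h
  rwa [primeFactors_pr hD] at h1

/-- `zl q m = (1 - q 1_{q ∣ m}) / (q - 1)`; expand the product over `T` (`Finset.prod_one_add`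
or `prod_add`): `sv P z m = ∑ D ⊆ P, lam D 1_{pr D ∣ m}` with
`lam D = ∑ T ⊇ D, z (pr T) wt T ∏ q ∈ D, (-q)`. Then `|lam D| ≤ 2 ^ |D| ∑ T', wt T' ≤ G ^ 3`
(`T' = T \ D`, `sum_wt_le`), and `lam D = 0` unless `pr D < Z`. -/
theorem sv_expand {Y G Z : ℝ} (hG : Tame Y G) {P : Finset ℕ} (hP : ∀ q ∈ P, q.Prime)
    {z : ℕ → ℝ} (hz : Supp z Z) (hZ : Z ≤ Y) :
    ∃ lam : Finset ℕ → ℝ, (∀ D ∈ P.powerset, |lam D| ≤ G ^ 3 ∧ (lam D ≠ 0 → (pr D : ℝ) < Z)) ∧
      ∀ m, sv P z m = ∑ D ∈ P.powerset, if pr D ∣ m then lam D else 0 := by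
  classical
  have hG0 : (0 : ℝ) ≤ G := by linarith [hG.ten]
  refine ⟨fun D => ∑ T ∈ P.powerset.filter (fun T => D ⊆ T),
    z (pr T) * ((∏ q ∈ D, (-((q : ℝ) / ((q : ℝ) - 1)))) * wt (T \ D)), ?_, ?_⟩
  · intro D hD
    have hDP := Finset.mem_powerset.1 hD
    have hD' : ∀ q ∈ D, q.Prime := fun q hq => hP q (hDP hq)
    have key : (∑ T ∈ P.powerset.filter (fun T => D ⊆ T),
        z (pr T) * ((∏ q ∈ D, (-((q : ℝ) / ((q : ℝ) - 1)))) * wt (T \ D))) ≠ 0 →
        (pr D : ℝ) < Z := by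
      intro hne
      obtain ⟨T, hT, hT0⟩ := Finset.exists_ne_zero_of_sum_ne_zero hne
      rw [Finset.mem_filter, Finset.mem_powerset] at hT
      have h1 : (pr T : ℝ) < Z := (hz _).2 (left_ne_zero_of_mul hT0)
      have h2 : (pr D : ℝ) ≤ pr T := by
        exact_mod_cast expand_pr_mono (fun q hq => hP q (hT.1 hq)) hT.2
      linarith
    refine ⟨?_, key⟩
    by_cases h0 : (∑ T ∈ P.powerset.filter (fun T => D ⊆ T),
        z (pr T) * ((∏ q ∈ D, (-((q : ℝ) / ((q : ℝ) - 1)))) * wt (T \ D))) = 0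
    · beta_reduce
      rw [h0, abs_zero]
      positivity
    have hlt := key h0
    have hpow := (expand_abs_prod_le hD').trans (expand_pow_le hG hD' (by linarith))
    have hsum : ∑ T ∈ (P.powerset.filter (fun T => D ⊆ T)).filter (fun T => (pr T : ℝ) < Z),
        wt (T \ D) ≤ G ^ 2 := by
      refine le_trans ?_ (sum_wt_le hG hP hZ)
      rw [← Finset.sum_image (f := wt) (g := fun T => T \ D)]
      · refine Finset.sum_le_sum_of_subset_of_nonneg ?_ ?_
        · intro S hS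
          obtain ⟨T, hT, rfl⟩ := Finset.mem_image.1 hS
          simp only [Finset.mem_filter, Finset.mem_powerset] at hT ⊢
          refine ⟨Finset.sdiff_subset.trans hT.1.1, ?_⟩
          have h2 : (pr (T \ D) : ℝ) ≤ pr T := by
            exact_mod_cast expand_pr_mono (fun q hq => hP q (hT.1.1 hq)) Finset.sdiff_subset
          linarith [hT.2]
        · intro S hS _
          simp only [Finset.mem_filter, Finset.mem_powerset] at hS
          exact expand_wt_nonneg fun q hq => hP q (hS.1 hq)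
      · intro T hT T' hT' h
        simp only [Finset.coe_filter, Finset.mem_filter, Finset.mem_powerset, Set.mem_ofPred_eq]
          at hT hT'
        have h1 := Finset.sdiff_union_of_subset hT.1.2
        have h2 := Finset.sdiff_union_of_subset hT'.1.2
        rw [← h1, ← h2]
        exact congrArg (fun S => S ∪ D) h
    calc _ ≤ ∑ T ∈ P.powerset.filter (fun T => D ⊆ T),
          |z (pr T) * ((∏ q ∈ D, (-((q : ℝ) / ((q : ℝ) - 1)))) * wt (T \ D))| :=
          Finset.abs_sum_le_sum_abs _ _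
      _ ≤ ∑ T ∈ P.powerset.filter (fun T => D ⊆ T),
          if (pr T : ℝ) < Z then G * wt (T \ D) else 0 := by
          refine Finset.sum_le_sum fun T hT => ?_
          rw [Finset.mem_filter, Finset.mem_powerset] at hT
          have hw : 0 ≤ wt (T \ D) :=
            expand_wt_nonneg fun q hq => hP q (hT.1 (Finset.sdiff_subset hq))
          split_ifs with h
          · rw [abs_mul, abs_mul, abs_of_nonneg hw]
            calc _ ≤ 1 * (G * wt (T \ D)) := by
                  gcongr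
                  exact (hz _).1
              _ = _ := one_mul _
          · have : z (pr T) = 0 := by
              by_contra hc
              exact h ((hz _).2 hc)
            rw [this, zero_mul, abs_zero]
      _ = G * ∑ T ∈ (P.powerset.filter (fun T => D ⊆ T)).filter (fun T => (pr T : ℝ) < Z),
          wt (T \ D) := by
          rw [← Finset.sum_filter, Finset.mul_sum]
      _ ≤ G * G ^ 2 := by gcongr
      _ = G ^ 3 := by ring
  · intro m
    unfold sv
    have h1 : ∀ T ∈ P.powerset, z (pr T) * ∏ q ∈ T, zl q m = ∑ D ∈ P.powerset,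
        if D ⊆ T then (if pr D ∣ m then
          z (pr T) * ((∏ q ∈ D, (-((q : ℝ) / ((q : ℝ) - 1)))) * wt (T \ D)) else 0) else 0 := by
      intro T hT
      have hTP := Finset.mem_powerset.1 hT
      rw [expand_prod_zl (fun q hq => hP q (hTP hq)), Finset.mul_sum, ← Finset.sum_filter]
      refine Finset.sum_congr ?_ fun D _ => ?_
      · ext D
        simp only [Finset.mem_filter, Finset.mem_powerset]
        exact ⟨fun h => ⟨h.trans hTP, h⟩, fun h => h.2⟩
      · split_ifs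
        · rfl
        · exact mul_zero _
    rw [Finset.sum_congr rfl h1, Finset.sum_comm]
    refine Finset.sum_congr rfl fun D _ => ?_
    by_cases h : pr D ∣ m
    · simp only [if_pos h]
      rw [Finset.sum_filter]
    · simp only [if_neg h, ite_self, Finset.sum_const_zero]

/-- `|sv P z m| ≤ G ^ 3` times the number of squarefree divisors of `m`. -/
theorem abs_sv_le {Y G Z : ℝ} (hG : Tame Y G) {P : Finset ℕ} (hP : ∀ q ∈ P, q.Prime)
    {z : ℕ → ℝ} (hz : Supp z Z) (hZ : Z ≤ Y) {m : ℕ} (hm : 1 ≤ m) (hmY : (m : ℝ) ≤ Y) :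
    |sv P z m| ≤ G ^ 4 := by
  classical
  have hG0 : (0 : ℝ) ≤ G := by linarith [hG.ten]
  obtain ⟨lam, hl, he⟩ := sv_expand hG hP hz hZ
  rw [he m, ← Finset.sum_filter]
  have hsub : P.powerset.filter (fun D => pr D ∣ m) ⊆ m.primeFactors.powerset := by
    intro D hD
    rw [Finset.mem_filter, Finset.mem_powerset] at hD
    rw [Finset.mem_powerset]
    intro q hq
    have hD' : ∀ q ∈ D, q.Prime := fun q hq => hP q (hD.1 hq)
    exact Nat.mem_primeFactors.2 ⟨hD' q hq, (expand_dvd_iff hD' m).1 hD.2 q hq, by omega⟩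
  have hc : ((P.powerset.filter (fun D => pr D ∣ m)).card : ℝ) ≤ G := by
    refine le_trans ?_ (hG.pow m hm hmY)
    have h1 := Finset.card_le_card hsub
    rw [Finset.card_powerset] at h1
    exact_mod_cast h1
  calc _ ≤ ∑ D ∈ P.powerset.filter (fun D => pr D ∣ m), |lam D| := Finset.abs_sum_le_sum_abs _ _
    _ ≤ ∑ _D ∈ P.powerset.filter (fun D => pr D ∣ m), G ^ 3 :=
        Finset.sum_le_sum fun D hD => (hl D (Finset.mem_filter.1 hD).1).1
    _ = ((P.powerset.filter (fun D => pr D ∣ m)).card : ℝ) * G ^ 3 := by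
        rw [Finset.sum_const, nsmul_eq_mul]
    _ ≤ G * G ^ 3 := by gcongr
    _ = G ^ 4 := by ring

/-- Group the pairs `(D, D')` by `d = pr (D ∪ D')`; at most `4 ^ |D ∪ D'| ≤ G ^ 2` pairs give
the same `d`; `pr D ∣ m ∧ pr D' ∣ m ↔ pr (D ∪ D') ∣ m`; `pr (D ∪ D') ≤ pr D * pr D'`. -/
theorem sv_mul_expand {Y G Z Z' : ℝ} (hG : Tame Y G) {P : Finset ℕ} (hP : ∀ q ∈ P, q.Prime)
    {z z' : ℕ → ℝ} (hz : Supp z Z) (hz' : Supp z' Z') (h1 : 1 ≤ Z) (h1' : 1 ≤ Z')
    (hZ : Z * Z' ≤ Y) :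
    ∃ (D : Finset ℕ) (C : ℕ → ℝ),
      (∀ d ∈ D, Squarefree d ∧ (d : ℝ) < Z * Z' ∧ |C d| ≤ G ^ 8 ∧
        ∀ q : ℕ, q.Prime → q ∣ d → q ∈ P ∧ (q : ℝ) < max Z Z') ∧
      ∀ m, sv P z m * sv P z' m = ∑ d ∈ D, if d ∣ m then C d else 0 := by
  classical
  have hG0 : (0 : ℝ) ≤ G := by linarith [hG.ten]
  have hZ1 : Z ≤ Y := by nlinarith
  have hZ2 : Z' ≤ Y := by nlinarith
  obtain ⟨lam, hl, he⟩ := sv_expand hG hP hz hZ1
  obtain ⟨lam', hl', he'⟩ := sv_expand hG hP hz' hZ2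
  set S : Finset (Finset ℕ × Finset ℕ) :=
    (P.powerset ×ˢ P.powerset).filter fun x => lam x.1 ≠ 0 ∧ lam' x.2 ≠ 0 with hS
  have hmem : ∀ x ∈ S, x.1 ⊆ P ∧ x.2 ⊆ P ∧ |lam x.1| ≤ G ^ 3 ∧ |lam' x.2| ≤ G ^ 3 ∧
      (pr x.1 : ℝ) < Z ∧ (pr x.2 : ℝ) < Z' := by
    intro x hx
    rw [hS, Finset.mem_filter, Finset.mem_product] at hx
    exact ⟨Finset.mem_powerset.1 hx.1.1, Finset.mem_powerset.1 hx.1.2, (hl _ hx.1.1).1,
      (hl' _ hx.1.2).1, (hl _ hx.1.1).2 hx.2.1, (hl' _ hx.1.2).2 hx.2.2⟩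
  have hpr : ∀ x ∈ S, ∀ q ∈ x.1 ∪ x.2, q.Prime := by
    intro x hx q hq
    rcases Finset.mem_union.1 hq with h | h
    · exact hP q ((hmem x hx).1 h)
    · exact hP q ((hmem x hx).2.1 h)
  refine ⟨S.image fun x => pr (x.1 ∪ x.2),
    fun d => ∑ x ∈ S.filter (fun x => pr (x.1 ∪ x.2) = d), lam x.1 * lam' x.2, ?_, ?_⟩
  · intro d hd
    obtain ⟨x, hx, rfl⟩ := Finset.mem_image.1 hd
    obtain ⟨hx1, hx2, -, -, hx5, hx6⟩ := hmem x hx
    have hp1 : ∀ q ∈ x.1, q.Prime := fun q hq => hP q (hx1 hq)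
    have hp2 : ∀ q ∈ x.2, q.Prime := fun q hq => hP q (hx2 hq)
    have hle : pr (x.1 ∪ x.2) ≤ pr x.1 * pr x.2 := by
      refine Nat.le_of_dvd (Nat.mul_pos (pr_pos hp1) (pr_pos hp2)) ?_
      rw [expand_dvd_iff (hpr x hx)]
      intro q hq
      rcases Finset.mem_union.1 hq with h | h
      · exact (Finset.dvd_prod_of_mem (fun q => q) h).mul_right _
      · exact (Finset.dvd_prod_of_mem (fun q => q) h).mul_left _
    have hlt : (pr (x.1 ∪ x.2) : ℝ) < Z * Z' := by
      have h2 : (pr (x.1 ∪ x.2) : ℝ) ≤ (pr x.1 : ℝ) * pr x.2 := by exact_mod_cast hle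
      exact h2.trans_lt (mul_lt_mul'' hx5 hx6 (Nat.cast_nonneg _) (Nat.cast_nonneg _))
    refine ⟨squarefree_pr (hpr x hx), hlt, ?_, ?_⟩
    · have hpow := expand_pow_le hG (hpr x hx) (by linarith)
      have hsub : S.filter (fun y => pr (y.1 ∪ y.2) = pr (x.1 ∪ x.2)) ⊆
          (x.1 ∪ x.2).powerset ×ˢ (x.1 ∪ x.2).powerset := by
        intro y hy
        rw [Finset.mem_filter] at hy
        have h3 : y.1 ∪ y.2 = x.1 ∪ x.2 := by
          rw [← primeFactors_pr (hpr y hy.1), hy.2, primeFactors_pr (hpr x hx)]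
        rw [Finset.mem_product, Finset.mem_powerset, Finset.mem_powerset, ← h3]
        exact ⟨Finset.subset_union_left, Finset.subset_union_right⟩
      have hc : ((S.filter (fun y => pr (y.1 ∪ y.2) = pr (x.1 ∪ x.2))).card : ℝ) ≤ G * G := by
        have h3 := Finset.card_le_card hsub
        rw [Finset.card_product, Finset.card_powerset] at h3
        have h4 : ((S.filter (fun y => pr (y.1 ∪ y.2) = pr (x.1 ∪ x.2))).card : ℝ) ≤
            (2 : ℝ) ^ (x.1 ∪ x.2).card * 2 ^ (x.1 ∪ x.2).card := by exact_mod_cast h3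
        exact h4.trans (mul_le_mul hpow hpow (by positivity) hG0)
      calc _ ≤ ∑ y ∈ S.filter (fun y => pr (y.1 ∪ y.2) = pr (x.1 ∪ x.2)), |lam y.1 * lam' y.2| :=
            Finset.abs_sum_le_sum_abs _ _
        _ ≤ ∑ _y ∈ S.filter (fun y => pr (y.1 ∪ y.2) = pr (x.1 ∪ x.2)), G ^ 3 * G ^ 3 := by
            refine Finset.sum_le_sum fun y hy => ?_
            obtain ⟨-, -, hy3, hy4, -, -⟩ := hmem y (Finset.mem_filter.1 hy).1
            rw [abs_mul]
            exact mul_le_mul hy3 hy4 (abs_nonneg _) (by positivity)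
        _ = ((S.filter (fun y => pr (y.1 ∪ y.2) = pr (x.1 ∪ x.2))).card : ℝ) *
            (G ^ 3 * G ^ 3) := by rw [Finset.sum_const, nsmul_eq_mul]
        _ ≤ (G * G) * (G ^ 3 * G ^ 3) := by gcongr
        _ = G ^ 8 := by ring
    · intro q hq hqd
      have hq' : q ∈ x.1 ∪ x.2 := by
        rw [← primeFactors_pr (hpr x hx)]
        exact Nat.mem_primeFactors.2 ⟨hq, hqd, (pr_pos (hpr x hx)).ne'⟩
      rcases Finset.mem_union.1 hq' with h | h
      · refine ⟨hx1 h, lt_max_of_lt_left ?_⟩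
        have h3 : (q : ℝ) ≤ pr x.1 := by
          exact_mod_cast Nat.le_of_dvd (pr_pos hp1) (Finset.dvd_prod_of_mem (fun q => q) h)
        linarith
      · refine ⟨hx2 h, lt_max_of_lt_right ?_⟩
        have h3 : (q : ℝ) ≤ pr x.2 := by
          exact_mod_cast Nat.le_of_dvd (pr_pos hp2) (Finset.dvd_prod_of_mem (fun q => q) h)
        linarith
  · intro m
    have h2 : ∑ d ∈ S.image (fun x => pr (x.1 ∪ x.2)), (if d ∣ m then
        ∑ x ∈ S.filter (fun x => pr (x.1 ∪ x.2) = d), lam x.1 * lam' x.2 else 0) =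
        ∑ x ∈ S, if pr (x.1 ∪ x.2) ∣ m then lam x.1 * lam' x.2 else 0 := by
      rw [← Finset.sum_fiberwise_of_maps_to (s := S) (t := S.image fun x => pr (x.1 ∪ x.2))
        (g := fun x => pr (x.1 ∪ x.2)) (fun x hx => Finset.mem_image_of_mem _ hx)]
      refine Finset.sum_congr rfl fun d _ => ?_
      by_cases h : d ∣ m
      · rw [if_pos h]
        refine Finset.sum_congr rfl fun x hx => ?_
        rw [(Finset.mem_filter.1 hx).2, if_pos h]
      · rw [if_neg h]
        refine (Finset.sum_eq_zero fun x hx => ?_).symm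
        rw [(Finset.mem_filter.1 hx).2, if_neg h]
    rw [h2, he m, he' m, Finset.sum_mul_sum, ← Finset.sum_product', hS, Finset.sum_filter]
    refine Finset.sum_congr rfl fun x hx => ?_
    rw [Finset.mem_product, Finset.mem_powerset, Finset.mem_powerset] at hx
    have hp1 : ∀ q ∈ x.1, q.Prime := fun q hq => hP q (hx.1 hq)
    have hp2 : ∀ q ∈ x.2, q.Prime := fun q hq => hP q (hx.2 hq)
    have hp3 : ∀ q ∈ x.1 ∪ x.2, q.Prime := fun q hq =>
      (Finset.mem_union.1 hq).elim (hp1 q) (hp2 q)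
    have hiff : pr (x.1 ∪ x.2) ∣ m ↔ pr x.1 ∣ m ∧ pr x.2 ∣ m := by
      rw [expand_dvd_iff hp3, expand_dvd_iff hp1, expand_dvd_iff hp2]
      constructor
      · intro h
        exact ⟨fun q hq => h q (Finset.mem_union_left _ hq),
          fun q hq => h q (Finset.mem_union_right _ hq)⟩
      · intro h q hq
        exact (Finset.mem_union.1 hq).elim (h.1 q) (h.2 q)
    by_cases ha : lam x.1 = 0
    · simp [ha]
    by_cases hb : lam' x.2 = 0
    · simp [hb]
    rw [if_pos (And.intro ha hb)]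
    by_cases h3 : pr x.1 ∣ m <;> by_cases h4 : pr x.2 ∣ m <;> simp [hiff, h3, h4]

end Pool.Agent.Lib.MP_c03ca8_nt.Q
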