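import Pool.Agent.Lib.MP_c03ca8_nt.Q.Config

set_option autoImplicit false

noncomputable section

namespace Pool.Agent.Lib.MP_c03ca8_nt.Q

open Finset Real

theorem k1_uniq {h : Fin 4 → ℕ} (hinj : Function.Injective h) {w : ℕ} (hw : ∀ l, h l < w)
    {q : ℕ} (hq : w < q) {n : ℕ} {l l' : Fin 4} (h1 : q ∣ n + h l) (h2 : q ∣ n + h l') :
    l = l' := by
  apply hinj
  have a1 := hw l
  have a2 := hw l'
  rcases le_total (h l) (h l') with hle | hle
  · have h3 : q ∣ h l' - h l := by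
      have := Nat.dvd_sub h2 h1
      rwa [Nat.add_sub_add_left] at this
    have := Nat.eq_zero_of_dvd_of_lt h3 (by omega)
    omega
  · have h3 : q ∣ h l - h l' := by
      have := Nat.dvd_sub h1 h2
      rwa [Nat.add_sub_add_left] at this
    have := Nat.eq_zero_of_dvd_of_lt h3 (by omega)
    omega

theorem k1_local {h : Fin 4 → ℕ} (hinj : Function.Injective h) {w : ℕ} (hw : ∀ l, h l < w)
    {q : ℕ} (hq : w < q) (n p : ℕ) (i : Fin 4) (S : Finset Slot) :
    (if q = p then ind q (n + h i) else 1) * ∏ s ∈ S, zl q (n + h s.1) =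
      val p i q S none +
        ∑ l, (val p i q S (some l) - val p i q S none) * ind q (n + h l) := by
  by_cases hex : ∃ l0, q ∣ n + h l0
  · obtain ⟨l0, hl0⟩ := hex
    have key : ∀ l, q ∣ n + h l ↔ l0 = l := fun l =>
      ⟨fun hl => k1_uniq hinj hw hq hl0 hl, fun e => e ▸ hl0⟩
    rw [Finset.sum_eq_single l0]
    · have e1 : ind q (n + h l0) = 1 := by simp [ind, hl0]
      rw [e1, mul_one, add_sub_cancel]
      simp only [val, ind, zl, key, Option.some.injEq]
    · intro l _ hl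
      have : ¬ q ∣ n + h l := fun hd => hl ((key l).1 hd).symm
      simp [ind, this]
    · simp
  · push Not at hex
    simp [val, ind, zl, hex]

theorem k1_swap (P : Finset ℕ) (T : Slot → Finset ℕ) (hT : ∀ s, T s ⊆ P) (f : ℕ → Slot → ℝ) :
    ∏ q ∈ P, ∏ s ∈ cfg T q, f q s = ∏ s, ∏ q ∈ T s, f q s := by
  apply Finset.prod_comm'
  intro q s
  simp only [cfg, Finset.mem_filter, Finset.mem_univ, true_and, and_true]
  exact ⟨fun hh => hh.2, fun hh => ⟨hT s hh, hh⟩⟩

theorem k1_ind {P : Finset ℕ} (hP : ∀ q ∈ P, q.Prime) {p : ℕ} (hp : p = 1 ∨ p ∈ P) (m : ℕ) :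
    ∏ q ∈ P, (if q = p then ind q m else 1) = ind p m := by
  rw [Finset.prod_ite_eq']
  rcases hp with rfl | hp
  · have : (1 : ℕ) ∉ P := fun h1 => Nat.not_prime_one (hP 1 h1)
    simp [this, ind]
  · simp [hp]

theorem k1_val_le {q : ℕ} (hq : 2 ≤ q) (p : ℕ) (i : Fin 4) (S : Finset Slot)
    (o : Option (Fin 4)) : |val p i q S o| ≤ 1 := by
  have hq' : (2 : ℝ) ≤ q := by exact_mod_cast hq
  unfold val
  rw [abs_mul, Finset.abs_prod]
  apply mul_le_one₀
  · split_ifs <;> simp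
  · exact Finset.prod_nonneg fun _ _ => abs_nonneg _
  · apply Finset.prod_le_one (fun _ _ => abs_nonneg _)
    intro s _
    split_ifs
    · simp
    · rw [abs_of_nonneg (by apply div_nonneg <;> linarith), div_le_one (by linarith)]
      linarith

theorem k1_err {q : ℕ} (hq : 2 ≤ q) (p : ℕ) (i : Fin 4) (S : Finset Slot) :
    |val p i q S none| + ∑ l, |val p i q S (some l) - val p i q S none| ≤
      (if q = p then 9 else 1) * ∏ _s ∈ S, (9 : ℝ) := by
  have h9 : |val p i q S none| + ∑ l, |val p i q S (some l) - val p i q S none| ≤ 9 := by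
    have h1 := k1_val_le hq p i S none
    have h2 : ∀ l : Fin 4, |val p i q S (some l) - val p i q S none| ≤ 2 := fun l => by
      have := abs_sub (val p i q S (some l)) (val p i q S none)
      have := k1_val_le hq p i S (some l)
      linarith
    have h3 := Finset.sum_le_sum (s := (univ : Finset (Fin 4))) fun l _ => h2 l
    simp only [Finset.sum_const, Finset.card_univ, Fintype.card_fin, nsmul_eq_mul] at h3
    push_cast at h3
    linarith
  have h1 : (1 : ℝ) ≤ ∏ _s ∈ S, (9 : ℝ) := by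
    rw [Finset.prod_const]
    exact one_le_pow₀ (by norm_num)
  by_cases hqp : q = p
  · rw [if_pos hqp]
    linarith
  · rw [if_neg hqp, one_mul]
    rcases S.eq_empty_or_nonempty with rfl | hS
    · simp [val, hqp]
    · refine h9.trans ?_
      rw [Finset.prod_const]
      exact le_self_pow₀ (by norm_num) (Finset.card_pos.2 hS).ne'

theorem k1_nine {Y G : ℝ} (hG : Tame Y G) {T : Finset ℕ} (hT : ∀ q ∈ T, q.Prime)
    (hY : (pr T : ℝ) ≤ Y) : ∏ _q ∈ T, (9 : ℝ) ≤ G ^ 4 := by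
  have h1 := hG.pow (pr T) (pr_pos hT) hY
  rw [primeFactors_pr hT] at h1
  rw [Finset.prod_const]
  calc (9 : ℝ) ^ T.card ≤ ((2 : ℝ) ^ 4) ^ T.card := by
        apply pow_le_pow_left₀ <;> norm_num
    _ = ((2 : ℝ) ^ T.card) ^ 4 := by rw [← pow_mul, ← pow_mul, mul_comm]
    _ ≤ G ^ 4 := pow_le_pow_left₀ (by positivity) h1 4

theorem k1_count {P : Finset ℕ} (hP : ∀ q ∈ P, q.Prime) {z : ℕ → ℝ} {Z : ℝ} (hz : Supp z Z)
    (hZ : 0 ≤ Z) : ∑ T ∈ P.powerset, |z (pr T)| ≤ Z := by
  classical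
  have h1 : ∑ T ∈ P.powerset, |z (pr T)| =
      ∑ T ∈ P.powerset.filter (fun T => (pr T : ℝ) < Z), |z (pr T)| := by
    symm
    apply Finset.sum_filter_of_ne
    intro T _ hT
    exact (hz _).2 (abs_ne_zero.1 hT)
  rw [h1]
  have h2 := sum_pr_le hP (fun r => |z r|) (fun r => abs_nonneg _) (Icc 1 ⌊Z⌋₊)
    (P.powerset.filter fun T => (pr T : ℝ) < Z) (Finset.filter_subset _ _) (by
      intro T hT
      rw [Finset.mem_filter, Finset.mem_powerset] at hT
      rw [Finset.mem_Icc]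
      exact ⟨pr_pos fun q hq => hP q (hT.1 hq), Nat.le_floor hT.2.le⟩)
  refine h2.trans ?_
  have h3 := Finset.sum_le_sum (s := Icc 1 ⌊Z⌋₊) fun r _ => (hz r).1
  refine h3.trans ?_
  simp only [Finset.sum_const, Nat.card_Icc, add_tsub_cancel_right, nsmul_eq_mul, mul_one]
  exact Nat.floor_le hZ

theorem k1_fixed {Y G : ℝ} (hG : Tame Y G) (h : Fin 4 → ℕ) (hinj : Function.Injective h) (w : ℕ)
    (hw : ∀ l, h l < w) (P : Finset ℕ) (hP : ∀ q ∈ P, q.Prime ∧ w < q) (x X Q a : ℕ) (hQ : 0 < Q)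
    (hc : ∀ q ∈ P, Nat.Coprime Q q) (p : ℕ) (hp : p = 1 ∨ p ∈ P) (i : Fin 4)
    (T : Slot → Finset ℕ) (hT : ∀ s, T s ⊆ P) (hY : ∀ s, (pr (T s) : ℝ) ≤ Y) :
    |∑ n ∈ cls x X Q a, ind p (n + h i) * ∏ s, ∏ q ∈ T s, zl q (n + h s.1) -
      X / Q * ∏ q ∈ P, vv p i q (cfg T q)| ≤ G ^ 33 := by
  have hP1 : ∀ q ∈ P, q.Prime := fun q hq => (hP q hq).1
  have h1 := sum_prod_loc h (fun q => val p i q (cfg T q) none)
    (fun q l => val p i q (cfg T q) (some l) - val p i q (cfg T q) none) x X P hP1 Q a hQ hc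
  have e1 : ∀ n, ind p (n + h i) * ∏ s, ∏ q ∈ T s, zl q (n + h s.1) =
      ∏ q ∈ P, (val p i q (cfg T q) none +
        ∑ l, (val p i q (cfg T q) (some l) - val p i q (cfg T q) none) * ind q (n + h l)) := by
    intro n
    rw [← k1_swap P T hT (fun q s => zl q (n + h s.1)), ← k1_ind hP1 hp,
      ← Finset.prod_mul_distrib]
    exact Finset.prod_congr rfl fun q hq => k1_local hinj hw (hP q hq).2 n p i _
  have e2 : ∏ q ∈ P, vv p i q (cfg T q) = ∏ q ∈ P, (val p i q (cfg T q) none +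
        ∑ l, (val p i q (cfg T q) (some l) - val p i q (cfg T q) none) / q) := by
    refine Finset.prod_congr rfl fun q _ => ?_
    simp only [vv, Fin.sum_univ_four]
    ring
  rw [Finset.sum_congr rfl fun n _ => e1 n, e2]
  refine h1.trans ?_
  have hG9 : (9 : ℝ) ≤ G := by linarith [hG.ten]
  calc ∏ q ∈ P, (|val p i q (cfg T q) none| +
          ∑ l, |val p i q (cfg T q) (some l) - val p i q (cfg T q) none|)
      ≤ ∏ q ∈ P, ((if q = p then 9 else 1) * ∏ _s ∈ cfg T q, (9 : ℝ)) := by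
        apply Finset.prod_le_prod
        · intro q _
          positivity
        · intro q hq
          exact k1_err (hP1 q hq).two_le p i _
    _ = (∏ q ∈ P, (if q = p then (9 : ℝ) else 1)) * ∏ s, ∏ _q ∈ T s, (9 : ℝ) := by
        rw [Finset.prod_mul_distrib, k1_swap P T hT (fun _ _ => (9 : ℝ))]
    _ ≤ G * ∏ _s : Slot, G ^ 4 := by
        apply mul_le_mul
        · rw [Finset.prod_ite_eq']
          split_ifs <;> linarith
        · apply Finset.prod_le_prod
          · intro s _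
            positivity
          · intro s _
            exact k1_nine hG (fun q hq => hP1 q (hT s hq)) (hY s)
        · positivity
        · linarith
    _ = G ^ 33 := by
        rw [Finset.prod_const, Finset.card_univ]
        have : Fintype.card Slot = 8 := by simp [Slot]
        rw [this]
        ring

theorem k1_sv_dz {P : Finset ℕ} (hP : ∀ q ∈ P, q.Prime) (z : ℕ → ℝ) {p : ℕ} (hp : p ∈ P)
    {m : ℕ} (hm : p ∣ m) : sv P z m = sv P (dz z p) m := by
  have hpp := hP p hp
  have hins : P = insert p (P.erase p) := (Finset.insert_erase hp).symm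
  have hn : p ∉ P.erase p := Finset.notMem_erase p P
  unfold sv
  rw [hins, Finset.sum_powerset_insert hn, Finset.sum_powerset_insert hn,
    ← Finset.sum_add_distrib, ← Finset.sum_add_distrib]
  refine Finset.sum_congr rfl fun T hT => ?_
  rw [Finset.mem_powerset] at hT
  have hpT : p ∉ T := fun hh => hn (hT hh)
  have hTp : ∀ q ∈ T, q.Prime := fun q hq => hP q (Finset.mem_of_mem_erase (hT hq))
  have e1 : pr (insert p T) = pr T * p := by
    unfold pr
    rw [Finset.prod_insert hpT, mul_comm]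
  have e2 : ¬ p ∣ pr T := by
    intro hd
    apply hpT
    rw [← primeFactors_pr hTp]
    exact Nat.mem_primeFactors.2 ⟨hpp, hd, (pr_pos hTp).ne'⟩
  have e3 : zl p m = -1 := by simp [zl, hm]
  rw [Finset.prod_insert hpT, e1, e3]
  simp only [dz, e2, if_false, Nat.dvd_mul_left, if_true]
  ring

theorem k1_cell (H : ℝ) (σ r : ℕ) :
    cell H σ r = 0 ∨ (cell H σ r = 1 ∧ (r : ℝ) < H ^ (σ + 1)) := by
  unfold cell
  split_ifs with hc
  · exact Or.inr ⟨rfl, hc.2⟩
  · exact Or.inl rfl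

theorem k1_supp_cell (H : ℝ) (σ : ℕ) : Supp (cell H σ) (H ^ (σ + 1)) := by
  intro r
  rcases k1_cell H σ r with h0 | ⟨h1, h2⟩
  · simp [h0]
  · simp [h1, h2]

/-- Trivial level. Expand `Pw` over `T ∈ piFinset` (`Finset.prod_univ_sum`). For fixed `T`,
`ind p (n + h i) * ∏ s, ∏ q ∈ T s, zl q (n + h s.1) = ∏ q ∈ P, (c q + ∑ l, e q l * ind q (n + h l))`
with `c q = val p i q S none`, `e q l = val p i q S (some l) - c q`, `S = cfg T q`, because a
prime `q > w` divides at most one `n + h l`. Apply `sum_prod_loc`. The error factor is `1` if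
`S = ∅` and `q ≠ p`, at most `9` always (`|val| ≤ 1`), so the error for `T` is at most
`9 ∏ s, 9 ^ |T s| ≤ 9 G ^ 32` when all `pr (T s) < Z s`, and there are at most `∏ Z s` such `T`
(`sum_pr_le`). -/
theorem k1 {Y G : ℝ} (hG : Tame Y G) (h : Fin 4 → ℕ) (hinj : Function.Injective h) (w : ℕ)
    (hw : ∀ l, h l < w) (P : Finset ℕ) (hP : ∀ q ∈ P, q.Prime ∧ w < q) (x X Q a : ℕ) (hQ : 0 < Q)
    (hc : ∀ q ∈ P, Nat.Coprime Q q) (z : Slot → ℕ → ℝ) (Z : Slot → ℝ) (hz : ∀ s, Supp (z s) (Z s))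
    (hZ0 : ∀ s, 0 ≤ Z s) (hZ : ∀ s, Z s ≤ Y) (p : ℕ) (hp : p = 1 ∨ p ∈ P) (i : Fin 4) :
    |∑ n ∈ cls x X Q a, ind p (n + h i) * Pw P h z n - X / Q * M1 P z p i| ≤
      G ^ 33 * ∏ s, Z s := by
  classical
  have hP1 : ∀ q ∈ P, q.Prime := fun q hq => (hP q hq).1
  have hG0 : (0 : ℝ) ≤ G := by linarith [hG.ten]
  have e1 : ∀ n, ind p (n + h i) * Pw P h z n =
      ∑ T ∈ Fintype.piFinset (fun _ : Slot => P.powerset), (∏ s, z s (pr (T s))) *
        (ind p (n + h i) * ∏ s, ∏ q ∈ T s, zl q (n + h s.1)) := by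
    intro n
    unfold Pw sv
    rw [Finset.prod_univ_sum, Finset.mul_sum]
    refine Finset.sum_congr rfl fun T _ => ?_
    rw [Finset.prod_mul_distrib]
    ring
  have e2 : ∑ n ∈ cls x X Q a, ind p (n + h i) * Pw P h z n - X / Q * M1 P z p i =
      ∑ T ∈ Fintype.piFinset (fun _ : Slot => P.powerset), (∏ s, z s (pr (T s))) *
        (∑ n ∈ cls x X Q a, ind p (n + h i) * ∏ s, ∏ q ∈ T s, zl q (n + h s.1) -
          X / Q * ∏ q ∈ P, vv p i q (cfg T q)) := by
    rw [Finset.sum_congr rfl fun n _ => e1 n, Finset.sum_comm]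
    unfold M1
    rw [Finset.mul_sum, ← Finset.sum_sub_distrib]
    refine Finset.sum_congr rfl fun T _ => ?_
    rw [← Finset.mul_sum]
    ring
  rw [e2]
  refine (Finset.abs_sum_le_sum_abs _ _).trans ?_
  have h3 : ∀ T ∈ Fintype.piFinset (fun _ : Slot => P.powerset),
      |(∏ s, z s (pr (T s))) *
        (∑ n ∈ cls x X Q a, ind p (n + h i) * ∏ s, ∏ q ∈ T s, zl q (n + h s.1) -
          X / Q * ∏ q ∈ P, vv p i q (cfg T q))| ≤ G ^ 33 * ∏ s, |z s (pr (T s))| := by
    intro T hT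
    rw [abs_mul, Finset.abs_prod, mul_comm]
    by_cases h0 : ∃ s, z s (pr (T s)) = 0
    · obtain ⟨s, hs⟩ := h0
      have : ∏ s, |z s (pr (T s))| = 0 :=
        Finset.prod_eq_zero (Finset.mem_univ s) (by rw [hs, abs_zero])
      rw [this, mul_zero, mul_zero]
    · push Not at h0
      apply mul_le_mul_of_nonneg_right _ (Finset.prod_nonneg fun _ _ => abs_nonneg _)
      refine k1_fixed hG h hinj w hw P hP x X Q a hQ hc p hp i T ?_ ?_
      · intro s
        exact Finset.mem_powerset.1 (Fintype.mem_piFinset.1 hT s)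
      · intro s
        exact ((hz s _).2 (h0 s)).le.trans (hZ s)
  refine (Finset.sum_le_sum h3).trans ?_
  rw [← Finset.mul_sum]
  apply mul_le_mul_of_nonneg_left _ (by positivity)
  rw [← Finset.prod_univ_sum (fun _ : Slot => P.powerset) (fun s T => |z s (pr T)|)]
  apply Finset.prod_le_prod
  · intro s _
    exact Finset.sum_nonneg fun _ _ => abs_nonneg _
  · intro s _
    exact k1_count hP1 (hz s) (hZ0 s)

/-- On multiples of `p` only `dz` matters: pair `T ∌ p` with `insert p T`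
(`Finset.sum_powerset_insert`), `zl p m = -1`. -/
theorem ind_mul_Pw {P : Finset ℕ} (hP : ∀ q ∈ P, q.Prime) (h : Fin 4 → ℕ) (z : Slot → ℕ → ℝ)
    {p : ℕ} (hp : p ∈ P) (i : Fin 4) (n : ℕ) :
    ind p (n + h i) * Pw P h z n = ind p (n + h i) * Pw P h (zp z i p) n := by
  by_cases hd : p ∣ n + h i
  · congr 1
    unfold Pw
    refine Finset.prod_congr rfl fun s _ => ?_
    unfold zp
    split_ifs with hs
    · exact k1_sv_dz hP (z s) hp (hs ▸ hd)
    · rfl
  · simp [ind, hd]

/-- A cell takes the values `0` and `1`, and `r ≤ r * p`. -/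
theorem supp_zp {H : ℝ} (hH : 1 ≤ H) (jj : Slot → ℕ) (i : Fin 4) {p : ℕ} (hp : 1 ≤ p) (s : Slot) :
    Supp (zp (cz H jj) i p s) (H ^ (jj s + 1)) := by
  have _ := hH
  unfold zp
  split_ifs with hs
  · intro r
    simp only [dz, cz]
    split_ifs with hr
    · simp
    · have hle : (r : ℝ) ≤ ((r * p : ℕ) : ℝ) := by
        exact_mod_cast Nat.le_mul_of_pos_right r hp
      rcases k1_cell H (jj s) r with h0 | ⟨h1, h2⟩ <;>
        rcases k1_cell H (jj s) (r * p) with h0' | ⟨h1', h2'⟩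
      · rw [h0, h0']
        simp
      · rw [h0, h1']
        exact ⟨by simp, fun _ => hle.trans_lt h2'⟩
      · rw [h1, h0']
        exact ⟨by simp, fun _ => h2⟩
      · rw [h1, h1']
        simp
  · exact k1_supp_cell H (jj s)

theorem supp_cz (H : ℝ) (jj : Slot → ℕ) (s : Slot) : Supp (cz H jj s) (H ^ (jj s + 1)) := by
  exact k1_supp_cell H (jj s)

/-- A prime above the support changes nothing. -/
theorem zp_eq_of_le {H : ℝ} (hH : 1 ≤ H) (jj : Slot → ℕ) (i : Fin 4) {p : ℕ}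
    (hp : ∀ s, H ^ (jj s + 1) ≤ (p : ℝ)) : zp (cz H jj) i p = cz H jj := by
  funext s
  unfold zp
  split_ifs with hs
  · funext r
    have hp1 : (1 : ℝ) ≤ H ^ jj s := one_le_pow₀ hH
    simp only [dz, cz]
    split_ifs with hr
    · unfold cell
      rw [if_neg]
      rintro ⟨h1, h2⟩
      rcases Nat.eq_zero_or_pos r with rfl | hr0
      · simp only [Nat.cast_zero] at h1
        linarith
      · have h3 : (p : ℝ) ≤ r := by exact_mod_cast Nat.le_of_dvd hr0 hr
        linarith [hp s]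
    · have hr0 : 0 < r := Nat.pos_of_ne_zero fun h0 => hr (h0 ▸ dvd_zero p)
      have h3 : (p : ℝ) ≤ ((r * p : ℕ) : ℝ) := by
        exact_mod_cast Nat.le_mul_of_pos_left p hr0
      rcases k1_cell H (jj s) (r * p) with h0 | ⟨_, h2⟩
      · rw [h0, sub_zero]
      · linarith [hp s]
  · rfl

end Pool.Agent.Lib.MP_c03ca8_nt.Q
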