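import Pool.Agent.Lib.MP_c03ca8_nt.Q.BV
import Pool.Agent.Lib.MP_c03ca8_nt.Q.Expand
import Pool.Agent.Lib.MP_c03ca8_nt.Q.K1

set_option autoImplicit false

noncomputable section

namespace Pool.Agent.Lib.MP_c03ca8_nt.Q

open Finset Real

theorem k2_prod_ite (i : Fin 4) (t : ℝ) : ∏ l : Fin 4, (if l = i then 1 else t) = t ^ 3 := by
  fin_cases i <;> simp [Fin.prod_univ_four] <;> ring

theorem k2_zero_of_bdd {t B : ℝ} (h : ∀ n : ℕ, |(n : ℝ) * t| ≤ B) : t = 0 := by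
  by_contra ht
  have h0 : 0 < |t| := abs_pos.2 ht
  obtain ⟨n, hn⟩ := exists_nat_gt (B / |t|)
  have := h n
  rw [abs_mul, Nat.abs_cast] at this
  rw [div_lt_iff₀ h0] at hn
  linarith

theorem k2_not_dvd {h : Fin 4 → ℕ} (hinj : Function.Injective h) {w : ℕ} (hw : ∀ l, h l < w)
    {r n : ℕ} (hr : w < r) {l l' : Fin 4} (h1 : r ∣ n + h l) (h2 : r ∣ n + h l') : l = l' := by
  apply hinj
  have a1 := hw l
  have a2 := hw l'
  rcases le_total (h l) (h l') with hh | hh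
  · have : r ∣ h l' - h l := by
      have := Nat.dvd_sub h2 h1
      rwa [Nat.add_sub_add_left] at this
    have := Nat.eq_zero_of_dvd_of_lt this (by omega)
    omega
  · have : r ∣ h l - h l' := by
      have := Nat.dvd_sub h1 h2
      rwa [Nat.add_sub_add_left] at this
    have := Nat.eq_zero_of_dvd_of_lt this (by omega)
    omega

theorem k2_crt {h : Fin 4 → ℕ} (hinj : Function.Injective h) {w : ℕ} (hw : ∀ l, h l < w)
    {W a : ℕ} {i : Fin 4} (cop : Nat.Coprime (a + h i) W) {κ : Fin 4 → ℕ} (hκi : κ i = 1)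
    (hκ : ∀ l r, r.Prime → r ∣ κ l → w < r) (hW : ∀ r, r.Prime → r ∣ W → r ≤ w) {n0 : ℕ}
    (h0 : n0 ≡ a [MOD W]) (h1 : ∀ l, κ l ∣ n0 + h l) :
    Nat.Coprime (n0 + h i) (W * ∏ l, κ l) ∧
      ∀ n, (n ≡ a [MOD W] ∧ ∀ l, κ l ∣ n + h l) ↔ n + h i ≡ n0 + h i [MOD W * ∏ l, κ l] := by
  constructor
  · apply Nat.Coprime.mul_right
    · have : n0 + h i ≡ a + h i [MOD W] := h0.add_right _
      rw [Nat.Coprime, this.gcd_eq]; exact cop
    · apply Nat.Coprime.prod_right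
      intro l _
      apply Nat.Coprime.symm
      rw [Nat.coprime_iff_gcd_eq_one]
      by_contra hne
      obtain ⟨r, hr, hd⟩ := Nat.exists_prime_and_dvd hne
      have a1 : r ∣ κ l := hd.trans (Nat.gcd_dvd_left _ _)
      have a2 : r ∣ n0 + h i := hd.trans (Nat.gcd_dvd_right _ _)
      have := k2_not_dvd hinj hw (hκ l r hr a1) (a1.trans (h1 l)) a2
      subst this
      rw [hκi] at a1
      exact hr.one_lt.ne' (Nat.dvd_one.1 a1)
  · intro n
    constructor
    · rintro ⟨a1, a2⟩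
      apply Nat.ModEq.add_right
      have c1 : Nat.Coprime W (∏ l, κ l) := by
        apply Nat.Coprime.prod_right
        intro l _
        rw [Nat.coprime_iff_gcd_eq_one]
        by_contra hne
        obtain ⟨r, hr, hd⟩ := Nat.exists_prime_and_dvd hne
        have b1 := hW r hr (hd.trans (Nat.gcd_dvd_left _ _))
        have b2 := hκ l r hr (hd.trans (Nat.gcd_dvd_right _ _))
        omega
      rw [← Nat.modEq_and_modEq_iff_modEq_mul c1]
      refine ⟨a1.trans h0.symm, ?_⟩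
      rw [Nat.modEq_iff_dvd]
      push_cast
      apply Finset.prod_dvd_of_coprime
      · intro l _ l' _ hne
        rw [Function.onFun, Nat.isCoprime_iff_coprime, Nat.coprime_iff_gcd_eq_one]
        by_contra hne'
        obtain ⟨r, hr, hd⟩ := Nat.exists_prime_and_dvd hne'
        have b1 : r ∣ κ l := hd.trans (Nat.gcd_dvd_left _ _)
        have b2 : r ∣ κ l' := hd.trans (Nat.gcd_dvd_right _ _)
        exact hne (k2_not_dvd hinj hw (hκ l r hr b1) (b1.trans (h1 l)) (b2.trans (h1 l')))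
      · intro l _
        have b1 : ((κ l : ℕ) : ℤ) ∣ ((n0 + h l : ℕ) : ℤ) := Int.natCast_dvd_natCast.2 (h1 l)
        have b2 : ((κ l : ℕ) : ℤ) ∣ ((n + h l : ℕ) : ℤ) := Int.natCast_dvd_natCast.2 (a2 l)
        have := dvd_sub b1 b2
        push_cast at this
        rwa [add_sub_add_right_eq_sub] at this
    · intro hn
      have hn' : n ≡ n0 [MOD W * ∏ l, κ l] := Nat.ModEq.add_right_cancel' _ hn
      refine ⟨(hn'.of_mul_right _).trans h0, fun l => ?_⟩
      have hd : κ l ∣ W * ∏ l, κ l := Dvd.dvd.mul_left (dvd_prod_of_mem κ (mem_univ l)) W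
      have : n + h l ≡ n0 + h l [MOD κ l] := (hn'.of_dvd hd).add_right _
      exact (this.dvd_iff dvd_rfl).2 (h1 l)

theorem k2_card_shift {x X W a q b t m : ℕ} {A : ℕ → Prop} [DecidablePred A]
    (h : ∀ n, (n ≡ a [MOD W] ∧ A n) ↔ n + t ≡ b [MOD q]) :
    ((cls x X W a).filter fun n => A n ∧ m ∣ n + t).card =
      ((cls (x + t) X q b).filter fun n => m ∣ n).card := by
  refine card_nbij' (fun n => n + t) (fun n => n - t) ?_ ?_ ?_ ?_
  · intro n hn
    simp only [cls, coe_filter, mem_filter, mem_Ioc, Set.mem_ofPred_eq] at hn ⊢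
    exact ⟨⟨⟨by omega, by omega⟩, (h n).1 ⟨hn.1.2, hn.2.1⟩⟩, hn.2.2⟩
  · intro n hn
    simp only [cls, coe_filter, mem_filter, mem_Ioc, Set.mem_ofPred_eq] at hn ⊢
    have e : n - t + t = n := by omega
    have := (h (n - t)).2 (by rw [e]; exact hn.1.2)
    exact ⟨⟨⟨by omega, by omega⟩, this.1⟩, this.2, by rw [e]; exact hn.2⟩
  · intro n _; simp
  · intro n hn
    simp only [cls, coe_filter, mem_filter, mem_Ioc, Set.mem_ofPred_eq] at hn
    simp only
    omega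

/-- Pointwise expansion. -/
theorem k2_point {P : Finset ℕ} {h : Fin 4 → ℕ} {z : Slot → ℕ → ℝ} {D : Fin 4 → Finset ℕ}
    {C : Fin 4 → ℕ → ℝ}
    (hDC : ∀ l m, sv P (z (l, false)) m * sv P (z (l, true)) m =
      ∑ d ∈ D l, if d ∣ m then C l d else 0) (i : Fin 4) {p : ℕ}
    (hp : ∀ d ∈ D i, Nat.Coprime p d) (n : ℕ) :
    ind p (n + h i) * Pw P h z n =
      ∑ κ ∈ Fintype.piFinset (fun l => if l = i then {1} else D l),
        (∏ l, if l = i then 1 else C l (κ l)) * ∑ d ∈ D i, C i d *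
          if (∀ l, κ l ∣ n + h l) ∧ p * d ∣ n + h i then 1 else 0 := by
  have e1 : Pw P h z n = ∏ l, ∑ d ∈ D l, if d ∣ n + h l then C l d else 0 := by
    rw [Pw, Fintype.prod_prod_type]
    refine prod_congr rfl fun l _ => ?_
    rw [Fintype.prod_bool, mul_comm, hDC]
  have e2 : ∏ l, (∑ d ∈ D l, if d ∣ n + h l then C l d else 0) =
      (∑ d ∈ D i, if d ∣ n + h i then C i d else 0) *
        ∏ l, ∑ d ∈ (if l = i then {1} else D l),
          if d ∣ n + h l then (if l = i then 1 else C l d) else 0 := by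
    rw [← mul_prod_erase univ _ (mem_univ i), ← mul_prod_erase univ _ (mem_univ i)]
    congr 1
    rw [if_pos rfl, sum_singleton, if_pos (one_dvd _), if_pos rfl, one_mul]
    refine prod_congr rfl fun l hl => ?_
    simp only [if_neg (ne_of_mem_erase hl)]
  have e3 : ind p (n + h i) * (∑ d ∈ D i, if d ∣ n + h i then C i d else 0) =
      ∑ d ∈ D i, C i d * if p * d ∣ n + h i then 1 else 0 := by
    rw [mul_sum]
    refine sum_congr rfl fun d hd => ?_
    by_cases h1 : p * d ∣ n + h i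
    · rw [ind, if_pos (dvd_of_mul_right_dvd h1), if_pos (dvd_of_mul_left_dvd h1), if_pos h1]; ring
    · rw [if_neg h1, ind]
      by_cases h2 : p ∣ n + h i
      · rw [if_neg (fun h3 => h1 ((hp d hd).mul_dvd_of_dvd_of_dvd h2 h3))]; ring
      · rw [if_neg h2]; ring
  rw [e1, e2, ← mul_assoc, e3, prod_univ_sum, mul_sum]
  refine sum_congr rfl fun κ _ => ?_
  by_cases hκ : ∀ l, κ l ∣ n + h l
  · simp only [hκ, if_true, implies_true, true_and]; ring
  · simp only [hκ, false_and, if_false, mul_zero, sum_const_zero]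
    push Not at hκ
    obtain ⟨l, hl⟩ := hκ
    rw [prod_eq_zero (mem_univ l) (if_neg hl), mul_zero]

/-- The worst residue for each modulus. -/
theorem k2_worst {ι : Type} (K : Finset ι) (q a : ι → ℕ) (Q : ℕ) (hq : ∀ κ ∈ K, q κ ∈ Icc 1 Q)
    (ha : ∀ κ ∈ K, Nat.Coprime (a κ) (q κ)) (F : ℕ → ℕ → ℝ) {B : ℝ}
    (hB : ∀ r ∈ Icc 1 Q, ((K.filter fun κ => q κ = r).card : ℝ) ≤ B) :
    ∃ b : ℕ → ℕ, (∀ r ∈ Icc 1 Q, Nat.Coprime (b r) r) ∧
      ∑ κ ∈ K, |F (q κ) (a κ)| ≤ B * ∑ r ∈ Icc 1 Q, |F r (b r)| := by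
  have ex : ∀ r, ∃ b, Nat.Coprime b r ∧ ∀ κ ∈ K, q κ = r → |F r (a κ)| ≤ |F r b| := by
    intro r
    by_cases hne : (K.filter fun κ => q κ = r).Nonempty
    · obtain ⟨κ0, h0, hm⟩ := exists_max_image _ (fun κ => |F r (a κ)|) hne
      rw [mem_filter] at h0
      exact ⟨a κ0, h0.2 ▸ ha κ0 h0.1, fun κ hκ e => hm κ (mem_filter.2 ⟨hκ, e⟩)⟩
    · exact ⟨1, Nat.coprime_one_left r, fun κ hκ e => absurd ⟨κ, mem_filter.2 ⟨hκ, e⟩⟩ hne⟩
  choose b hb1 hb2 using ex
  refine ⟨b, fun r _ => hb1 r, ?_⟩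
  rw [← sum_fiberwise_of_maps_to hq, mul_sum]
  refine sum_le_sum fun r hr => ?_
  calc ∑ κ ∈ K with q κ = r, |F (q κ) (a κ)| ≤ ∑ κ ∈ K with q κ = r, |F r (b r)| := by
        refine sum_le_sum fun κ hκ => ?_
        rw [mem_filter] at hκ
        rw [hκ.2]; exact hb2 r κ hκ.1 hκ.2
    _ = ((K.filter fun κ => q κ = r).card : ℝ) * |F r (b r)| := by rw [sum_const, nsmul_eq_mul]
    _ ≤ B * |F r (b r)| := mul_le_mul_of_nonneg_right (hB r hr) (abs_nonneg _)

/-- Bilinear level. By `sv_mul_expand`, for each form `l` the product of its two slots is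
`∑ d ∈ D l, 1_{d ∣ n + h l} C l d`. For a triple `κ = (d l)_{l ≠ i}` the set of `n ≡ a [MOD W]`
with `d l ∣ n + h l` is empty or one class modulo `q κ = W ∏ d l` (the `d l` are then pairwise
coprime and coprime to `W`), and `n + h i` runs through a class `a κ` coprime to `q κ` in
`(x + h i, x + h i + X]`. Since `p` exceeds the primes of `d ∈ D i`,
`p ∣ m ∧ d ∣ m ↔ p * d ∣ m`. So the sum over `n` is
`∑ κ, c κ ∑ d, C i d * #{m ∈ cls (x + h i) X (q κ) (a κ) | p d ∣ m}`.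
Main terms: let `M2 = ∑ κ, c κ ∑ d, C i d * (if Coprime (p d) (q κ) then 1 / (q κ p d) else 0)`.
For every `X'` the sum over `cls x X' W a` is within a bound independent of `X'` both of
`X' / W * M1` (`k1`) and of `X' * M2` (`card_cls_dvd`; `a κ` does not depend on `X'`), so
`M1 / W = M2`. At most `G ^ 3` triples have the same `q κ ≤ Q` (`card_sqf_dvd`); for each `q`
take the worst residue (`Finset.exists_max_image` over the residues coprime to `q`) and apply
`bv` with `x + h i` in place of `x`, `Bc = G ^ 8`, `|c κ| ≤ G ^ 24`. -/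
theorem k2 {G : ℝ} (E : Env) (hE : E.Good) (hx : 2 * E.w ≤ E.x) (hG : Tame (3 * (E.x : ℝ)) G)
    (z : Slot → ℕ → ℝ) (Z : Slot → ℝ) (hz : ∀ s, Supp (z s) (Z s)) (hZ1 : ∀ s, 1 ≤ Z s)
    (hZ : ∀ l, Z (l, false) * Z (l, true) ≤ 3 * (E.x : ℝ)) (i : Fin 4) (Q : ℕ)
    (hQ : E.W * ∏ s ∈ univ.filter (fun s : Slot => s.1 ≠ i), Z s ≤ Q) (hQx : Q ≤ E.x)
    (S : Finset ℕ) {P1 P2 γ C0 : ℝ} (hS : ∀ p ∈ S, p ∈ E.P ∧ P1 ≤ (p : ℝ) ∧ (p : ℝ) < P2)
    (hZP : ∀ s, Z s ≤ P1) (hP2 : P2 ≤ 3 * (E.x : ℝ)) (hP12 : P1 ≤ P2) (hγ : 0 < γ) (hγ1 : γ ≤ 1)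
    (hγP : 1 ≤ γ * P1) (hC0 : 1 ≤ C0) :
    |∑ p ∈ S, (∑ n ∈ E.I, ind p (n + E.h i) * Pw E.P E.h z n - E.X / E.W * M1 E.P z p i)| ≤
      G ^ 44 * bvB (2 * E.x) E.X Q P1 P2 (Z (i, false) * Z (i, true)) γ C0 := by
  classical
  have hP : ∀ q ∈ E.P, q.Prime ∧ E.w < q := by
    intro q hq
    rw [Env.P, PP, mem_filter] at hq
    exact ⟨Nat.prime_of_mem_primesLE hq.1, hq.2⟩
  have hW0 : 0 < E.W := primorial_pos _
  have hWp : ∀ r, r.Prime → r ∣ E.W → r ≤ E.w := fun r hr hd => (hr.dvd_primorial_iff).1 hd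
  have hG1 : 1 ≤ G := le_trans (by norm_num) hG.ten
  have hG0 : 0 ≤ G := le_trans zero_le_one hG1
  choose D C hD hDC using fun l : Fin 4 => sv_mul_expand hG (fun q hq => (hP q hq).1)
    (hz (l, false)) (hz (l, true)) (hZ1 _) (hZ1 _) (hZ l)
  set D' : Fin 4 → Finset ℕ := fun l => if l = i then {1} else D l with hD'
  set c : (Fin 4 → ℕ) → ℝ := fun κ => ∏ l, if l = i then 1 else C l (κ l) with hc
  set q : (Fin 4 → ℕ) → ℕ := fun κ => E.W * ∏ l, κ l with hq
  set K := (Fintype.piFinset D').filter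
    (fun κ => ∃ n, n ≡ E.a [MOD E.W] ∧ ∀ l, κ l ∣ n + E.h l) with hK
  have hmem : ∀ κ ∈ Fintype.piFinset D', κ i = 1 ∧ ∀ l, l ≠ i → κ l ∈ D l := by
    intro κ hκ
    rw [Fintype.mem_piFinset] at hκ
    constructor
    · have := hκ i
      simpa [hD'] using this
    · intro l hl
      have := hκ l
      simpa [hD', hl] using this
  have hex : ∀ κ : Fin 4 → ℕ, ∃ b, κ ∈ K → Nat.Coprime b (q κ) ∧
      ∀ n, (n ≡ E.a [MOD E.W] ∧ ∀ l, κ l ∣ n + E.h l) ↔ n + E.h i ≡ b [MOD q κ] := by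
    intro κ
    by_cases hκ : κ ∈ K
    · obtain ⟨h1, n0, h2, h3⟩ := mem_filter.1 hκ
      obtain ⟨h4, h5⟩ := hmem κ h1
      refine ⟨n0 + E.h i, fun _ => k2_crt hE.inj hE.hlt (hE.cop i) h4 ?_ hWp h2 h3⟩
      intro l r hr hd
      by_cases hl : l = i
      · subst hl; rw [h4] at hd; exact absurd (Nat.dvd_one.1 hd) hr.one_lt.ne'
      · exact (hP r ((hD l _ (h5 l hl)).2.2.2 r hr hd).1).2
    · exact ⟨0, fun h => absurd h hκ⟩
  choose b hb using hex
  have hκ1 : ∀ κ ∈ K, ∀ l, 1 ≤ κ l := by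
    intro κ hκ l
    obtain ⟨h4, h5⟩ := hmem κ (mem_filter.1 hκ).1
    by_cases hl : l = i
    · subst hl; omega
    · exact Nat.one_le_iff_ne_zero.2 (hD l _ (h5 l hl)).1.ne_zero
  have hq0 : ∀ κ ∈ K, 0 < q κ := fun κ hκ =>
    Nat.mul_pos hW0 (prod_pos fun l _ => hκ1 κ hκ l)
  have hqQ : ∀ κ ∈ K, q κ ∈ Icc 1 Q := by
    intro κ hκ
    obtain ⟨h4, h5⟩ := hmem κ (mem_filter.1 hκ).1
    refine mem_Icc.2 ⟨hq0 κ hκ, ?_⟩
    have e : ∏ s ∈ univ.filter (fun s : Slot => s.1 ≠ i), Z s =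
        ∏ l, if l = i then 1 else Z (l, false) * Z (l, true) := by
      rw [prod_filter, Fintype.prod_prod_type]
      refine prod_congr rfl fun l _ => ?_
      rw [Fintype.prod_bool]
      by_cases hl : l = i
      · simp [hl]
      · simp [hl, mul_comm]
    have : ((q κ : ℕ) : ℝ) ≤ Q := by
      refine le_trans ?_ hQ
      rw [e, hq]
      push_cast
      refine mul_le_mul_of_nonneg_left (prod_le_prod (fun l _ => Nat.cast_nonneg _) fun l _ => ?_)
        (Nat.cast_nonneg _)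
      by_cases hl : l = i
      · subst hl; rw [h4, if_pos rfl]; simp
      · rw [if_neg hl]; exact (hD l _ (h5 l hl)).2.1.le
    exact_mod_cast this
  have hcop : ∀ p ∈ S, ∀ d ∈ D i, Nat.Coprime p d := by
    intro p hp d hd
    obtain ⟨h1, h2, _⟩ := hS p hp
    rw [(hP p h1).1.coprime_iff_not_dvd]
    intro hdv
    have := ((hD i d hd).2.2.2 p (hP p h1).1 hdv).2
    have h3 : max (Z (i, false)) (Z (i, true)) ≤ P1 := max_le (hZP _) (hZP _)
    linarith
  have hid : ∀ p ∈ S, ∀ X' : ℕ,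
      ∑ n ∈ cls E.x X' E.W E.a, ind p (n + E.h i) * Pw E.P E.h z n =
        ∑ κ ∈ K, c κ * ∑ d ∈ D i, C i d *
          (((cls (E.x + E.h i) X' (q κ) (b κ)).filter fun n => p * d ∣ n).card : ℝ) := by
    intro p hp X'
    rw [sum_congr rfl fun n _ => k2_point hDC i (hcop p hp) n, sum_comm, hK, sum_filter]
    refine sum_congr rfl fun κ hκ => ?_
    rw [← mul_sum, sum_comm]
    split_ifs with hg
    · congr 1
      refine sum_congr rfl fun d _ => ?_
      rw [← mul_sum, sum_boole, k2_card_shift (hb κ (mem_filter.2 ⟨hκ, hg⟩)).2]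
    · rw [sum_eq_zero, mul_zero]
      intro d _
      refine sum_eq_zero fun n hn => ?_
      rw [if_neg, mul_zero]
      exact fun h => hg ⟨n, (mem_filter.1 hn).2, h.1⟩
  have hmain : ∀ p ∈ S, M1 E.P z p i / E.W = ∑ κ ∈ K, c κ * ∑ d ∈ D i, C i d *
      if Nat.Coprime (p * d) (q κ) then 1 / ((q κ : ℝ) * (p * d)) else 0 := by
    intro p hp
    rw [← sub_eq_zero]
    apply k2_zero_of_bdd (B := G ^ 33 * ∏ s, Z s + ∑ κ ∈ K, |c κ| * ∑ d ∈ D i, |C i d|)
    intro X'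
    have a1 := k1 hG E.h hE.inj E.w hE.hlt E.P hP E.x X' E.W E.a hW0 (fun r hr => by
      apply Nat.Coprime.symm
      rw [(hP r hr).1.coprime_iff_not_dvd]
      intro hd
      have := hWp r (hP r hr).1 hd
      have := (hP r hr).2
      omega) z Z hz (fun s => zero_le_one.trans (hZ1 s))
      (fun s => (hZP s).trans (hP12.trans hP2)) p (Or.inr (hS p hp).1) i
    rw [hid p hp X'] at a1
    have a2 : |∑ κ ∈ K, c κ * ∑ d ∈ D i, C i d *
        (((cls (E.x + E.h i) X' (q κ) (b κ)).filter fun n => p * d ∣ n).card : ℝ) -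
        X' * ∑ κ ∈ K, c κ * ∑ d ∈ D i, C i d *
          if Nat.Coprime (p * d) (q κ) then 1 / ((q κ : ℝ) * (p * d)) else 0| ≤
        ∑ κ ∈ K, |c κ| * ∑ d ∈ D i, |C i d| := by
      rw [mul_sum, ← sum_sub_distrib]
      refine (abs_sum_le_sum_abs _ _).trans (sum_le_sum fun κ hκ => ?_)
      rw [mul_left_comm, ← mul_sub, abs_mul]
      refine mul_le_mul_of_nonneg_left ?_ (abs_nonneg _)
      rw [mul_sum, ← sum_sub_distrib]
      refine (abs_sum_le_sum_abs _ _).trans (sum_le_sum fun d hd => ?_)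
      rw [mul_left_comm, ← mul_sub, abs_mul]
      have hpd : 0 < p * d :=
        Nat.mul_pos (hP p (hS p hp).1).1.pos (Nat.pos_of_ne_zero (hD i d hd).1.ne_zero)
      have := card_cls_dvd (hq0 κ hκ) hpd (hb κ hκ).1 (E.x + E.h i) X'
      refine mul_le_of_le_one_right (abs_nonneg _) (le_trans (le_of_eq ?_) this)
      congr 2
      split_ifs
      · push_cast; ring
      · ring
    rw [abs_le] at a1 a2 ⊢
    have e : (X' : ℝ) / E.W * M1 E.P z p i = X' * (M1 E.P z p i / E.W) := by ring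
    rw [e] at a1
    rw [mul_sub]
    constructor <;> linarith [a1.1, a1.2, a2.1, a2.2]
  set F : ℕ → ℕ → ℝ := fun r a' => ∑ p ∈ S, ∑ d ∈ D i, C i d *
    ((((cls (E.x + E.h i) E.X r a').filter fun n => p * d ∣ n).card : ℝ) -
      if Nat.Coprime (p * d) r then (E.X : ℝ) / (r * (p * d)) else 0) with hF
  have hsum : ∑ p ∈ S, (∑ n ∈ E.I, ind p (n + E.h i) * Pw E.P E.h z n -
      E.X / E.W * M1 E.P z p i) = ∑ κ ∈ K, c κ * F (q κ) (b κ) := by
    simp only [hF, mul_sum]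
    rw [sum_comm]
    refine sum_congr rfl fun p hp => ?_
    have e : (E.X : ℝ) / E.W * M1 E.P z p i = E.X * (M1 E.P z p i / E.W) := by ring
    rw [Env.I, hid p hp, e, hmain p hp]
    simp only [mul_sum]
    rw [← sum_sub_distrib]
    refine sum_congr rfl fun κ _ => ?_
    rw [← sum_sub_distrib]
    refine sum_congr rfl fun d _ => ?_
    split_ifs <;> ring
  have hx3 : (Q : ℝ) ≤ 3 * (E.x : ℝ) := by
    have : (Q : ℝ) ≤ E.x := by exact_mod_cast hQx
    have : (0 : ℝ) ≤ E.x := Nat.cast_nonneg _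
    linarith
  have hcard : ∀ r ∈ Icc 1 Q, ((K.filter fun κ => q κ = r).card : ℝ) ≤ G ^ 3 := by
    intro r hr
    rw [mem_Icc] at hr
    have hsub : (K.filter fun κ => q κ = r) ⊆
        Fintype.piFinset fun l => (D' l).filter fun d => d ∣ r := by
      intro κ hκ
      obtain ⟨h1, h2⟩ := mem_filter.1 hκ
      rw [Fintype.mem_piFinset]
      intro l
      refine mem_filter.2 ⟨Fintype.mem_piFinset.1 (mem_filter.1 h1).1 l, ?_⟩
      rw [← h2]
      exact Dvd.dvd.mul_left (dvd_prod_of_mem κ (mem_univ l)) _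
    have h1 := card_le_card hsub
    rw [Fintype.card_piFinset] at h1
    have h2 : ((K.filter fun κ => q κ = r).card : ℝ) ≤
        ∏ l, (((D' l).filter fun d => d ∣ r).card : ℝ) := by exact_mod_cast h1
    rw [← k2_prod_ite i G]
    refine h2.trans (prod_le_prod (fun l _ => Nat.cast_nonneg _) fun l _ => ?_)
    by_cases hl : l = i
    · subst hl
      rw [if_pos rfl]
      have : ((D' l).filter fun d => d ∣ r).card ≤ 1 := by
        refine (card_filter_le _ _).trans ?_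
        simp [hD']
      exact_mod_cast this
    · rw [if_neg hl]
      have e : D' l = D l := by simp [hD', hl]
      rw [e]
      refine (card_sqf_dvd hr.1 (D l) fun d hd => (hD l d hd).1).trans (hG.pow r hr.1 ?_)
      exact le_trans (by exact_mod_cast hr.2) hx3
  have hcb : ∀ κ ∈ K, |c κ| ≤ G ^ 24 := by
    intro κ hκ
    obtain ⟨_, h5⟩ := hmem κ (mem_filter.1 hκ).1
    rw [hc, show G ^ 24 = (G ^ 8) ^ 3 by ring, ← k2_prod_ite i (G ^ 8)]
    simp only
    rw [abs_prod]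
    refine prod_le_prod (fun l _ => abs_nonneg _) fun l _ => ?_
    by_cases hl : l = i
    · simp [hl]
    · rw [if_neg hl, if_neg hl]; exact (hD l _ (h5 l hl)).2.2.1
  obtain ⟨b', hb1, hb2⟩ := k2_worst K q b Q hqQ (fun κ hκ => (hb κ hκ).1) F hcard
  have hhi := hE.hlt i
  have hbv := bv hG (E.x + E.h i) E.X Q (hE.Xx.trans (Nat.le_add_right _ _))
    (by have : 2 * (E.x + E.h i) ≤ 3 * E.x := by omega
        exact_mod_cast this) hx3 b' hb1 S
    (fun p hp => ⟨(hP p (hS p hp).1).1, (hS p hp).2⟩) hP2 hP12 hγ hγ1 hγP (D i) (C i)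
    (one_le_mul_of_one_le_of_one_le (hZ1 _) (hZ1 _)) (hZ i) hC0 (pow_nonneg hG0 8)
    (fun d hd => ⟨(hD i d hd).1, (hD i d hd).2.1, (hD i d hd).2.2.1⟩)
  have hmono : bvB ((E.x + E.h i : ℕ) : ℝ) E.X Q P1 P2 (Z (i, false) * Z (i, true)) γ C0 ≤
      bvB (2 * E.x) E.X Q P1 P2 (Z (i, false) * Z (i, true)) γ C0 := by
    have h1 : ((E.x + E.h i : ℕ) : ℝ) ≤ 2 * E.x := by
      have : E.x + E.h i ≤ 2 * E.x := by omega
      exact_mod_cast this
    have := mul_le_mul_of_nonneg_left h1 hγ.le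
    unfold bvB
    linarith
  rw [hsum]
  calc |∑ κ ∈ K, c κ * F (q κ) (b κ)| ≤ ∑ κ ∈ K, G ^ 24 * |F (q κ) (b κ)| := by
        refine (abs_sum_le_sum_abs _ _).trans (sum_le_sum fun κ hκ => ?_)
        rw [abs_mul]
        exact mul_le_mul_of_nonneg_right (hcb κ hκ) (abs_nonneg _)
    _ = G ^ 24 * ∑ κ ∈ K, |F (q κ) (b κ)| := by rw [mul_sum]
    _ ≤ G ^ 24 * (G ^ 3 * (G ^ 8 * G ^ 9 *
          bvB (2 * E.x) E.X Q P1 P2 (Z (i, false) * Z (i, true)) γ C0)) := by
        refine mul_le_mul_of_nonneg_left (hb2.trans ?_) (pow_nonneg hG0 _)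
        refine mul_le_mul_of_nonneg_left (hbv.trans ?_) (pow_nonneg hG0 _)
        exact mul_le_mul_of_nonneg_left hmono (by positivity)
    _ = _ := by ring

end Pool.Agent.Lib.MP_c03ca8_nt.Q
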