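import Pool.Agent.Lib.MP_c03ca8_nt.Q.ErrA
import Pool.Agent.Lib.MP_c03ca8_nt.Q.K2

set_option autoImplicit false

noncomputable section

namespace Pool.Agent.Lib.MP_c03ca8_nt.Q

open Finset Real

theorem err_bv {x X W Q P1 P2 Dm u A : ℝ} (hu : 1 ≤ u) (hX : 0 < X) (hx : 1 ≤ x) (hW : 1 ≤ W)
    (hP2 : 0 ≤ P2) (hDm : 1 ≤ Dm) (h1 : P2 * Dm * u ^ 4 ≤ X) (hA0 : 0 ≤ A) (hQ : Q ≤ 2 * W * A)
    (hA : A * √x * u ^ 4 ≤ X) (hP1 : u ^ 2 ≤ X / (x * u ^ 2) * P1) :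
    bvB (2 * x) X Q P1 P2 Dm (X / (x * u ^ 2)) u ≤ 10 * W * (X / u) := by
  have hu0 : 0 < u := by linarith
  have hx0 : 0 < x := by linarith
  have hR : 0 < X / u := div_pos hX hu0
  have hs1 : 1 ≤ √x := Real.one_le_sqrt.2 hx
  have hu2 : u ≤ u ^ 2 := by nlinarith
  have hu24 : u ^ 2 ≤ u ^ 4 := pow_le_pow_right₀ hu (by norm_num)
  have t1 : u ^ 3 * P2 * Dm ≤ X / u := by
    rw [le_div_iff₀ hu0]
    calc u ^ 3 * P2 * Dm * u = P2 * Dm * u ^ 4 := by ring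
      _ ≤ X := h1
  have t2' : X / u ^ 2 ≤ X / u := div_le_div_of_nonneg_left hX.le hu0 hu2
  have t2 : X / (x * u ^ 2) * (2 * x) ≤ 2 * (X / u) := by
    have : X / (x * u ^ 2) * (2 * x) = 2 * (X / u ^ 2) := by field_simp
    rw [this]; linarith
  have hAu : A * √x * u ≤ X / u := by
    rw [le_div_iff₀ hu0]
    calc A * √x * u * u = A * √x * u ^ 2 := by ring
      _ ≤ A * √x * u ^ 4 := mul_le_mul_of_nonneg_left hu24 (by positivity)
      _ ≤ X := hA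
  have hA1 : A ≤ A * √x * u := by
    calc A = A * 1 * 1 := by ring
      _ ≤ A * √x * u := by gcongr
  have t3 : Q ≤ 2 * W * (X / u) :=
    hQ.trans (mul_le_mul_of_nonneg_left (hA1.trans hAu) (by linarith))
  have t5 : √(X * P2) ≤ X / u := by
    refine Real.sqrt_le_iff.2 ⟨hR.le, ?_⟩
    have h2 : P2 * u ^ 2 ≤ X := by
      calc P2 * u ^ 2 = P2 * 1 * u ^ 2 := by ring
        _ ≤ P2 * Dm * u ^ 4 := by gcongr
        _ ≤ X := h1
    rw [div_pow, le_div_iff₀ (by positivity)]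
    calc X * P2 * u ^ 2 = X * (P2 * u ^ 2) := by ring
      _ ≤ X * X := mul_le_mul_of_nonneg_left h2 hX.le
      _ = X ^ 2 := by ring
  have t6 : X / √(X / (x * u ^ 2) * P1) ≤ X / u :=
    div_le_div_of_nonneg_left hX.le hu0 (Real.le_sqrt_of_sq_le hP1)
  have t7 : Q * √(X / (X / (x * u ^ 2))) ≤ 2 * W * (X / u) := by
    have h2 : X / (X / (x * u ^ 2)) = x * u ^ 2 := by field_simp
    rw [h2, Real.sqrt_mul hx0.le, Real.sqrt_sq hu0.le]
    calc Q * (√x * u) ≤ 2 * W * A * (√x * u) := mul_le_mul_of_nonneg_right hQ (by positivity)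
      _ = 2 * W * (A * √x * u) := by ring
      _ ≤ 2 * W * (X / u) := mul_le_mul_of_nonneg_left hAu (by linarith)
  have hWR : X / u ≤ W * (X / u) := le_mul_of_one_le_left hR.le hW
  unfold bvB
  linarith

theorem err_pair (jj : Slot → ℕ) {i l : Fin 4} (hl : l ≠ i) :
    jj (l, false) + 1 + (jj (l, true) + 1) ≤
      ∑ s ∈ univ.filter (fun s : Slot => s.1 ≠ i), (jj s + 1) := by
  have hsub : ({(l, false), (l, true)} : Finset Slot) ⊆ univ.filter fun s : Slot => s.1 ≠ i := by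
    intro s hs
    simp only [mem_insert, mem_singleton] at hs
    rcases hs with rfl | rfl <;> simpa using hl
  have := Finset.sum_le_sum_of_subset (f := fun s => jj s + 1) hsub
  rwa [Finset.sum_pair (by simp)] at this

/-- `k2` with `P1 = H ^ m`, `P2 = H ^ (m + 1)`, `Q = ⌈W H ^ T2⌉₊`, `C0 = H ^ (δ / 4)`,
`γ = X / x * H ^ (-δ / 2)`, where `δ > 0` is at most `θ ν - T1`, `θ ν - T2 - ν / 2` and
`M - (1 - θ) ν`; every term of `bvB` is at most `2 W X H ^ (-δ / 4)`. `zp_eq_of_le`. -/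
theorem err2 {ν θ : ℝ} {T1 T2 M : ℕ} (hr : Rng ν θ T1 T2 M) {ε : ℝ} (hε : 0 < ε) :
    Ev θ fun E => ∀ (jj : Slot → ℕ) (i : Fin 4) (m : ℕ) (S : Finset ℕ), (∀ s, jj s < M) →
      (∀ p ∈ S, p ∈ E.P ∧ E.H ν ^ m ≤ (p : ℝ) ∧ (p : ℝ) < E.H ν ^ (m + 1)) → M ≤ m →
      ∑ s ∈ univ.filter (fun s : Slot => s.1 ≠ i), (jj s + 1) ≤ T2 →
      jj (i, false) + jj (i, true) + m + 3 ≤ T1 →
      |∑ p ∈ S, (∑ n ∈ E.I, ind p (n + E.h i) * Pw E.P E.h (cz (E.H ν) jj) n -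
        E.X / E.W * M1 E.P (zp (cz (E.H ν) jj) i p) p i)| ≤ ε * E.Sc ν := by
  obtain ⟨δ, hδ, hd1, hd2, hd3⟩ : ∃ δ : ℝ, 0 < δ ∧ T1 + δ ≤ θ * ν ∧ T2 + ν / 2 + δ ≤ θ * ν ∧
      ν + δ ≤ θ * ν + M := by
    have h1 := hr.t1
    have h2 := hr.t2
    have h3 := hr.m
    refine ⟨min (θ * ν - T1) (min (θ * ν - T2 - ν / 2) (M - (1 - θ) * ν)), ?_, ?_, ?_, ?_⟩
    · exact lt_min (by linarith) (lt_min (by linarith) (by linarith))
    · linarith [min_le_left (θ * ν - T1) (min (θ * ν - T2 - ν / 2) (M - (1 - θ) * ν))]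
    · linarith [min_le_right (θ * ν - T1) (min (θ * ν - T2 - ν / 2) (M - (1 - θ) * ν)),
        min_le_left (θ * ν - T2 - ν / 2) (M - (1 - θ) * ν)]
    · linarith [min_le_right (θ * ν - T1) (min (θ * ν - T2 - ν / 2) (M - (1 - θ) * ν)),
        min_le_right (θ * ν - T2 - ν / 2) (M - (1 - θ) * ν)]
  have hν := hr.pos
  refine (ev_tame (θ := θ) (δ := δ / 8) (ε := min 1 ε) hν (by linarith) (lt_min one_pos hε)
    45).mono ?_
  rintro E hE hX ⟨G, hG, hGW, hL, hH, hHν, hwx⟩ jj i m S hjj hS hMm hT2 hT1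
  generalize hHd : E.H ν = H at hGW hH hHν hS ⊢
  have hH1 : 1 ≤ H := by linarith
  have hH0 : 0 < H := by linarith
  have hx1 : (1 : ℝ) ≤ E.x := by
    have := hE.w10
    have := hE.wx
    exact_mod_cast (by omega : 1 ≤ E.x)
  have hXx : (E.X : ℝ) ≤ E.x := by exact_mod_cast hE.Xx
  have hXH : H ^ (θ * ν) ≤ E.X := by
    rw [mul_comm, Real.rpow_mul hH0.le, hHν]; exact hX
  have hX0 : (0 : ℝ) < E.X := (Real.rpow_pos_of_pos hH0 _).trans_le hXH
  have hW1 : (1 : ℝ) ≤ E.W := by exact_mod_cast primorial_pos E.w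
  have hG1 : 1 ≤ G := by linarith [hG.ten]
  obtain ⟨v, hv⟩ : ∃ v, v = H ^ (δ / 8) := ⟨_, rfl⟩
  have hv1 : 1 ≤ v := hv ▸ Real.one_le_rpow hH1 (by linarith)
  rw [← hv] at hGW
  obtain ⟨u, hu⟩ : ∃ u, u = v ^ 2 := ⟨_, rfl⟩
  have hu1 : 1 ≤ u := hu ▸ one_le_pow₀ hv1
  have hu0 : 0 < u := by linarith
  have hu4 : u ^ 4 = H ^ δ := by
    rw [hu, hv, ← pow_mul, ← Real.rpow_natCast, ← Real.rpow_mul hH0.le]
    congr 1; push_cast; ring
  have hu41 : 1 ≤ u ^ 4 := one_le_pow₀ hu1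
  have hsq : √(E.x : ℝ) = H ^ (ν / 2) := by
    rw [Real.sqrt_eq_rpow, ← hHν, ← Real.rpow_mul hH0.le]; congr 1; ring
  have hs1 : 1 ≤ √(E.x : ℝ) := Real.one_le_sqrt.2 hx1
  have f1 : H ^ T1 * u ^ 4 ≤ E.X := by
    rw [hu4, ← Real.rpow_natCast, ← Real.rpow_add hH0]
    exact (Real.rpow_le_rpow_of_exponent_le hH1 hd1).trans hXH
  have f2 : H ^ T2 * √(E.x : ℝ) * u ^ 4 ≤ E.X := by
    rw [hu4, hsq, ← Real.rpow_natCast, ← Real.rpow_add hH0, ← Real.rpow_add hH0]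
    exact (Real.rpow_le_rpow_of_exponent_le hH1 hd2).trans hXH
  have f3 : E.x * u ^ 4 ≤ E.X * H ^ m := by
    calc E.x * u ^ 4 = H ^ (ν + δ) := by rw [hu4, Real.rpow_add hH0, hHν]
      _ ≤ H ^ (θ * ν + M) := Real.rpow_le_rpow_of_exponent_le hH1 hd3
      _ = H ^ (θ * ν) * H ^ M := by rw [Real.rpow_add hH0, Real.rpow_natCast]
      _ ≤ E.X * H ^ m := mul_le_mul hXH (pow_le_pow_right₀ hH1 hMm) (by positivity) hX0.le
  have g1 : H ^ T1 ≤ E.X := (le_mul_of_one_le_right (by positivity) hu41).trans f1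
  have g2' : H ^ T2 * u ^ 4 ≤ E.X := by
    refine le_trans ?_ f2
    exact mul_le_mul_of_nonneg_right (le_mul_of_one_le_right (by positivity) hs1) (by positivity)
  have g2 : H ^ T2 ≤ E.X := (le_mul_of_one_le_right (by positivity) hu41).trans g2'
  have hWv : (E.W : ℝ) ≤ v := by
    calc (E.W : ℝ) ≤ G ^ 45 * E.W := le_mul_of_one_le_left (by linarith) (one_le_pow₀ hG1)
      _ ≤ min 1 ε * v := hGW
      _ ≤ 1 * v := mul_le_mul_of_nonneg_right (min_le_left _ _) (by linarith)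
      _ = v := one_mul v
  have hvu : v ≤ u ^ 4 := by
    rw [hu, ← pow_mul]; exact le_self_pow₀ hv1 (by norm_num)
  have hWH : (1 : ℝ) ≤ E.W * H ^ T2 := one_le_mul_of_one_le_of_one_le hW1 (one_le_pow₀ hH1)
  have hQx : ⌈(E.W : ℝ) * H ^ T2⌉₊ ≤ E.x := by
    refine Nat.ceil_le.2 ?_
    calc (E.W : ℝ) * H ^ T2 ≤ u ^ 4 * H ^ T2 :=
          mul_le_mul_of_nonneg_right (hWv.trans hvu) (by positivity)
      _ = H ^ T2 * u ^ 4 := mul_comm _ _
      _ ≤ E.x := g2'.trans hXx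
  have hQ2 : (⌈(E.W : ℝ) * H ^ T2⌉₊ : ℝ) ≤ 2 * E.W * H ^ T2 := by
    have := Nat.ceil_lt_add_one (by linarith : (0 : ℝ) ≤ E.W * H ^ T2)
    linarith
  have hγ0 : 0 < (E.X : ℝ) / (E.x * u ^ 2) := by positivity
  have hγ1 : (E.X : ℝ) / (E.x * u ^ 2) ≤ 1 := by
    rw [div_le_one (by positivity)]
    exact hXx.trans (le_mul_of_one_le_right (by linarith) (one_le_pow₀ hu1))
  have hγP : u ^ 2 ≤ (E.X : ℝ) / (E.x * u ^ 2) * H ^ m := by
    rw [div_mul_eq_mul_div, le_div_iff₀ (by positivity)]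
    calc u ^ 2 * (E.x * u ^ 2) = E.x * u ^ 4 := by ring
      _ ≤ E.X * H ^ m := f3
  have hZP : ∀ s, H ^ (jj s + 1) ≤ H ^ m := fun s =>
    pow_le_pow_right₀ hH1 (by have := hjj s; omega)
  have hZ : ∀ l : Fin 4, H ^ (jj (l, false) + 1) * H ^ (jj (l, true) + 1) ≤ 3 * (E.x : ℝ) := by
    intro l
    rw [← pow_add]
    by_cases hl : l = i
    · subst hl
      have := pow_le_pow_right₀ hH1 (by omega : jj (l, false) + 1 + (jj (l, true) + 1) ≤ T1)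
      linarith
    · have := pow_le_pow_right₀ hH1 ((err_pair jj hl).trans hT2)
      linarith
  have hQ : (E.W : ℝ) * ∏ s ∈ univ.filter (fun s : Slot => s.1 ≠ i), H ^ (jj s + 1) ≤
      (⌈(E.W : ℝ) * H ^ T2⌉₊ : ℝ) := by
    rw [Finset.prod_pow_eq_pow_sum]
    exact (mul_le_mul_of_nonneg_left (pow_le_pow_right₀ hH1 hT2) (by linarith)).trans
      (Nat.le_ceil _)
  have hP2 : H ^ (m + 1) ≤ 3 * (E.x : ℝ) := by
    have := pow_le_pow_right₀ hH1 (by omega : m + 1 ≤ T1)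
    linarith
  have key := k2 E hE hwx hG (cz H jj) (fun s => H ^ (jj s + 1)) (supp_cz H jj)
    (fun s => one_le_pow₀ hH1) hZ i _ hQ hQx S hS hZP hP2 (pow_le_pow_right₀ hH1 (Nat.le_succ m))
    hγ0 hγ1 ((one_le_pow₀ hu1).trans hγP) hu1
  have hb := err_bv (P2 := H ^ (m + 1))
    (Dm := H ^ (jj (i, false) + 1) * H ^ (jj (i, true) + 1)) hu1 hX0 hx1 hW1 (by positivity)
    (one_le_mul_of_one_le_of_one_le (one_le_pow₀ hH1) (one_le_pow₀ hH1))
    (by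
      refine le_trans (mul_le_mul_of_nonneg_right ?_ (by positivity)) f1
      rw [← pow_add, ← pow_add]
      exact pow_le_pow_right₀ hH1 (by omega))
    (by positivity) hQ2 f2 hγP
  rw [Finset.sum_congr rfl fun p hp => by
    rw [zp_eq_of_le hH1 jj i fun s => (hZP s).trans (hS p hp).2.1]]
  refine key.trans ((mul_le_mul_of_nonneg_left hb (by positivity)).trans ?_)
  have hfin : G ^ 45 * E.W * E.W ≤ ε * u := by
    calc G ^ 45 * E.W * E.W ≤ min 1 ε * v * v :=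
          mul_le_mul hGW hWv (by linarith) (mul_nonneg (lt_min one_pos hε).le (by linarith))
      _ = min 1 ε * u := by rw [hu]; ring
      _ ≤ ε * u := mul_le_mul_of_nonneg_right (min_le_right _ _) hu0.le
  have hW0 : (0 : ℝ) < E.W := by linarith
  calc G ^ 44 * (10 * E.W * (E.X / u)) ≤ G ^ 44 * (G * E.W * (E.X / u)) := by
        have := hG.ten
        gcongr
    _ = G ^ 45 * E.W * E.W * (E.X / (u * E.W)) := by field_simp
    _ ≤ ε * u * (E.X / (u * E.W)) := mul_le_mul_of_nonneg_right hfin (by positivity)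
    _ = ε * (E.X / E.W * 1) := by field_simp
    _ ≤ ε * E.Sc ν := by
        unfold Env.Sc
        exact mul_le_mul_of_nonneg_left
          (mul_le_mul_of_nonneg_left (one_le_pow₀ hL) (by positivity)) hε.le

end Pool.Agent.Lib.MP_c03ca8_nt.Q
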