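import Pool.Agent.Lib.MP_c03ca8_nt.Q.Basic

set_option autoImplicit false

noncomputable section

namespace Pool.Agent.Lib.MP_c03ca8_nt.Q

open Finset Real

/-- Harmonic sum up to `n` over the integers free of the primes of `S`. -/
def harm_G (S : Finset ℕ) (n : ℕ) : ℝ :=
  ∑ k ∈ (Icc 1 n).filter (fun k : ℕ => ∀ q ∈ S, ¬ q ∣ k), 1 / (k : ℝ)

/-- The density attached to `S`. -/
def harm_c (S : Finset ℕ) : ℝ := ∏ q ∈ S, (1 - 1 / (q : ℝ))

theorem harm_fac {q : ℕ} (hq : q.Prime) : 0 < 1 - 1 / (q : ℝ) ∧ 1 - 1 / (q : ℝ) ≤ 1 := by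
  have h2 : (2 : ℝ) ≤ q := by exact_mod_cast hq.two_le
  have h0 : (0 : ℝ) < q := by linarith
  constructor
  · have : 1 / (q : ℝ) < 1 := by rw [div_lt_one h0]; linarith
    linarith
  · have : 0 ≤ 1 / (q : ℝ) := by positivity
    linarith

theorem harm_c_pos {S : Finset ℕ} (hS : ∀ q ∈ S, q.Prime) : 0 < harm_c S :=
  Finset.prod_pos fun q hq => (harm_fac (hS q hq)).1

theorem harm_c_le {S : Finset ℕ} (hS : ∀ q ∈ S, q.Prime) : harm_c S ≤ 1 :=
  Finset.prod_le_one (fun q hq => (harm_fac (hS q hq)).1.le) fun q hq => (harm_fac (hS q hq)).2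

theorem harm_step {S : Finset ℕ} (hS : ∀ r ∈ S, r.Prime) {q : ℕ} (hq : q.Prime) (hqS : q ∉ S)
    (n : ℕ) : harm_G (insert q S) n = harm_G S n - 1 / (q : ℝ) * harm_G S (n / q) := by
  have h0 : (0 : ℝ) < q := by exact_mod_cast hq.pos
  have hsplit := Finset.sum_filter_add_sum_filter_not
    ((Icc 1 n).filter (fun k : ℕ => ∀ r ∈ S, ¬ r ∣ k)) (fun k : ℕ => q ∣ k)
    (fun k : ℕ => 1 / (k : ℝ))
  have h1 : ((Icc 1 n).filter (fun k : ℕ => ∀ r ∈ S, ¬ r ∣ k)).filter (fun k : ℕ => ¬ q ∣ k) =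
      (Icc 1 n).filter (fun k : ℕ => ∀ r ∈ insert q S, ¬ r ∣ k) := by
    ext k
    simp only [mem_filter, mem_insert, forall_eq_or_imp]
    tauto
  have h2 : ∑ k ∈ ((Icc 1 n).filter (fun k : ℕ => ∀ r ∈ S, ¬ r ∣ k)).filter
      (fun k : ℕ => q ∣ k), 1 / (k : ℝ) = 1 / (q : ℝ) * harm_G S (n / q) := by
    unfold harm_G
    rw [Finset.mul_sum]
    symm
    refine Finset.sum_bij (fun k _ => q * k) ?_ ?_ ?_ ?_
    · intro k hk
      simp only [mem_filter, mem_Icc] at hk ⊢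
      obtain ⟨⟨hk1, hk2⟩, hk3⟩ := hk
      refine ⟨⟨⟨Nat.mul_pos hq.pos hk1, ?_⟩, ?_⟩, Dvd.intro _ rfl⟩
      · have := (Nat.le_div_iff_mul_le hq.pos).1 hk2
        rw [mul_comm]; exact this
      · intro r hr hd
        rcases ((hS r hr).dvd_mul).1 hd with h | h
        · have := (Nat.prime_dvd_prime_iff_eq (hS r hr) hq).1 h
          exact hqS (this ▸ hr)
        · exact hk3 r hr h
    · intro a _ b _ hab
      exact Nat.eq_of_mul_eq_mul_left hq.pos hab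
    · intro k hk
      simp only [mem_filter, mem_Icc] at hk
      obtain ⟨⟨⟨hk1, hk2⟩, hk3⟩, m, rfl⟩ := hk
      refine ⟨m, ?_, rfl⟩
      simp only [mem_filter, mem_Icc]
      refine ⟨⟨?_, ?_⟩, ?_⟩
      · exact Nat.pos_of_mul_pos_left hk1
      · rw [Nat.le_div_iff_mul_le hq.pos, mul_comm]; exact hk2
      · intro r hr hd
        exact hk3 r hr (Dvd.dvd.mul_left hd q)
    · intro k _
      push_cast
      rw [one_div_mul_one_div]
  rw [h1, h2] at hsplit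
  have e1 : harm_G S n =
      ∑ k ∈ (Icc 1 n).filter (fun k : ℕ => ∀ r ∈ S, ¬ r ∣ k), 1 / (k : ℝ) := rfl
  have e2 : harm_G (insert q S) n =
      ∑ k ∈ (Icc 1 n).filter (fun k : ℕ => ∀ r ∈ insert q S, ¬ r ∣ k), 1 / (k : ℝ) := rfl
  rw [e1, e2]
  linarith

theorem harm_log_div {q : ℕ} (hq : 0 < q) (n : ℕ) :
    Real.log (((n / q : ℕ) : ℝ) + 1) ≤ Real.log ((n : ℝ) + 1) ∧
      Real.log ((n : ℝ) + 1) ≤ Real.log (((n / q : ℕ) : ℝ) + 1) + Real.log q := by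
  have h0 : (0 : ℝ) < q := by exact_mod_cast hq
  constructor
  · apply Real.log_le_log (by positivity)
    have : ((n / q : ℕ) : ℝ) ≤ n := by exact_mod_cast Nat.div_le_self n q
    linarith
  · rw [← Real.log_mul (by positivity) h0.ne']
    apply Real.log_le_log (by positivity)
    have h : n + 1 ≤ (n / q + 1) * q := by
      have := Nat.lt_div_mul_add (a := n) hq
      nlinarith
    exact_mod_cast h

theorem harm_G_bound (S : Finset ℕ) (hS : ∀ q ∈ S, q.Prime) :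
    ∃ B : ℝ, 0 ≤ B ∧ ∀ n : ℕ, |harm_G S n - harm_c S * Real.log ((n : ℝ) + 1)| ≤ B := by
  induction S using Finset.induction_on with
  | empty =>
    refine ⟨1, zero_le_one, fun n => ?_⟩
    have e : harm_G ∅ n = (harmonic n : ℝ) := by
      unfold harm_G
      simp [harmonic_eq_sum_Icc]
    have h1 := log_add_one_le_harmonic n
    have h2 := harmonic_le_one_add_log n
    have h3 : Real.log n ≤ Real.log ((n : ℝ) + 1) := by
      rcases Nat.eq_zero_or_pos n with rfl | hn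
      · simp
      · apply Real.log_le_log (by exact_mod_cast hn)
        linarith
    push_cast at h1
    rw [e, abs_le]
    simp only [harm_c, prod_empty, one_mul]
    constructor <;> linarith
  | insert q S hqS ih =>
    have hS' : ∀ r ∈ S, r.Prime := fun r hr => hS r (mem_insert_of_mem hr)
    have hq : q.Prime := hS q (mem_insert_self q S)
    obtain ⟨B, hB, h⟩ := ih hS'
    have h1 : (1 : ℝ) ≤ q := by exact_mod_cast hq.one_le
    have hlq : 0 ≤ Real.log q := Real.log_nonneg h1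
    refine ⟨B + (B + Real.log q), by positivity, fun n => ?_⟩
    have hc : harm_c (insert q S) = (1 - 1 / (q : ℝ)) * harm_c S := by
      unfold harm_c
      rw [Finset.prod_insert hqS]
    rw [harm_step hS' hq hqS, hc]
    obtain ⟨l1, l2⟩ := harm_log_div hq.pos n
    have a1 := h n
    have a2 := h (n / q)
    have c0 := harm_c_pos hS'
    have c1 := harm_c_le hS'
    have a3 : |harm_G S (n / q) - harm_c S * Real.log ((n : ℝ) + 1)| ≤ B + Real.log q := by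
      rw [abs_le] at a2 ⊢
      have m1 : harm_c S * Real.log (((n / q : ℕ) : ℝ) + 1) ≤
          harm_c S * Real.log ((n : ℝ) + 1) := mul_le_mul_of_nonneg_left l1 c0.le
      have m2 : harm_c S * Real.log ((n : ℝ) + 1) ≤
          harm_c S * (Real.log (((n / q : ℕ) : ℝ) + 1) + Real.log q) :=
        mul_le_mul_of_nonneg_left l2 c0.le
      have m3 : harm_c S * Real.log q ≤ Real.log q := mul_le_of_le_one_left hlq c1
      constructor <;> nlinarith [a2.1, a2.2]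
    have hq1 : 0 ≤ 1 / (q : ℝ) := by positivity
    have hq2 : 1 / (q : ℝ) ≤ 1 := by rw [div_le_one (by linarith)]; exact h1
    have e : harm_G S n - 1 / (q : ℝ) * harm_G S (n / q) -
        (1 - 1 / (q : ℝ)) * harm_c S * Real.log ((n : ℝ) + 1) =
        (harm_G S n - harm_c S * Real.log ((n : ℝ) + 1)) -
          1 / (q : ℝ) * (harm_G S (n / q) - harm_c S * Real.log ((n : ℝ) + 1)) := by ring
    rw [e]
    refine (abs_sub _ _).trans (add_le_add a1 ?_)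
    rw [abs_mul, abs_of_nonneg hq1]
    exact (mul_le_of_le_one_left (abs_nonneg _) hq2).trans a3

theorem harm_coprime (w k : ℕ) :
    Nat.Coprime k (primorial w) ↔ ∀ q ∈ Nat.primesLE w, ¬ q ∣ k := by
  have e : primorial w = ∏ q ∈ Nat.primesLE w, q := rfl
  rw [e, Nat.coprime_prod_right_iff]
  refine forall_congr' fun q => forall_congr' fun hq => ?_
  rw [Nat.coprime_comm, (Nat.prime_of_mem_primesLE hq).coprime_iff_not_dvd]

theorem harm_split (w : ℕ) {Y Z : ℝ} {N : ℕ} (hY : 0 < Y) (hYZ : Y ≤ Z) (hZ : Z ≤ N) :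
    ∑ k ∈ (Icc 1 N).filter (fun k : ℕ => Y ≤ (k : ℝ) ∧ (k : ℝ) < Z ∧
        Nat.Coprime k (primorial w)), 1 / (k : ℝ) =
      harm_G (Nat.primesLE w) (⌈Z⌉₊ - 1) - harm_G (Nat.primesLE w) (⌈Y⌉₊ - 1) := by
  have hsub : (Icc 1 (⌈Y⌉₊ - 1)).filter (fun k : ℕ => ∀ q ∈ Nat.primesLE w, ¬ q ∣ k) ⊆
      (Icc 1 (⌈Z⌉₊ - 1)).filter (fun k : ℕ => ∀ q ∈ Nat.primesLE w, ¬ q ∣ k) := by
    apply filter_subset_filter
    apply Icc_subset_Icc le_rfl
    have := Nat.ceil_mono hYZ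
    omega
  unfold harm_G
  rw [← Finset.sum_sdiff_eq_sub hsub]
  refine Finset.sum_congr ?_ fun _ _ => rfl
  ext k
  have hN : ⌈Z⌉₊ ≤ N := Nat.ceil_le.2 hZ
  have hY1 : 0 < ⌈Y⌉₊ := Nat.ceil_pos.2 hY
  simp only [mem_filter, mem_Icc, mem_sdiff, harm_coprime, ← Nat.ceil_le, ← Nat.lt_ceil]
  constructor
  · rintro ⟨⟨h1, _⟩, h3, h4, h5⟩
    refine ⟨⟨⟨h1, by omega⟩, h5⟩, ?_⟩
    rintro ⟨⟨_, h6⟩, _⟩
    omega
  · rintro ⟨⟨⟨h1, h2⟩, h5⟩, h6⟩
    refine ⟨⟨h1, by omega⟩, ?_, by omega, h5⟩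
    by_contra h7
    exact h6 ⟨⟨h1, by omega⟩, h5⟩

theorem cW_pos (w : ℕ) : 0 < cW w := by
  exact harm_c_pos fun _ hq => Nat.prime_of_mem_primesLE hq

/-- Harmonic sums over the integers coprime to the primorial. Inclusion and exclusion over
`E ⊆ primesLE w` (`∑ (-1) ^ |E| / pr E = cW w`) and, for `e ≥ 1`, `1 ≤ Y ≤ Z`,
`|∑ k ∈ [Y / e, Z / e), k ≥ 1, 1 / k - log (Z / Y)| ≤ 2 + log e`. For the upper bound with
`Y < 1` replace `Y` by `1` (or the sum is empty if `Z ≤ 1`). -/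
theorem harm (w : ℕ) : ∃ B : ℝ, 0 ≤ B ∧ ∀ (Y Z : ℝ) (N : ℕ), 0 < Y → Y ≤ Z → Z ≤ N →
    (∑ k ∈ (Icc 1 N).filter (fun k : ℕ => Y ≤ (k : ℝ) ∧ (k : ℝ) < Z ∧
        Nat.Coprime k (primorial w)), 1 / (k : ℝ) ≤ cW w * Real.log (Z / Y) + B) ∧
    (1 ≤ Y → cW w * Real.log (Z / Y) - B ≤
      ∑ k ∈ (Icc 1 N).filter (fun k : ℕ => Y ≤ (k : ℝ) ∧ (k : ℝ) < Z ∧
        Nat.Coprime k (primorial w)), 1 / (k : ℝ)) := by
  have hS : ∀ q ∈ Nat.primesLE w, q.Prime := fun _ hq => Nat.prime_of_mem_primesLE hq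
  obtain ⟨B, hB, h⟩ := harm_G_bound (Nat.primesLE w) hS
  have hl2 : 0 ≤ Real.log 2 := Real.log_nonneg one_le_two
  refine ⟨B + B + Real.log 2, by positivity, fun Y Z N hY hYZ hZ => ?_⟩
  have hZ0 : 0 < Z := lt_of_lt_of_le hY hYZ
  rw [harm_split w hY hYZ hZ]
  have ec : cW w = harm_c (Nat.primesLE w) := rfl
  have c0 := harm_c_pos hS
  have c1 := harm_c_le hS
  have hY1 : 1 ≤ ⌈Y⌉₊ := Nat.ceil_pos.2 hY
  have hZ1 : 1 ≤ ⌈Z⌉₊ := Nat.ceil_pos.2 hZ0
  have a1 := h (⌈Z⌉₊ - 1)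
  have a2 := h (⌈Y⌉₊ - 1)
  rw [Nat.cast_sub hZ1, Nat.cast_one, sub_add_cancel, abs_le] at a1
  rw [Nat.cast_sub hY1, Nat.cast_one, sub_add_cancel, abs_le] at a2
  have y1 : (1 : ℝ) ≤ (⌈Y⌉₊ : ℝ) := by exact_mod_cast hY1
  have z1 : (1 : ℝ) ≤ (⌈Z⌉₊ : ℝ) := by exact_mod_cast hZ1
  have y2 : Y ≤ (⌈Y⌉₊ : ℝ) := Nat.le_ceil Y
  have z2 : Z ≤ (⌈Z⌉₊ : ℝ) := Nat.le_ceil Z
  have y3 : (⌈Y⌉₊ : ℝ) < Y + 1 := Nat.ceil_lt_add_one hY.le
  have z3 : (⌈Z⌉₊ : ℝ) < Z + 1 := Nat.ceil_lt_add_one hZ0.le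
  have m3 : harm_c (Nat.primesLE w) * Real.log 2 ≤ Real.log 2 := mul_le_of_le_one_left hl2 c1
  rw [ec]
  constructor
  · have k1 : Real.log (⌈Z⌉₊ : ℝ) - Real.log (⌈Y⌉₊ : ℝ) ≤ Real.log (Z / Y) + Real.log 2 := by
      rw [← Real.log_div (by positivity) (by positivity),
        ← Real.log_mul (by positivity) (by positivity)]
      apply Real.log_le_log (by positivity)
      rw [div_mul_eq_mul_div, div_le_div_iff₀ (by positivity) hY]
      nlinarith [mul_le_mul_of_nonneg_left y2 hZ0.le, mul_le_mul_of_nonneg_left y1 hZ0.le,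
        mul_le_mul_of_nonneg_right z3.le hY.le]
    have := mul_le_mul_of_nonneg_left k1 c0.le
    nlinarith [a1.2, a2.1]
  · intro hY1'
    have k1 : Real.log (Z / Y) ≤
        Real.log (⌈Z⌉₊ : ℝ) - Real.log (⌈Y⌉₊ : ℝ) + Real.log 2 := by
      rw [← Real.log_div (by positivity) (by positivity),
        ← Real.log_mul (by positivity) (by positivity)]
      apply Real.log_le_log (by positivity)
      rw [div_mul_eq_mul_div, div_le_div_iff₀ hY (by positivity)]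
      have t1 : (⌈Y⌉₊ : ℝ) ≤ 2 * Y := by linarith
      have t2 : Z * (⌈Y⌉₊ : ℝ) ≤ (⌈Z⌉₊ : ℝ) * (2 * Y) :=
        mul_le_mul z2 t1 (by positivity) (by positivity)
      linarith
    have := mul_le_mul_of_nonneg_left k1 c0.le
    nlinarith [a1.1, a2.2]

end Pool.Agent.Lib.MP_c03ca8_nt.Q
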