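import Pool.Agent.Lib.MP_c03ca8_nt.Q.K1
import Pool.Agent.Lib.MP_c03ca8_nt.Q.Expand
import Pool.Agent.Lib.MP_c03ca8_nt.Q.Harm

set_option autoImplicit false

noncomputable section

namespace Pool.Agent.Lib.MP_c03ca8_nt.Q

open Finset Real

theorem erra_ev_rpow {s : ℝ} (hs : 0 < s) (C : ℝ) :
    ∀ᶠ x : ℕ in Filter.atTop, C ≤ (x : ℝ) ^ s :=
  ((tendsto_rpow_atTop hs).comp tendsto_natCast_atTop_atTop).eventually_ge_atTop C

theorem erra_ev_log (C : ℝ) : ∀ᶠ x : ℕ in Filter.atTop, C ≤ Real.log (x : ℝ) :=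
  (Real.tendsto_log_atTop.comp tendsto_natCast_atTop_atTop).eventually_ge_atTop C

/-- The sizes. With `H ^ ν = x`: `W` is fixed, `L → ∞`, `x ^ ε'` is tame, and
`(x ^ ε') ^ k * W ≤ ε H ^ δ` for `ε' = δ / (2 k ν)` and large `x`. -/
theorem ev_tame {ν θ δ ε : ℝ} (hν : 0 < ν) (hδ : 0 < δ) (hε : 0 < ε) (k : ℕ) :
    Ev θ fun E => ∃ G, Tame (3 * (E.x : ℝ)) G ∧ G ^ k * E.W ≤ ε * E.H ν ^ δ ∧ 1 ≤ E.L ν ∧
      2 ≤ E.H ν ∧ E.H ν ^ ν = E.x ∧ 2 * E.w ≤ E.x := by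
  refine Ev.of_forall 0 fun w _ => ?_
  have hk : (0 : ℝ) < (k : ℝ) + 1 := by positivity
  have hs : 0 < δ / (2 * ν) := by positivity
  have he' : 0 < δ / (2 * ν) / ((k : ℝ) + 1) := by positivity
  obtain ⟨x1, hx1⟩ := tame_eventually he'
  have hc := cW_pos w
  have h1 := erra_ev_rpow hs ((primorial w : ℝ) / ε)
  have h2 := erra_ev_log (ν / cW w)
  have h3 := erra_ev_rpow (one_div_pos.mpr hν) 2
  have h4 : ∀ᶠ x : ℕ in Filter.atTop, 2 * w ≤ x := Filter.eventually_ge_atTop _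
  have h5 : ∀ᶠ x : ℕ in Filter.atTop, x1 ≤ x := Filter.eventually_ge_atTop _
  have h6 : ∀ᶠ x : ℕ in Filter.atTop, 1 ≤ x := Filter.eventually_ge_atTop _
  obtain ⟨x0, hx0⟩ := Filter.eventually_atTop.mp (h1.and (h2.and (h3.and (h4.and (h5.and h6)))))
  refine ⟨x0, fun E hw hx _ _ => ?_⟩
  obtain ⟨a1, a2, a3, a4, a5, a6⟩ := hx0 E.x hx
  have hx1' : (1 : ℝ) ≤ E.x := by exact_mod_cast a6
  have hxp : (0 : ℝ) < E.x := by linarith
  refine ⟨(E.x : ℝ) ^ (δ / (2 * ν) / ((k : ℝ) + 1)), hx1 _ a5, ?_, ?_, a3, ?_, hw ▸ a4⟩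
  · have e1 : ((E.x : ℝ) ^ (δ / (2 * ν) / ((k : ℝ) + 1))) ^ k ≤ (E.x : ℝ) ^ (δ / (2 * ν)) := by
      rw [← Real.rpow_natCast, ← Real.rpow_mul hxp.le]
      refine Real.rpow_le_rpow_of_exponent_le hx1' ?_
      rw [div_mul_eq_mul_div, div_le_iff₀ hk]
      nlinarith
    have e2 : E.H ν ^ δ = (E.x : ℝ) ^ (δ / (2 * ν)) * (E.x : ℝ) ^ (δ / (2 * ν)) := by
      unfold Env.H
      rw [← Real.rpow_mul hxp.le, ← Real.rpow_add hxp]
      congr 1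
      field_simp
      ring
    have e3 : (E.W : ℝ) ≤ ε * (E.x : ℝ) ^ (δ / (2 * ν)) := by
      unfold Env.W
      rw [hw]
      rw [div_le_iff₀ hε] at a1
      linarith
    have e4 : 0 ≤ (E.x : ℝ) ^ (δ / (2 * ν)) := by positivity
    rw [e2]
    calc _ ≤ (E.x : ℝ) ^ (δ / (2 * ν)) * (ε * (E.x : ℝ) ^ (δ / (2 * ν))) :=
          mul_le_mul e1 e3 (Nat.cast_nonneg _) e4
      _ = _ := by ring
  · unfold Env.L Env.H
    rw [Real.log_rpow hxp, hw]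
    rw [div_le_iff₀ hc] at a2
    have : cW w * (1 / ν * Real.log E.x) = (Real.log E.x * cW w) / ν := by ring
    rw [this, le_div_iff₀ hν]
    linarith
  · unfold Env.H
    rw [← Real.rpow_mul hxp.le, one_div_mul_cancel hν.ne', Real.rpow_one]

theorem erra_memP {E : Env} {q : ℕ} (hq : q ∈ E.P) : q.Prime ∧ E.w < q := by
  unfold Env.P PP at hq
  rw [mem_filter] at hq
  exact ⟨Nat.prime_of_mem_primesLE hq.1, hq.2⟩

theorem erra_cop {E : Env} {q : ℕ} (hq : q ∈ E.P) : Nat.Coprime E.W q := by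
  obtain ⟨h1, h2⟩ := erra_memP hq
  refine ((Nat.Prime.coprime_iff_not_dvd h1).mpr ?_).symm
  unfold Env.W
  rw [h1.dvd_primorial_iff]
  omega

theorem erra_Wpos (E : Env) : 0 < E.W := primorial_pos _

/-- A power of `H` with exponent at most `T1` is at most `3 x`. -/
theorem erra_pow_le {ν θ : ℝ} {T1 T2 M : ℕ} (hr : Rng ν θ T1 T2 M) {H x : ℝ} (hH : 2 ≤ H)
    (hx : H ^ ν = x) {t : ℕ} (ht : t ≤ T1) : H ^ t ≤ 3 * x := by
  have h1 : (1 : ℝ) ≤ H := by linarith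
  have h2 : (t : ℝ) ≤ ν := by
    have a1 : (t : ℝ) ≤ T1 := by exact_mod_cast ht
    have a2 := hr.t1
    have a3 : θ * ν ≤ ν := by nlinarith [hr.le_one, hr.pos]
    linarith
  have h3 : H ^ t ≤ x := by
    rw [← hx, ← Real.rpow_natCast]
    exact Real.rpow_le_rpow_of_exponent_le h1 h2
  have h4 : 0 ≤ H ^ t := by positivity
  linarith

/-- From `A W ≤ ε H ^ δ` and `B ≤ H ^ t` with `δ + t ≤ θ ν` to `A B ≤ ε Sc`. -/
theorem erra_fin {ν θ ε δ t A B : ℝ} {E : Env} (hε : 0 < ε) (hH : 2 ≤ E.H ν)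
    (hx : E.H ν ^ ν = E.x) (hX : (E.x : ℝ) ^ θ ≤ E.X) (hL : 1 ≤ E.L ν) (hA0 : 0 ≤ A)
    (hA : A * E.W ≤ ε * E.H ν ^ δ) (hB : B ≤ E.H ν ^ t) (ht : δ + t ≤ θ * ν) :
    A * B ≤ ε * E.Sc ν := by
  have h0 : (0 : ℝ) < E.H ν := by linarith
  have h1 : (1 : ℝ) ≤ E.H ν := by linarith
  have hW : (0 : ℝ) < E.W := by exact_mod_cast erra_Wpos E
  have e1 : E.H ν ^ δ * E.H ν ^ t ≤ E.X := by
    rw [← Real.rpow_add h0]
    refine le_trans (Real.rpow_le_rpow_of_exponent_le h1 ht) ?_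
    rw [mul_comm, Real.rpow_mul h0.le, hx]
    exact hX
  have e2 : A * B * E.W ≤ ε * E.X := by
    have hp : 0 ≤ E.H ν ^ t := by positivity
    calc A * B * E.W ≤ A * E.H ν ^ t * E.W := by gcongr
      _ = A * E.W * E.H ν ^ t := by ring
      _ ≤ ε * E.H ν ^ δ * E.H ν ^ t := by gcongr
      _ = ε * (E.H ν ^ δ * E.H ν ^ t) := by ring
      _ ≤ ε * E.X := by gcongr
  have e3 : A * B ≤ ε * (E.X / E.W) := by
    rw [← mul_div_assoc, le_div_iff₀ hW]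
    exact e2
  have e4 : (1 : ℝ) ≤ E.L ν ^ 4 := one_le_pow₀ hL
  have e5 : (0 : ℝ) ≤ E.X / E.W := by positivity
  unfold Env.Sc
  refine e3.trans (mul_le_mul_of_nonneg_left ?_ hε.le)
  nlinarith

theorem erra_card_le (S : Finset ℕ) {Y : ℝ} (hY : 0 ≤ Y) (hS : ∀ p ∈ S, 1 ≤ p ∧ (p : ℝ) ≤ Y) :
    (S.card : ℝ) ≤ Y := by
  have h1 : S ⊆ Icc 1 ⌊Y⌋₊ := fun p hp =>
    mem_Icc.mpr ⟨(hS p hp).1, Nat.le_floor (hS p hp).2⟩
  have h2 := card_le_card h1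
  rw [Nat.card_Icc, Nat.add_sub_cancel] at h2
  exact le_trans (by exact_mod_cast h2) (Nat.floor_le hY)

/-- `k1` with `p = 1` or summed over at most `H ^ (m + 1)` primes (after `ind_mul_Pw`,
`supp_zp`): the error is at most `G ^ 33 H ^ T1 ≤ G ^ 33 X H ^ (-δ)`, `δ = θ ν - T1`. -/
theorem err1 {ν θ : ℝ} {T1 T2 M : ℕ} (hr : Rng ν θ T1 T2 M) {ε : ℝ} (hε : 0 < ε) :
    Ev θ fun E => ∀ (jj : Slot → ℕ) (i : Fin 4),
      (∑ s, (jj s + 1) ≤ T1 →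
        |∑ n ∈ E.I, Pw E.P E.h (cz (E.H ν) jj) n -
          E.X / E.W * M1 E.P (cz (E.H ν) jj) 1 i| ≤ ε * E.Sc ν) ∧
      ∀ (m : ℕ) (S : Finset ℕ), (∀ p ∈ S, p ∈ E.P ∧ (p : ℝ) < E.H ν ^ (m + 1)) →
        m + 1 + ∑ s, (jj s + 1) ≤ T1 →
        ∑ p ∈ S, |∑ n ∈ E.I, ind p (n + E.h i) * Pw E.P E.h (cz (E.H ν) jj) n -
          E.X / E.W * M1 E.P (zp (cz (E.H ν) jj) i p) p i| ≤ ε * E.Sc ν := by
  have hδ : 0 < θ * ν - T1 := by linarith [hr.t1]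
  refine (ev_tame (θ := θ) hr.pos hδ hε 33).mono ?_
  rintro E hE hX ⟨G, hG, hGW, hL, hH, hx, -⟩ jj i
  have h0 : (0 : ℝ) < E.H ν := by linarith
  have h1 : (1 : ℝ) ≤ E.H ν := by linarith
  have hG0 : (0 : ℝ) ≤ G ^ 33 := by have := hG.ten; positivity
  have hZ : ∑ s, (jj s + 1) ≤ T1 → ∀ s, E.H ν ^ (jj s + 1) ≤ 3 * (E.x : ℝ) := by
    intro hs s
    refine erra_pow_le hr hH hx (le_trans ?_ hs)
    exact single_le_sum (f := fun s => jj s + 1) (fun _ _ => Nat.zero_le _) (mem_univ s)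
  have hZ0 : ∀ s, 0 ≤ E.H ν ^ (jj s + 1) := fun s => by positivity
  have hT : ∀ t : ℕ, t ≤ T1 → E.H ν ^ t ≤ E.H ν ^ (T1 : ℝ) := by
    intro t ht
    rw [Real.rpow_natCast]
    exact pow_le_pow_right₀ h1 ht
  refine ⟨fun hs => ?_, fun m S hS hs => ?_⟩
  · have := k1 hG E.h hE.inj E.w hE.hlt E.P (fun q hq => erra_memP hq) E.x E.X E.W E.a
      (erra_Wpos E) (fun q hq => erra_cop hq) (cz (E.H ν) jj) (fun s => E.H ν ^ (jj s + 1))
      (supp_cz _ jj) hZ0 (hZ hs) 1 (Or.inl rfl) i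
    simp only [ind, one_dvd, if_true, one_mul] at this
    refine this.trans ?_
    rw [prod_pow_eq_pow_sum]
    exact erra_fin hε hH hx hX hL hG0 hGW (hT _ hs) (by linarith)
  · have hs' : ∑ s, (jj s + 1) ≤ T1 := by omega
    have hb : ∀ p ∈ S, |∑ n ∈ E.I, ind p (n + E.h i) * Pw E.P E.h (cz (E.H ν) jj) n -
        E.X / E.W * M1 E.P (zp (cz (E.H ν) jj) i p) p i| ≤
        G ^ 33 * E.H ν ^ ∑ s, (jj s + 1) := by
      intro p hp
      have hpP := (hS p hp).1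
      have := k1 hG E.h hE.inj E.w hE.hlt E.P (fun q hq => erra_memP hq) E.x E.X E.W E.a
        (erra_Wpos E) (fun q hq => erra_cop hq) (zp (cz (E.H ν) jj) i p)
        (fun s => E.H ν ^ (jj s + 1))
        (supp_zp h1 jj i (erra_memP hpP).1.one_le) hZ0 (hZ hs') p (Or.inr hpP) i
      rw [prod_pow_eq_pow_sum] at this
      rw [sum_congr rfl fun n _ =>
        ind_mul_Pw (fun q hq => (erra_memP hq).1) E.h (cz (E.H ν) jj) hpP i n]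
      exact this
    have hc : (S.card : ℝ) ≤ E.H ν ^ (m + 1) :=
      erra_card_le S (by positivity) fun p hp =>
        ⟨(erra_memP (hS p hp).1).1.one_le, (hS p hp).2.le⟩
    refine (sum_le_card_nsmul _ _ _ hb).trans ?_
    rw [nsmul_eq_mul]
    calc (S.card : ℝ) * (G ^ 33 * E.H ν ^ ∑ s, (jj s + 1))
        ≤ E.H ν ^ (m + 1) * (G ^ 33 * E.H ν ^ ∑ s, (jj s + 1)) := by gcongr
      _ = G ^ 33 * E.H ν ^ (m + 1 + ∑ s, (jj s + 1)) := by rw [pow_add (E.H ν) (m + 1)]; ring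
      _ ≤ ε * E.Sc ν := erra_fin hε hH hx hX hL hG0 hGW (hT _ hs) (by linarith)

/-- Multiples of `d` among the shifted integers of an interval. -/
theorem erra_card_dvd {d : ℕ} (hd : 0 < d) (x X h : ℕ) :
    (((Ioc x (x + X)).filter fun n => d ∣ n + h).card : ℝ) ≤ X / d + 1 := by
  have h1 : ((Ioc x (x + X)).filter fun n => d ∣ n + h).card ≤ (cls (x + h) X d 0).card := by
    refine card_le_card_of_injOn (fun n => n + h) ?_ ?_
    · intro n hn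
      simp only [coe_filter, mem_Ioc, Set.mem_ofPred_eq] at hn
      simp only [cls, coe_filter, mem_Ioc, Set.mem_ofPred_eq]
      exact ⟨⟨by omega, by omega⟩, Nat.modEq_zero_iff_dvd.mpr hn.2⟩
    · intro a _ b _ hab
      simpa using hab
  have h2 := (abs_le.mp (card_cls hd (x + h) X 0)).2
  have h3 : (((Ioc x (x + X)).filter fun n => d ∣ n + h).card : ℝ) ≤ (cls (x + h) X d 0).card := by
    exact_mod_cast h1
  linarith

theorem erra_sum_inv_sq (S : Finset ℕ) {y : ℝ} (hy : 1 ≤ y) (hS : ∀ p ∈ S, y ≤ (p : ℝ)) :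
    ∑ p ∈ S, 1 / ((p : ℝ) ^ 2) ≤ 2 / y := by
  have hy0 : 0 < y := by linarith
  have hc : 1 ≤ ⌈y⌉₊ := Nat.one_le_iff_ne_zero.mpr (Nat.ceil_pos.mpr hy0).ne'
  have h1 : S ⊆ Ioo (⌈y⌉₊ - 1) (S.sup id + 1) := by
    intro p hp
    have a1 : ⌈y⌉₊ ≤ p := Nat.ceil_le.mpr (hS p hp)
    have a2 : p ≤ S.sup id := le_sup (f := id) hp
    exact mem_Ioo.mpr ⟨by omega, by omega⟩
  have h2 := sum_Ioo_inv_sq_le (α := ℝ) (⌈y⌉₊ - 1) (S.sup id + 1)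
  have h3 : ((⌈y⌉₊ - 1 : ℕ) : ℝ) + 1 = ⌈y⌉₊ := by
    rw [Nat.cast_sub hc]
    simp
  rw [h3] at h2
  calc ∑ p ∈ S, 1 / ((p : ℝ) ^ 2) = ∑ p ∈ S, ((p : ℝ) ^ 2)⁻¹ := by simp only [one_div]
    _ ≤ ∑ p ∈ Ioo (⌈y⌉₊ - 1) (S.sup id + 1), ((p : ℝ) ^ 2)⁻¹ :=
        sum_le_sum_of_subset_of_nonneg h1 fun _ _ _ => by positivity
    _ ≤ 2 / ⌈y⌉₊ := h2
    _ ≤ 2 / y := by gcongr; exact Nat.le_ceil y

theorem erra_memI {E : Env} (hE : E.Good) {n : ℕ} (hn : n ∈ E.I) (l : Fin 4) :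
    n ∈ Ioc E.x (E.x + E.X) ∧ 1 ≤ n + E.h l ∧ n + E.h l ≤ 3 * E.x := by
  unfold Env.I cls at hn
  have h1 := (mem_filter.mp hn).1
  have h2 := mem_Ioc.mp h1
  have h3 := hE.hlt l
  have h4 := hE.wx
  have h5 := hE.Xx
  exact ⟨h1, by omega, by omega⟩

theorem erra_card_sq {ν η : ℝ} {E : Env} (hE : E.Good) (hy : 1 ≤ E.H ν ^ η) (i : Fin 4) :
    ((E.sq ν η i).card : ℝ) ≤ 2 * (E.X / E.H ν ^ η) + 2 * √(E.x : ℝ) := by
  classical
  set S : Finset ℕ := (range (3 * E.x + 1)).filter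
    fun p => 1 ≤ p ∧ E.H ν ^ η ≤ (p : ℝ) ∧ p ^ 2 ≤ 3 * E.x with hS
  have h1 : E.sq ν η i ⊆
      S.biUnion fun p => (Ioc E.x (E.x + E.X)).filter fun n => p ^ 2 ∣ n + E.h i := by
    intro n hn
    unfold Env.sq at hn
    obtain ⟨hI, p, hp, hpy, hd⟩ := mem_filter.mp hn
    obtain ⟨a1, a2, a3⟩ := erra_memI hE hI i
    have a4 : p ^ 2 ≤ 3 * E.x := (Nat.le_of_dvd a2 hd).trans a3
    have a5 : p ≤ p ^ 2 := Nat.le_self_pow (by norm_num) p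
    refine mem_biUnion.mpr ⟨p, mem_filter.mpr ⟨mem_range.mpr (by omega), hp.one_le, hpy, a4⟩, ?_⟩
    exact mem_filter.mpr ⟨a1, hd⟩
  have h2 : ((E.sq ν η i).card : ℝ) ≤
      ∑ p ∈ S, (((Ioc E.x (E.x + E.X)).filter fun n => p ^ 2 ∣ n + E.h i).card : ℝ) := by
    exact_mod_cast (card_le_card h1).trans card_biUnion_le
  have h3 : ∑ p ∈ S, (((Ioc E.x (E.x + E.X)).filter fun n => p ^ 2 ∣ n + E.h i).card : ℝ) ≤
      ∑ p ∈ S, (E.X * (1 / (p : ℝ) ^ 2) + 1) := by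
    refine sum_le_sum fun p hp => ?_
    have hp1 : 1 ≤ p := (mem_filter.mp hp).2.1
    have := erra_card_dvd (d := p ^ 2) (by positivity) E.x E.X (E.h i)
    rw [Nat.cast_pow] at this
    rw [mul_one_div]
    exact this
  have h4 := erra_sum_inv_sq S hy fun p hp => (mem_filter.mp hp).2.2.1
  have h5 : (S.card : ℝ) ≤ 2 * √(E.x : ℝ) := by
    refine erra_card_le S (by positivity) fun p hp => ⟨(mem_filter.mp hp).2.1, ?_⟩
    have a1 : ((p : ℝ)) ^ 2 ≤ 3 * E.x := by exact_mod_cast (mem_filter.mp hp).2.2.2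
    have a2 : (0 : ℝ) ≤ E.x := Nat.cast_nonneg _
    refine (pow_le_pow_iff_left₀ (by positivity) (by positivity) two_ne_zero).mp ?_
    rw [mul_pow, Real.sq_sqrt a2]
    linarith
  rw [sum_add_distrib, ← mul_sum, sum_const, nsmul_eq_mul, mul_one] at h3
  have h6 : (E.X : ℝ) * ∑ p ∈ S, 1 / (p : ℝ) ^ 2 ≤ E.X * (2 / E.H ν ^ η) := by gcongr
  have h7 : (E.X : ℝ) * (2 / E.H ν ^ η) = 2 * (E.X / E.H ν ^ η) := by ring
  linarith

/-- At most `∑ p, (X / p ^ 2 + 1) ≤ 2 X H ^ (-η) + √(3 x)` integers (`p ^ 2 ≤ 3 x`), each term at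
most `G ^ 32` (`abs_sv_le`); `√x ≤ X H ^ (-δ)` with `δ = θ ν - ν / 2 > 0`. -/
theorem asym3 {ν θ : ℝ} {T1 T2 M : ℕ} (hr : Rng ν θ T1 T2 M) {ε η : ℝ} (hε : 0 < ε)
    (hη : 0 < η) :
    Ev θ fun E => ∀ (jj : Slot → ℕ) (i : Fin 4), (∀ s, jj s < M) →
      ∑ n ∈ E.sq ν η i, |Pw E.P E.h (cz (E.H ν) jj) n| ≤ ε * E.Sc ν := by
  have hδ1 : 0 < θ * ν - ν / 2 := by
    have := hr.t2
    have h2 : (0 : ℝ) ≤ T2 := Nat.cast_nonneg _
    linarith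
  have hδ : 0 < min η (θ * ν - ν / 2) := lt_min hη hδ1
  have hε4 : 0 < ε / 4 := by positivity
  refine (ev_tame (θ := θ) hr.pos hδ hε4 32).mono ?_
  rintro E hE hX ⟨G, hG, hGW, hL, hH, hx, -⟩ jj i hj
  have h0 : (0 : ℝ) < E.H ν := by linarith
  have h1 : (1 : ℝ) ≤ E.H ν := by linarith
  have hG0 : (0 : ℝ) ≤ G ^ 32 := by have := hG.ten; positivity
  have hW : (0 : ℝ) < E.W := by exact_mod_cast erra_Wpos E
  have hb : ∀ n ∈ E.sq ν η i, |Pw E.P E.h (cz (E.H ν) jj) n| ≤ G ^ 32 := by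
    intro n hn
    have hI : n ∈ E.I := by
      classical
      unfold Env.sq at hn
      exact (mem_filter.mp hn).1
    unfold Pw
    rw [abs_prod]
    have : ∏ s : Slot, |sv E.P (cz (E.H ν) jj s) (n + E.h s.1)| ≤ ∏ _s : Slot, G ^ 4 := by
      refine prod_le_prod (fun _ _ => abs_nonneg _) fun s _ => ?_
      obtain ⟨-, a2, a3⟩ := erra_memI hE hI s.1
      have a4 : jj s + 1 ≤ T1 := le_trans (hj s) hr.mt
      refine abs_sv_le hG (fun q hq => (erra_memP hq).1) (supp_cz _ jj s)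
        (erra_pow_le hr hH hx a4) a2 ?_
      exact_mod_cast a3
    refine this.trans (le_of_eq ?_)
    rw [prod_const, card_univ, ← pow_mul]
    rfl
  have hy : 1 ≤ E.H ν ^ η := Real.one_le_rpow h1 hη.le
  have hc := erra_card_sq hE hy i
  have hsq : √(E.x : ℝ) ≤ E.H ν ^ (ν / 2) := by
    rw [← hx, Real.sqrt_eq_rpow, ← Real.rpow_mul h0.le]
    exact le_of_eq (by congr 1; ring)
  have t2 : G ^ 32 * √(E.x : ℝ) ≤ ε / 4 * E.Sc ν :=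
    erra_fin hε4 hH hx hX hL hG0 hGW hsq (by linarith [min_le_right η (θ * ν - ν / 2)])
  have t1 : G ^ 32 * (E.X / E.H ν ^ η) ≤ ε / 4 * E.Sc ν := by
    have a1 : G ^ 32 * E.W ≤ ε / 4 * E.H ν ^ η :=
      hGW.trans (mul_le_mul_of_nonneg_left
        (Real.rpow_le_rpow_of_exponent_le h1 (min_le_left _ _)) hε4.le)
    have a2 : (0 : ℝ) < E.H ν ^ η := by linarith
    have a3 : G ^ 32 / E.H ν ^ η ≤ ε / 4 / E.W := by
      rw [div_le_div_iff₀ a2 hW]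
      exact a1
    have a4 : (1 : ℝ) ≤ E.L ν ^ 4 := one_le_pow₀ hL
    have a5 : (0 : ℝ) ≤ E.X := Nat.cast_nonneg _
    have a6 : (0 : ℝ) ≤ E.X / E.W := by positivity
    unfold Env.Sc
    calc G ^ 32 * (E.X / E.H ν ^ η) = G ^ 32 / E.H ν ^ η * E.X := by ring
      _ ≤ ε / 4 / E.W * E.X := by gcongr
      _ = ε / 4 * (E.X / E.W * 1) := by ring
      _ ≤ ε / 4 * (E.X / E.W * E.L ν ^ 4) := by gcongr
  refine (sum_le_card_nsmul _ _ _ hb).trans ?_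
  rw [nsmul_eq_mul]
  calc ((E.sq ν η i).card : ℝ) * G ^ 32
      ≤ (2 * (E.X / E.H ν ^ η) + 2 * √(E.x : ℝ)) * G ^ 32 := by gcongr
    _ = 2 * (G ^ 32 * (E.X / E.H ν ^ η)) + 2 * (G ^ 32 * √(E.x : ℝ)) := by ring
    _ ≤ ε * E.Sc ν := by linarith

end Pool.Agent.Lib.MP_c03ca8_nt.Q
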