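import Pool.Agent.Lib.MP_c03ca8_nt.Q.Mass

set_option autoImplicit false

noncomputable section

namespace Pool.Agent.Lib.MP_c03ca8_nt.Q

open Finset Real

/-- The summand of `Tk`. -/
def inner_t (σ σ' k ρ : ℕ) : ℝ := (dl σ ρ - dl σ (ρ + k)) * (dl σ' ρ - dl σ' (ρ + k))

theorem inner_abs_t (σ σ' k ρ : ℕ) : |inner_t σ σ' k ρ| ≤ 1 := by
  unfold inner_t dl
  split_ifs <;> norm_num

theorem inner_uniq {H r : ℝ} (hH : 1 < H) {a b : ℕ} (h1 : H ^ a ≤ r) (h2 : r < H ^ (a + 1))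
    (h3 : H ^ b ≤ r) (h4 : r < H ^ (b + 1)) : a = b := by
  have e1 := (pow_lt_pow_iff_right₀ hH).1 (h1.trans_lt h4)
  have e2 := (pow_lt_pow_iff_right₀ hH).1 (h3.trans_lt h2)
  omega

theorem inner_cell {H : ℝ} (hH : 1 < H) {ρ r : ℕ} (h1 : H ^ ρ ≤ r) (h2 : (r : ℝ) < H ^ (ρ + 1))
    (s : ℕ) : cell H s r = dl s ρ := by
  unfold cell dl
  by_cases h : s = ρ
  · subst h; simp [h1, h2]
  · rw [if_neg h, if_neg]
    rintro ⟨h3, h4⟩
    exact h (inner_uniq hH h3 h4 h1 h2)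

theorem inner_point {H : ℝ} (hH : 1 < H) {M σ σ' p m r : ℕ} (hσ : σ < M) (hσ' : σ' < M)
    (hp1 : H ^ m ≤ (p : ℝ)) (hp2 : (p : ℝ) < H ^ (m + 1)) (hr : 1 ≤ r) :
    (cell H σ r - cell H σ (r * p)) * (cell H σ' r - cell H σ' (r * p)) =
      ∑ ρ ∈ range M,
        ((if H ^ ρ ≤ (r : ℝ) ∧ (r : ℝ) < H ^ (ρ + m + 1) / p then inner_t σ σ' m ρ else 0) +
        (if H ^ (ρ + m + 1) / p ≤ (r : ℝ) ∧ (r : ℝ) < H ^ (ρ + 1) then inner_t σ σ' (m + 1) ρ
          else 0)) := by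
  have hH0 : 0 < H := by linarith
  have hp0 : (0 : ℝ) < p := (pow_pos hH0 m).trans_le hp1
  obtain ⟨ρ, h1, h2⟩ := exists_nat_pow_near (x := (r : ℝ)) (by exact_mod_cast hr) hH
  have hlo : ∀ a : ℕ, H ^ a ≤ H ^ (a + m + 1) / p := fun a => by
    rw [le_div_iff₀ hp0, add_assoc, pow_add]
    exact mul_le_mul_of_nonneg_left hp2.le (pow_pos hH0 a).le
  have hhi : ∀ a : ℕ, H ^ (a + m + 1) / p ≤ H ^ (a + 1) := fun a => by
    rw [div_le_iff₀ hp0, show a + m + 1 = a + 1 + m by ring, pow_add]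
    exact mul_le_mul_of_nonneg_left hp1 (pow_pos hH0 _).le
  have key : (cell H σ r - cell H σ (r * p)) * (cell H σ' r - cell H σ' (r * p)) =
      (if H ^ ρ ≤ (r : ℝ) ∧ (r : ℝ) < H ^ (ρ + m + 1) / p then inner_t σ σ' m ρ else 0) +
        (if H ^ (ρ + m + 1) / p ≤ (r : ℝ) ∧ (r : ℝ) < H ^ (ρ + 1) then inner_t σ σ' (m + 1) ρ
          else 0) := by
    rw [inner_cell hH h1 h2, inner_cell hH h1 h2]
    by_cases h : (r : ℝ) < H ^ (ρ + m + 1) / p
    · have h3 : H ^ (ρ + m) ≤ ((r * p : ℕ) : ℝ) := by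
        rw [pow_add, Nat.cast_mul]
        exact mul_le_mul h1 hp1 (pow_pos hH0 _).le (Nat.cast_nonneg _)
      have h4 : ((r * p : ℕ) : ℝ) < H ^ (ρ + m + 1) := by
        rw [Nat.cast_mul]; exact (lt_div_iff₀ hp0).1 h
      rw [inner_cell hH h3 h4, inner_cell hH h3 h4, if_pos ⟨h1, h⟩,
        if_neg fun h' => absurd h (not_lt.2 h'.1), add_zero, inner_t]
    · have h' := not_lt.1 h
      have h3 : H ^ (ρ + (m + 1)) ≤ ((r * p : ℕ) : ℝ) := by
        rw [Nat.cast_mul, ← add_assoc]; exact (div_le_iff₀ hp0).1 h'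
      have h4 : ((r * p : ℕ) : ℝ) < H ^ (ρ + (m + 1) + 1) := by
        rw [Nat.cast_mul, show ρ + (m + 1) + 1 = (ρ + 1) + (m + 1) by ring, pow_add]
        exact mul_lt_mul'' h2 hp2 (Nat.cast_nonneg _) hp0.le
      rw [inner_cell hH h3 h4, inner_cell hH h3 h4, if_neg fun h'' => h h''.2, if_pos ⟨h', h2⟩,
        zero_add, inner_t]
  have hother : ∀ a, a ≠ ρ →
      ((if H ^ a ≤ (r : ℝ) ∧ (r : ℝ) < H ^ (a + m + 1) / p then inner_t σ σ' m a else 0) +
        (if H ^ (a + m + 1) / p ≤ (r : ℝ) ∧ (r : ℝ) < H ^ (a + 1) then inner_t σ σ' (m + 1) a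
          else 0)) = 0 := by
    intro a ha
    rw [if_neg, if_neg, add_zero]
    · rintro ⟨h3, h4⟩
      exact ha (inner_uniq hH ((hlo a).trans h3) h4 h1 h2)
    · rintro ⟨h3, h4⟩
      exact ha (inner_uniq hH h3 (h4.trans_le (hhi a)) h1 h2)
  rw [key, Finset.sum_eq_single ρ (fun a _ ha => hother a ha)]
  intro hρ
  have hρ' : M ≤ ρ := by simpa using hρ
  have hz : ∀ k, inner_t σ σ' k ρ = 0 := fun k => by
    unfold inner_t dl
    rw [if_neg (by omega), if_neg (by omega)]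
    simp
  simp [hz]

theorem inner_wt_nonneg {T : Finset ℕ} (hT : ∀ q ∈ T, q.Prime) : 0 ≤ wt T :=
  Finset.prod_nonneg fun q hq => by
    have : (2 : ℝ) ≤ q := by exact_mod_cast (hT q hq).two_le
    exact div_nonneg zero_le_one (by linarith)

theorem inner_erase {P : Finset ℕ} (hP : ∀ q ∈ P, q.Prime) {p : ℕ} (hp : p.Prime) (Z : ℝ) :
    ∑ T ∈ P.powerset.filter (fun T => p ∣ pr T ∧ (pr T : ℝ) < Z), wt T ≤
      1 / ((p : ℝ) - 1) *
        ∑ T ∈ P.powerset.filter (fun T => (1 : ℝ) ≤ (pr T : ℝ) ∧ (pr T : ℝ) < Z), wt T := by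
  have hp2 : (2 : ℝ) ≤ p := by exact_mod_cast hp.two_le
  have hmem : ∀ T ∈ P.powerset.filter (fun T => p ∣ pr T ∧ (pr T : ℝ) < Z), p ∈ T := by
    intro T hT
    obtain ⟨h1, h2, -⟩ := Finset.mem_filter.1 hT
    have hT' : ∀ q ∈ T, q.Prime := fun q hq => hP q (Finset.mem_powerset.1 h1 hq)
    rw [← primeFactors_pr hT']
    exact Nat.mem_primeFactors.2 ⟨hp, h2, (pr_pos hT').ne'⟩
  have h1 : ∑ T ∈ P.powerset.filter (fun T => p ∣ pr T ∧ (pr T : ℝ) < Z), wt T =
      1 / ((p : ℝ) - 1) * ∑ T ∈ (P.powerset.filter (fun T => p ∣ pr T ∧ (pr T : ℝ) < Z)).image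
        (fun T => T.erase p), wt T := by
    rw [Finset.sum_image, Finset.mul_sum]
    · refine Finset.sum_congr rfl fun T hT => ?_
      unfold wt
      exact (Finset.mul_prod_erase T (fun q : ℕ => 1 / ((q : ℝ) - 1)) (hmem T hT)).symm
    · intro T hT T' hT' h
      simp only at h
      rw [← Finset.insert_erase (hmem T hT), h, Finset.insert_erase (hmem T' hT')]
  rw [h1]
  refine mul_le_mul_of_nonneg_left ?_ (div_nonneg zero_le_one (by linarith))
  refine Finset.sum_le_sum_of_subset_of_nonneg ?_ fun T hT _ =>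
    inner_wt_nonneg fun q hq => hP q (Finset.mem_powerset.1 (Finset.mem_filter.1 hT).1 hq)
  intro T' hT'
  obtain ⟨T, hT, rfl⟩ := Finset.mem_image.1 hT'
  obtain ⟨h2, -, h3⟩ := Finset.mem_filter.1 hT
  have hs : T.erase p ⊆ P := (Finset.erase_subset p T).trans (Finset.mem_powerset.1 h2)
  refine Finset.mem_filter.2 ⟨Finset.mem_powerset.2 hs, ?_, lt_of_le_of_lt ?_ h3⟩
  · exact_mod_cast pr_pos fun q hq => hP q (hs hq)
  · have : pr (T.erase p) ≤ pr T := Finset.prod_le_prod_of_subset_of_one_le' (Finset.erase_subset p T)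
      fun q hq _ => (hP q (Finset.mem_powerset.1 h2 hq)).one_le
    exact_mod_cast this

theorem inner_vanish {H : ℝ} (hH : 1 < H) {M σ r p : ℕ} (hσ : σ < M) (hp : 1 ≤ p)
    (hr : H ^ M ≤ (r : ℝ)) : cell H σ r - cell H σ (r * p) = 0 := by
  have h1 : H ^ (σ + 1) ≤ (r : ℝ) := (pow_le_pow_right₀ hH.le hσ).trans hr
  have h2 : (r : ℝ) ≤ ((r * p : ℕ) : ℝ) := by exact_mod_cast Nat.le_mul_of_pos_right r hp
  unfold cell
  rw [if_neg fun h => absurd h.2 (not_lt.2 h1), if_neg fun h => absurd h.2 (not_lt.2 (h1.trans h2)),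
    sub_zero]

theorem inner_abs_g (H : ℝ) (σ σ' r s : ℕ) :
    |(cell H σ r - cell H σ s) * (cell H σ' r - cell H σ' s)| ≤ 1 := by
  unfold cell
  split_ifs <;> norm_num

/-- Let `L = cW w * log H`. First part: `mass` on `[H ^ σ, H ^ (σ + 1))`; distinct cells are
disjoint. Second part: for `p ∤ r`, `r ≥ 1`, the product of the two `dz` equals
`∑ ρ < M, (1 {H ^ ρ ≤ r < H ^ (ρ + m + 1) / p} t m ρ + 1 {H ^ (ρ + m + 1) / p ≤ r < H ^ (ρ + 1)}
t (m + 1) ρ)` with `t k ρ` the summand of `Tk` (if `r` is in the cell `ρ` then `r p` is in the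
cell `ρ + m` or `ρ + m + 1`; if `r ≥ H ^ M` everything vanishes). Use `mass` on the two ranges,
of logarithmic lengths `(1 - ϑ) log H` and `ϑ log H`, `|t| ≤ 1`. The sets `T ∋ p` with
`pr T < H ^ M` have total `wt` at most `(2 M L + B) / (p - 1) ≤ (2 M L + B) / w`. -/
theorem inner (M : ℕ) : ∃ A : ℝ, 0 ≤ A ∧ ∀ w : ℕ, 10 ≤ w → ∃ B : ℝ, 0 ≤ B ∧
    ∀ (H : ℝ) (y : ℕ), 1 < H → H ^ M ≤ y → ∀ σ σ' : ℕ, σ < M → σ' < M →
    |ip (PP w y) (cell H σ) (cell H σ') - dl σ σ' * (cW w * Real.log H)| ≤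
      A / w * (cW w * Real.log H) + B ∧
    ∀ p ∈ PP w y, ∀ m : ℕ, H ^ m ≤ (p : ℝ) → (p : ℝ) < H ^ (m + 1) →
      |ip (PP w y) (dz (cell H σ) p) (dz (cell H σ') p) - cW w * Real.log H *
        ((m + 1 - Real.log p / Real.log H) * Tk M m σ σ' +
          (Real.log p / Real.log H - m) * Tk M (m + 1) σ σ')| ≤
        A / w * (cW w * Real.log H) + B := by
  refine ⟨10 * M + 4, by positivity, fun w hw => ?_⟩
  obtain ⟨B, hB, hm⟩ := mass w hw
  refine ⟨(2 * M + 2) * B, by positivity, fun H y hH hy σ σ' hσ hσ' => ?_⟩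
  have hH0 : 0 < H := by linarith
  have hlH : 0 < Real.log H := Real.log_pos hH
  have hc := cW_pos w
  have hw0 : (10 : ℝ) ≤ w := by exact_mod_cast hw
  have hM0 : (0 : ℝ) ≤ M := Nat.cast_nonneg M
  set L := cW w * Real.log H with hL
  have hL0 : 0 < L := mul_pos hc hlH
  have hLw : 0 ≤ L / w := by positivity
  have hPp : ∀ q ∈ PP w y, q.Prime := fun q hq =>
    (Nat.mem_primesLE.1 (Finset.mem_filter.1 hq).1).2
  have hone : ∀ a : ℕ, 1 ≤ H ^ a := fun a => one_le_pow₀ hH.le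
  have htop : ∀ a : ℕ, a < M → H ^ (a + 1) ≤ (y : ℝ) := fun a ha =>
    (pow_le_pow_right₀ hH.le ha).trans hy
  have hA : (10 * M + 4) / w * L = (10 * M + 4) * (L / w) := by ring
  have hMB : 0 ≤ M * B := by positivity
  have hML : 0 ≤ M * (L / w) := by positivity
  constructor
  · by_cases h : σ = σ'
    · subst h
      have h1 := hm y (H ^ σ) (H ^ (σ + 1)) (hone σ) (pow_le_pow_right₀ hH.le (by omega))
        (htop σ hσ)
      have h2 : H ^ (σ + 1) / H ^ σ = H := by rw [pow_succ]; field_simp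
      rw [h2, Finset.sum_filter, ← hL] at h1
      have h3 : ip (PP w y) (cell H σ) (cell H σ) = ∑ T ∈ (PP w y).powerset,
          if H ^ σ ≤ (pr T : ℝ) ∧ (pr T : ℝ) < H ^ (σ + 1) then wt T else 0 := by
        refine Finset.sum_congr rfl fun T _ => ?_
        unfold cell
        split_ifs <;> simp
      rw [h3, dl, if_pos rfl, one_mul, hA]
      have h4 : 4 / w * L = 4 * (L / w) := by ring
      rw [h4] at h1
      nlinarith
    · have h3 : ip (PP w y) (cell H σ) (cell H σ') = 0 := by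
        refine Finset.sum_eq_zero fun T _ => ?_
        unfold cell
        split_ifs with h1 h2
        · exact absurd (inner_uniq hH h1.1 h1.2 h2.1 h2.2) h
        all_goals simp
      rw [h3, dl, if_neg h, zero_mul, sub_zero, abs_zero]
      positivity
  intro p hp m hp1 hp2
  have hpp := hPp p hp
  have hpw : w < p := (Finset.mem_filter.1 hp).2
  have hp0 : (0 : ℝ) < p := by exact_mod_cast hpp.pos
  have hpw' : (w : ℝ) ≤ (p : ℝ) - 1 := by
    have : (w : ℝ) + 1 ≤ p := by exact_mod_cast hpw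
    linarith
  set ϑ := Real.log p / Real.log H - m with hϑ
  have hϑ0 : 0 ≤ ϑ := by
    have := Real.log_le_log (pow_pos hH0 m) hp1
    rw [Real.log_pow] at this
    rw [hϑ, sub_nonneg, le_div_iff₀ hlH]; exact this
  have hϑ1 : ϑ ≤ 1 := by
    have := Real.log_le_log hp0 hp2.le
    rw [Real.log_pow] at this
    push_cast at this
    rw [hϑ, sub_le_iff_le_add, div_le_iff₀ hlH]; linarith
  have hlo : ∀ a : ℕ, H ^ a ≤ H ^ (a + m + 1) / p := fun a => by
    rw [le_div_iff₀ hp0, add_assoc, pow_add]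
    exact mul_le_mul_of_nonneg_left hp2.le (pow_pos hH0 a).le
  have hhi : ∀ a : ℕ, H ^ (a + m + 1) / p ≤ H ^ (a + 1) := fun a => by
    rw [div_le_iff₀ hp0, show a + m + 1 = a + 1 + m by ring, pow_add]
    exact mul_le_mul_of_nonneg_left hp1 (pow_pos hH0 _).le
  have hl1 : ∀ a : ℕ, cW w * Real.log (H ^ (a + m + 1) / p / H ^ a) = L * (1 - ϑ) := fun a => by
    rw [Real.log_div (by positivity) (by positivity), Real.log_div (by positivity) hp0.ne',
      Real.log_pow, Real.log_pow, hL, hϑ]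
    push_cast
    field_simp
    ring
  have hl2 : ∀ a : ℕ, cW w * Real.log (H ^ (a + 1) / (H ^ (a + m + 1) / p)) = L * ϑ := fun a => by
    rw [Real.log_div (by positivity) (by positivity), Real.log_div (by positivity) hp0.ne',
      Real.log_pow, Real.log_pow, hL, hϑ]
    push_cast
    field_simp
    ring
  set g : ℕ → ℝ := fun r => (cell H σ r - cell H σ (r * p)) * (cell H σ' r - cell H σ' (r * p))
    with hg
  set S : ℝ → ℝ → ℝ := fun Y Z =>
    ∑ T ∈ (PP w y).powerset.filter (fun T => Y ≤ (pr T : ℝ) ∧ (pr T : ℝ) < Z), wt T with hS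
  have e1 : ip (PP w y) (dz (cell H σ) p) (dz (cell H σ') p) =
      ∑ T ∈ (PP w y).powerset, g (pr T) * wt T -
        ∑ T ∈ (PP w y).powerset, if p ∣ pr T then g (pr T) * wt T else 0 := by
    rw [← Finset.sum_sub_distrib]
    refine Finset.sum_congr rfl fun T _ => ?_
    unfold dz
    split_ifs <;> simp [hg]
  have e2 : ∑ T ∈ (PP w y).powerset, g (pr T) * wt T = ∑ ρ ∈ range M,
      (inner_t σ σ' m ρ * S (H ^ ρ) (H ^ (ρ + m + 1) / p) +
        inner_t σ σ' (m + 1) ρ * S (H ^ (ρ + m + 1) / p) (H ^ (ρ + 1))) := by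
    simp only [hS, Finset.sum_filter, Finset.mul_sum, ← Finset.sum_add_distrib]
    rw [Finset.sum_comm]
    refine Finset.sum_congr rfl fun T hT => ?_
    have hT' : 1 ≤ pr T := pr_pos fun q hq => hPp q (Finset.mem_powerset.1 hT hq)
    simp only [hg]
    rw [inner_point hH hσ hσ' hp1 hp2 hT', Finset.sum_mul]
    refine Finset.sum_congr rfl fun ρ _ => ?_
    split_ifs <;> ring
  have e3 : L * ((m + 1 - Real.log p / Real.log H) * Tk M m σ σ' + ϑ * Tk M (m + 1) σ σ') =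
      ∑ ρ ∈ range M, (inner_t σ σ' m ρ * (L * (1 - ϑ)) + inner_t σ σ' (m + 1) ρ * (L * ϑ)) := by
    have : (m : ℝ) + 1 - Real.log p / Real.log H = 1 - ϑ := by rw [hϑ]; ring
    rw [this]
    simp only [Tk, inner_t, Finset.mul_sum, ← Finset.sum_add_distrib]
    refine Finset.sum_congr rfl fun ρ _ => by ring
  have b1 : |∑ T ∈ (PP w y).powerset, g (pr T) * wt T -
      L * ((m + 1 - Real.log p / Real.log H) * Tk M m σ σ' + ϑ * Tk M (m + 1) σ σ')| ≤
      M * (4 * (L / w) + 2 * B) := by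
    rw [e2, e3, ← Finset.sum_sub_distrib]
    refine (Finset.abs_sum_le_sum_abs _ _).trans ?_
    refine (Finset.sum_le_card_nsmul _ _ (4 * (L / w) + 2 * B) fun ρ hρ => ?_).trans
      (by rw [Finset.card_range, nsmul_eq_mul])
    have hρ' := Finset.mem_range.1 hρ
    have h1 := hm y (H ^ ρ) (H ^ (ρ + m + 1) / p) (hone ρ) (hlo ρ) ((hhi ρ).trans (htop ρ hρ'))
    have h2 := hm y (H ^ (ρ + m + 1) / p) (H ^ (ρ + 1)) ((hone ρ).trans (hlo ρ)) (hhi ρ)
      (htop ρ hρ')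
    rw [hl1] at h1
    rw [hl2] at h2
    have h3 : inner_t σ σ' m ρ * S (H ^ ρ) (H ^ (ρ + m + 1) / p) +
        inner_t σ σ' (m + 1) ρ * S (H ^ (ρ + m + 1) / p) (H ^ (ρ + 1)) -
        (inner_t σ σ' m ρ * (L * (1 - ϑ)) + inner_t σ σ' (m + 1) ρ * (L * ϑ)) =
        inner_t σ σ' m ρ * (S (H ^ ρ) (H ^ (ρ + m + 1) / p) - L * (1 - ϑ)) +
        inner_t σ σ' (m + 1) ρ * (S (H ^ (ρ + m + 1) / p) (H ^ (ρ + 1)) - L * ϑ) := by ring
    rw [h3]
    refine (abs_add_le _ _).trans ?_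
    rw [abs_mul, abs_mul]
    have h4 := mul_le_mul (inner_abs_t σ σ' m ρ) h1 (abs_nonneg _) zero_le_one
    have h5 := mul_le_mul (inner_abs_t σ σ' (m + 1) ρ) h2 (abs_nonneg _) zero_le_one
    have h6 : 4 / w * (L * (1 - ϑ)) + 4 / w * (L * ϑ) = 4 * (L / w) := by ring
    simp only [hS]
    linarith
  have b2 : |∑ T ∈ (PP w y).powerset, if p ∣ pr T then g (pr T) * wt T else 0| ≤
      2 * M * (L / w) + B := by
    have h1 : |∑ T ∈ (PP w y).powerset, if p ∣ pr T then g (pr T) * wt T else 0| ≤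
        ∑ T ∈ (PP w y).powerset.filter (fun T => p ∣ pr T ∧ (pr T : ℝ) < H ^ M), wt T := by
      rw [Finset.sum_filter]
      refine (Finset.abs_sum_le_sum_abs _ _).trans (Finset.sum_le_sum fun T hT => ?_)
      have hw' := inner_wt_nonneg fun q hq => hPp q (Finset.mem_powerset.1 hT hq)
      by_cases h : p ∣ pr T
      · by_cases h' : (pr T : ℝ) < H ^ M
        · rw [if_pos h, if_pos ⟨h, h'⟩, abs_mul, abs_of_nonneg hw']
          exact mul_le_of_le_one_left hw' (inner_abs_g H σ σ' _ _)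
        · rw [if_pos h, if_neg fun h'' => h' h''.2]
          simp only [hg]
          rw [inner_vanish hH hσ hpp.one_le (not_lt.1 h')]
          simp
      · rw [if_neg h, if_neg fun h'' => h h''.1, abs_zero]
    have h2 := inner_erase hPp hpp (H ^ M)
    have h3 := hm y 1 (H ^ M) le_rfl (hone M) hy
    rw [div_one, Real.log_pow, show cW w * (M * Real.log H) = M * L by rw [hL]; ring] at h3
    have h4 := (abs_le.1 h3).2
    have h5 : 4 / (w : ℝ) ≤ 1 := by rw [div_le_one (by linarith)]; linarith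
    have h6 : 4 / (w : ℝ) * (M * L) ≤ M * L := mul_le_of_le_one_left (by positivity) h5
    have h7 : 1 / ((p : ℝ) - 1) ≤ 1 / w := one_div_le_one_div_of_le (by linarith) hpw'
    have h8 : 1 / ((p : ℝ) - 1) * ∑ T ∈ (PP w y).powerset.filter
        (fun T => (1 : ℝ) ≤ (pr T : ℝ) ∧ (pr T : ℝ) < H ^ M), wt T ≤
        1 / w * (2 * (M * L) + B) := by
      refine mul_le_mul h7 (by linarith) (Finset.sum_nonneg fun T hT => inner_wt_nonneg
        fun q hq => hPp q (Finset.mem_powerset.1 (Finset.mem_filter.1 hT).1 hq)) (by positivity)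
    have h9 : 1 / (w : ℝ) * (2 * (M * L) + B) = 2 * M * (L / w) + B / w := by ring
    have h10 : B / w ≤ B := div_le_self hB (by linarith)
    linarith
  rw [e1, hA, sub_right_comm]
  refine (abs_sub _ _).trans ?_
  nlinarith

theorem abs_Tk_le (M k σ σ' : ℕ) : |Tk M k σ σ'| ≤ M := by
  refine (Finset.abs_sum_le_sum_abs _ _).trans ?_
  refine (Finset.sum_le_card_nsmul _ _ 1 fun ρ _ => inner_abs_t σ σ' k ρ).trans ?_
  simp

theorem Tk_zero (M σ σ' : ℕ) : Tk M 0 σ σ' = 0 := by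
  simp [Tk]

end Pool.Agent.Lib.MP_c03ca8_nt.Q
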