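import Pool.Agent.Lib.MP_c03ca8_nt.Q.Defs

set_option autoImplicit false

noncomputable section

namespace Pool.Agent.Lib.MP_c03ca8_nt.Q

open Finset Real

lemma lsadd_dual {ι : Type*} (A : Finset ι) (K : Finset ℕ) (e : ι → ℕ → ℂ) (γ : ℕ → ℂ)
    (D : ι → ι → ℝ) (R : ℝ) (hR : 0 ≤ R) (hsym : ∀ a a', D a a' = D a' a)
    (hD : ∀ a ∈ A, ∀ a' ∈ A, ‖∑ k ∈ K, e a k * (starRingEnd ℂ) (e a' k)‖ ≤ D a a')
    (hrow : ∀ a ∈ A, ∑ a' ∈ A, D a a' ≤ R) :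
    ∑ a ∈ A, ‖∑ k ∈ K, γ k * e a k‖ ^ 2 ≤ R * ∑ k ∈ K, ‖γ k‖ ^ 2 := by
  set G : ι → ℂ := fun a => ∑ k ∈ K, γ k * e a k with hG
  set H : ℕ → ℂ := fun k => ∑ a ∈ A, (starRingEnd ℂ) (G a) * e a k with hH
  set S : ℝ := ∑ a ∈ A, ‖G a‖ ^ 2 with hS
  set C : ℝ := ∑ k ∈ K, ‖γ k‖ ^ 2 with hC
  have hS0 : 0 ≤ S := sum_nonneg fun _ _ => sq_nonneg _
  have hC0 : 0 ≤ C := sum_nonneg fun _ _ => sq_nonneg _
  have h1 : (S : ℂ) = ∑ k ∈ K, γ k * H k := by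
    simp only [hH, mul_sum]
    rw [sum_comm, hS]
    push_cast
    refine sum_congr rfl fun a _ => ?_
    rw [← Complex.conj_mul', hG]
    simp only []
    rw [mul_sum]
    refine sum_congr rfl fun k _ => ?_
    ring
  have h2 : S ≤ ∑ k ∈ K, ‖γ k‖ * ‖H k‖ := by
    have : S = ‖(S : ℂ)‖ := by rw [Complex.norm_real, Real.norm_eq_abs, abs_of_nonneg hS0]
    rw [this, h1]
    refine (norm_sum_le _ _).trans (le_of_eq ?_)
    simp only [norm_mul]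
  have h3 : (∑ k ∈ K, ‖γ k‖ * ‖H k‖) ^ 2 ≤ C * ∑ k ∈ K, ‖H k‖ ^ 2 :=
    sum_mul_sq_le_sq_mul_sq _ _ _
  have h4 : ((∑ k ∈ K, ‖H k‖ ^ 2 : ℝ) : ℂ) = ∑ a ∈ A, ∑ a' ∈ A,
      (starRingEnd ℂ) (G a) * G a' * ∑ k ∈ K, e a k * (starRingEnd ℂ) (e a' k) := by
    push_cast
    have : ∀ k ∈ K, ((‖H k‖ : ℂ)) ^ 2 = ∑ a ∈ A, ∑ a' ∈ A,
        (starRingEnd ℂ) (G a) * G a' * (e a k * (starRingEnd ℂ) (e a' k)) := by
      intro k _
      rw [← Complex.mul_conj', hH]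
      simp only [map_sum, map_mul, Complex.conj_conj]
      rw [sum_mul_sum]
      refine sum_congr rfl fun a _ => sum_congr rfl fun a' _ => ?_
      ring
    rw [sum_congr rfl this, sum_comm]
    refine sum_congr rfl fun a _ => ?_
    rw [sum_comm]
    refine sum_congr rfl fun a' _ => ?_
    exact (mul_sum _ _ _).symm
  have h5 : ∑ k ∈ K, ‖H k‖ ^ 2 ≤ ∑ a ∈ A, ∑ a' ∈ A, ‖G a‖ * ‖G a'‖ * D a a' := by
    have h0 : 0 ≤ ∑ k ∈ K, ‖H k‖ ^ 2 := sum_nonneg fun _ _ => sq_nonneg _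
    have : ∑ k ∈ K, ‖H k‖ ^ 2 = ‖((∑ k ∈ K, ‖H k‖ ^ 2 : ℝ) : ℂ)‖ := by
      rw [Complex.norm_real, Real.norm_eq_abs, abs_of_nonneg h0]
    rw [this, h4]
    refine (norm_sum_le _ _).trans (sum_le_sum fun a ha => ?_)
    refine (norm_sum_le _ _).trans (sum_le_sum fun a' ha' => ?_)
    rw [norm_mul, norm_mul, Complex.norm_conj]
    exact mul_le_mul_of_nonneg_left (hD a ha a' ha') (by positivity)
  have h6 : ∑ a ∈ A, ∑ a' ∈ A, ‖G a‖ * ‖G a'‖ * D a a' ≤ R * S := by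
    have hle : ∑ a ∈ A, ∑ a' ∈ A, ‖G a‖ * ‖G a'‖ * D a a' ≤
        ∑ a ∈ A, ∑ a' ∈ A, (‖G a‖ ^ 2 * D a a' / 2 + ‖G a'‖ ^ 2 * D a' a / 2) := by
      refine sum_le_sum fun a ha => sum_le_sum fun a' ha' => ?_
      have hD0 : 0 ≤ D a a' := (norm_nonneg _).trans (hD a ha a' ha')
      rw [hsym a' a]
      nlinarith [mul_nonneg hD0 (sq_nonneg (‖G a‖ - ‖G a'‖))]
    refine hle.trans ?_
    simp only [sum_add_distrib]
    rw [sum_comm (f := fun a a' => ‖G a'‖ ^ 2 * D a' a / 2), ← sum_add_distrib, hS, mul_sum]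
    refine sum_le_sum fun a ha => ?_
    rw [← sum_add_distrib]
    have : ∑ a' ∈ A, (‖G a‖ ^ 2 * D a a' / 2 + ‖G a‖ ^ 2 * D a a' / 2) =
        ‖G a‖ ^ 2 * ∑ a' ∈ A, D a a' := by
      rw [mul_sum]
      refine sum_congr rfl fun a' _ => ?_
      ring
    rw [this, mul_comm R]
    exact mul_le_mul_of_nonneg_left (hrow a ha) (sq_nonneg _)
  have h7 : S * S ≤ (R * C) * S := by
    have : S ^ 2 ≤ (∑ k ∈ K, ‖γ k‖ * ‖H k‖) ^ 2 := pow_le_pow_left₀ hS0 h2 2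
    have h8 : C * ∑ k ∈ K, ‖H k‖ ^ 2 ≤ C * (R * S) :=
      mul_le_mul_of_nonneg_left (h5.trans h6) hC0
    nlinarith
  rcases hS0.eq_or_lt with h | h
  · rw [← h]; positivity
  · exact le_of_mul_le_mul_right h7 h

lemma lsadd_harm {ι : Type*} (T : Finset ι) (f : ι → ℝ) {Y : ℝ} (hY : 0 ≤ Y)
    (h1 : ∀ j ∈ T, 1 ≤ f j) (h2 : ∀ j ∈ T, f j ≤ Y)
    (h3 : ∀ j ∈ T, ∀ j' ∈ T, j ≠ j' → 1 ≤ |f j - f j'|) :
    ∑ j ∈ T, (f j)⁻¹ ≤ 1 + Real.log (1 + Y) := by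
  have hinj : Set.InjOn (fun j => ⌊f j⌋₊) T := by
    intro j hj j' hj' h
    by_contra hne
    have a1 := h3 j hj j' hj' hne
    have a2 := Nat.floor_le (zero_le_one.trans (h1 j hj))
    have a3 := Nat.floor_le (zero_le_one.trans (h1 j' hj'))
    have a4 := Nat.lt_floor_add_one (f j)
    have a5 := Nat.lt_floor_add_one (f j')
    have a6 : (⌊f j⌋₊ : ℝ) = ⌊f j'⌋₊ := by exact_mod_cast h
    exact absurd a1 (not_le.2 (abs_lt.2 ⟨by linarith, by linarith⟩))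
  have hsub : T.image (fun j => ⌊f j⌋₊) ⊆ Icc 1 ⌊Y⌋₊ := by
    intro m hm
    obtain ⟨j, hj, rfl⟩ := mem_image.1 hm
    exact mem_Icc.2 ⟨(Nat.one_le_floor_iff _).2 (h1 j hj), Nat.floor_le_floor (h2 j hj)⟩
  have h4 : ∑ j ∈ T, (f j)⁻¹ ≤ ∑ j ∈ T, ((⌊f j⌋₊ : ℕ) : ℝ)⁻¹ := by
    refine sum_le_sum fun j hj => inv_anti₀ ?_ (Nat.floor_le (zero_le_one.trans (h1 j hj)))
    exact_mod_cast (Nat.one_le_floor_iff _).2 (h1 j hj)
  have h5 : ∑ j ∈ T, ((⌊f j⌋₊ : ℕ) : ℝ)⁻¹ ≤ ∑ m ∈ Icc 1 ⌊Y⌋₊, (m : ℝ)⁻¹ := by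
    rw [← sum_image (f := fun m : ℕ => (m : ℝ)⁻¹) hinj]
    exact sum_le_sum_of_subset_of_nonneg hsub fun _ _ _ => by positivity
  have h6 : ∑ m ∈ Icc 1 ⌊Y⌋₊, (m : ℝ)⁻¹ = ((harmonic ⌊Y⌋₊ : ℚ) : ℝ) := by
    rw [harmonic_eq_sum_Icc]
    push_cast
    rfl
  have h7 : Real.log (⌊Y⌋₊ : ℕ) ≤ Real.log (1 + Y) := by
    rcases Nat.eq_zero_or_pos ⌊Y⌋₊ with h | h
    · rw [h, Nat.cast_zero, Real.log_zero]
      exact Real.log_nonneg (by linarith)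
    · exact Real.log_le_log (by exact_mod_cast h) (by linarith [Nat.floor_le hY])
  linarith [harmonic_le_one_add_log ⌊Y⌋₊]

lemma lsadd_sin {u : ℝ} (h0 : 0 < u) (h1 : u < 1) :
    1 ≤ (u⁻¹ + (1 - u)⁻¹) / 2 * Real.sin (π * u) := by
  have hpi := Real.pi_pos
  have h2 : 0 < 1 - u := by linarith
  have key : ∀ v : ℝ, 0 < v → v ≤ 1 / 2 → 2 * v ≤ Real.sin (π * v) := by
    intro v hv hv'
    have := Real.mul_le_sin (x := π * v) (by positivity) (by nlinarith)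
    have e : 2 / π * (π * v) = 2 * v := by field_simp
    linarith
  have i1 : 0 < u⁻¹ := inv_pos.2 h0
  have i2 : 0 < (1 - u)⁻¹ := inv_pos.2 h2
  rcases le_total u (1 / 2) with h | h
  · have a := key u h0 h
    have e : u⁻¹ * u = 1 := inv_mul_cancel₀ h0.ne'
    nlinarith [mul_le_mul_of_nonneg_left a i1.le, mul_nonneg i2.le (le_trans (by positivity) a)]
  · have a := key (1 - u) h2 (by linarith)
    have e0 : Real.sin (π * (1 - u)) = Real.sin (π * u) := by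
      rw [mul_sub, mul_one, Real.sin_pi_sub]
    rw [e0] at a
    have e : (1 - u)⁻¹ * (1 - u) = 1 := inv_mul_cancel₀ h2.ne'
    nlinarith [mul_le_mul_of_nonneg_left a i2.le, mul_nonneg i1.le (le_trans (by positivity) a)]

lemma lsadd_geom {t : ℝ} (h0 : 0 < |t|) (h1 : |t| < 1) (M N : ℕ) :
    ‖∑ n ∈ Ico M (M + N), Complex.exp (Complex.I * (2 * π * t : ℝ)) ^ n‖ ≤
      (|t|⁻¹ + (1 - |t|)⁻¹) / 2 := by
  have hpi := Real.pi_pos
  have h4 := congrArg norm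
    (geom_sum_Ico_mul (Complex.exp (Complex.I * (2 * π * t : ℝ))) (Nat.le_add_right M N))
  rw [norm_mul, Complex.norm_exp_I_mul_ofReal_sub_one] at h4
  have hz : ‖Complex.exp (Complex.I * (2 * π * t : ℝ))‖ = 1 := by
    rw [mul_comm]
    exact Complex.norm_exp_ofReal_mul_I _
  have h5 : ‖Complex.exp (Complex.I * (2 * π * t : ℝ)) ^ (M + N) -
      Complex.exp (Complex.I * (2 * π * t : ℝ)) ^ M‖ ≤ 2 := by
    refine (norm_sub_le _ _).trans ?_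
    rw [norm_pow, norm_pow, hz]
    norm_num
  have hs : 0 ≤ Real.sin (π * |t|) :=
    Real.sin_nonneg_of_nonneg_of_le_pi (by positivity) (by nlinarith)
  have h6 : ‖2 * Real.sin (2 * π * t / 2)‖ = 2 * Real.sin (π * |t|) := by
    have e : 2 * π * t / 2 = π * t := by ring
    rw [e, Real.norm_eq_abs, abs_mul, abs_two]
    congr 1
    rcases abs_choice t with h | h
    · rw [h] at hs ⊢
      exact abs_of_nonneg hs
    · rw [h] at hs ⊢
      rw [mul_neg, Real.sin_neg] at hs ⊢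
      exact abs_of_nonpos (by linarith)
  rw [h6] at h4
  have h7 := lsadd_sin h0 h1
  have i1 : 0 < |t|⁻¹ := inv_pos.2 h0
  have i2 : 0 < (1 - |t|)⁻¹ := inv_pos.2 (by linarith)
  generalize ‖∑ n ∈ Ico M (M + N), Complex.exp (Complex.I * (2 * π * t : ℝ)) ^ n‖ = S at *
  generalize (|t|⁻¹ + (1 - |t|)⁻¹) / 2 = B at *
  have hB : 0 ≤ B := by
    by_contra hc
    nlinarith
  have h8 : S * Real.sin (π * |t|) ≤ 1 := by linarith
  by_contra hc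
  have hc' : B < S := not_le.1 hc
  have hs' : 0 < Real.sin (π * |t|) := by
    rcases hs.lt_or_eq with h | h
    · exact h
    · rw [← h] at h7; linarith
  nlinarith

lemma lsadd_side {ι : Type*} (T : Finset ι) (θ : ι → ℝ) (x : ℝ) {D : ℝ} (hD : 0 < D)
    (h1 : ∀ j ∈ T, 1 ≤ D * |x - θ j|) (h2 : ∀ j ∈ T, 1 ≤ D * (1 - |x - θ j|))
    (h3 : ∀ j ∈ T, ∀ j' ∈ T, j ≠ j' → 1 ≤ D * |θ j - θ j'|)
    (h4 : (∀ j ∈ T, θ j ≤ x) ∨ ∀ j ∈ T, x ≤ θ j) :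
    ∑ j ∈ T, (|x - θ j|⁻¹ + (1 - |x - θ j|)⁻¹) / 2 ≤ D * (1 + Real.log (1 + D)) := by
  have hd : ∀ j ∈ T, ∀ j' ∈ T, |(|x - θ j|) - (|x - θ j'|)| = |θ j - θ j'| := by
    intro j hj j' hj'
    rcases h4 with h4 | h4
    · rw [abs_of_nonneg (sub_nonneg.2 (h4 j hj)), abs_of_nonneg (sub_nonneg.2 (h4 j' hj')),
        abs_sub_comm]
      congr 1
      ring
    · rw [abs_of_nonpos (sub_nonpos.2 (h4 j hj)), abs_of_nonpos (sub_nonpos.2 (h4 j' hj'))]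
      congr 1
      ring
  have h5 := lsadd_harm T (fun j => D * |x - θ j|) (Y := D) hD.le h1
    (fun j hj => by nlinarith [h2 j hj]) fun j hj j' hj' hne => by
      refine (h3 j hj j' hj' hne).trans (le_of_eq ?_)
      rw [← mul_sub, abs_mul, abs_of_pos hD, hd j hj j' hj']
  have h6 := lsadd_harm T (fun j => D * (1 - |x - θ j|)) (Y := D) hD.le h2
    (fun j hj => by nlinarith [abs_nonneg (x - θ j)]) fun j hj j' hj' hne => by
      refine (h3 j hj j' hj' hne).trans (le_of_eq ?_)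
      rw [← mul_sub, abs_mul, abs_of_pos hD, ← hd j hj j' hj', abs_sub_comm]
      congr 2
      ring
  have e : ∑ j ∈ T, (|x - θ j|⁻¹ + (1 - |x - θ j|)⁻¹) / 2 =
      D / 2 * (∑ j ∈ T, (D * |x - θ j|)⁻¹ + ∑ j ∈ T, (D * (1 - |x - θ j|))⁻¹) := by
    rw [← sum_add_distrib, mul_sum]
    refine sum_congr rfl fun j _ => ?_
    rw [mul_inv, mul_inv, ← mul_add, div_mul_eq_mul_div, mul_inv_cancel_left₀ hD.ne']
  rw [e]
  nlinarith

lemma lsadd_sep {Q c b c' b' : ℕ} (hc : 1 ≤ c) (hcQ : c ≤ Q) (hc' : 1 ≤ c') (hcQ' : c' ≤ Q)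
    (h : Nat.Coprime b c) (h' : Nat.Coprime b' c') (hne : ¬ (c = c' ∧ b = b')) :
    1 ≤ (Q : ℝ) ^ 2 * |(b : ℝ) / c - (b' : ℝ) / c'| := by
  have hcr : (0 : ℝ) < c := by exact_mod_cast hc
  have hcr' : (0 : ℝ) < c' := by exact_mod_cast hc'
  have hne' : b * c' ≠ b' * c := by
    intro e
    have d1 : c ∣ c' := h.symm.dvd_of_dvd_mul_left ⟨b', by rw [e, mul_comm]⟩
    have d2 : c' ∣ c := h'.symm.dvd_of_dvd_mul_left ⟨b, by rw [← e, mul_comm]⟩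
    have e1 : c = c' := Nat.dvd_antisymm d1 d2
    subst e1
    exact hne ⟨rfl, Nat.eq_of_mul_eq_mul_right hc e⟩
  have h1 : (1 : ℝ) ≤ |(b : ℝ) * c' - b' * c| := by
    have : ((b : ℤ) * c' - b' * c) ≠ 0 := by
      intro e
      apply hne'
      have : (b : ℤ) * c' = b' * c := by linarith
      exact_mod_cast this
    have := Int.one_le_abs this
    exact_mod_cast this
  have e : (b : ℝ) / c - (b' : ℝ) / c' = ((b : ℝ) * c' - b' * c) / (c * c') := by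
    field_simp
  rw [e, abs_div, abs_of_pos (mul_pos hcr hcr'), ← mul_div_assoc, le_div_iff₀ (mul_pos hcr hcr')]
  have q1 : (c : ℝ) ≤ Q := by exact_mod_cast hcQ
  have q2 : (c' : ℝ) ≤ Q := by exact_mod_cast hcQ'
  have q3 : (c : ℝ) * c' ≤ (Q : ℝ) ^ 2 := by nlinarith
  nlinarith

lemma lsadd_range {Q c b : ℕ} (hcQ : c ≤ Q) (hb : b < c) :
    0 ≤ (b : ℝ) / c ∧ 1 ≤ (Q : ℝ) ^ 2 * (1 - (b : ℝ) / c) := by
  have hcr : (0 : ℝ) < c := by exact_mod_cast (Nat.zero_lt_of_lt hb)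
  refine ⟨by positivity, ?_⟩
  have q1 : (c : ℝ) ≤ Q := by exact_mod_cast hcQ
  have q2 : (b : ℝ) + 1 ≤ c := by exact_mod_cast hb
  have q0 : (1 : ℝ) ≤ c := by linarith [Nat.cast_nonneg (α := ℝ) b]
  have e : 1 - (b : ℝ) / c = (c - b) / c := by field_simp
  rw [e, ← mul_div_assoc, le_div_iff₀ hcr]
  have q3 : (c : ℝ) ≤ (Q : ℝ) ^ 2 := by nlinarith
  nlinarith

/-- Additive large sieve for Farey fractions, with a logarithm lost. Duality and the Schur test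
(model: `sieve_dual` and `sieve` in `Pool/Agent/Lib/MP_ecd12e_nt/Sch/Sieve.lean`, copy what you
need, do not import). Index set: pairs `(c, b)`, `1 ≤ c ≤ Q`, `b < c` coprime. The geometric sum
`∑ e(n (θ - θ'))` over `N` consecutive `n` is `N` on the diagonal and at most
`1 / (2 ‖θ - θ'‖)` otherwise, `‖·‖` the distance to `ℤ`. Distinct fractions in `[0, 1)` differ by
at least `1 / Q ^ 2`, also modulo one; for fixed `θ` the numbers `⌊Q ^ 2 fract (θ' - θ)⌋₊` are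
distinct and lie in `[1, Q ^ 2]`, the same for `fract (θ - θ')`, and
`1 / ‖t‖ ≤ 1 / fract t + 1 / fract (-t)`. So a row sum is at most
`N + Q ^ 2 (1 + log (Q ^ 2))`. -/
theorem ls_add (Q M N : ℕ) (f : ℕ → ℂ) :
    ∑ c ∈ Icc 1 Q, ∑ b ∈ (range c).filter (fun b => Nat.Coprime b c),
      ‖∑ n ∈ Ico M (M + N), f n * Complex.exp (2 * π * Complex.I * (n * b / c))‖ ^ 2 ≤
      (N + 4 * (Q : ℝ) ^ 2 * (1 + Real.log Q)) * ∑ n ∈ Ico M (M + N), ‖f n‖ ^ 2 := by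
  classical
  rcases Nat.eq_zero_or_pos Q with rfl | hQ
  · simp only [show Icc 1 0 = (∅ : Finset ℕ) from rfl, sum_empty]
    have : 0 ≤ ∑ n ∈ Ico M (M + N), ‖f n‖ ^ 2 := sum_nonneg fun _ _ => sq_nonneg _
    simp only [Nat.cast_zero, Real.log_zero]
    positivity
  have hQr : (1 : ℝ) ≤ Q := by exact_mod_cast hQ
  have hD : (0 : ℝ) < (Q : ℝ) ^ 2 := by positivity
  have hlog : 0 ≤ Real.log Q := Real.log_nonneg hQr
  set A : Finset (Σ _ : ℕ, ℕ) :=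
    (Icc 1 Q).sigma fun c => (range c).filter (fun b => Nat.Coprime b c) with hA
  set θ : (Σ _ : ℕ, ℕ) → ℝ := fun a => (a.2 : ℝ) / a.1 with hθ
  have mem : ∀ a ∈ A, 1 ≤ a.1 ∧ a.1 ≤ Q ∧ a.2 < a.1 ∧ Nat.Coprime a.2 a.1 := by
    intro a ha
    simp only [hA, mem_sigma, mem_Icc, mem_filter, mem_range] at ha
    exact ⟨ha.1.1, ha.1.2, ha.2.1, ha.2.2⟩
  have sep : ∀ a ∈ A, ∀ a' ∈ A, a ≠ a' → 1 ≤ (Q : ℝ) ^ 2 * |θ a - θ a'| := by
    intro a ha a' ha' hne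
    obtain ⟨a1, a2, -, a4⟩ := mem a ha
    obtain ⟨b1, b2, -, b4⟩ := mem a' ha'
    refine lsadd_sep a1 a2 b1 b2 a4 b4 fun h => hne ?_
    obtain ⟨c, b⟩ := a
    obtain ⟨c', b'⟩ := a'
    obtain ⟨h1, h2⟩ := h
    simp only at h1 h2
    subst h1 h2
    rfl
  have sep' : ∀ a ∈ A, ∀ a' ∈ A, 1 ≤ (Q : ℝ) ^ 2 * (1 - |θ a - θ a'|) := by
    intro a ha a' ha'
    obtain ⟨-, a2, a3, -⟩ := mem a ha
    obtain ⟨-, b2, b3, -⟩ := mem a' ha'
    obtain ⟨u1, u2⟩ := lsadd_range a2 a3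
    obtain ⟨v1, v2⟩ := lsadd_range b2 b3
    change 0 ≤ θ a at u1
    change 1 ≤ (Q : ℝ) ^ 2 * (1 - θ a) at u2
    change 0 ≤ θ a' at v1
    change 1 ≤ (Q : ℝ) ^ 2 * (1 - θ a') at v2
    rcases abs_choice (θ a - θ a') with h | h <;> rw [h] <;> nlinarith
  have hmain := lsadd_dual A (Ico M (M + N))
    (fun a n => Complex.exp (2 * π * Complex.I * (n * a.2 / a.1))) f
    (fun a a' => if a = a' then (N : ℝ) else (|θ a - θ a'|⁻¹ + (1 - |θ a - θ a'|)⁻¹) / 2)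
    (N + 4 * (Q : ℝ) ^ 2 * (1 + Real.log Q)) (by positivity)
    (fun i j => by simp only [eq_comm, abs_sub_comm]) ?_ ?_
  · rw [sum_sigma']
    exact hmain
  · intro a ha a' ha'
    have a1 : ∀ k ∈ Ico M (M + N), Complex.exp (2 * π * Complex.I * (k * a.2 / a.1)) *
        (starRingEnd ℂ) (Complex.exp (2 * π * Complex.I * (k * a'.2 / a'.1))) =
        Complex.exp (Complex.I * (2 * π * (θ a - θ a') : ℝ)) ^ k := fun k _ => by
      rw [← Complex.exp_conj, ← Complex.exp_add, ← Complex.exp_nat_mul]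
      congr 1
      simp only [hθ, map_mul, map_div₀, Complex.conj_ofReal, Complex.conj_I, map_natCast,
        map_ofNat]
      push_cast
      ring
    rw [sum_congr rfl a1]
    split_ifs with h
    · refine (norm_sum_le _ _).trans (le_of_eq ?_)
      subst h
      simp
    · refine lsadd_geom ?_ ?_ M N
      · exact (mul_pos_iff_of_pos_left hD).1 (one_pos.trans_le (sep a ha a' ha' h))
      · have := (mul_pos_iff_of_pos_left hD).1 (one_pos.trans_le (sep' a ha a' ha'))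
        linarith
  · intro i hi
    rw [← add_sum_erase _ _ hi, if_pos rfl,
      sum_congr rfl fun j hj => if_neg (ne_of_mem_erase hj).symm,
      ← sum_filter_add_sum_filter_not (A.erase i) fun j => θ j ≤ θ i]
    have a1 : ∀ T : Finset (Σ _ : ℕ, ℕ), T ⊆ A.erase i →
        ((∀ j ∈ T, θ j ≤ θ i) ∨ ∀ j ∈ T, θ i ≤ θ j) →
        ∑ j ∈ T, (|θ i - θ j|⁻¹ + (1 - |θ i - θ j|)⁻¹) / 2 ≤
          (Q : ℝ) ^ 2 * (1 + Real.log (1 + (Q : ℝ) ^ 2)) := fun T hT h =>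
      lsadd_side T θ (θ i) hD
        (fun j hj => sep i hi j (mem_of_mem_erase (hT hj)) (ne_of_mem_erase (hT hj)).symm)
        (fun j hj => sep' i hi j (mem_of_mem_erase (hT hj)))
        (fun j hj j' hj' => sep j (mem_of_mem_erase (hT hj)) j' (mem_of_mem_erase (hT hj'))) h
    have a2 := a1 _ (filter_subset (fun j => θ j ≤ θ i) _) (Or.inl fun j hj => (mem_filter.1 hj).2)
    have a3 := a1 _ (filter_subset (fun j => ¬θ j ≤ θ i) _)
      (Or.inr fun j hj => (not_le.1 (mem_filter.1 hj).2).le)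
    have a4 : Real.log (1 + (Q : ℝ) ^ 2) ≤ 1 + 2 * Real.log Q := by
      have b1 : Real.log (1 + (Q : ℝ) ^ 2) ≤ Real.log (2 * (Q : ℝ) ^ 2) :=
        Real.log_le_log (by positivity) (by nlinarith)
      rw [Real.log_mul (by norm_num) hD.ne', Real.log_pow] at b1
      have b2 := Real.log_two_lt_d9
      push_cast at b1
      linarith
    have a5 := mul_le_mul_of_nonneg_left a4 hD.le
    nlinarith

end Pool.Agent.Lib.MP_c03ca8_nt.Q
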