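import Pool.Agent.Lib.MP_c03ca8_nt.Q.Harm
import Pool.Agent.Lib.MP_778b46_nt.Mertens

set_option autoImplicit false

noncomputable section

namespace Pool.Agent.Lib.MP_c03ca8_nt.Q

open Finset Real

/-- Primes in `[Y, Z)`. -/
def pI (Y Z : ℝ) : Finset ℕ := (Nat.primesLE ⌊Z⌋₊).filter fun p => Y ≤ (p : ℝ) ∧ (p : ℝ) < Z

theorem mertens_term {p : ℝ} (hp : 2 ≤ p) :
    Real.log p / (p - 1) ≤ Real.log p / p + 4 * (1 / p ^ (3 / 2 : ℝ)) := by
  have hp0 : 0 < p := by linarith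
  have hp1 : 0 < p - 1 := by linarith
  have h1 : Real.log p ≤ p ^ (1 / 2 : ℝ) / (1 / 2) := Real.log_le_rpow_div hp0.le one_half_pos
  have ha : 0 < p ^ (1 / 2 : ℝ) := Real.rpow_pos_of_pos hp0 _
  have hb : 0 < p ^ (3 / 2 : ℝ) := Real.rpow_pos_of_pos hp0 _
  have hab : p ^ (1 / 2 : ℝ) * p ^ (3 / 2 : ℝ) = p ^ 2 := by
    rw [← Real.rpow_add hp0, ← Real.rpow_natCast]
    norm_num
  generalize p ^ (1 / 2 : ℝ) = a at *
  generalize p ^ (3 / 2 : ℝ) = b at *
  have h2 : Real.log p / (p - 1) = Real.log p / p + Real.log p / (p * (p - 1)) := by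
    field_simp
    ring
  rw [h2]
  have h3 : Real.log p / (p * (p - 1)) ≤ 4 * (1 / b) := by
    rw [mul_one_div, div_le_div_iff₀ (mul_pos hp0 hp1) hb]
    have h4 : Real.log p * b ≤ 2 * a * b := mul_le_mul_of_nonneg_right (by linarith) hb.le
    nlinarith
  linarith

theorem mertens_log_factorial (N : ℕ) :
    Real.log (N.factorial : ℝ) ≤ ∑ p ∈ Nat.primesLE N, N * (Real.log p / ((p : ℝ) - 1)) := by
  rw [Real.log_nat_eq_sum_factorization, Finsupp.sum]
  have hsub : (N.factorial).factorization.support ⊆ Nat.primesLE N := by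
    intro p hp
    rw [Nat.support_factorization, Nat.mem_primeFactors] at hp
    exact Nat.mem_primesLE.2 ⟨(hp.1.dvd_factorial).1 hp.2.1, hp.1⟩
  have hnn : ∀ p : ℕ, 0 ≤ Real.log p := fun p => Real.log_natCast_nonneg p
  refine le_trans (Finset.sum_le_sum_of_subset_of_nonneg hsub fun p _ _ =>
    mul_nonneg (Nat.cast_nonneg _) (hnn p)) (Finset.sum_le_sum fun p hp => ?_)
  have hp' := Nat.prime_of_mem_primesLE hp
  have h1 : (((N.factorial).factorization p : ℕ) : ℝ) ≤ N / ((p : ℝ) - 1) := by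
    refine le_trans (Nat.cast_le.2 (Nat.factorization_factorial_le_div_pred hp' N)) ?_
    refine le_trans Nat.cast_div_le ?_
    rw [Nat.cast_sub hp'.one_le, Nat.cast_one]
  calc (((N.factorial).factorization p : ℕ) : ℝ) * Real.log p
      ≤ N / ((p : ℝ) - 1) * Real.log p := mul_le_mul_of_nonneg_right h1 (hnn p)
    _ = N * (Real.log p / ((p : ℝ) - 1)) := by ring

theorem mertens_lower : ∃ c : ℝ, ∀ N : ℕ, 1 ≤ N →
    Real.log N - c ≤ ∑ p ∈ Nat.primesLE N, Real.log p / p := by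
  have hs : Summable fun n : ℕ => 4 * (1 / (n : ℝ) ^ (3 / 2 : ℝ)) :=
    (Real.summable_one_div_nat_rpow.2 (by norm_num)).mul_left 4
  refine ⟨1 + ∑' n : ℕ, 4 * (1 / (n : ℝ) ^ (3 / 2 : ℝ)), fun N hN => ?_⟩
  have hN0 : (0 : ℝ) < N := by exact_mod_cast hN
  have h1 := Stirling.le_log_factorial_stirling (n := N) (by omega)
  have h2 := mertens_log_factorial N
  have h3 : 0 ≤ Real.log N := Real.log_natCast_nonneg N
  have h4 : 0 ≤ Real.log (2 * Real.pi) := Real.log_nonneg (by linarith [Real.pi_gt_three])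
  rw [← Finset.mul_sum] at h2
  have h5 : Real.log N - 1 ≤ ∑ p ∈ Nat.primesLE N, Real.log p / ((p : ℝ) - 1) := by
    refine le_of_mul_le_mul_left ?_ hN0
    linarith
  have h6 : ∑ p ∈ Nat.primesLE N, Real.log p / ((p : ℝ) - 1) ≤
      ∑ p ∈ Nat.primesLE N, (Real.log p / p + 4 * (1 / (p : ℝ) ^ (3 / 2 : ℝ))) :=
    Finset.sum_le_sum fun p hp => mertens_term (by exact_mod_cast Nat.two_le_of_mem_primesLE hp)
  have h7 : ∑ p ∈ Nat.primesLE N, 4 * (1 / (p : ℝ) ^ (3 / 2 : ℝ)) ≤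
      ∑' n : ℕ, 4 * (1 / (n : ℝ) ^ (3 / 2 : ℝ)) :=
    hs.sum_le_tsum _ fun n _ => by positivity
  rw [Finset.sum_add_distrib] at h6
  linarith

theorem mertens_log_succ {n : ℕ} (hn : 1 ≤ n) :
    Real.log n ≤ Real.log ((n + 1 : ℕ) : ℝ) ∧ Real.log ((n + 1 : ℕ) : ℝ) ≤ Real.log n + 1 := by
  have h0 : (1 : ℝ) ≤ n := by exact_mod_cast hn
  have h1 : (0 : ℝ) < n := by linarith
  push_cast
  refine ⟨Real.log_le_log h1 (by linarith), ?_⟩
  have h2 := Real.log_le_sub_one_of_pos (x := ((n : ℝ) + 1) / n) (by positivity)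
  rw [Real.log_div (by positivity) h1.ne'] at h2
  have h3 : ((n : ℝ) + 1) / n ≤ 2 := by
    rw [div_le_iff₀ h1]
    linarith
  linarith

theorem mertens_below : ∃ c : ℝ, 0 ≤ c ∧ ∀ n : ℕ,
    |∑ p ∈ Nat.primesBelow n, Real.log p / p - Real.log n| ≤ c := by
  obtain ⟨c, hc⟩ := mertens_lower
  have h4 : 0 ≤ Real.log 4 := Real.log_nonneg (by norm_num)
  have hc0 := le_abs_self c
  have hc1 := abs_nonneg c
  refine ⟨|c| + 1 + Real.log 4, by positivity, fun n => ?_⟩
  rcases n with _ | _ | n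
  · simp only [Nat.primesBelow_zero, sum_empty, Nat.cast_zero, Real.log_zero, sub_zero, abs_zero]
    positivity
  · simp only [zero_add, Nat.primesBelow_one, sum_empty, Nat.cast_one, Real.log_one, sub_zero,
      abs_zero]
    positivity
  · have h1 := hc (n + 1) (by omega)
    have h2 := Pool.Agent.Lib.MP_778b46_nt.sum_log_div_le (n + 1) (by omega)
    have h3 := mertens_log_succ (n := n + 1) (by omega)
    have e : Nat.primesBelow (n + 1 + 1) = Nat.primesLE (n + 1) := rfl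
    rw [e, abs_le]
    constructor <;> linarith [h3.1, h3.2]

theorem mertens_split {Y Z : ℝ} (h : Y ≤ Z) (f : ℕ → ℝ) : ∑ p ∈ pI Y Z, f p =
    ∑ p ∈ Nat.primesBelow ⌈Z⌉₊, f p - ∑ p ∈ Nat.primesBelow ⌈Y⌉₊, f p := by
  have hs : Nat.primesBelow ⌈Y⌉₊ ⊆ Nat.primesBelow ⌈Z⌉₊ := fun p hp =>
    Nat.mem_primesBelow.2 ⟨(Nat.lt_of_mem_primesBelow hp).trans_le (Nat.ceil_mono h),
      Nat.prime_of_mem_primesBelow hp⟩
  rw [← sum_sdiff_eq_sub hs]
  congr 1
  ext p
  simp only [pI, mem_filter, Nat.mem_primesLE, mem_sdiff, Nat.mem_primesBelow, Nat.lt_ceil]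
  constructor
  · rintro ⟨⟨-, h1⟩, h2, h3⟩
    exact ⟨⟨h3, h1⟩, fun h4 => absurd h4.1 (not_lt.2 h2)⟩
  · rintro ⟨⟨h1, h2⟩, h3⟩
    exact ⟨⟨Nat.le_floor h1.le, h2⟩, not_lt.1 fun h4 => h3 ⟨h4, h2⟩, h1⟩

theorem mertens_ceil {Y : ℝ} (hY : 1 ≤ Y) :
    Real.log Y ≤ Real.log (⌈Y⌉₊ : ℝ) ∧ Real.log (⌈Y⌉₊ : ℝ) ≤ Real.log Y + 1 := by
  have h0 : 0 < Y := by linarith
  have h1 := Nat.le_ceil Y
  have h2 := Nat.ceil_lt_add_one h0.le
  refine ⟨Real.log_le_log h0 h1, ?_⟩
  have h3 := Real.log_le_sub_one_of_pos (x := (⌈Y⌉₊ : ℝ) / Y) (div_pos (by linarith) h0)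
  rw [Real.log_div (by linarith) h0.ne'] at h3
  have h4 : (⌈Y⌉₊ : ℝ) / Y ≤ 2 := by
    rw [div_le_iff₀ h0]
    linarith
  linarith

theorem mertens_loglog {a b : ℝ} (hb : 0 < b) (h : b ≤ a) :
    (a - b) / a ≤ Real.log a - Real.log b ∧ Real.log a - Real.log b ≤ (a - b) / b := by
  have ha : 0 < a := by linarith
  have h1 := Real.log_le_sub_one_of_pos (div_pos hb ha)
  have h2 := Real.log_le_sub_one_of_pos (div_pos ha hb)
  rw [Real.log_div hb.ne' ha.ne'] at h1
  rw [Real.log_div ha.ne' hb.ne'] at h2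
  have e1 : (a - b) / a = 1 - b / a := by field_simp
  have e2 : (a - b) / b = a / b - 1 := by field_simp
  constructor <;> linarith

theorem mertens_step {n : ℕ} (hn : 2 ≤ n) :
    ∑ p ∈ Nat.primesBelow (n + 1), 1 / (p : ℝ) - ∑ p ∈ Nat.primesBelow n, 1 / (p : ℝ) =
      (∑ p ∈ Nat.primesBelow (n + 1), Real.log p / p - ∑ p ∈ Nat.primesBelow n, Real.log p / p) /
        Real.log n := by
  have h1 : (1 : ℝ) < n := by exact_mod_cast hn
  have h2 := Real.log_pos h1
  rw [Nat.primesBelow_succ]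
  split_ifs with hp
  · rw [sum_insert (Nat.notMem_primesBelow n), sum_insert (Nat.notMem_primesBelow n),
      add_sub_cancel_right, add_sub_cancel_right]
    field_simp
  · simp

theorem mertens_int {c : ℝ}
    (hc : ∀ n : ℕ, |∑ p ∈ Nat.primesBelow n, Real.log p / p - Real.log n| ≤ c) {m n : ℕ}
    (hm : 2 ≤ m) (hmn : m ≤ n) :
    |∑ p ∈ Nat.primesBelow n, 1 / (p : ℝ) - ∑ p ∈ Nat.primesBelow m, 1 / (p : ℝ) -
      (Real.log (Real.log n) - Real.log (Real.log m))| ≤ (2 * c + 1) / Real.log m := by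
  set U : ℕ → ℝ := fun n => ∑ p ∈ Nat.primesBelow n, 1 / (p : ℝ) with hU
  set R : ℕ → ℝ := fun n => ∑ p ∈ Nat.primesBelow n, Real.log p / p - Real.log n with hR
  have hR1 : ∀ n, 0 ≤ c - R n := fun n => by linarith [(abs_le.1 (hc n)).2]
  have hR2 : ∀ n, 0 ≤ c + R n := fun n => by linarith [(abs_le.1 (hc n)).1]
  have key : U n + (c - R n + 1) / Real.log n - Real.log (Real.log n) ≤
        U m + (c - R m + 1) / Real.log m - Real.log (Real.log m) ∧
      U m - (c + R m) / Real.log m - Real.log (Real.log m) ≤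
        U n - (c + R n) / Real.log n - Real.log (Real.log n) := by
    induction n, hmn using Nat.le_induction with
    | base => exact ⟨le_rfl, le_rfl⟩
    | succ n hn ih =>
      have hn2 : 2 ≤ n := hm.trans hn
      have h1 : (1 : ℝ) < n := by exact_mod_cast hn2
      have hb := Real.log_pos h1
      obtain ⟨h3, h4⟩ := mertens_log_succ (n := n) (by omega)
      have hs : U (n + 1) - U n = (R (n + 1) - R n +
          (Real.log ((n + 1 : ℕ) : ℝ) - Real.log n)) / Real.log n := by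
        simp only [hU, hR]
        rw [mertens_step hn2]
        congr 1
        ring
      obtain ⟨h5, h6⟩ := mertens_loglog hb h3
      have h7 := hR1 (n + 1)
      have h8 := hR2 (n + 1)
      generalize Real.log ((n + 1 : ℕ) : ℝ) = a at *
      generalize Real.log (n : ℝ) = b at *
      have ha : 0 < a := by linarith
      have d1 : (c - R (n + 1)) / a ≤ (c - R (n + 1)) / b := div_le_div_of_nonneg_left h7 hb h3
      have d2 : (c + R (n + 1)) / a ≤ (c + R (n + 1)) / b := div_le_div_of_nonneg_left h8 hb h3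
      have d3 : (a - b) / b ≤ (a - b) / a + (1 / b - 1 / a) := by
        have e1 : (a - b) / b = (a - b) / a + (a - b) * ((a - b) / (a * b)) := by
          field_simp
          ring
        have e2 : 1 / b - 1 / a = (a - b) / (a * b) := by field_simp
        have e3 : 0 ≤ (a - b) / (a * b) := div_nonneg (by linarith) (mul_pos ha hb).le
        have e4 := mul_le_mul_of_nonneg_right (show a - b ≤ 1 by linarith) e3
        rw [e2]
        linarith
      simp only [add_div, sub_div] at *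
      constructor <;> linarith [ih.1, ih.2]
  have h1 : (1 : ℝ) < m := by exact_mod_cast hm
  have h2 : (1 : ℝ) < n := by exact_mod_cast hm.trans hmn
  have hb := Real.log_pos h1
  have ha := Real.log_pos h2
  have d1 : 0 ≤ (c - R n + 1) / Real.log n := div_nonneg (by linarith [hR1 n]) ha.le
  have d2 : 0 ≤ (c + R n) / Real.log n := div_nonneg (hR2 n) ha.le
  have d3 : (c - R m + 1) / Real.log m ≤ (2 * c + 1) / Real.log m :=
    div_le_div_of_nonneg_right (by linarith [hR2 m]) hb.le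
  have d4 : (c + R m) / Real.log m ≤ (2 * c + 1) / Real.log m :=
    div_le_div_of_nonneg_right (by linarith [hR1 m]) hb.le
  change |U n - U m - _| ≤ _
  rw [abs_le]
  constructor <;> linarith [key.1, key.2]

/-- Upper bound: `Pool.Agent.Lib.MP_778b46_nt.sum_log_div_le`. Lower bound: copy `mertens_lower`
from `Pool/Agent/Lib/MP_aa40d3_nt/GR/KronA.lean`. -/
theorem mertens1 : ∃ C : ℝ, 0 ≤ C ∧ ∀ Y Z : ℝ, 1 ≤ Y → Y ≤ Z →
    |∑ p ∈ pI Y Z, Real.log p / p - Real.log (Z / Y)| ≤ C := by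
  obtain ⟨c, hc0, hc⟩ := mertens_below
  refine ⟨2 * c + 1, by positivity, fun Y Z hY hYZ => ?_⟩
  have h1 := abs_le.1 (hc ⌈Y⌉₊)
  have h2 := abs_le.1 (hc ⌈Z⌉₊)
  have h3 := mertens_ceil hY
  have h4 := mertens_ceil (hY.trans hYZ)
  rw [mertens_split hYZ, Real.log_div (by linarith) (by linarith), abs_le]
  constructor <;> linarith [h1.1, h1.2, h2.1, h2.2, h3.1, h3.2, h4.1, h4.2]

/-- Summation by parts: `1 / log p = 1 / log Z + ∫_p^Z dt / (t log ^ 2 t)` and `mertens1`; or the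
monotone quantity in the proof of `Pool.Agent.Lib.MP_778b46_nt.sum_inv_le`, in both
directions. -/
theorem mertens2 : ∃ C : ℝ, 0 ≤ C ∧ ∀ Y Z : ℝ, 2 ≤ Y → Y ≤ Z →
    |∑ p ∈ pI Y Z, 1 / (p : ℝ) - Real.log (Real.log Z / Real.log Y)| ≤ C / Real.log Y := by
  obtain ⟨c, hc0, hc⟩ := mertens_below
  refine ⟨2 * c + 2, by positivity, fun Y Z hY hYZ => ?_⟩
  have hm : 2 ≤ ⌈Y⌉₊ := by
    have : ((2 : ℕ) : ℝ) ≤ ⌈Y⌉₊ := by
      push_cast
      exact hY.trans (Nat.le_ceil Y)
    exact_mod_cast this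
  have h1 := abs_le.1 (mertens_int hc hm (Nat.ceil_mono hYZ))
  have hy : 0 < Real.log Y := Real.log_pos (by linarith)
  have hyz : Real.log Y ≤ Real.log Z := Real.log_le_log (by linarith) hYZ
  have hz : 0 < Real.log Z := by linarith
  obtain ⟨h3, h3'⟩ := mertens_ceil (Y := Y) (by linarith)
  obtain ⟨h4, h4'⟩ := mertens_ceil (Y := Z) (by linarith)
  have a1 := Real.log_le_log hy h3
  have a2 := Real.log_le_log hz h4
  have a3 := (mertens_loglog hy h3).2.trans
    (div_le_div_of_nonneg_right (show _ ≤ (1 : ℝ) by linarith) hy.le)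
  have a4 := ((mertens_loglog hz h4).2.trans
    (div_le_div_of_nonneg_right (show _ ≤ (1 : ℝ) by linarith) hz.le)).trans
      (div_le_div_of_nonneg_left zero_le_one hy hyz)
  have a5 : (2 * c + 1) / Real.log (⌈Y⌉₊ : ℝ) ≤ (2 * c + 1) / Real.log Y :=
    div_le_div_of_nonneg_left (by positivity) hy h3
  have a6 : (2 * c + 2) / Real.log Y = (2 * c + 1) / Real.log Y + 1 / Real.log Y := by ring
  rw [mertens_split hYZ, Real.log_div hz.ne' hy.ne', abs_le]
  constructor <;> linarith [h1.1, h1.2]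

/-- `mert (PP w y) / cW w` is the product over all primes up to `y`
(`Pool.Agent.Lib.MP_778b46_nt.mert_le`). -/
theorem mert_PP : ∃ C : ℝ, 0 < C ∧ ∀ w y : ℕ, w ≤ y → 2 ≤ y →
    mert (PP w y) ≤ C * (cW w * Real.log y) := by
  obtain ⟨C, hC1, hC⟩ := Pool.Agent.Lib.MP_778b46_nt.mert_le
  refine ⟨C, by linarith, fun w y hwy hy => ?_⟩
  have h1 := hC y hy _ Subset.rfl
  have e0 : (Nat.primesLE y).filter (fun q => ¬ w < q) = Nat.primesLE w := by
    ext q
    simp only [mem_filter, Nat.mem_primesLE, not_lt]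
    exact ⟨fun h => ⟨h.2, h.1.2⟩, fun h => ⟨⟨h.1.trans hwy, h.2⟩, h.1⟩⟩
  have e1 : Pool.Agent.Lib.MP_778b46_nt.mert (Nat.primesLE y) =
      mert (PP w y) * mert (Nat.primesLE w) := by
    rw [← e0]
    exact (prod_filter_mul_prod_filter_not _ _ _).symm
  have e2 : mert (Nat.primesLE w) * cW w = 1 := by
    rw [mert, cW, ← prod_mul_distrib]
    refine prod_eq_one fun q hq => ?_
    have h2 : (2 : ℝ) ≤ q := by exact_mod_cast Nat.two_le_of_mem_primesLE hq
    have h3 : (q : ℝ) - 1 ≠ 0 := by linarith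
    have h4 : (q : ℝ) ≠ 0 := by linarith
    field_simp
    ring
  have h5 := mul_le_mul_of_nonneg_right h1 (cW_pos w).le
  rw [e1, mul_assoc, e2, mul_one] at h5
  linarith

end Pool.Agent.Lib.MP_c03ca8_nt.Q
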