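import Pool.Agent.Lib.MP_c03ca8_nt.Q.Decouple
import Pool.Agent.Lib.MP_c03ca8_nt.Q.Mertens
import Pool.Agent.Lib.MP_c03ca8_nt.Q.Inner
import Pool.Agent.Lib.MP_c03ca8_nt.Q.K1

set_option autoImplicit false

noncomputable section

namespace Pool.Agent.Lib.MP_c03ca8_nt.Q

open Finset Real

theorem maina_ev_w (θ : ℝ) (w0 : ℕ) : Ev θ fun E => w0 ≤ E.w :=
  ⟨w0, fun _ hw => ⟨0, fun _ hE _ _ _ => le_of_le_of_eq hw hE.symm⟩⟩

theorem maina_mem_P {E : Env} {q : ℕ} (hq : q ∈ E.P) : q.Prime ∧ E.w < q := by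
  unfold Env.P PP at hq
  rw [Finset.mem_filter, Nat.mem_primesLE] at hq
  exact ⟨hq.1.2, hq.2⟩

theorem maina_mert_nonneg {P : Finset ℕ} (hP : ∀ q ∈ P, q.Prime) : 0 ≤ mert P := by
  unfold mert
  refine Finset.prod_nonneg fun q hq => ?_
  have h2 : (2 : ℝ) ≤ q := by exact_mod_cast (hP q hq).two_le
  have : (0 : ℝ) < (q : ℝ) - 1 := by linarith
  positivity

theorem maina_prod4 (a b : Fin 4 → ℝ) {δ L : ℝ} (hδ : 0 ≤ δ) (hδ1 : δ ≤ 1) (hL : 0 ≤ L)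
    (hab : ∀ l, |a l - b l| ≤ δ * L) (hb : ∀ l, |b l| ≤ L) :
    |∏ l, a l - ∏ l, b l| ≤ 32 * δ * L ^ 4 := by
  have ha : ∀ l, |a l| ≤ 2 * L := by
    intro l
    have h1 := hab l
    have h2 := hb l
    have h3 : |a l| ≤ |a l - b l| + |b l| := by
      simpa using abs_add_le (a l - b l) (b l)
    nlinarith
  have hb2 : ∀ l, |b l| ≤ 2 * L := fun l => (hb l).trans (by linarith)
  have key : ∀ u v s t : ℝ, |u| ≤ δ * L → |v| ≤ 2 * L → |s| ≤ 2 * L → |t| ≤ 2 * L →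
      |u * v * s * t| ≤ 8 * δ * L ^ 4 := by
    intro u v s t hu hv hs ht
    rw [abs_mul, abs_mul, abs_mul]
    calc |u| * |v| * |s| * |t| ≤ (δ * L) * (2 * L) * (2 * L) * (2 * L) := by
          gcongr
      _ = 8 * δ * L ^ 4 := by ring
  rw [Fin.prod_univ_four, Fin.prod_univ_four]
  have e : a 0 * a 1 * a 2 * a 3 - b 0 * b 1 * b 2 * b 3 =
      (a 0 - b 0) * a 1 * a 2 * a 3 + (a 1 - b 1) * b 0 * a 2 * a 3 +
        (a 2 - b 2) * b 0 * b 1 * a 3 + (a 3 - b 3) * b 0 * b 1 * b 2 := by ring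
  rw [e]
  have k0 := key _ _ _ _ (hab 0) (ha 1) (ha 2) (ha 3)
  have k1 := key _ _ _ _ (hab 1) (hb2 0) (ha 2) (ha 3)
  have k2 := key _ _ _ _ (hab 2) (hb2 0) (hb2 1) (ha 3)
  have k3 := key _ _ _ _ (hab 3) (hb2 0) (hb2 1) (hb2 2)
  rw [abs_le] at k0 k1 k2 k3 ⊢
  constructor <;> linarith [k0.1, k0.2, k1.1, k1.2, k2.1, k2.2, k3.1, k3.2]

theorem maina_log (a D : ℝ) {c : ℝ} (ha : 0 ≤ a) (hc : 0 < c) :
    ∃ u0 : ℝ, ∀ u, u0 ≤ u → a * Real.log u + D ≤ c * u := by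
  have ha1 : 0 < a + 1 := by linarith
  set t : ℝ := c / (2 * (a + 1)) with ht
  have ht0 : 0 < t := by positivity
  refine ⟨max 1 (2 * (D - (a + 1) * Real.log t) / c), fun u hu => ?_⟩
  have hu1 : 1 ≤ u := (le_max_left _ _).trans hu
  have hu2 : 2 * (D - (a + 1) * Real.log t) / c ≤ u := (le_max_right _ _).trans hu
  rw [div_le_iff₀ hc] at hu2
  have hl0 : 0 ≤ Real.log u := Real.log_nonneg hu1
  have h1 : Real.log (t * u) ≤ t * u - 1 := Real.log_le_sub_one_of_pos (by positivity)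
  rw [Real.log_mul ht0.ne' (by linarith)] at h1
  have h2 : (a + 1) * (Real.log t + Real.log u) ≤ (a + 1) * (t * u) :=
    mul_le_mul_of_nonneg_left (by linarith) ha1.le
  have h3 : (a + 1) * (t * u) = c * u / 2 := by
    rw [ht]; field_simp
  nlinarith

theorem maina_dz_le {H : ℝ} (σ : ℕ) {p : ℕ} (hp : 1 ≤ p) (r : ℕ) :
    |dz (cell H σ) p r| ≤
      (if H ^ σ / p ≤ (r : ℝ) ∧ (r : ℝ) < H ^ σ then 1 else 0) +
        (if H ^ (σ + 1) / p ≤ (r : ℝ) ∧ (r : ℝ) < H ^ (σ + 1) then 1 else 0) := by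
  have hp0 : (0 : ℝ) < p := by exact_mod_cast hp
  have hp1 : (1 : ℝ) ≤ p := by exact_mod_cast hp
  have hr0 : (0 : ℝ) ≤ r := Nat.cast_nonneg r
  have hrp : (r : ℝ) ≤ r * p := le_mul_of_one_le_right hr0 hp1
  have n1 : (0 : ℝ) ≤ if H ^ σ / p ≤ (r : ℝ) ∧ (r : ℝ) < H ^ σ then 1 else 0 := by
    split_ifs <;> norm_num
  have n2 : (0 : ℝ) ≤ if H ^ (σ + 1) / p ≤ (r : ℝ) ∧ (r : ℝ) < H ^ (σ + 1) then 1 else 0 := by
    split_ifs <;> norm_num
  unfold dz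
  by_cases hd : p ∣ r
  · rw [if_pos hd, abs_zero]; linarith
  rw [if_neg hd]
  unfold cell
  rw [Nat.cast_mul]
  by_cases h1 : H ^ σ ≤ (r : ℝ) ∧ (r : ℝ) < H ^ (σ + 1)
  · by_cases h2 : H ^ σ ≤ (r : ℝ) * p ∧ (r : ℝ) * p < H ^ (σ + 1)
    · rw [if_pos h1, if_pos h2, sub_self, abs_zero]; linarith
    · have h3 : H ^ (σ + 1) / p ≤ (r : ℝ) ∧ (r : ℝ) < H ^ (σ + 1) := by
        refine ⟨?_, h1.2⟩
        rw [div_le_iff₀ hp0]
        by_contra hlt
        exact h2 ⟨h1.1.trans hrp, lt_of_not_ge hlt⟩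
      rw [if_pos h1, if_neg h2, if_pos h3, sub_zero, abs_one]; linarith
  · by_cases h2 : H ^ σ ≤ (r : ℝ) * p ∧ (r : ℝ) * p < H ^ (σ + 1)
    · have h3 : H ^ σ / p ≤ (r : ℝ) ∧ (r : ℝ) < H ^ σ := by
        refine ⟨by rw [div_le_iff₀ hp0]; exact h2.1, ?_⟩
        by_contra hlt
        exact h1 ⟨le_of_not_gt hlt, lt_of_le_of_lt hrp h2.2⟩
      rw [if_neg h1, if_pos h2, if_pos h3, zero_sub, abs_neg, abs_one]; linarith
    · rw [if_neg h1, if_neg h2, sub_self, abs_zero]; linarith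

/-- Sizes: `mert E.P ≤ C L` with `C` depending on `ν` only (`mert_PP`,
`log (3 x) ≤ 2 ν log H`), `L` exceeds any bound depending on `w`, the primes of the cells exceed
`w`. -/
theorem ev_size {ν θ : ℝ} (hν : 0 < ν) : ∃ C : ℝ, 0 < C ∧ ∀ (B : ℕ → ℝ) {η : ℝ}, 0 < η →
    Ev θ fun E => mert E.P ≤ C * E.L ν ∧ B E.w ≤ E.L ν ∧ B E.w ≤ Real.log (E.H ν) ∧
      (E.w : ℝ) < E.H ν ^ η ∧ 2 ≤ E.H ν ∧ E.H ν ^ ν = E.x := by
  obtain ⟨C, hC, hm⟩ := mert_PP
  refine ⟨2 * ν * C, by positivity, fun B η hη => ⟨0, fun w _ => ?_⟩⟩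
  have tH : Filter.Tendsto (fun x : ℕ => (x : ℝ) ^ (1 / ν)) Filter.atTop Filter.atTop :=
    (tendsto_rpow_atTop (by positivity)).comp tendsto_natCast_atTop_atTop
  have tl : Filter.Tendsto (fun x : ℕ => Real.log ((x : ℝ) ^ (1 / ν))) Filter.atTop
      Filter.atTop := Real.tendsto_log_atTop.comp tH
  have tL : Filter.Tendsto (fun x : ℕ => cW w * Real.log ((x : ℝ) ^ (1 / ν))) Filter.atTop
      Filter.atTop := tl.const_mul_atTop (cW_pos w)
  have tη : Filter.Tendsto (fun x : ℕ => ((x : ℝ) ^ (1 / ν)) ^ η) Filter.atTop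
      Filter.atTop := (tendsto_rpow_atTop hη).comp tH
  have hev := ((((tL.eventually_ge_atTop (B w)).and (tl.eventually_ge_atTop (B w))).and
    (tη.eventually_gt_atTop (w : ℝ))).and (tH.eventually_ge_atTop 2)).and
    (Filter.eventually_ge_atTop 3)
  obtain ⟨x0, hx0⟩ := Filter.eventually_atTop.1 hev
  refine ⟨x0, fun E hE hx hG _ => ?_⟩
  obtain ⟨⟨⟨⟨h1, h2⟩, h3⟩, h4⟩, h5⟩ := hx0 E.x hx
  have hx3 : (3 : ℝ) ≤ E.x := by exact_mod_cast h5
  have hx0' : (0 : ℝ) < E.x := by linarith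
  subst hE
  refine ⟨?_, h1, h2, h3, h4, ?_⟩
  · have hw : E.w ≤ 3 * E.x := hG.wx.trans (by omega)
    have h6 := hm E.w (3 * E.x) hw (by omega)
    have h7 : Real.log ((3 * E.x : ℕ) : ℝ) ≤ 2 * ν * Real.log (E.H ν) := by
      unfold Env.H
      rw [Real.log_rpow hx0', Nat.cast_mul, Nat.cast_ofNat, Real.log_mul (by norm_num) hx0'.ne']
      have : Real.log 3 ≤ Real.log E.x := Real.log_le_log (by norm_num) hx3
      have e : 2 * ν * (1 / ν * Real.log E.x) = 2 * Real.log E.x := by field_simp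
      rw [e]; linarith
    have hc := cW_pos E.w
    calc mert E.P ≤ C * (cW E.w * Real.log ((3 * E.x : ℕ) : ℝ)) := h6
      _ ≤ C * (cW E.w * (2 * ν * Real.log (E.H ν))) := by gcongr
      _ = 2 * ν * C * E.L ν := by unfold Env.L; ring
  · unfold Env.H
    rw [← Real.rpow_mul hx0'.le, one_div_mul_cancel hν.ne', Real.rpow_one]

theorem maina_pow_le {ν θ : ℝ} {T1 T2 M : ℕ} (hr : Rng ν θ T1 T2 M) {E : Env}
    (h2 : 2 ≤ E.H ν) (hx : E.H ν ^ ν = E.x) : E.H ν ^ M ≤ ((3 * E.x : ℕ) : ℝ) := by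
  have hM : (M : ℝ) ≤ ν := by
    have h1 : (M : ℝ) ≤ T1 := by exact_mod_cast hr.mt
    have h3 := hr.t1
    have h4 : θ * ν ≤ 1 * ν := mul_le_mul_of_nonneg_right hr.le_one hr.pos.le
    linarith
  have h5 : E.H ν ^ (M : ℝ) ≤ E.H ν ^ ν := Real.rpow_le_rpow_of_exponent_le (by linarith) hM
  rw [Real.rpow_natCast, hx] at h5
  have h6 : (0 : ℝ) ≤ E.x := Nat.cast_nonneg _
  push_cast
  linarith

/-- `decouple` with `p = 1` and the first part of `inner`: each factor is `dl * L` up to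
`(A / w) L + B`; choose `w`, then `x`. -/
theorem main0 {ν θ : ℝ} {T1 T2 M : ℕ} (hr : Rng ν θ T1 T2 M) {ε : ℝ} (hε : 0 < ε) :
    Ev θ fun E => ∀ (jj : Slot → ℕ) (i : Fin 4), (∀ s, jj s < M) →
      |M1 E.P (cz (E.H ν) jj) 1 i - E.L ν ^ 4 * ∏ l, dl (jj (l, false)) (jj (l, true))| ≤
        ε * E.L ν ^ 4 := by
  obtain ⟨K, hK, hdec⟩ := decouple
  obtain ⟨A, hA, hin⟩ := inner M
  choose! B hB0 hB using hin
  obtain ⟨C, hC, hsz⟩ := ev_size (θ := θ) hr.pos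
  set δ : ℝ := min 1 (ε / 64) with hδ
  have hδ0 : 0 < δ := lt_min one_pos (by positivity)
  have hδ1 : δ ≤ 1 := min_le_left _ _
  have hδ2 : δ ≤ ε / 64 := min_le_right _ _
  obtain ⟨w1, hw1⟩ := exists_nat_ge (max (2 * A / δ) (2 * (K * C ^ 4) / ε))
  refine ((hsz (fun w => 2 * B w / δ) one_pos).and (maina_ev_w θ w1)).mono ?_
  rintro E hG - ⟨⟨h1, h2, -, -, h5, h6⟩, h7⟩ jj i hjj
  have hw10 := hG.w10
  have hw0 : (0 : ℝ) < E.w := by exact_mod_cast (by omega : 0 < E.w)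
  have hw1' : (w1 : ℝ) ≤ E.w := by exact_mod_cast h7
  have hwA : 2 * A / δ ≤ E.w := ((le_max_left _ _).trans hw1).trans hw1'
  have hwK : 2 * (K * C ^ 4) / ε ≤ E.w := ((le_max_right _ _).trans hw1).trans hw1'
  have hlog : 0 < Real.log (E.H ν) := Real.log_pos (by linarith)
  have hL : 0 < E.L ν := mul_pos (cW_pos _) hlog
  have hP : ∀ q ∈ E.P, q.Prime ∧ E.w < q := fun q hq => maina_mem_P hq
  have hd := hdec E.w hw10 E.P hP (cz (E.H ν) jj) (fun s r => (supp_cz _ jj s r).1) 1 i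
    (Or.inl rfl) (fun h => absurd (hP 1 h).1 Nat.not_prime_one)
  rw [Nat.cast_one, div_one, one_mul, one_mul] at hd
  have hm0 : 0 ≤ mert E.P := maina_mert_nonneg fun q hq => (hP q hq).1
  have hd2 : K * mert E.P ^ 4 / E.w ≤ ε / 2 * E.L ν ^ 4 := by
    have e1 : mert E.P ^ 4 ≤ (C * E.L ν) ^ 4 := pow_le_pow_left₀ hm0 h1 4
    have e2 : K * C ^ 4 ≤ ε / 2 * E.w := by
      rw [div_le_iff₀ hε] at hwK; linarith
    rw [div_le_iff₀ hw0]
    calc K * mert E.P ^ 4 ≤ K * (C * E.L ν) ^ 4 := by gcongr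
      _ = K * C ^ 4 * E.L ν ^ 4 := by ring
      _ ≤ ε / 2 * E.w * E.L ν ^ 4 := by gcongr
      _ = ε / 2 * E.L ν ^ 4 * E.w := by ring
  have hab : ∀ l : Fin 4, |ip E.P (cz (E.H ν) jj (l, false)) (cz (E.H ν) jj (l, true)) -
      dl (jj (l, false)) (jj (l, true)) * E.L ν| ≤ δ * E.L ν := by
    intro l
    have e0 := (hB E.w hw10 (E.H ν) (3 * E.x) (by linarith) (maina_pow_le hr h5 h6) _ _
      (hjj (l, false)) (hjj (l, true))).1
    have e1 : A / E.w ≤ δ / 2 := by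
      rw [div_le_iff₀ hδ0] at hwA
      rw [div_le_iff₀ hw0]; linarith
    have e2 : B E.w ≤ δ / 2 * E.L ν := by
      have := h2
      rw [div_le_iff₀ hδ0] at this; linarith
    have e3 : A / E.w * E.L ν ≤ δ / 2 * E.L ν := by gcongr
    refine e0.trans ?_
    change A / E.w * E.L ν + B E.w ≤ _
    linarith
  have hb : ∀ l : Fin 4, |dl (jj (l, false)) (jj (l, true)) * E.L ν| ≤ E.L ν := by
    intro l
    unfold dl
    split_ifs
    · rw [one_mul, abs_of_pos hL]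
    · rw [zero_mul, abs_zero]; exact hL.le
  have h4 := maina_prod4 _ _ hδ0.le hδ1 hL.le hab hb
  have e4 : ∏ l : Fin 4, dl (jj (l, false)) (jj (l, true)) * E.L ν =
      E.L ν ^ 4 * ∏ l, dl (jj (l, false)) (jj (l, true)) := by
    rw [Finset.prod_mul_distrib, Finset.prod_const, Finset.card_univ, Fintype.card_fin, mul_comm]
  rw [e4] at h4
  have e5 : 32 * δ * E.L ν ^ 4 ≤ ε / 2 * E.L ν ^ 4 := by
    have : 32 * δ ≤ ε / 2 := by linarith
    gcongr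
  have tri := abs_sub_le (M1 E.P (cz (E.H ν) jj) 1 i)
    (∏ l, ip E.P (cz (E.H ν) jj (l, false)) (cz (E.H ν) jj (l, true)))
    (E.L ν ^ 4 * ∏ l, dl (jj (l, false)) (jj (l, true)))
  linarith

/-- `abs_M1_le`; `|dz (cell H σ) p r| ≤ 1 {H ^ σ / p ≤ r < H ^ σ} +
1 {H ^ (σ + 1) / p ≤ r < H ^ (σ + 1)}`; `mass_up` gives `2 exp K (cW log p + B)`; then
`∑ p < H ^ η, log p / p ≤ η log H + C` (`mertens1`) and
`∑ p < H, 1 / p ≤ log log H + C = o (L)` (`mertens2` with `Y = 2`). -/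
theorem main2 {ν θ : ℝ} {T1 T2 M : ℕ} (hr : Rng ν θ T1 T2 M) : ∃ K : ℝ, 0 ≤ K ∧
    ∀ {ε η : ℝ}, 0 < ε → 0 < η → η < 1 →
    Ev θ fun E => ∀ (jj : Slot → ℕ) (i : Fin 4),
      ∑ p ∈ E.tiny ν η, |M1 E.P (zp (cz (E.H ν) jj) i p) p i| ≤ (K * η + ε) * E.L ν ^ 4 := by
  obtain ⟨K, hK, habs⟩ := abs_M1_le
  obtain ⟨C, hC, hsz⟩ := ev_size (θ := θ) hr.pos
  obtain ⟨C1, hC1, hm1⟩ := mertens1
  obtain ⟨C2, hC2, hm2⟩ := mertens2
  have hmu := mass_up
  choose! B hB0 hB using hmu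
  set K' : ℝ := 2 * K * Real.exp K * C ^ 3 with hK'
  have hK0 : 0 < K' := by positivity
  refine ⟨K', hK0.le, fun {ε η} hε hη hη1 => ?_⟩
  have hu : ∀ w : ℕ, 1 ≤ w → ∃ u0 : ℝ, ∀ u, u0 ≤ u → K' * B w * Real.log u +
      K' * (cW w * C1 + B w * (C2 / Real.log 2 - Real.log (Real.log 2))) ≤ ε * cW w * u :=
    fun w hw => maina_log _ _ (mul_nonneg hK0.le (hB0 w hw)) (mul_pos hε (cW_pos w))
  choose! u0 hu0 using hu
  refine (hsz u0 hη).mono ?_
  rintro E hG - ⟨h1, -, h3, -, h5, h6⟩ jj i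
  have hw10 := hG.w10
  have hw1 : 1 ≤ E.w := by omega
  have hw1' : (1 : ℝ) ≤ E.w := by exact_mod_cast hw1
  have hH0 : 0 < E.H ν := by linarith
  have hH1 : 1 ≤ E.H ν := by linarith
  have hlog : 0 < Real.log (E.H ν) := Real.log_pos (by linarith)
  have hc := cW_pos E.w
  have hL : 0 < E.L ν := mul_pos hc hlog
  have hP : ∀ q ∈ E.P, q.Prime ∧ E.w < q := fun q hq => maina_mem_P hq
  have hm0 : 0 ≤ mert E.P := maina_mert_nonneg fun q hq => (hP q hq).1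
  have hBw := hB0 E.w hw1
  have hexp : Real.exp (K / E.w) ≤ Real.exp K := by
    apply Real.exp_le_exp.2
    exact div_le_self hK.le hw1'
  -- one prime
  have hone : ∀ p ∈ E.tiny ν η, |M1 E.P (zp (cz (E.H ν) jj) i p) p i| ≤
      K' * E.L ν ^ 3 * (cW E.w * (Real.log p / p) + B E.w * (1 / p)) := by
    intro p hp
    have hpP : p ∈ E.P := (Finset.mem_filter.1 hp).1
    have hp1 : 1 ≤ p := (hP p hpP).1.one_le
    have hp0 : (0 : ℝ) < p := by exact_mod_cast hp1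
    have hp1' : (1 : ℝ) ≤ p := by exact_mod_cast hp1
    have hlp : 0 ≤ Real.log p := Real.log_nonneg hp1'
    have e0 := habs E.w hw10 E.P hP (zp (cz (E.H ν) jj) i p)
      (fun s r => (supp_zp hH1 jj i hp1 s r).1) p i hpP
      (fun b r hr => by simp [zp, dz, hr])
    have hg : ∀ T ∈ E.P.powerset, 0 ≤ ∏ q ∈ T, ((1 + K / q) / (q : ℝ)) :=
      fun T _ => Finset.prod_nonneg fun q _ => by positivity
    have hmass : ∀ k : ℕ, ∑ T ∈ E.P.powerset,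
        (if E.H ν ^ k / p ≤ (pr T : ℝ) ∧ (pr T : ℝ) < E.H ν ^ k then (1 : ℝ) else 0) *
          ∏ q ∈ T, ((1 + K / q) / (q : ℝ)) ≤ Real.exp K * (cW E.w * Real.log p + B E.w) := by
      intro k
      have hk : 0 < E.H ν ^ k := pow_pos hH0 k
      have e1 := hB E.w hw1 K hK.le E.P hP (E.H ν ^ k / p) (E.H ν ^ k) (by positivity)
        (div_le_self hk.le hp1')
      have e2 : E.H ν ^ k / (E.H ν ^ k / p) = p := by field_simp
      rw [e2, Finset.sum_filter] at e1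
      calc _ = ∑ T ∈ E.P.powerset, if E.H ν ^ k / p ≤ (pr T : ℝ) ∧ (pr T : ℝ) < E.H ν ^ k then
            ∏ q ∈ T, ((1 + K / q) / (q : ℝ)) else 0 :=
            Finset.sum_congr rfl fun T _ => by split_ifs <;> simp
        _ ≤ Real.exp (K / E.w) * (cW E.w * Real.log p + B E.w) := e1
        _ ≤ _ := by gcongr
    have e3 : ∑ T ∈ E.P.powerset, |zp (cz (E.H ν) jj) i p (i, false) (pr T)| *
        ∏ q ∈ T, ((1 + K / q) / (q : ℝ)) ≤ 2 * (Real.exp K * (cW E.w * Real.log p + B E.w)) := by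
      have a1 := hmass (jj (i, false))
      have a2 := hmass (jj (i, false) + 1)
      refine le_trans (Finset.sum_le_sum (g := fun T =>
        (if E.H ν ^ jj (i, false) / p ≤ (pr T : ℝ) ∧ (pr T : ℝ) < E.H ν ^ jj (i, false) then
          (1 : ℝ) else 0) * ∏ q ∈ T, ((1 + K / q) / (q : ℝ)) +
        (if E.H ν ^ (jj (i, false) + 1) / p ≤ (pr T : ℝ) ∧
          (pr T : ℝ) < E.H ν ^ (jj (i, false) + 1) then (1 : ℝ) else 0) *
          ∏ q ∈ T, ((1 + K / q) / (q : ℝ))) fun T hT => ?_) ?_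
      · rw [← add_mul]
        refine mul_le_mul_of_nonneg_right ?_ (hg T hT)
        have : zp (cz (E.H ν) jj) i p (i, false) = dz (cell (E.H ν) (jj (i, false))) p := by
          simp [zp, cz]
        rw [this]
        exact maina_dz_le _ hp1 _
      · rw [Finset.sum_add_distrib]; linarith
    have e4 : mert E.P ^ 3 ≤ (C * E.L ν) ^ 3 := pow_le_pow_left₀ hm0 h1 3
    have e5 : 0 ≤ ∑ T ∈ E.P.powerset, |zp (cz (E.H ν) jj) i p (i, false) (pr T)| *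
        ∏ q ∈ T, ((1 + K / q) / (q : ℝ)) :=
      Finset.sum_nonneg fun T hT => mul_nonneg (abs_nonneg _) (hg T hT)
    calc _ ≤ _ := e0
      _ ≤ K / p * (C * E.L ν) ^ 3 * (2 * (Real.exp K * (cW E.w * Real.log p + B E.w))) := by
          gcongr
      _ = _ := by rw [hK']; field_simp
  -- prime sums
  have hHη : E.H ν ^ η ≤ E.H ν := by
    have := Real.rpow_le_rpow_of_exponent_le hH1 hη1.le
    rwa [Real.rpow_one] at this
  have hHη1 : 1 ≤ E.H ν ^ η := Real.one_le_rpow hH1 hη.le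
  have hsub : ∀ Y Z : ℝ, Y ≤ 2 → E.H ν ^ η ≤ Z → E.tiny ν η ⊆ pI Y Z := by
    intro Y Z hY hZ p hp
    obtain ⟨hpP, hlt⟩ := Finset.mem_filter.1 hp
    have hpp := (hP p hpP).1
    have h2p : (2 : ℝ) ≤ p := by exact_mod_cast hpp.two_le
    unfold pI
    rw [Finset.mem_filter, Nat.mem_primesLE]
    exact ⟨⟨Nat.le_floor (by linarith), hpp⟩, by linarith, by linarith⟩
  have s1 : ∑ p ∈ E.tiny ν η, Real.log p / p ≤ η * Real.log (E.H ν) + C1 := by
    have a1 := (abs_le.1 (hm1 1 (E.H ν ^ η) le_rfl hHη1)).2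
    rw [div_one, Real.log_rpow hH0] at a1
    have a2 : ∑ p ∈ E.tiny ν η, Real.log p / p ≤ ∑ p ∈ pI 1 (E.H ν ^ η), Real.log p / p :=
      Finset.sum_le_sum_of_subset_of_nonneg (hsub _ _ (by norm_num) le_rfl)
        fun p _ _ => div_nonneg (Real.log_natCast_nonneg p) (Nat.cast_nonneg p)
    linarith
  have s2 : ∑ p ∈ E.tiny ν η, 1 / (p : ℝ) ≤
      Real.log (Real.log (E.H ν)) + (C2 / Real.log 2 - Real.log (Real.log 2)) := by
    have a1 := (abs_le.1 (hm2 2 (E.H ν) le_rfl h5)).2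
    have l2 : 0 < Real.log 2 := Real.log_pos (by norm_num)
    rw [Real.log_div hlog.ne' l2.ne'] at a1
    have a2 : ∑ p ∈ E.tiny ν η, 1 / (p : ℝ) ≤ ∑ p ∈ pI 2 (E.H ν), 1 / (p : ℝ) :=
      Finset.sum_le_sum_of_subset_of_nonneg (hsub _ _ le_rfl hHη)
        fun p _ _ => by positivity
    linarith
  have hfin := hu0 E.w hw1 _ h3
  have hL3 : 0 < E.L ν ^ 3 := pow_pos hL 3
  calc _ ≤ ∑ p ∈ E.tiny ν η,
        K' * E.L ν ^ 3 * (cW E.w * (Real.log p / p) + B E.w * (1 / p)) := Finset.sum_le_sum hone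
    _ = K' * E.L ν ^ 3 * (cW E.w * ∑ p ∈ E.tiny ν η, Real.log p / p +
          B E.w * ∑ p ∈ E.tiny ν η, 1 / (p : ℝ)) := by
        rw [← Finset.mul_sum, Finset.sum_add_distrib, ← Finset.mul_sum, ← Finset.mul_sum]
    _ ≤ K' * E.L ν ^ 3 * (cW E.w * (η * Real.log (E.H ν) + C1) +
          B E.w * (Real.log (Real.log (E.H ν)) + (C2 / Real.log 2 - Real.log (Real.log 2)))) := by
        gcongr
    _ = E.L ν ^ 3 * (K' * η * (cW E.w * Real.log (E.H ν)) +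
          (K' * B E.w * Real.log (Real.log (E.H ν)) +
            K' * (cW E.w * C1 + B E.w * (C2 / Real.log 2 - Real.log (Real.log 2))))) := by ring
    _ ≤ E.L ν ^ 3 * (K' * η * (cW E.w * Real.log (E.H ν)) + ε * cW E.w * Real.log (E.H ν)) := by
        gcongr
    _ = (K' * η + ε) * E.L ν ^ 4 := by unfold Env.L; ring

end Pool.Agent.Lib.MP_c03ca8_nt.Q
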