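import Pool.Agent.Lib.MP_c03ca8_nt.Q.Harm

set_option autoImplicit false

noncomputable section

namespace Pool.Agent.Lib.MP_c03ca8_nt.Q

open Finset Real

/-- The integers of `[Y, Z)` coprime to the primorial. -/
def mass_S (w : ℕ) (Y Z : ℝ) (N : ℕ) : Finset ℕ :=
  (Icc 1 N).filter fun k : ℕ => Y ≤ (k : ℝ) ∧ (k : ℝ) < Z ∧ Nat.Coprime k (primorial w)

theorem mass_inv_sq {w : ℕ} (hw : 1 ≤ w) (P : Finset ℕ) (hP : ∀ q ∈ P, w < q) :
    ∑ q ∈ P, 1 / (q : ℝ) ^ 2 ≤ 1 / (w : ℝ) := by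
  have h1 : P ⊆ Ioc w (max w (P.sup id)) := fun q hq =>
    mem_Ioc.2 ⟨hP q hq, le_max_of_le_right (le_sup (f := id) hq)⟩
  have h2 := sum_Ioc_inv_sq_le_sub (α := ℝ) (k := w) (n := max w (P.sup id)) (by omega)
    (le_max_left _ _)
  calc ∑ q ∈ P, 1 / (q : ℝ) ^ 2 ≤ ∑ q ∈ Ioc w (max w (P.sup id)), 1 / (q : ℝ) ^ 2 :=
        sum_le_sum_of_subset_of_nonneg h1 fun _ _ _ => by positivity
    _ = ∑ q ∈ Ioc w (max w (P.sup id)), ((q : ℝ) ^ 2)⁻¹ := by simp only [one_div]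
    _ ≤ 1 / w := by
        rw [one_div]
        have : (0 : ℝ) ≤ ((max w (P.sup id) : ℕ) : ℝ)⁻¹ := by positivity
        linarith

theorem mass_cop {w : ℕ} {T : Finset ℕ} (hT : ∀ q ∈ T, q.Prime ∧ w < q) :
    Nat.Coprime (pr T) (primorial w) := by
  unfold pr
  refine Nat.Coprime.prod_left fun q hq => ?_
  rw [(hT q hq).1.coprime_iff_not_dvd, (hT q hq).1.dvd_primorial_iff]
  exact not_le.2 (hT q hq).2

theorem mass_prod_inv (T : Finset ℕ) : ∏ q ∈ T, 1 / (q : ℝ) = 1 / (pr T : ℝ) := by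
  unfold pr
  rw [prod_div_distrib, prod_const_one, Nat.cast_prod]

theorem mass_fix {w : ℕ} {B : ℝ}
    (hB : ∀ (Y Z : ℝ) (N : ℕ), 0 < Y → Y ≤ Z → Z ≤ N →
      ∑ k ∈ mass_S w Y Z N, 1 / (k : ℝ) ≤ cW w * Real.log (Z / Y) + B)
    {P : Finset ℕ} (hP : ∀ q ∈ P, q.Prime ∧ w < q) {Y Z : ℝ} (hY : 0 < Y) (hYZ : Y ≤ Z)
    {D : Finset ℕ} (hD : D ⊆ P) :
    ∑ T ∈ (P.powerset.filter fun T => Y ≤ (pr T : ℝ) ∧ (pr T : ℝ) < Z).filter (fun T => D ⊆ T),
      ∏ q ∈ T \ D, 1 / (q : ℝ) ≤ cW w * Real.log (Z / Y) + B := by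
  have hd : (0 : ℝ) < pr D := by exact_mod_cast pr_pos fun q hq => (hP q (hD hq)).1
  have hinj : Set.InjOn (fun T : Finset ℕ => T \ D)
      ((P.powerset.filter fun T => Y ≤ (pr T : ℝ) ∧ (pr T : ℝ) < Z).filter
        (fun T => D ⊆ T) : Finset (Finset ℕ)) := by
    intro T hT T' hT' h
    have a := (mem_filter.1 (mem_coe.1 hT)).2
    have b := (mem_filter.1 (mem_coe.1 hT')).2
    have h' : T \ D = T' \ D := h
    rw [← sdiff_union_of_subset a, ← sdiff_union_of_subset b, h']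
  have e := sum_image (f := fun T : Finset ℕ => 1 / (pr T : ℝ)) hinj
  simp only [mass_prod_inv]
  rw [← e]
  have hlog : Z / Y = (Z / pr D) / (Y / pr D) := by field_simp
  rw [hlog]
  refine le_trans (sum_pr_le (P := P) (fun q hq => (hP q hq).1) (fun r => 1 / (r : ℝ))
    (fun r => by positivity) (mass_S w (Y / pr D) (Z / pr D) ⌈Z / pr D⌉₊) _ ?_ ?_)
    (hB _ _ _ (by positivity) (by gcongr) (Nat.le_ceil _))
  · intro T' hT'
    obtain ⟨T, hT, rfl⟩ := mem_image.1 hT'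
    exact mem_powerset.2 (sdiff_subset.trans (mem_powerset.1 (mem_filter.1 (mem_filter.1 hT).1).1))
  · intro T' hT'
    obtain ⟨T, hT, rfl⟩ := mem_image.1 hT'
    obtain ⟨hT1, hT2⟩ := mem_filter.1 hT
    obtain ⟨hT3, hT4, hT5⟩ := mem_filter.1 hT1
    have hsub : ∀ q ∈ T \ D, q.Prime ∧ w < q := fun q hq =>
      hP q (mem_powerset.1 hT3 (sdiff_subset hq))
    have hmul : (pr (T \ D) : ℝ) * pr D = pr T := by
      unfold pr
      rw [← Nat.cast_mul, prod_sdiff hT2]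
    have hlt : (pr (T \ D) : ℝ) < Z / pr D := by rw [lt_div_iff₀ hd, hmul]; exact hT5
    refine mem_filter.2 ⟨mem_Icc.2 ⟨pr_pos fun q hq => (hsub q hq).1, ?_⟩, ?_, hlt, mass_cop hsub⟩
    · exact_mod_cast hlt.le.trans (Nat.le_ceil _)
    · rw [div_le_iff₀ hd, hmul]; exact hT4

/-- `∏ q ∈ T, (1 + K / q) / q = ∑ D ⊆ T, ∏ q ∈ D, K / q ^ 2 * 1 / pr (T \ D)`. For fixed `D` the
numbers `pr (T \ D)` are distinct, coprime to the primorial and lie in `[Y / pr D, Z / pr D)`;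
`∑ D, ∏ K / q ^ 2 = ∏ (1 + K / q ^ 2) ≤ exp (K / w)`. -/
theorem mass_up (w : ℕ) (hw : 1 ≤ w) : ∃ B : ℝ, 0 ≤ B ∧ ∀ (K : ℝ), 0 ≤ K → ∀ (P : Finset ℕ),
    (∀ q ∈ P, q.Prime ∧ w < q) → ∀ (Y Z : ℝ), 0 < Y → Y ≤ Z →
    ∑ T ∈ P.powerset.filter (fun T => Y ≤ (pr T : ℝ) ∧ (pr T : ℝ) < Z),
      ∏ q ∈ T, ((1 + K / q) / q) ≤ Real.exp (K / w) * (cW w * Real.log (Z / Y) + B) := by
  obtain ⟨B, hB0, hB⟩ := harm w
  refine ⟨B, hB0, fun K hK P hP Y Z hY hYZ => ?_⟩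
  have hL : 0 ≤ cW w * Real.log (Z / Y) + B :=
    add_nonneg (mul_nonneg (cW_pos w).le (Real.log_nonneg ((one_le_div hY).2 hYZ))) hB0
  have e1 : ∀ T : Finset ℕ, ∏ q ∈ T, ((1 + K / q) / q : ℝ) =
      ∑ D ∈ T.powerset, (∏ q ∈ D, K / (q : ℝ) ^ 2) * ∏ q ∈ T \ D, 1 / (q : ℝ) := by
    intro T
    rw [← prod_add]
    refine prod_congr rfl fun q _ => ?_
    ring
  simp only [e1]
  rw [sum_comm' (t' := P.powerset) (s' := fun D =>
    (P.powerset.filter fun T => Y ≤ (pr T : ℝ) ∧ (pr T : ℝ) < Z).filter (fun T => D ⊆ T))]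
  swap
  · intro T D
    simp only [mem_filter, mem_powerset]
    constructor
    · rintro ⟨⟨a, b⟩, c⟩
      exact ⟨⟨⟨a, b⟩, c⟩, c.trans a⟩
    · rintro ⟨⟨⟨a, b⟩, c⟩, -⟩
      exact ⟨⟨a, b⟩, c⟩
  calc _ ≤ ∑ D ∈ P.powerset, (∏ q ∈ D, K / (q : ℝ) ^ 2) * (cW w * Real.log (Z / Y) + B) := by
        refine sum_le_sum fun D hD => ?_
        rw [← mul_sum]
        exact mul_le_mul_of_nonneg_left
          (mass_fix (fun Y Z N a b c => (hB Y Z N a b c).1) hP hY hYZ (mem_powerset.1 hD))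
          (prod_nonneg fun q _ => by positivity)
    _ = (∏ q ∈ P, (1 + K / (q : ℝ) ^ 2)) * (cW w * Real.log (Z / Y) + B) := by
        rw [← sum_mul, prod_one_add]
    _ ≤ _ := by
        refine mul_le_mul_of_nonneg_right ?_ hL
        calc ∏ q ∈ P, (1 + K / (q : ℝ) ^ 2) ≤ ∏ q ∈ P, Real.exp (K / (q : ℝ) ^ 2) :=
              prod_le_prod (fun q _ => by positivity) fun q _ => by
                linarith [Real.add_one_le_exp (K / (q : ℝ) ^ 2)]
          _ = Real.exp (K * ∑ q ∈ P, 1 / (q : ℝ) ^ 2) := by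
              rw [← Real.exp_sum, mul_sum]
              congr 1
              exact sum_congr rfl fun q _ => by ring
          _ ≤ Real.exp (K / w) := by
              rw [Real.exp_le_exp, div_eq_mul_one_div K]
              exact mul_le_mul_of_nonneg_left (mass_inv_sq hw P fun q hq => (hP q hq).2) hK

theorem mass_wt_le {T : Finset ℕ} (hT : ∀ q ∈ T, q.Prime) :
    wt T ≤ ∏ q ∈ T, ((1 + 2 / q) / q : ℝ) := by
  unfold wt
  refine prod_le_prod (fun q hq => ?_) fun q hq => ?_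
  · have : (2 : ℝ) ≤ q := by exact_mod_cast (hT q hq).two_le
    exact div_nonneg zero_le_one (by linarith)
  · have : (2 : ℝ) ≤ q := by exact_mod_cast (hT q hq).two_le
    rw [div_le_div_iff₀ (by linarith) (by linarith)]
    have h : (1 + 2 / (q : ℝ)) * (q - 1) = q + 1 - 2 / q := by field_simp; ring
    have h2 : 2 / (q : ℝ) ≤ 1 := by rw [div_le_one (by linarith)]; exact this
    rw [h]
    linarith

theorem mass_le_wt {T : Finset ℕ} (hT : ∀ q ∈ T, q.Prime) : 1 / (pr T : ℝ) ≤ wt T := by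
  rw [← mass_prod_inv]
  unfold wt
  refine prod_le_prod (fun q _ => by positivity) fun q hq => ?_
  have : (2 : ℝ) ≤ q := by exact_mod_cast (hT q hq).two_le
  exact one_div_le_one_div_of_le (by linarith) (by linarith)

theorem mass_big {w k q : ℕ} (hq : q.Prime) (hqk : q ∣ k) (hk : Nat.Coprime k (primorial w)) :
    w < q := by
  by_contra h
  have h1 : q ∣ primorial w := hq.dvd_primorial_iff.2 (not_lt.1 h)
  have := Nat.dvd_gcd hqk h1
  rw [hk] at this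
  exact hq.one_lt.ne' (Nat.dvd_one.1 this)

theorem mass_sqf {w y : ℕ} {Y Z : ℝ} :
    ∑ k ∈ (mass_S w Y Z y).filter (fun k => Squarefree k), 1 / (k : ℝ) ≤
      ∑ T ∈ (PP w y).powerset.filter (fun T => Y ≤ (pr T : ℝ) ∧ (pr T : ℝ) < Z), wt T := by
  have hpr : ∀ k : ℕ, Squarefree k → pr k.primeFactors = k := fun k hk =>
    Nat.prod_primeFactors_of_squarefree hk
  have hinj : Set.InjOn Nat.primeFactors
      ((mass_S w Y Z y).filter (fun k => Squarefree k) : Finset ℕ) := by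
    intro k hk k' hk' h
    rw [← hpr k (mem_filter.1 (mem_coe.1 hk)).2, ← hpr k' (mem_filter.1 (mem_coe.1 hk')).2, h]
  calc _ ≤ ∑ k ∈ (mass_S w Y Z y).filter (fun k => Squarefree k), wt k.primeFactors := by
        refine sum_le_sum fun k hk => ?_
        have := mass_le_wt (T := k.primeFactors) fun q hq => Nat.prime_of_mem_primeFactors hq
        rwa [hpr k (mem_filter.1 hk).2] at this
    _ = ∑ T ∈ ((mass_S w Y Z y).filter (fun k => Squarefree k)).image Nat.primeFactors, wt T :=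
        (sum_image hinj).symm
    _ ≤ _ := by
        refine sum_le_sum_of_subset_of_nonneg (fun T hT => ?_) fun T hT _ => ?_
        · obtain ⟨k, hk, rfl⟩ := mem_image.1 hT
          obtain ⟨hk1, hk2⟩ := mem_filter.1 hk
          obtain ⟨hk3, hk4, hk5, hk6⟩ := mem_filter.1 hk1
          refine mem_filter.2 ⟨mem_powerset.2 fun q hq => ?_, by rw [hpr k hk2]; exact ⟨hk4, hk5⟩⟩
          have hq1 := Nat.prime_of_mem_primeFactors hq
          have hq2 := Nat.dvd_of_mem_primeFactors hq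
          exact mem_filter.2 ⟨Nat.mem_primesLE.2
            ⟨(Nat.le_of_dvd (mem_Icc.1 hk3).1 hq2).trans (mem_Icc.1 hk3).2, hq1⟩,
            mass_big hq1 hq2 hk6⟩
        · refine le_trans (by positivity) (mass_le_wt (T := T) fun q hq => ?_)
          exact (Nat.mem_primesLE.1 (mem_filter.1 (mem_powerset.1 (mem_filter.1 hT).1 hq)).1).2

theorem mass_mult {w y e : ℕ} {Y Z B : ℝ} (he : 1 ≤ e) (hY : 0 < Y) (hYZ : Y ≤ Z) (hZ : Z ≤ y)
    (hB : ∀ (Y Z : ℝ) (N : ℕ), 0 < Y → Y ≤ Z → Z ≤ N →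
      ∑ k ∈ mass_S w Y Z N, 1 / (k : ℝ) ≤ cW w * Real.log (Z / Y) + B) :
    ∑ k ∈ (mass_S w Y Z y).filter (fun k => e ∣ k), 1 / (k : ℝ) ≤
      1 / (e : ℝ) * (cW w * Real.log (Z / Y) + B) := by
  have he' : (1 : ℝ) ≤ e := by exact_mod_cast he
  have he0 : (0 : ℝ) < e := by linarith
  have hlog : Z / Y = (Z / e) / (Y / e) := by field_simp
  have hsub : (mass_S w Y Z y).filter (fun k => e ∣ k) ⊆
      (mass_S w (Y / e) (Z / e) y).image (fun m => e * m) := by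
    intro k hk
    obtain ⟨hk1, m, rfl⟩ := mem_filter.1 hk
    obtain ⟨hk3, hk4, hk5, hk6⟩ := mem_filter.1 hk1
    obtain ⟨hk7, hk8⟩ := mem_Icc.1 hk3
    push_cast at hk4 hk5
    refine mem_image.2 ⟨m, mem_filter.2 ⟨mem_Icc.2 ⟨?_, ?_⟩, ?_, ?_, ?_⟩, rfl⟩
    · exact Nat.pos_of_mul_pos_left hk7
    · exact (Nat.le_mul_of_pos_left m he).trans hk8
    · rw [div_le_iff₀ he0]; linarith
    · rw [lt_div_iff₀ he0]; linarith
    · exact Nat.Coprime.coprime_mul_left hk6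
  calc _ ≤ ∑ k ∈ (mass_S w (Y / e) (Z / e) y).image (fun m => e * m), 1 / (k : ℝ) :=
        sum_le_sum_of_subset_of_nonneg hsub fun _ _ _ => by positivity
    _ = ∑ m ∈ mass_S w (Y / e) (Z / e) y, 1 / ((e * m : ℕ) : ℝ) :=
        sum_image fun a _ b _ h => Nat.eq_of_mul_eq_mul_left he h
    _ = 1 / (e : ℝ) * ∑ m ∈ mass_S w (Y / e) (Z / e) y, 1 / (m : ℝ) := by
        rw [mul_sum]
        refine sum_congr rfl fun m _ => ?_
        push_cast
        rw [one_div_mul_one_div]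
    _ ≤ _ := by
        rw [hlog]
        exact mul_le_mul_of_nonneg_left (hB _ _ _ (by positivity) (by gcongr)
          ((div_le_self (by linarith) he').trans hZ)) (by positivity)

theorem mass_nsq {w y : ℕ} {Y Z B : ℝ} (hw : 1 ≤ w) (hY : 0 < Y) (hYZ : Y ≤ Z) (hZ : Z ≤ y)
    (hB0 : 0 ≤ B)
    (hB : ∀ (Y Z : ℝ) (N : ℕ), 0 < Y → Y ≤ Z → Z ≤ N →
      ∑ k ∈ mass_S w Y Z N, 1 / (k : ℝ) ≤ cW w * Real.log (Z / Y) + B) :
    ∑ k ∈ (mass_S w Y Z y).filter (fun k => ¬ Squarefree k), 1 / (k : ℝ) ≤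
      1 / (w : ℝ) * (cW w * Real.log (Z / Y) + B) := by
  have hL : 0 ≤ cW w * Real.log (Z / Y) + B :=
    add_nonneg (mul_nonneg (cW_pos w).le (Real.log_nonneg ((one_le_div hY).2 hYZ))) hB0
  calc _ ≤ ∑ k ∈ mass_S w Y Z y, ∑ q ∈ Ioc w y, if q ^ 2 ∣ k then 1 / (k : ℝ) else 0 := by
        rw [sum_filter]
        refine sum_le_sum fun k hk => ?_
        split_ifs with h
        · exact sum_nonneg fun q _ => by split_ifs <;> positivity
        · obtain ⟨hk3, -, -, hk6⟩ := mem_filter.1 hk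
          rw [Nat.squarefree_iff_prime_squarefree] at h
          push Not at h
          obtain ⟨q, hq, hqk⟩ := h
          have hq2 : q ∣ k := (Dvd.intro _ rfl).trans hqk
          have hm : q ∈ Ioc w y := mem_Ioc.2 ⟨mass_big hq hq2 hk6,
            (Nat.le_of_dvd (mem_Icc.1 hk3).1 hq2).trans (mem_Icc.1 hk3).2⟩
          refine le_trans ?_ (single_le_sum (f := fun q => if q ^ 2 ∣ k then 1 / (k : ℝ) else 0)
            (fun q _ => by split_ifs <;> positivity) hm)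
          rw [if_pos (by rwa [sq])]
    _ = ∑ q ∈ Ioc w y, ∑ k ∈ (mass_S w Y Z y).filter (fun k => q ^ 2 ∣ k), 1 / (k : ℝ) := by
        rw [sum_comm]
        simp only [sum_filter]
    _ ≤ ∑ q ∈ Ioc w y, 1 / (q : ℝ) ^ 2 * (cW w * Real.log (Z / Y) + B) := by
        refine sum_le_sum fun q hq => ?_
        have hq1 : 1 ≤ q ^ 2 := Nat.one_le_pow _ _ (by have := (mem_Ioc.1 hq).1; omega)
        have := mass_mult (w := w) hq1 hY hYZ hZ hB
        push_cast at this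
        exact this
    _ ≤ _ := by
        rw [← sum_mul]
        exact mul_le_mul_of_nonneg_right (mass_inv_sq hw _ fun q hq => (mem_Ioc.1 hq).1) hL

/-- Upper bound: `1 / (q - 1) ≤ (1 + 2 / q) / q`, `mass_up` with `K = 2`,
`exp (2 / w) ≤ 1 + 4 / w`. Lower bound: a squarefree `k < Z ≤ y` coprime to the primorial is
`pr T` for `T = k.primeFactors ⊆ PP w y`, and `wt T ≥ 1 / k`; the other `k` are divisible by
`q ^ 2` for a prime `q > w` and contribute at most `∑ q > w, (cW log (Z / Y) + B) / q ^ 2`. -/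
theorem mass (w : ℕ) (hw : 10 ≤ w) : ∃ B : ℝ, 0 ≤ B ∧ ∀ (y : ℕ) (Y Z : ℝ), 1 ≤ Y → Y ≤ Z →
    Z ≤ y → |∑ T ∈ (PP w y).powerset.filter (fun T => Y ≤ (pr T : ℝ) ∧ (pr T : ℝ) < Z), wt T -
      cW w * Real.log (Z / Y)| ≤ 4 / w * (cW w * Real.log (Z / Y)) + B := by
  obtain ⟨B, hB0, hB⟩ := harm w
  obtain ⟨B', hB0', hB'⟩ := mass_up w (by omega)
  refine ⟨2 * B + 2 * B', by positivity, fun y Y Z hY hYZ hZ => ?_⟩
  have hY0 : 0 < Y := by linarith
  have hw' : (10 : ℝ) ≤ w := by exact_mod_cast hw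
  have hL : 0 ≤ cW w * Real.log (Z / Y) :=
    mul_nonneg (cW_pos w).le (Real.log_nonneg ((one_le_div hY0).2 hYZ))
  have hi0 : 0 ≤ 1 / (w : ℝ) := by positivity
  have hi1 : 1 / (w : ℝ) ≤ 1 / 10 := one_div_le_one_div_of_le (by norm_num) hw'
  have h4 : 4 / (w : ℝ) = 4 * (1 / w) := by ring
  have hP : ∀ q ∈ PP w y, q.Prime ∧ w < q := fun q hq =>
    ⟨(Nat.mem_primesLE.1 (mem_filter.1 hq).1).2, (mem_filter.1 hq).2⟩
  rw [abs_le]
  constructor
  · have a1 : cW w * Real.log (Z / Y) - B ≤ ∑ k ∈ mass_S w Y Z y, 1 / (k : ℝ) :=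
      (hB Y Z y hY0 hYZ hZ).2 hY
    rw [← sum_filter_add_sum_filter_not (mass_S w Y Z y) (fun k => Squarefree k)] at a1
    have a2 := mass_sqf (w := w) (y := y) (Y := Y) (Z := Z)
    have a3 := mass_nsq (by omega) hY0 hYZ hZ hB0 fun Y Z N a b c => (hB Y Z N a b c).1
    have a4 : 1 / (w : ℝ) * B ≤ B := mul_le_of_le_one_left hB0 (by linarith)
    have a5 := mul_nonneg hi0 hL
    rw [h4]
    nlinarith
  · have a1 := hB' 2 (by norm_num) (PP w y) hP Y Z hY0 hYZ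
    have a2 : ∑ T ∈ (PP w y).powerset.filter (fun T => Y ≤ (pr T : ℝ) ∧ (pr T : ℝ) < Z), wt T ≤
        ∑ T ∈ (PP w y).powerset.filter (fun T => Y ≤ (pr T : ℝ) ∧ (pr T : ℝ) < Z),
          ∏ q ∈ T, ((1 + 2 / q) / q : ℝ) :=
      sum_le_sum fun T hT => mass_wt_le fun q hq =>
        (hP q (mem_powerset.1 (mem_filter.1 hT).1 hq)).1
    have h2 : 2 / (w : ℝ) = 2 * (1 / w) := by ring
    have a3 : Real.exp (2 / w) ≤ 1 + 4 * (1 / w) := by
      have hx : |2 / (w : ℝ)| = 2 * (1 / w) := by rw [abs_of_nonneg (by positivity), h2]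
      have := Real.abs_exp_sub_one_le (x := 2 / w) (by rw [hx]; linarith)
      rw [hx] at this
      linarith [(abs_le.1 this).2]
    have a4 := mul_le_mul_of_nonneg_right a3 (add_nonneg hL hB0')
    have a5 : 1 / (w : ℝ) * B' ≤ 1 / 10 * B' := mul_le_mul_of_nonneg_right hi1 hB0'
    rw [h4]
    nlinarith

end Pool.Agent.Lib.MP_c03ca8_nt.Q
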