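import Pool.Agent.Lib.MP_c03ca8_nt.Q.Defs

set_option autoImplicit false

noncomputable section

namespace Pool.Agent.Lib.MP_c03ca8_nt.Q

open Finset Real

theorem pointa_psd {ι : Type} (J : Finset ι) (N b : ι → ℝ) :
    ∀ t : ℝ, (∀ j ∈ J, t ≤ N j) →
      0 ≤ ∑ j ∈ J, ∑ j' ∈ J, (min (N j) (N j') - t) * (b j * b j') := by
  classical
  induction J using Finset.induction_on_min_value N with
  | empty => intro t _; simp
  | insert a s ha hmin ih =>
    intro t ht
    have h1 := ih (N a) hmin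
    have h2 : ∑ j ∈ insert a s, ∑ j' ∈ insert a s, (min (N j) (N j') - N a) * (b j * b j') =
        ∑ j ∈ s, ∑ j' ∈ s, (min (N j) (N j') - N a) * (b j * b j') := by
      rw [Finset.sum_insert ha]
      have e1 : ∑ j' ∈ insert a s, (min (N a) (N j') - N a) * (b a * b j') = 0 := by
        refine Finset.sum_eq_zero fun j hj => ?_
        rcases Finset.mem_insert.1 hj with h | h
        · rw [h]; simp
        · rw [min_eq_left (hmin j h)]; simp
      rw [e1, zero_add]
      refine Finset.sum_congr rfl fun j hj => ?_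
      rw [Finset.sum_insert ha, min_eq_right (hmin j hj)]
      simp
    have h3 : ∑ j ∈ insert a s, ∑ j' ∈ insert a s, (min (N j) (N j') - t) * (b j * b j') =
        (N a - t) * (∑ j ∈ insert a s, b j) ^ 2 +
        ∑ j ∈ insert a s, ∑ j' ∈ insert a s, (min (N j) (N j') - N a) * (b j * b j') := by
      rw [sq, Finset.sum_mul_sum, Finset.mul_sum, ← Finset.sum_add_distrib]
      refine Finset.sum_congr rfl fun j _ => ?_
      rw [Finset.mul_sum, ← Finset.sum_add_distrib]
      refine Finset.sum_congr rfl fun j' _ => ?_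
      ring
    rw [h3, h2]
    have h4 : 0 ≤ N a - t := sub_nonneg.2 (ht a (Finset.mem_insert_self a s))
    positivity

/-- The kernel `min` is positive semidefinite on nonnegative numbers. Induction on the card of
`J`, for all `N`: remove an element with the least `N` and subtract that value. -/
theorem min_psd {ι : Type} (J : Finset ι) (N b : ι → ℝ) (hN : ∀ j ∈ J, 0 ≤ N j) :
    0 ≤ ∑ j ∈ J, ∑ j' ∈ J, min (N j) (N j') * (b j * b j') := by
  simpa using pointa_psd J N b 0 hN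

theorem pointa_mem (c : Cert) (i : Fin 4) {j : Fin 4 → ℕ} (hj : j ∈ c.J) :
    j i < c.M ∧ Cert.bt i j + j i ≤ c.U := by
  unfold Cert.J at hj
  rw [Finset.mem_filter, Fintype.mem_piFinset] at hj
  refine ⟨Finset.mem_range.1 (hj.1 i), ?_⟩
  unfold Cert.bt
  rw [Finset.sum_erase_add _ _ (Finset.mem_univ i)]
  exact hj.2

theorem pointa_yy (c : Cert) (hv : c.Valid) (m : ℕ) : 0 ≤ c.yy m :=
  div_nonneg (Nat.cast_nonneg m) hv.pos.le

theorem pointa_ell (c : Cert) (hv : c.Valid) {β σ : ℕ} (h1 : σ < c.M) (h2 : β + σ ≤ c.U) :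
    0 ≤ c.ell β σ := by
  by_contra h
  have h3 := hv.top β σ h1 h2
  have h4 := mul_nonpos_of_nonneg_of_nonpos (pointa_yy c hv (c.T1 - 2)) (not_le.1 h).le
  linarith

/-- `top` gives `ell ≥ 0` on the cells in use; `bt i j + j i = ∑ l, j l`. -/
theorem Lam_nonneg (c : Cert) (hv : c.Valid) (i : Fin 4) (b : (Fin 4 → ℕ) → ℝ) :
    0 ≤ c.Lam i b := by
  unfold Cert.Lam
  exact min_psd c.J (fun j => c.ell (Cert.bt i j) (j i)) b fun j hj =>
    pointa_ell c hv (pointa_mem c i hj).1 (pointa_mem c i hj).2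

theorem pointa_symm (c : Cert) {m β σ β' σ' : ℕ} (h : c.known m β σ β' σ') :
    c.known m β' σ' β σ := by
  unfold Cert.known at h ⊢
  omega

theorem pointa_unknown (c : Cert) (hv : c.Valid) {m β σ β' σ' : ℕ} (hm : m + 3 ≤ c.T1)
    (h1 : σ < c.M) (h2 : β + σ ≤ c.U) (h1' : σ' < c.M) (h2' : β' + σ' ≤ c.U)
    (hk : ¬ c.known m β σ β' σ') (hle : c.ell β σ ≤ c.ell β' σ') :
    c.kap m β σ * c.kap m β' σ' * min (c.NN m β σ) (c.NN m β' σ') = c.yy m * c.ell β σ - 1 := by
  have hM : c.M ≤ m := by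
    by_contra h
    have := hv.lev
    exact hk (Or.inl (by omega))
  have hD := hv.hD m β σ β' σ' hM hm h1 h2 h1' h2' hk
  have hD' := hv.hD m β' σ' β σ hM hm h1' h2' h1 h2 fun h => hk (pointa_symm c h)
  have hN := hv.hN m β σ hM hm h1 h2
  have hN' := hv.hN m β' σ' hM hm h1' h2'
  have e' : c.NN m β' σ' = c.yy m * c.ell β' σ' - 1 := by
    unfold Cert.NN
    rw [if_neg (not_lt.2 hM), max_eq_left (hD'.trans hle)]
  have k' : c.kap m β' σ' = 1 := by
    unfold Cert.kap
    rw [if_neg (not_lt.2 hM), ← e', div_self hN'.ne']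
  have hNN : c.NN m β σ ≤ c.NN m β' σ' := by
    rw [e']
    unfold Cert.NN
    rw [if_neg (not_lt.2 hM)]
    have := mul_le_mul_of_nonneg_left (max_le hle hD) (pointa_yy c hv m)
    linarith
  rw [k', mul_one, min_eq_left hNN]
  unfold Cert.kap
  rw [if_neg (not_lt.2 hM), div_mul_cancel₀ _ hN.ne']

theorem pointa_pair (c : Cert) (hv : c.Valid) {m β σ β' σ' : ℕ} (hm : m + 3 ≤ c.T1)
    (h1 : σ < c.M) (h2 : β + σ ≤ c.U) (h1' : σ' < c.M) (h2' : β' + σ' ≤ c.U) :
    c.yy m * min (c.ell β σ) (c.ell β' σ') + c.Gam m β σ β' σ' =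
      1 + c.kap m β σ * c.kap m β' σ' * min (c.NN m β σ) (c.NN m β' σ') := by
  unfold Cert.Gam
  split_ifs with hk
  · ring
  · rcases le_total (c.ell β σ) (c.ell β' σ') with hle | hle
    · rw [pointa_unknown c hv hm h1 h2 h1' h2' hk hle, min_eq_left hle]
      ring
    · have := pointa_unknown c hv hm h1' h2' h1 h2 (fun h => hk (pointa_symm c h)) hle
      rw [min_eq_right hle, mul_comm (c.kap m β σ), min_comm (c.NN m β σ), this]
      ring

/-- The difference is `∑ ∑ kap kap' min NN NN' b b' ≥ 0`. For `m < M` all pairs are known (`lev`)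
and `kap = 0`. For an unknown pair with `ell τ ≤ ell τ'`: `D τ' ≤ ell τ` (`hD`, `known` is
symmetric) so `NN τ' = y ell τ' - 1`, `kap τ' = 1`; `max (ell τ) (D τ) ≤ ell τ'` so
`min NN NN' = NN τ` and `kap τ * NN τ = y ell τ - 1`. -/
theorem sq_le_known (c : Cert) (hv : c.Valid) (i : Fin 4) (b : (Fin 4 → ℕ) → ℝ) {m : ℕ}
    (hm : m + 3 ≤ c.T1) : (∑ j ∈ c.J, b j) ^ 2 ≤ c.yy m * c.Lam i b + c.GamF i m b := by
  have h0 := min_psd c.J (fun j => c.NN m (Cert.bt i j) (j i))
    (fun j => c.kap m (Cert.bt i j) (j i) * b j) fun j hj => by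
      by_cases hM : m < c.M
      · simp [Cert.NN, hM]
      · exact (hv.hN m _ _ (not_lt.1 hM) hm (pointa_mem c i hj).1 (pointa_mem c i hj).2).le
  have h1 : c.yy m * c.Lam i b + c.GamF i m b = (∑ j ∈ c.J, b j) ^ 2 +
      ∑ j ∈ c.J, ∑ j' ∈ c.J, min (c.NN m (Cert.bt i j) (j i)) (c.NN m (Cert.bt i j') (j' i)) *
        (c.kap m (Cert.bt i j) (j i) * b j * (c.kap m (Cert.bt i j') (j' i) * b j')) := by
    unfold Cert.Lam Cert.GamF
    rw [sq, Finset.sum_mul_sum, Finset.mul_sum, ← Finset.sum_add_distrib,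
      ← Finset.sum_add_distrib]
    refine Finset.sum_congr rfl fun j hj => ?_
    rw [Finset.mul_sum, ← Finset.sum_add_distrib, ← Finset.sum_add_distrib]
    refine Finset.sum_congr rfl fun j' hj' => ?_
    have := pointa_pair c hv hm (pointa_mem c i hj).1 (pointa_mem c i hj).2
      (pointa_mem c i hj').1 (pointa_mem c i hj').2
    linear_combination (b j * b j') * this
  rw [h1]
  linarith

/-- `y min ell ell' - 1 = min (y ell - 1) (y ell' - 1)` and `top`. -/
theorem sq_le_top (c : Cert) (hv : c.Valid) (i : Fin 4) (b : (Fin 4 → ℕ) → ℝ) {m : ℕ}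
    (hm : c.T1 ≤ m + 2) : (∑ j ∈ c.J, b j) ^ 2 ≤ c.yy m * c.Lam i b := by
  have hy : c.yy (c.T1 - 2) ≤ c.yy m := by
    unfold Cert.yy
    have : ((c.T1 - 2 : ℕ) : ℝ) ≤ m := by exact_mod_cast (by omega : c.T1 - 2 ≤ m)
    exact div_le_div_of_nonneg_right this hv.pos.le
  have h0 := min_psd c.J (fun j => c.yy m * c.ell (Cert.bt i j) (j i) - 1) b fun j hj => by
    have h1 := hv.top _ _ (pointa_mem c i hj).1 (pointa_mem c i hj).2
    have h2 := mul_le_mul_of_nonneg_right hy
      (pointa_ell c hv (pointa_mem c i hj).1 (pointa_mem c i hj).2)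
    linarith
  have h1 : c.yy m * c.Lam i b = (∑ j ∈ c.J, b j) ^ 2 +
      ∑ j ∈ c.J, ∑ j' ∈ c.J, min (c.yy m * c.ell (Cert.bt i j) (j i) - 1)
        (c.yy m * c.ell (Cert.bt i j') (j' i) - 1) * (b j * b j') := by
    unfold Cert.Lam
    rw [sq, Finset.sum_mul_sum, Finset.mul_sum, ← Finset.sum_add_distrib]
    refine Finset.sum_congr rfl fun j _ => ?_
    rw [Finset.mul_sum, ← Finset.sum_add_distrib]
    refine Finset.sum_congr rfl fun j' _ => ?_
    rw [min_sub_sub_right, ← mul_min_of_nonneg _ _ (pointa_yy c hv m)]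
    ring
  rw [h1]
  linarith

end Pool.Agent.Lib.MP_c03ca8_nt.Q
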