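import Pool.Agent.Lib.MP_c03ca8_nt.Q.Core

/-!
The almost prime 4-tuples carry a positive share of the sieve weight, and the weight is evenly
spread over short intervals.
-/

set_option autoImplicit false

noncomputable section

namespace Pool.Agent.Lib.MP_c03ca8_nt.Q

open Finset Real

/-- The sieve weight. -/
def ff (c : Cert) (E : Env) (n : ℕ) : ℝ := (∑ j ∈ c.J, bb c E n j) ^ 2

theorem ff_nonneg (c : Cert) (E : Env) (n : ℕ) : 0 ≤ ff c E n := sq_nonneg _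

/-- `point` for every integer of the class. -/
theorem point_all (c : Cert) (hv : c.Valid) (E : Env) (hE : E.Good) {η : ℝ}
    (hH : 1 < E.H c.nu) (hHx : E.H c.nu ^ c.nu = E.x) (R : ℕ) {n : ℕ} (hn : n ∈ E.I) :
    R * ((∑ j ∈ c.J, bb c E n j) ^ 2 -
      if ArithmeticFunction.cardFactors (∏ l, (n + E.h l)) < R then ff c E n else 0) ≤
      ∑ i, (Real.log (3 * E.x) / Real.log E.x * c.Lam i (bb c E n) +
        ∑ m ∈ range (c.T1 - 2), ∑ p ∈ E.pc c.nu η m,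
          ind p (n + E.h i) * c.GamF i m (bb c E n)) +
      R * ∑ i, (∑ p ∈ E.tiny c.nu η, ind p (n + E.h i) + if n ∈ E.sq c.nu η i then 1 else 0) *
        (∑ j ∈ c.J, bb c E n j) ^ 2 := by
  by_cases hg : ArithmeticFunction.cardFactors (∏ l, (n + E.h l)) < R
  · rw [if_pos hg, ff, sub_self, mul_zero]
    have hind : ∀ p N, 0 ≤ ind p N := fun p N => by unfold ind; split_ifs <;> norm_num
    refine add_nonneg (Finset.sum_nonneg fun i _ => ?_)
      (mul_nonneg (Nat.cast_nonneg _) (Finset.sum_nonneg fun i _ => ?_))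
    · obtain ⟨-, h1, h2⟩ := erra_memI hE hn i
      exact (mul_nonneg (Nat.cast_nonneg _) (sq_nonneg _)).trans
        (point_form c hv E η i (bb c E n) hH hHx h1 h2)
    · refine mul_nonneg (add_nonneg (Finset.sum_nonneg fun p _ => hind _ _) ?_) (sq_nonneg _)
      split_ifs <;> norm_num
  · rw [if_neg hg, sub_zero]
    exact point c hv E hE hH hHx R hn (not_lt.1 hg)

/-- The good integers carry a positive share of the weight. -/
theorem good_mass (c : Cert) (hv : c.Valid) {θ : ℝ} (hr : Rng c.nu θ c.T1 c.T2 c.M) (R : ℕ)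
    (hin : 4 * c.Bval < R * c.Ival) : ∃ δ : ℝ, 0 < δ ∧ Ev θ fun E =>
      δ * E.Sc c.nu ≤ ∑ n ∈ E.I.filter
        (fun n => ArithmeticFunction.cardFactors (∏ l, (n + E.h l)) < R), ff c E n := by
  set K : ℝ := 5 * R + 8 + 4 * |c.B0| + 4 * ((c.T1 - 2 : ℕ) : ℝ) with hK
  have hK0 : 0 < K := by positivity
  set δ : ℝ := R * c.Ival - 4 * c.Bval with hδ
  have hδ0 : 0 < δ := by linarith
  set ε : ℝ := min 1 (δ / (2 * K)) with hεd
  have hε : 0 < ε := lt_min one_pos (by positivity)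
  have hε1 : ε ≤ 1 := min_le_left _ _
  have hεK : ε * K ≤ δ / 2 := by
    have h1 : ε ≤ δ / (2 * K) := min_le_right _ _
    rw [le_div_iff₀ (by positivity)] at h1
    linarith
  obtain ⟨η, -, hs⟩ := sums c hv hr hε
  obtain ⟨x1, hx12, hx1⟩ := core_log hε
  have hbig : Ev θ fun E => x1 ≤ E.x := Ev.of_forall 0 fun w _ => ⟨x1, fun E _ h _ _ => h⟩
  refine ⟨δ / (2 * (R + 1)), by positivity, (hs.and hbig).mono ?_⟩
  rintro E hE hX ⟨⟨hA, hrest⟩, hx⟩
  obtain ⟨hl1, hl2⟩ := hx1 E.x hx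
  have h2 : (2 : ℝ) ≤ E.x := by exact_mod_cast (show 2 ≤ E.x by omega)
  have hx0' : (0 : ℝ) < E.x := by linarith
  have hH : 1 < E.H c.nu := Real.one_lt_rpow (show (1 : ℝ) < E.x by linarith) (by
    have := hv.pos; positivity)
  have hHx : E.H c.nu ^ c.nu = E.x := by
    show ((E.x : ℝ) ^ (1 / c.nu)) ^ c.nu = E.x
    rw [← Real.rpow_mul hx0'.le, one_div, inv_mul_cancel₀ hv.pos.ne', Real.rpow_one]
  have hS : 0 < E.Sc c.nu := by
    have hX0 : (0 : ℝ) < E.X := lt_of_lt_of_le (Real.rpow_pos_of_pos hx0' θ) hX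
    have hW : (0 : ℝ) < E.W := by exact_mod_cast primorial_pos E.w
    have hL : 0 < E.L c.nu := mul_pos (cW_pos _) (Real.log_pos hH)
    exact mul_pos (div_pos hX0 hW) (pow_pos hL 4)
  obtain ⟨g, hg⟩ : ∃ g : ℝ, g = ∑ n ∈ E.I.filter
      (fun n => ArithmeticFunction.cardFactors (∏ l, (n + E.h l)) < R), ff c E n := ⟨_, rfl⟩
  rw [← hg]
  have hg0 : 0 ≤ g := hg ▸ Finset.sum_nonneg fun n _ => ff_nonneg c E n
  have hpt := Finset.sum_le_sum (s := E.I) fun n hn => point_all c hv E hE (η := η) hH hHx R hn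
  have key := core_arith (R := R) (T := ((c.T1 - 2 : ℕ) : ℝ)) (I := c.Ival - g / E.Sc c.nu)
    (B0 := c.B0) (Bs := ∑ m ∈ range (c.T1 - 2), c.Bm m) (S := E.Sc c.nu)
    (A := ∑ n ∈ E.I, (∑ j ∈ c.J, bb c E n j) ^ 2 - g)
    (lam := Real.log (3 * E.x) / Real.log E.x) (ε := ε)
    (L := fun i => ∑ n ∈ E.I, c.Lam i (bb c E n))
    (G := fun i => ∑ m ∈ range (c.T1 - 2), ∑ n ∈ E.I, ∑ p ∈ E.pc c.nu η m,
      ind p (n + E.h i) * c.GamF i m (bb c E n))
    (Z := fun i => ∑ n ∈ E.I, (∑ p ∈ E.tiny c.nu η, ind p (n + E.h i) +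
      if n ∈ E.sq c.nu η i then 1 else 0) * (∑ j ∈ c.J, bb c E n j) ^ 2)
    (Nat.cast_nonneg R) hS hε1 hl1 hl2 ?_ (fun i => (hrest i).1) ?_
    (fun i => (hrest i).2.2) ?_
  · have e : c.Bval = c.B0 + ∑ m ∈ range (c.T1 - 2), c.Bm m := rfl
    rw [← e] at key
    have h3 : δ / 2 ≤ R * (g / E.Sc c.nu) := by linarith
    have h4 : 0 ≤ g / E.Sc c.nu := div_nonneg hg0 hS.le
    have h5 : δ / (2 * (R + 1)) ≤ g / E.Sc c.nu := by
      rw [div_le_iff₀ (by positivity)]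
      linarith
    rwa [le_div_iff₀ hS] at h5
  · have e : ∑ n ∈ E.I, (∑ j ∈ c.J, bb c E n j) ^ 2 - g - (c.Ival - g / E.Sc c.nu) * E.Sc c.nu =
        ∑ n ∈ E.I, (∑ j ∈ c.J, bb c E n j) ^ 2 - c.Ival * E.Sc c.nu := by
      rw [sub_mul, div_mul_cancel₀ _ hS.ne']
      ring
    rw [e]
    exact hA
  · intro i
    have h1 := Finset.sum_le_sum (s := range (c.T1 - 2))
      (g := fun m => c.Bm m * E.Sc c.nu + ε * E.Sc c.nu)
      (f := fun m => ∑ n ∈ E.I, ∑ p ∈ E.pc c.nu η m, ind p (n + E.h i) * c.GamF i m (bb c E n))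
      fun m hm => by have := (abs_le.1 ((hrest i).2.1 m hm)).2; linarith
    refine h1.trans (le_of_eq ?_)
    rw [Finset.sum_add_distrib, ← Finset.sum_mul, Finset.sum_const, card_range, nsmul_eq_mul]
    ring
  · rw [← Finset.mul_sum, Finset.sum_sub_distrib, ← Finset.sum_filter, ← hg] at hpt
    refine hpt.trans (le_of_eq ?_)
    rw [Finset.sum_add_distrib, ← Finset.mul_sum, Finset.sum_comm (s := E.I)]
    congr 1
    · refine Finset.sum_congr rfl fun i _ => ?_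
      rw [Finset.sum_add_distrib, ← Finset.mul_sum, Finset.sum_comm (s := E.I)]
    · rw [Finset.sum_comm]

/-- The weight of an interval of length at least `γ x ^ (4 / 5)`. -/
theorem short_mass (c : Cert) (hv : c.Valid) {θ : ℝ} (hr : Rng c.nu θ c.T1 c.T2 c.M)
    (hU : ((2 * c.U + 8 : ℕ) : ℝ) < 4 / 5 * c.nu) : ∃ C : ℝ, 0 < C ∧ ∀ γ : ℝ, 0 < γ →
      Ev θ fun E => ∀ y Y : ℕ, γ * (E.x : ℝ) ^ (4 / 5 : ℝ) ≤ Y →
        ∑ n ∈ cls y Y E.W E.a, ff c E n ≤ C * (Y / E.W * E.L c.nu ^ 4) := by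
  obtain ⟨A, hA, hA0, -, -⟩ := corea_const c
  refine ⟨A * 3, by positivity, fun γ hγ => ?_⟩
  have hδ : 0 < 4 / 5 * c.nu - ((2 * c.U + 8 : ℕ) : ℝ) := by linarith
  refine ((ev_tame (θ := θ) hr.pos hδ hγ 33).and (main0 hr one_pos)).mono ?_
  rintro E hE - ⟨⟨G, hG, hGW, hL, hH, hx, -⟩, hm⟩ y Y hY
  have h0 : (0 : ℝ) < E.H c.nu := by linarith
  have h1 : (1 : ℝ) ≤ E.H c.nu := by linarith
  have hG0 : (0 : ℝ) ≤ G ^ 33 := by have := hG.ten; positivity
  have hW : (0 : ℝ) < E.W := by exact_mod_cast erra_Wpos E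
  have hL4 : 1 ≤ E.L c.nu ^ 4 := one_le_pow₀ hL
  have hYW : (0 : ℝ) ≤ Y / E.W := by positivity
  have hlev := hv.lev
  have e1 := corea_expand c E (cls y Y E.W E.a) (fun _ => 1) (fun _ _ => 1)
  have e2 : ∑ n ∈ cls y Y E.W E.a, ff c E n = ∑ j ∈ c.J, ∑ j' ∈ c.J,
      (1 : ℝ) * (c.F j * c.F j') *
        ∑ n ∈ cls y Y E.W E.a, Pw E.P E.h (cz (E.H c.nu) (pairS j j')) n := by
    simp only [ff, corea_sq]
    simpa only [one_mul] using e1
  rw [e2]
  refine (corea_form_le c _ _ (e := 3 * (Y / E.W * E.L c.nu ^ 4)) (fun j hj j' hj' => ?_)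
    (by positivity)).trans ?_
  · have hs := corea_sum_le c hj hj'
    have hZ : ∀ s, E.H c.nu ^ (pairS j j' s + 1) ≤ 3 * (E.x : ℝ) := by
      intro s
      refine erra_pow_le hr hH hx (le_trans ?_ (show 2 * c.U + 8 ≤ c.T1 by omega))
      exact (single_le_sum (f := fun s => pairS j j' s + 1) (fun _ _ => Nat.zero_le _)
        (mem_univ s)).trans hs
    have a1 := k1 hG E.h hE.inj E.w hE.hlt E.P (fun q hq => erra_memP hq) y Y E.W E.a
      (erra_Wpos E) (fun q hq => erra_cop hq) (cz (E.H c.nu) (pairS j j'))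
      (fun s => E.H c.nu ^ (pairS j j' s + 1)) (supp_cz _ _) (fun s => by positivity) hZ 1
      (Or.inl rfl) 0
    simp only [ind, one_dvd, if_true, one_mul] at a1
    rw [prod_pow_eq_pow_sum] at a1
    have a2 : E.H c.nu ^ ∑ s, (pairS j j' s + 1) ≤ E.H c.nu ^ (((2 * c.U + 8 : ℕ)) : ℝ) := by
      rw [Real.rpow_natCast]
      exact pow_le_pow_right₀ h1 hs
    have a3 : E.H c.nu ^ (4 / 5 * c.nu - ((2 * c.U + 8 : ℕ) : ℝ)) *
        E.H c.nu ^ (((2 * c.U + 8 : ℕ)) : ℝ) = (E.x : ℝ) ^ (4 / 5 : ℝ) := by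
      rw [← Real.rpow_add h0, sub_add_cancel, ← hx, ← Real.rpow_mul h0.le, mul_comm]
    have a4 : G ^ 33 * E.H c.nu ^ ∑ s, (pairS j j' s + 1) ≤ Y / E.W := by
      rw [le_div_iff₀ hW]
      calc G ^ 33 * E.H c.nu ^ (∑ s, (pairS j j' s + 1)) * E.W
          = G ^ 33 * E.W * E.H c.nu ^ ∑ s, (pairS j j' s + 1) := by ring
        _ ≤ γ * E.H c.nu ^ (4 / 5 * c.nu - ((2 * c.U + 8 : ℕ) : ℝ)) *
            E.H c.nu ^ (((2 * c.U + 8 : ℕ)) : ℝ) :=
          mul_le_mul hGW a2 (by positivity) (by positivity)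
        _ = γ * (E.x : ℝ) ^ (4 / 5 : ℝ) := by rw [mul_assoc, a3]
        _ ≤ Y := hY
    have a5 := hm (pairS j j') 0 (corea_lt c hj hj')
    have a6 : |∏ l : Fin 4, dl (pairS j j' (l, false)) (pairS j j' (l, true))| ≤ 1 := by
      rw [Finset.abs_prod]
      refine Finset.prod_le_one (fun _ _ => abs_nonneg _) fun l _ => ?_
      unfold dl
      split_ifs <;> simp
    have a7 : |M1 E.P (cz (E.H c.nu) (pairS j j')) 1 0| ≤ 2 * E.L c.nu ^ 4 := by
      have b1 := abs_add_le (M1 E.P (cz (E.H c.nu) (pairS j j')) 1 0 - E.L c.nu ^ 4 *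
        ∏ l : Fin 4, dl (pairS j j' (l, false)) (pairS j j' (l, true)))
        (E.L c.nu ^ 4 * ∏ l : Fin 4, dl (pairS j j' (l, false)) (pairS j j' (l, true)))
      rw [sub_add_cancel, abs_mul, abs_of_nonneg (by linarith : 0 ≤ E.L c.nu ^ 4)] at b1
      have b2 := mul_le_mul_of_nonneg_left a6 (by linarith : 0 ≤ E.L c.nu ^ 4)
      linarith
    have a8 := abs_add_le (∑ n ∈ cls y Y E.W E.a, Pw E.P E.h (cz (E.H c.nu) (pairS j j')) n -
      Y / E.W * M1 E.P (cz (E.H c.nu) (pairS j j')) 1 0)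
      (Y / E.W * M1 E.P (cz (E.H c.nu) (pairS j j')) 1 0)
    rw [sub_add_cancel, abs_mul, abs_of_nonneg hYW] at a8
    have a9 := mul_le_mul_of_nonneg_left a7 hYW
    have a10 := mul_le_mul_of_nonneg_left hL4 hYW
    linarith
  · have := mul_le_mul_of_nonneg_right hA0
      (by positivity : (0 : ℝ) ≤ 3 * (Y / E.W * E.L c.nu ^ 4))
    linarith

end Pool.Agent.Lib.MP_c03ca8_nt.Q
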