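import Pool.Agent.Lib.MP_c03ca8_nt.Q.PosA
import Pool.Agent.Lib.MP_c03ca8_nt.Q.ZRow

/-!
From the weight of the good integers to a positive proportion of the intervals between
consecutive fifth powers.
-/

set_option autoImplicit false

noncomputable section

namespace Pool.Agent.Lib.MP_c03ca8_nt.Q

open Finset Real

theorem pos_root (m : ℕ) : ∃ n : ℕ, n ^ 5 ≤ m ∧ m < (n + 1) ^ 5 := by
  classical
  have hex : ∃ n : ℕ, m < (n + 1) ^ 5 :=
    ⟨m, (Nat.lt_succ_self m).trans_le (Nat.le_self_pow (by norm_num) _)⟩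
  refine ⟨Nat.find hex, ?_, Nat.find_spec hex⟩
  rcases h : Nat.find hex with _ | k
  · simp
  · have := Nat.find_min hex (m := k) (by omega)
    omega

theorem pos_gap (n : ℕ) (hn : 1 ≤ n) : (n + 1) ^ 5 ≤ n ^ 5 + 31 * n ^ 4 := by
  have e : (n + 1) ^ 5 = n ^ 5 + (5 * n ^ 4 + 10 * n ^ 3 + 10 * n ^ 2 + 5 * n + 1) := by ring
  have h1 : n ≤ n ^ 2 := Nat.le_self_pow (by norm_num) n
  have h2 : n ^ 2 ≤ n ^ 3 := Nat.pow_le_pow_right hn (by norm_num)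
  have h3 : n ^ 3 ≤ n ^ 4 := Nat.pow_le_pow_right hn (by norm_num)
  omega

theorem pos_cover {f : ℕ → ℝ} (hf : ∀ n, 0 ≤ f n) (s : Finset ℕ) (t : ℕ → Finset ℕ) :
    ∑ m ∈ s.biUnion t, f m ≤ ∑ i ∈ s, ∑ m ∈ t i, f m := by
  induction s using Finset.induction_on with
  | empty => simp
  | insert i s hi ih =>
    rw [biUnion_insert, sum_insert hi]
    have h1 := sum_union_inter (s₁ := t i) (s₂ := s.biUnion t) (f := f)
    have h2 : 0 ≤ ∑ m ∈ t i ∩ s.biUnion t, f m := sum_nonneg fun m _ => hf m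
    linarith

/-- Covering the good integers of `(x, 2 x]`. -/
theorem pos_count {f : ℕ → ℝ} (hf : ∀ n, 0 ≤ f n) (p : ℕ → Prop) [DecidablePred p]
    (h : Fin 4 → ℕ) {x N W a X0 : ℕ} {B : ℝ} (hB : 0 ≤ B) (hN : 2 ≤ N) (h1 : N ^ 5 ≤ x)
    (h2 : x < (N + 1) ^ 5) (hh : ∀ l, h l < X0)
    (hY : ∀ y, ∑ m ∈ cls y (496 * N ^ 4) W a, f m ≤ B * (496 * N ^ 4))
    (hX : ∀ y, ∑ m ∈ cls y X0 W a, f m ≤ B * X0) (S : Finset ℕ)
    (hS : ∀ n, x ≤ n ^ 5 → (n + 1) ^ 5 ≤ 2 * x →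
      (∃ m, n ^ 5 < m ∧ (∀ l, m + h l < (n + 1) ^ 5) ∧ p m) → n ∈ S) :
    ∑ m ∈ (cls x x W a).filter p, f m ≤
      B * (496 * N ^ 4) * (S.card + 2) + B * X0 * (2 * N) := by
  obtain ⟨N', g1, g2⟩ := pos_root (2 * x)
  obtain ⟨T, hT⟩ : ∃ T : Finset ℕ, T = insert N (insert N' S) := ⟨_, rfl⟩
  have hTc : (T.card : ℝ) ≤ S.card + 2 := by
    have a1 := card_insert_le N (insert N' S)
    have a2 := card_insert_le N' S
    rw [hT]
    exact_mod_cast (by omega : (insert N (insert N' S)).card ≤ S.card + 2)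
  have h32 : 32 ≤ N ^ 5 := le_trans (by norm_num) (Nat.pow_le_pow_left hN 5)
  have hN2 : 2 * (N + 1) ^ 5 ≤ (2 * N) ^ 5 := by
    have a1 : (2 * (N + 1)) ^ 5 ≤ (3 * N) ^ 5 := Nat.pow_le_pow_left (by omega) 5
    rw [mul_pow, mul_pow] at a1
    rw [mul_pow]
    omega
  have hcov : (cls x x W a).filter p ⊆ (range (2 * N)).biUnion fun n =>
      if n ∈ T then cls (n ^ 5) (496 * N ^ 4) W a else cls ((n + 1) ^ 5 - X0) X0 W a := by
    intro m hm
    simp only [cls, mem_filter, mem_Ioc] at hm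
    obtain ⟨⟨⟨m1, m2⟩, m3⟩, m4⟩ := hm
    obtain ⟨n, n1, n2⟩ := pos_root (m - 1)
    have hn2 : n < 2 * N := lt_of_pow_lt_pow_left₀ 5 (Nat.zero_le _) (by omega)
    have hn3 : N < n + 1 := lt_of_pow_lt_pow_left₀ 5 (Nat.zero_le _) (by omega)
    refine mem_biUnion.2 ⟨n, mem_range.2 hn2, ?_⟩
    split_ifs with hn
    · have a1 := pos_gap n (by omega)
      have a2 : n ^ 4 ≤ (2 * N) ^ 4 := Nat.pow_le_pow_left hn2.le 4
      rw [mul_pow] at a2
      simp only [cls, mem_filter, mem_Ioc]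
      exact ⟨⟨by omega, by omega⟩, m3⟩
    · simp only [hT, mem_insert, not_or] at hn
      obtain ⟨k1, k2, k3⟩ := hn
      have a1 : (N + 1) ^ 5 ≤ n ^ 5 := Nat.pow_le_pow_left (by omega) 5
      have a2 : (n + 1) ^ 5 ≤ 2 * x := by
        by_contra hc
        have b1 : n < N' + 1 := lt_of_pow_lt_pow_left₀ 5 (Nat.zero_le _) (by omega)
        have b2 : N' < n + 1 := lt_of_pow_lt_pow_left₀ 5 (Nat.zero_le _) (by omega)
        omega
      have a3 : ∃ l, (n + 1) ^ 5 ≤ m + h l := by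
        by_contra hc
        push Not at hc
        exact k3 (hS n (by omega) a2 ⟨m, by omega, hc, m4⟩)
      obtain ⟨l, hl⟩ := a3
      have a4 := hh l
      simp only [cls, mem_filter, mem_Ioc]
      exact ⟨⟨by omega, by omega⟩, m3⟩
  refine (sum_le_sum_of_subset_of_nonneg hcov fun m _ _ => hf m).trans
    ((pos_cover hf _ _).trans ?_)
  have hY0 : 0 ≤ B * (496 * (N : ℝ) ^ 4) := by positivity
  have hX0 : 0 ≤ B * (X0 : ℝ) := by positivity
  have a1 : ∀ n ∈ range (2 * N), ∑ m ∈ (if n ∈ T then cls (n ^ 5) (496 * N ^ 4) W a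
      else cls ((n + 1) ^ 5 - X0) X0 W a), f m ≤
      (if n ∈ T then B * (496 * (N : ℝ) ^ 4) else 0) + B * X0 := by
    intro n _
    split_ifs
    · have := hY (n ^ 5)
      linarith
    · have := hX ((n + 1) ^ 5 - X0)
      linarith
  refine (sum_le_sum a1).trans ?_
  rw [sum_add_distrib, ← sum_filter, sum_const, sum_const, card_range, nsmul_eq_mul, nsmul_eq_mul]
  have a2 : (((range (2 * N)).filter fun n => n ∈ T).card : ℝ) ≤ S.card + 2 := by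
    refine le_trans ?_ hTc
    exact_mod_cast card_le_card fun n hn => (mem_filter.1 hn).2
  have a3 := mul_le_mul_of_nonneg_right a2 hY0
  push_cast
  linarith

theorem pos_arith {δ C γ D x N s w X0 : ℝ} (hC : 0 < C) (hD : 0 < D) (hδ : 0 < δ)
    (hγ : 128 * C * γ ≤ δ) (hN : 1 ≤ N) (hw : 0 ≤ w) (hx : N ^ 5 ≤ x)
    (hX : X0 ≤ 16 * γ * N ^ 4 + 1 + w) (hbig : 4 * (C * (994 + 2 * w)) ≤ δ * N)
    (h : δ * (x * D) ≤ C * D * (496 * N ^ 4) * (s + 2) + C * D * X0 * (2 * N)) :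
    δ / (1984 * C) * (2 * N) ≤ s := by
  have h0 : 0 < N := by linarith
  have h4 : 0 < N ^ 4 := by positivity
  have h1 : δ * x ≤ C * (496 * N ^ 4) * (s + 2) + C * X0 * (2 * N) := by
    refine le_of_mul_le_mul_right ?_ hD
    linarith
  have h2 : C * X0 * (2 * N) ≤ C * (16 * γ * N ^ 4 + 1 + w) * (2 * N) :=
    mul_le_mul_of_nonneg_right (mul_le_mul_of_nonneg_left hX hC.le) (by linarith)
  have h3 : N ≤ N ^ 4 := le_self_pow₀ hN (by norm_num)
  have h5 : C * (1 + w) * N ≤ C * (1 + w) * N ^ 4 :=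
    mul_le_mul_of_nonneg_left h3 (by positivity)
  have h6 : 128 * C * γ * N ^ 5 ≤ δ * N ^ 5 := mul_le_mul_of_nonneg_right hγ (by positivity)
  have h7 : δ * N ^ 5 ≤ δ * x := mul_le_mul_of_nonneg_left hx hδ.le
  have h8 := mul_le_mul_of_nonneg_right hbig h4.le
  have h9 : δ * N * N ^ 4 ≤ 992 * C * s * N ^ 4 := by nlinarith
  have h10 := le_of_mul_le_mul_right h9 h4
  rw [div_mul_eq_mul_div, div_le_iff₀ (by positivity)]
  linarith

/-- Almost prime 4-tuples in a positive proportion of the intervals between fifth powers. -/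
theorem pos_core (c : Cert) (hv : c.Valid) (hr : Rng c.nu 1 c.T1 c.T2 c.M)
    (hU : ((2 * c.U + 8 : ℕ) : ℝ) < 4 / 5 * c.nu) (R : ℕ) (hin : 4 * c.Bval < R * c.Ival)
    (h : Fin 4 → ℕ) (hinj : Function.Injective h)
    (adm : ∀ p : ℕ, p.Prime → ∃ a, ∀ l, ¬ p ∣ a + h l) :
    ∃ κ : ℝ, 0 < κ ∧ ∃ x0 : ℕ, ∀ x : ℕ, x0 ≤ x → κ * (x : ℝ) ^ (1 / 5 : ℝ) ≤
      Set.ncard {n : ℕ | x ≤ n ^ 5 ∧ (n + 1) ^ 5 ≤ 2 * x ∧ ∃ m : ℕ, n ^ 5 < m ∧
        (∀ l, m + h l < (n + 1) ^ 5) ∧ ArithmeticFunction.cardFactors (∏ l, (m + h l)) < R} := by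
  classical
  obtain ⟨δ, hδ, hg⟩ := good_mass c hv hr R hin
  obtain ⟨C, hC, hs⟩ := short_mass c hv hr hU
  set γ : ℝ := min 1 (δ / (128 * C)) with hγd
  have hγ : 0 < γ := lt_min one_pos (by positivity)
  have hγ1 : γ ≤ 1 := min_le_left _ _
  have hγ2 : 128 * C * γ ≤ δ := by
    have h1 : γ ≤ δ / (128 * C) := min_le_right _ _
    rw [le_div_iff₀ (by positivity)] at h1
    linarith
  obtain ⟨w0, hw0⟩ := (hg.and (hs γ hγ)).and (ev_tame (θ := 1) hr.pos one_pos one_pos 0)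
  set w : ℕ := w0 + 10 + ∑ l, h l + 1 with hw
  obtain ⟨x0, hx0⟩ := hw0 w (by omega)
  obtain ⟨a, ha⟩ := exists_residue h adm w
  have hlt : ∀ l, h l < w := fun l => by
    have : h l ≤ ∑ l, h l := Finset.single_le_sum (f := h) (fun _ _ => Nat.zero_le _) (mem_univ l)
    omega
  obtain ⟨N0, hN0⟩ : ∃ N0 : ℕ, N0 = ⌈4 * (C * (994 + 2 * w)) / δ⌉₊ + 2 := ⟨_, rfl⟩
  refine ⟨δ / (1984 * C), by positivity, x0 + w + N0 ^ 5, fun x hx => ?_⟩
  obtain ⟨N, n1, n2⟩ := pos_root x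
  have hN : N0 < N + 1 := lt_of_pow_lt_pow_left₀ 5 (Nat.zero_le _) (by omega)
  have hN2 : 2 ≤ N := by omega
  have hNR : (2 : ℝ) ≤ N := by exact_mod_cast hN2
  have hbig : 4 * (C * (994 + 2 * w)) ≤ δ * N := by
    have e0 : ⌈4 * (C * (994 + 2 * (w : ℝ))) / δ⌉₊ ≤ N := by omega
    have e1 : 4 * (C * (994 + 2 * w)) / δ ≤ (N : ℝ) :=
      (Nat.le_ceil _).trans (Nat.cast_le.2 e0)
    rwa [div_le_iff₀ hδ, mul_comm (N : ℝ)] at e1
  let E : Env := ⟨h, w, a, x, x⟩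
  have hE : E.Good := ⟨hinj, hlt, ha, show 10 ≤ w by omega, show w ≤ x by omega, le_rfl⟩
  obtain ⟨⟨b1, b2⟩, -, -, -, hL, -⟩ := hx0 E rfl (show x0 ≤ x by omega) hE (by simp [E])
  have hW : (0 : ℝ) < E.W := by exact_mod_cast erra_Wpos E
  obtain ⟨D, hD⟩ : ∃ D : ℝ, D = E.L c.nu ^ 4 / E.W := ⟨_, rfl⟩
  have hD0 : 0 < D := by
    rw [hD]
    have : 0 < E.L c.nu := by linarith
    positivity
  have hxN : (x : ℝ) ≤ ((N : ℝ) + 1) ^ 5 := by exact_mod_cast n2.le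
  have hpow : ∀ t : ℝ, 0 ≤ t → (x : ℝ) ^ (t / 5) ≤ (2 * (N : ℝ)) ^ t := by
    intro t ht
    have a1 : (x : ℝ) ≤ (2 * (N : ℝ)) ^ (5 : ℝ) := by
      rw [show (5 : ℝ) = ((5 : ℕ) : ℝ) by norm_num, Real.rpow_natCast]
      exact hxN.trans (pow_le_pow_left₀ (by positivity) (by linarith) 5)
    refine (Real.rpow_le_rpow (Nat.cast_nonneg x) a1 (by positivity)).trans (le_of_eq ?_)
    rw [← Real.rpow_mul (by positivity)]
    congr 1
    ring
  have h45 : γ * (x : ℝ) ^ (4 / 5 : ℝ) ≤ 16 * γ * (N : ℝ) ^ 4 := by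
    have a1 := hpow 4 (by norm_num)
    rw [show (4 : ℝ) = ((4 : ℕ) : ℝ) by norm_num, Real.rpow_natCast] at a1
    have a2 := mul_le_mul_of_nonneg_left a1 hγ.le
    push_cast at a2
    linarith
  have h15 : (x : ℝ) ^ (1 / 5 : ℝ) ≤ 2 * N := by simpa using hpow 1 (by norm_num)
  have hb : ∀ y Y : ℕ, 16 * γ * (N : ℝ) ^ 4 ≤ Y →
      ∑ n ∈ cls y Y E.W a, ff c E n ≤ C * D * Y := by
    intro y Y hY
    refine (b2 y Y (h45.trans hY)).trans (le_of_eq ?_)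
    rw [hD]
    ring
  have hN4 : (0 : ℝ) ≤ (N : ℝ) ^ 4 := by positivity
  obtain ⟨X0, hX0⟩ : ∃ X0 : ℕ, X0 = ⌈16 * γ * (N : ℝ) ^ 4⌉₊ + w := ⟨_, rfl⟩
  have hfin : Set.Finite {n : ℕ | x ≤ n ^ 5 ∧ (n + 1) ^ 5 ≤ 2 * x ∧ ∃ m : ℕ, n ^ 5 < m ∧
      (∀ l, m + h l < (n + 1) ^ 5) ∧ ArithmeticFunction.cardFactors (∏ l, (m + h l)) < R} := by
    refine (Set.finite_Iic (2 * x)).subset fun n hn => ?_
    exact ((Nat.le_succ n).trans (Nat.le_self_pow (by norm_num) _)).trans hn.2.1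
  have hc := pos_count (ff_nonneg c E)
    (fun m => ArithmeticFunction.cardFactors (∏ l, (m + h l)) < R) h (x := x) (N := N)
    (W := E.W) (a := a) (X0 := X0) (B := C * D) (by positivity) hN2 n1 n2
    (fun l => by have := hlt l; omega)
    (fun y => by
      have := hb y (496 * N ^ 4) (by push_cast; nlinarith)
      simpa using this)
    (fun y => hb y X0 (by
      rw [hX0]
      push_cast
      have := Nat.le_ceil (16 * γ * (N : ℝ) ^ 4)
      have : (0 : ℝ) ≤ w := Nat.cast_nonneg _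
      linarith))
    hfin.toFinset (fun n k1 k2 k3 => hfin.mem_toFinset.2 ⟨k1, k2, k3⟩)
  have hSc : E.Sc c.nu = x * D := by
    rw [hD]
    show (x : ℝ) / E.W * E.L c.nu ^ 4 = _
    ring
  rw [hSc] at b1
  have key := pos_arith (s := hfin.toFinset.card) (w := w) (X0 := X0) (x := x) hC hD0 hδ hγ2
    (by linarith : (1 : ℝ) ≤ N) (Nat.cast_nonneg _) (by exact_mod_cast n1)
    (by
      rw [hX0]
      push_cast
      have := Nat.ceil_lt_add_one (show 0 ≤ 16 * γ * (N : ℝ) ^ 4 by positivity)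
      linarith) hbig (b1.trans hc)
  rw [Set.ncard_eq_toFinset_card _ hfin]
  exact (mul_le_mul_of_nonneg_left h15 (by positivity)).trans key

end Pool.Agent.Lib.MP_c03ca8_nt.Q
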