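import Pool.Agent.Lib.MP_c03ca8_nt.Q.PosB

/-!
From the weight of the good integers to a positive proportion of the intervals between
consecutive `k`-th powers, each with the expected order of good integers.
-/

set_option autoImplicit false

noncomputable section

namespace Pool.Agent.Lib.MP_c03ca8_nt.Q

open Finset Real

theorem pc_mert_nonneg {P : Finset ℕ} (hP : ∀ q ∈ P, q.Prime) : 0 ≤ mert P := by
  refine prod_nonneg fun q hq => ?_
  have h2 : (2 : ℝ) ≤ q := by exact_mod_cast (hP q hq).two_le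
  have : 0 < (q : ℝ) - 1 := by linarith
  positivity

theorem pc_sv {P : Finset ℕ} (hP : ∀ q ∈ P, q.Prime) {z : ℕ → ℝ} (hz : ∀ r, |z r| ≤ 1)
    {m M R : ℕ} (hM : M ≠ 0) (hm : m ∣ M) (hR : ArithmeticFunction.cardFactors M ≤ R) :
    |sv P z m| ≤ 2 ^ R * mert P := by
  have a1 : |sv P z m| ≤ ∑ T ∈ P.powerset, ∏ q ∈ T, |zl q m| := by
    refine (abs_sum_le_sum_abs _ _).trans (sum_le_sum fun T _ => ?_)
    rw [abs_mul, Finset.abs_prod]
    exact mul_le_of_le_one_left (prod_nonneg fun _ _ => abs_nonneg _) (hz _)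
  rw [← prod_one_add] at a1
  have a2 : ∏ q ∈ P, (1 + |zl q m|) ≤
      ∏ q ∈ P, ((if q ∣ m then (2 : ℝ) else 1) * (1 + 1 / ((q : ℝ) - 1))) := by
    refine prod_le_prod (fun _ _ => by positivity) fun q hq => ?_
    have h2 : (2 : ℝ) ≤ q := by exact_mod_cast (hP q hq).two_le
    have h3 : 0 < (q : ℝ) - 1 := by linarith
    have h4 : 0 < 1 / ((q : ℝ) - 1) := by positivity
    unfold zl
    split_ifs
    · rw [abs_neg, abs_one]; linarith
    · rw [abs_of_pos h4, one_mul]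
  rw [prod_mul_distrib, ← prod_filter, prod_const] at a2
  have a3 : (P.filter fun q => q ∣ m).card ≤ R := by
    refine le_trans (card_le_card (t := M.primeFactors) fun q hq => ?_) (le_trans ?_ hR)
    · rw [mem_filter] at hq
      exact Nat.mem_primeFactors.2 ⟨hP q hq.1, hq.2.trans hm, hM⟩
    · rw [ArithmeticFunction.cardFactors_apply]
      exact List.toFinset_card_le _
  exact a1.trans (a2.trans (mul_le_mul_of_nonneg_right (pow_le_pow_right₀ one_le_two a3)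
    (pc_mert_nonneg hP)))

theorem pc_ff (c : Cert) (R : ℕ) : ∃ K : ℝ, 0 < K ∧ ∀ (E : Env) (m : ℕ), 0 < m →
    ArithmeticFunction.cardFactors (∏ l, (m + E.h l)) < R → ff c E m ≤ K * mert E.P ^ 8 := by
  have hs : 0 ≤ ∑ j ∈ c.J, |c.F j| := sum_nonneg fun _ _ => abs_nonneg _
  refine ⟨((∑ j ∈ c.J, |c.F j| + 1) * (2 ^ R) ^ 4) ^ 2, by positivity, fun E m hm hR => ?_⟩
  have hP : ∀ q ∈ E.P, q.Prime := fun q hq => (erra_memP hq).1
  have h0 := pc_mert_nonneg hP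
  have hM : ∏ l, (m + E.h l) ≠ 0 := prod_ne_zero_iff.2 fun l _ => by omega
  have a1 : ∀ j, |bb c E m j| ≤ |c.F j| * (2 ^ R * mert E.P) ^ 4 := by
    intro j
    rw [bb, abs_mul, Finset.abs_prod]
    refine mul_le_mul_of_nonneg_left ?_ (abs_nonneg _)
    have : ∏ l, |sv E.P (cell (E.H c.nu) (j l)) (m + E.h l)| ≤
        ∏ _l : Fin 4, (2 ^ R * mert E.P) := by
      refine prod_le_prod (fun _ _ => abs_nonneg _) fun l _ => ?_
      refine pc_sv hP (fun r => ?_) hM (dvd_prod_of_mem _ (mem_univ l)) hR.le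
      unfold cell
      split_ifs <;> simp
    simpa using this
  have a2 : |∑ j ∈ c.J, bb c E m j| ≤ (∑ j ∈ c.J, |c.F j| + 1) * (2 ^ R * mert E.P) ^ 4 := by
    refine (abs_sum_le_sum_abs _ _).trans ((sum_le_sum fun j _ => a1 j).trans ?_)
    rw [← sum_mul]
    exact mul_le_mul_of_nonneg_right (by linarith) (by positivity)
  rw [ff, ← sq_abs]
  refine (pow_le_pow_left₀ (abs_nonneg _) a2 2).trans (le_of_eq ?_)
  ring

/-- The weight of an interval of length at least `γ x ^ τ`. -/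
theorem pc_short (c : Cert) (hv : c.Valid) {θ τ : ℝ} (hr : Rng c.nu θ c.T1 c.T2 c.M)
    (hU : ((2 * c.U + 8 : ℕ) : ℝ) < τ * c.nu) : ∃ C : ℝ, 0 < C ∧ ∀ γ : ℝ, 0 < γ →
      Ev θ fun E => ∀ y Y : ℕ, γ * (E.x : ℝ) ^ τ ≤ Y →
        ∑ n ∈ cls y Y E.W E.a, ff c E n ≤ C * (Y / E.W * E.L c.nu ^ 4) := by
  obtain ⟨A, hA, hA0, -, -⟩ := corea_const c
  refine ⟨A * 3, by positivity, fun γ hγ => ?_⟩
  have hδ : 0 < τ * c.nu - ((2 * c.U + 8 : ℕ) : ℝ) := by linarith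
  refine ((ev_tame (θ := θ) hr.pos hδ hγ 33).and (main0 hr one_pos)).mono ?_
  rintro E hE - ⟨⟨G, hG, hGW, hL, hH, hx, -⟩, hm⟩ y Y hY
  have h0 : (0 : ℝ) < E.H c.nu := by linarith
  have h1 : (1 : ℝ) ≤ E.H c.nu := by linarith
  have hG0 : (0 : ℝ) ≤ G ^ 33 := by have := hG.ten; positivity
  have hW : (0 : ℝ) < E.W := by exact_mod_cast erra_Wpos E
  have hL4 : 1 ≤ E.L c.nu ^ 4 := one_le_pow₀ hL
  have hYW : (0 : ℝ) ≤ Y / E.W := by positivity
  have hlev := hv.lev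
  have e1 := corea_expand c E (cls y Y E.W E.a) (fun _ => 1) (fun _ _ => 1)
  have e2 : ∑ n ∈ cls y Y E.W E.a, ff c E n = ∑ j ∈ c.J, ∑ j' ∈ c.J,
      (1 : ℝ) * (c.F j * c.F j') *
        ∑ n ∈ cls y Y E.W E.a, Pw E.P E.h (cz (E.H c.nu) (pairS j j')) n := by
    simp only [ff, corea_sq]
    simpa only [one_mul] using e1
  rw [e2]
  refine (corea_form_le c _ _ (e := 3 * (Y / E.W * E.L c.nu ^ 4)) (fun j hj j' hj' => ?_)
    (by positivity)).trans ?_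
  · have hs := corea_sum_le c hj hj'
    have hZ : ∀ s, E.H c.nu ^ (pairS j j' s + 1) ≤ 3 * (E.x : ℝ) := by
      intro s
      refine erra_pow_le hr hH hx (le_trans ?_ (show 2 * c.U + 8 ≤ c.T1 by omega))
      exact (single_le_sum (f := fun s => pairS j j' s + 1) (fun _ _ => Nat.zero_le _)
        (mem_univ s)).trans hs
    have a1 := k1 hG E.h hE.inj E.w hE.hlt E.P (fun q hq => erra_memP hq) y Y E.W E.a
      (erra_Wpos E) (fun q hq => erra_cop hq) (cz (E.H c.nu) (pairS j j'))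
      (fun s => E.H c.nu ^ (pairS j j' s + 1)) (supp_cz _ _) (fun s => by positivity) hZ 1
      (Or.inl rfl) 0
    simp only [ind, one_dvd, if_true, one_mul] at a1
    rw [prod_pow_eq_pow_sum] at a1
    have a2 : E.H c.nu ^ ∑ s, (pairS j j' s + 1) ≤ E.H c.nu ^ (((2 * c.U + 8 : ℕ)) : ℝ) := by
      rw [Real.rpow_natCast]
      exact pow_le_pow_right₀ h1 hs
    have a3 : E.H c.nu ^ (τ * c.nu - ((2 * c.U + 8 : ℕ) : ℝ)) *
        E.H c.nu ^ (((2 * c.U + 8 : ℕ)) : ℝ) = (E.x : ℝ) ^ τ := by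
      rw [← Real.rpow_add h0, sub_add_cancel, ← hx, ← Real.rpow_mul h0.le, mul_comm]
    have a4 : G ^ 33 * E.H c.nu ^ ∑ s, (pairS j j' s + 1) ≤ Y / E.W := by
      rw [le_div_iff₀ hW]
      calc G ^ 33 * E.H c.nu ^ (∑ s, (pairS j j' s + 1)) * E.W
          = G ^ 33 * E.W * E.H c.nu ^ ∑ s, (pairS j j' s + 1) := by ring
        _ ≤ γ * E.H c.nu ^ (τ * c.nu - ((2 * c.U + 8 : ℕ) : ℝ)) *
            E.H c.nu ^ (((2 * c.U + 8 : ℕ)) : ℝ) :=
          mul_le_mul hGW a2 (by positivity) (by positivity)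
        _ = γ * (E.x : ℝ) ^ τ := by rw [mul_assoc, a3]
        _ ≤ Y := hY
    have a5 := hm (pairS j j') 0 (corea_lt c hj hj')
    have a6 : |∏ l : Fin 4, dl (pairS j j' (l, false)) (pairS j j' (l, true))| ≤ 1 := by
      rw [Finset.abs_prod]
      refine Finset.prod_le_one (fun _ _ => abs_nonneg _) fun l _ => ?_
      unfold dl
      split_ifs <;> simp
    have a7 : |M1 E.P (cz (E.H c.nu) (pairS j j')) 1 0| ≤ 2 * E.L c.nu ^ 4 := by
      have b1 := abs_add_le (M1 E.P (cz (E.H c.nu) (pairS j j')) 1 0 - E.L c.nu ^ 4 *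
        ∏ l : Fin 4, dl (pairS j j' (l, false)) (pairS j j' (l, true)))
        (E.L c.nu ^ 4 * ∏ l : Fin 4, dl (pairS j j' (l, false)) (pairS j j' (l, true)))
      rw [sub_add_cancel, abs_mul, abs_of_nonneg (by linarith : 0 ≤ E.L c.nu ^ 4)] at b1
      have b2 := mul_le_mul_of_nonneg_left a6 (by linarith : 0 ≤ E.L c.nu ^ 4)
      linarith
    have a8 := abs_add_le (∑ n ∈ cls y Y E.W E.a, Pw E.P E.h (cz (E.H c.nu) (pairS j j')) n -
      Y / E.W * M1 E.P (cz (E.H c.nu) (pairS j j')) 1 0)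
      (Y / E.W * M1 E.P (cz (E.H c.nu) (pairS j j')) 1 0)
    rw [sub_add_cancel, abs_mul, abs_of_nonneg hYW] at a8
    have a9 := mul_le_mul_of_nonneg_left a7 hYW
    have a10 := mul_le_mul_of_nonneg_left hL4 hYW
    linarith
  · have := mul_le_mul_of_nonneg_right hA0
      (by positivity : (0 : ℝ) ≤ 3 * (Y / E.W * E.L c.nu ^ 4))
    linarith

theorem pc_root {k : ℕ} (hk : k ≠ 0) (m : ℕ) : ∃ n : ℕ, n ^ k ≤ m ∧ m < (n + 1) ^ k := by
  classical
  have hex : ∃ n : ℕ, m < (n + 1) ^ k :=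
    ⟨m, (Nat.lt_succ_self m).trans_le (Nat.le_self_pow hk _)⟩
  refine ⟨Nat.find hex, ?_, Nat.find_spec hex⟩
  rcases h : Nat.find hex with _ | i
  · simp [hk]
  · have := Nat.find_min hex (m := i) (by omega)
    omega

theorem pc_gap (j : ℕ) {n : ℕ} (hn : 1 ≤ n) :
    (n + 1) ^ (j + 1) ≤ n ^ (j + 1) + 3 ^ (j + 1) * n ^ j := by
  induction j with
  | zero => simp
  | succ j ih =>
    have h1 : 1 ≤ 3 ^ (j + 1) := Nat.one_le_pow _ _ (by norm_num)
    rw [pow_succ (n + 1) (j + 1), pow_succ n (j + 1), pow_succ 3 (j + 1), pow_succ n j] at *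
    generalize (n + 1) ^ (j + 1) = u at *
    generalize 3 ^ (j + 1) = t at *
    generalize n ^ j = a at *
    have h2 := Nat.mul_le_mul_right (n + 1) ih
    have h3 : t * a ≤ t * a * n := Nat.le_mul_of_pos_right _ hn
    have h4 : a * n ≤ t * (a * n) := Nat.le_mul_of_pos_left _ h1
    nlinarith

theorem pc_two {k N : ℕ} (hk : 3 ≤ k) (hN : 2 ≤ N) : 2 * (N + 1) ^ k ≤ (2 * N) ^ k := by
  have a0 : 2 * 3 ^ k ≤ 4 ^ k := by
    induction k, hk using Nat.le_induction with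
    | base => norm_num
    | succ k _ ih => rw [pow_succ, pow_succ]; omega
  have a1 : (2 * (N + 1)) ^ k ≤ (3 * N) ^ k := Nat.pow_le_pow_left (by omega) k
  have a2 : (4 : ℕ) ^ k = 2 ^ k * 2 ^ k := by rw [← mul_pow]; rfl
  rw [mul_pow, mul_pow] at a1
  rw [mul_pow]
  refine Nat.le_of_mul_le_mul_left (c := 2 ^ k) ?_ (by positivity)
  have a3 := Nat.mul_le_mul_right (N ^ k) a0
  rw [a2] at a3
  nlinarith

/-- Covering the good integers of `(x, 2 x]`. -/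
theorem pc_count {f : ℕ → ℝ} (hf : ∀ n, 0 ≤ f n) (p : ℕ → Prop) [DecidablePred p]
    (h : Fin 4 → ℕ) {k x N W a X0 Y0 : ℕ} {B1 B2 : ℝ} (hk : k ≠ 0) (hB1 : 0 ≤ B1) (hB2 : 0 ≤ B2)
    (hN : 1 ≤ N) (h1 : N ^ k ≤ x) (h2 : x < (N + 1) ^ k) (h3 : 2 * x ≤ (2 * N) ^ k)
    (hh : ∀ l, h l < X0) (hgap : ∀ n, 1 ≤ n → n < 2 * N → (n + 1) ^ k ≤ n ^ k + Y0)
    (hY : ∀ y, ∑ m ∈ cls y Y0 W a, f m ≤ B1) (hX : ∀ y, ∑ m ∈ cls y X0 W a, f m ≤ B2)
    (S : Finset ℕ) (G : ℕ → Finset ℕ)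
    (hG : ∀ n m, x ≤ n ^ k → (n + 1) ^ k ≤ 2 * x → m ∈ (cls x x W a).filter p → n ^ k < m →
      (∀ l, m + h l < (n + 1) ^ k) → m ∈ G n)
    (hS : ∀ n, n < 2 * N → n ∉ S → ∑ m ∈ G n, f m ≤ B2) :
    ∑ m ∈ (cls x x W a).filter p, f m ≤ B1 * (S.card + 2) + 2 * B2 * (2 * N) := by
  obtain ⟨N', g1, g2⟩ := pc_root hk (2 * x)
  obtain ⟨T, hT⟩ : ∃ T : Finset ℕ, T = insert N (insert N' S) := ⟨_, rfl⟩
  have hTc : (T.card : ℝ) ≤ S.card + 2 := by
    have a1 := card_insert_le N (insert N' S)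
    have a2 := card_insert_le N' S
    rw [hT]
    exact_mod_cast (by omega : (insert N (insert N' S)).card ≤ S.card + 2)
  have hcov : (cls x x W a).filter p ⊆ (range (2 * N)).biUnion fun n =>
      if n ∈ T then cls (n ^ k) Y0 W a else cls ((n + 1) ^ k - X0) X0 W a ∪ G n := by
    intro m hm0
    have hm := hm0
    simp only [cls, mem_filter, mem_Ioc] at hm
    obtain ⟨⟨⟨m1, m2⟩, m3⟩, m4⟩ := hm
    obtain ⟨n, n1, n2⟩ := pc_root hk (m - 1)
    have hn2 : n < 2 * N := lt_of_pow_lt_pow_left₀ k (Nat.zero_le _) (by omega)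
    have hn3 : N < n + 1 := lt_of_pow_lt_pow_left₀ k (Nat.zero_le _) (by omega)
    refine mem_biUnion.2 ⟨n, mem_range.2 hn2, ?_⟩
    split_ifs with hn
    · have a1 := hgap n (hN.trans (Nat.lt_succ_iff.1 hn3)) hn2
      simp only [cls, mem_filter, mem_Ioc]
      exact ⟨⟨by omega, by omega⟩, m3⟩
    · simp only [hT, mem_insert, not_or] at hn
      obtain ⟨k1, k2, -⟩ := hn
      have a1 : (N + 1) ^ k ≤ n ^ k := Nat.pow_le_pow_left (by omega) k
      have a2 : (n + 1) ^ k ≤ 2 * x := by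
        by_contra hc
        have b1 : n < N' + 1 := lt_of_pow_lt_pow_left₀ k (Nat.zero_le _) (by omega)
        have b2 : N' < n + 1 := lt_of_pow_lt_pow_left₀ k (Nat.zero_le _) (by omega)
        omega
      by_cases a3 : ∀ l, m + h l < (n + 1) ^ k
      · exact mem_union_right _ (hG n m (by omega) a2 hm0 (by omega) a3)
      · push Not at a3
        obtain ⟨l, hl⟩ := a3
        have a4 := hh l
        refine mem_union_left _ ?_
        simp only [cls, mem_filter, mem_Ioc]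
        exact ⟨⟨by omega, by omega⟩, m3⟩
  refine (sum_le_sum_of_subset_of_nonneg hcov fun m _ _ => hf m).trans
    ((pos_cover hf _ _).trans ?_)
  have a1 : ∀ n ∈ range (2 * N), ∑ m ∈ (if n ∈ T then cls (n ^ k) Y0 W a
      else cls ((n + 1) ^ k - X0) X0 W a ∪ G n), f m ≤ (if n ∈ T then B1 else 0) + 2 * B2 := by
    intro n hn
    split_ifs with hnT
    · have := hY (n ^ k)
      linarith
    · have b1 := hX ((n + 1) ^ k - X0)
      have b2 := hS n (mem_range.1 hn) fun hc => hnT (by simp [hT, hc])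
      have b3 := sum_union_inter (s₁ := cls ((n + 1) ^ k - X0) X0 W a) (s₂ := G n) (f := f)
      have b4 : 0 ≤ ∑ m ∈ cls ((n + 1) ^ k - X0) X0 W a ∩ G n, f m := sum_nonneg fun m _ => hf m
      linarith
  refine (sum_le_sum a1).trans ?_
  rw [sum_add_distrib, ← sum_filter, sum_const, sum_const, card_range, nsmul_eq_mul, nsmul_eq_mul]
  have a2 : (((range (2 * N)).filter fun n => n ∈ T).card : ℝ) ≤ S.card + 2 := by
    refine le_trans ?_ hTc
    exact_mod_cast card_le_card fun n hn => (mem_filter.1 hn).2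
  have a3 := mul_le_mul_of_nonneg_right a2 hB1
  push_cast
  linarith

theorem pc_arith {δ C g D x N s w X0 A t : ℝ} (hC : 0 < C) (hD : 0 < D) (hδ : 0 < δ) (hA : 0 < A)
    (hg : 16 * C * g ≤ δ) (hN : 1 ≤ N) (hw : 0 ≤ w) (ht : N ≤ t) (hx : N * t ≤ x)
    (hX : X0 ≤ g * t + 1 + w) (hbig : 4 * (C * (2 * A + 4 * (1 + w))) ≤ δ * N)
    (h : δ * (x * D) ≤ C * D * (A * t) * (s + 2) + 2 * (C * D * X0) * (2 * N)) :
    δ / (4 * C * A) * (2 * N) ≤ s := by
  have h0 : 0 < N := by linarith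
  have h4 : 0 < t := by linarith
  have h1 : δ * x ≤ C * (A * t) * (s + 2) + 4 * (C * X0 * N) := by
    refine le_of_mul_le_mul_right ?_ hD
    linarith
  have h2 : C * X0 * N ≤ C * (g * t + 1 + w) * N :=
    mul_le_mul_of_nonneg_right (mul_le_mul_of_nonneg_left hX hC.le) h0.le
  have h5 : C * (1 + w) * N ≤ C * (1 + w) * t := mul_le_mul_of_nonneg_left ht (by positivity)
  have h6 : 16 * C * g * (N * t) ≤ δ * (N * t) := mul_le_mul_of_nonneg_right hg (by positivity)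
  have h7 : δ * (N * t) ≤ δ * x := mul_le_mul_of_nonneg_left hx hδ.le
  have h8 := mul_le_mul_of_nonneg_right hbig h4.le
  have h9 : δ * N * t ≤ 2 * C * A * s * t := by nlinarith
  have h10 := le_of_mul_le_mul_right h9 h4
  rw [div_mul_eq_mul_div, div_le_iff₀ (by positivity)]
  linarith

theorem pc_thin {g c K M L u v l r k T Q : ℝ} (hc : 0 ≤ c) (hK : 0 ≤ K) (hT : 0 ≤ T) (hr : 0 < r)
    (hv : 0 ≤ v) (hl : 0 ≤ l) (hg : g ≤ c * T / r ^ 4) (hM0 : 0 ≤ M) (hM : M ≤ u * L)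
    (hlr : l ≤ k * r) (hL : L = v * l) (hQ : c * (k ^ 4 * K * u ^ 8 * v ^ 4) ≤ Q) :
    g * (K * M ^ 8) ≤ Q * T * L ^ 4 := by
  have a1 : M ^ 8 ≤ (u * L) ^ 8 := pow_le_pow_left₀ hM0 hM 8
  have a2 : L ^ 4 ≤ (v * (k * r)) ^ 4 := by
    rw [hL]
    exact pow_le_pow_left₀ (by positivity) (mul_le_mul_of_nonneg_left hlr hv) 4
  have a3 : (u * L) ^ 8 ≤ u ^ 8 * L ^ 4 * (v * (k * r)) ^ 4 := by
    rw [show (u * L) ^ 8 = u ^ 8 * L ^ 4 * L ^ 4 by ring]
    exact mul_le_mul_of_nonneg_left a2 (by positivity)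
  calc g * (K * M ^ 8) ≤ c * T / r ^ 4 * (K * (u ^ 8 * L ^ 4 * (v * (k * r)) ^ 4)) :=
        mul_le_mul hg (mul_le_mul_of_nonneg_left (a1.trans a3) hK) (by positivity) (by positivity)
    _ = c * (k ^ 4 * K * u ^ 8 * v ^ 4) * (T * L ^ 4) := by field_simp
    _ ≤ Q * (T * L ^ 4) := mul_le_mul_of_nonneg_right hQ (by positivity)
    _ = Q * T * L ^ 4 := by ring

theorem pc_pow {j x N : ℕ} {γ g : ℝ} (hj : 3 ≤ j) (hx10 : (10 : ℝ) ≤ x)
    (h2x : 2 * x ≤ (2 * N) ^ (j + 1)) (hγ : 0 < γ) (hγg : γ * 2 ^ j = g) :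
    γ * (x : ℝ) ^ (3 / 4 : ℝ) ≤ g * (N : ℝ) ^ j ∧
      (x : ℝ) ^ (1 / ((j + 1 : ℕ) : ℝ)) ≤ 2 * N := by
  have hk0 : (0 : ℝ) < ((j + 1 : ℕ) : ℝ) := by positivity
  have hpow : ∀ t : ℝ, 0 ≤ t → (x : ℝ) ^ (t / ((j + 1 : ℕ) : ℝ)) ≤ (2 * (N : ℝ)) ^ t := by
    intro t ht
    have a1 : (x : ℝ) ≤ (2 * (N : ℝ)) ^ ((j + 1 : ℕ) : ℝ) := by
      rw [Real.rpow_natCast]
      exact_mod_cast (by omega : x ≤ (2 * N) ^ (j + 1))
    refine (Real.rpow_le_rpow (Nat.cast_nonneg x) a1 (by positivity)).trans (le_of_eq ?_)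
    rw [← Real.rpow_mul (by positivity)]
    congr 1
    field_simp
  have h45 : γ * (x : ℝ) ^ (3 / 4 : ℝ) ≤ g * (N : ℝ) ^ j := by
    have a1 := hpow j (Nat.cast_nonneg j)
    rw [Real.rpow_natCast] at a1
    have a0 : (x : ℝ) ^ (3 / 4 : ℝ) ≤ (x : ℝ) ^ ((j : ℝ) / ((j + 1 : ℕ) : ℝ)) := by
      refine Real.rpow_le_rpow_of_exponent_le (by linarith) ?_
      have : (3 : ℝ) ≤ j := by exact_mod_cast hj
      rw [le_div_iff₀ hk0]
      push_cast
      linarith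
    refine (mul_le_mul_of_nonneg_left (a0.trans a1) hγ.le).trans (le_of_eq ?_)
    rw [mul_pow, ← mul_assoc, hγg]
  have h15 : (x : ℝ) ^ (1 / ((j + 1 : ℕ) : ℝ)) ≤ 2 * N := by simpa using hpow 1 (by norm_num)
  exact ⟨h45, h15⟩

theorem pc_mert {ν Cm : ℝ} (hν : 0 < ν) (hCm : 0 < Cm)
    (hmert : ∀ w y : ℕ, w ≤ y → 2 ≤ y → mert (PP w y) ≤ Cm * (cW w * Real.log y)) (E : Env)
    (hwx : E.w ≤ E.x) (hx10 : (10 : ℝ) ≤ E.x) :
    E.L ν = cW E.w / ν * Real.log E.x ∧ mert E.P ≤ 2 * ν * Cm * E.L ν := by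
  have hLx : E.L ν = cW E.w / ν * Real.log E.x := by
    show cW E.w * Real.log ((E.x : ℝ) ^ (1 / ν)) = _
    rw [Real.log_rpow (by linarith)]
    ring
  have hx : 10 ≤ E.x := by exact_mod_cast hx10
  refine ⟨hLx, (hmert E.w (3 * E.x) (by omega) (by omega)).trans ?_⟩
  have a1 : Real.log ((3 * E.x : ℕ) : ℝ) ≤ 2 * Real.log E.x := by
    rw [two_mul, ← Real.log_mul (by linarith) (by linarith)]
    refine Real.log_le_log (by push_cast; linarith) ?_
    push_cast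
    nlinarith
  refine (mul_le_mul_of_nonneg_left (mul_le_mul_of_nonneg_left a1 (cW_pos E.w).le) hCm.le).trans
    (le_of_eq ?_)
  rw [hLx]
  field_simp

/-- Almost prime 4-tuples, with the expected order, in a positive proportion of the intervals
between consecutive powers. -/
theorem pc_core (c : Cert) (hv : c.Valid) (hr : Rng c.nu 1 c.T1 c.T2 c.M)
    (hU : ((2 * c.U + 8 : ℕ) : ℝ) < 3 / 4 * c.nu) (R : ℕ) (hin : 4 * c.Bval < R * c.Ival)
    (j : ℕ) (hj : 3 ≤ j) (h : Fin 4 → ℕ) (hinj : Function.Injective h)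
    (adm : ∀ p : ℕ, p.Prime → ∃ a, ∀ l, ¬ p ∣ a + h l) :
    ∃ κ : ℝ, 0 < κ ∧ ∃ x0 : ℕ, ∀ x : ℕ, x0 ≤ x → κ * (x : ℝ) ^ (1 / ((j + 1 : ℕ) : ℝ)) ≤
      Set.ncard {n : ℕ | x ≤ n ^ (j + 1) ∧ (n + 1) ^ (j + 1) ≤ 2 * x ∧
        κ * (n : ℝ) ^ j / Real.log n ^ 4 ≤ Set.ncard {m : ℕ | n ^ (j + 1) < m ∧
          (∀ l, m + h l < (n + 1) ^ (j + 1)) ∧
            ArithmeticFunction.cardFactors (∏ l, (m + h l)) < R}} := by
  classical
  obtain ⟨δ, hδ, hg⟩ := good_mass c hv hr R hin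
  obtain ⟨C, hC, hs⟩ := pc_short c hv hr hU
  obtain ⟨K, hK, hff⟩ := pc_ff c R
  obtain ⟨Cm, hCm, hmert⟩ := mert_PP
  have hν := hr.pos
  obtain ⟨g, hg0, hg1, hg2⟩ : ∃ g : ℝ, 0 < g ∧ g ≤ 1 ∧ 16 * C * g ≤ δ := by
    refine ⟨min 1 (δ / (16 * C)), lt_min one_pos (by positivity), min_le_left _ _, ?_⟩
    have h1 : min 1 (δ / (16 * C)) ≤ δ / (16 * C) := min_le_right _ _
    rw [le_div_iff₀ (by positivity)] at h1
    linarith
  obtain ⟨γ, hγ, hγg⟩ : ∃ γ : ℝ, 0 < γ ∧ γ * 2 ^ j = g :=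
    ⟨g / 2 ^ j, by positivity, by field_simp⟩
  obtain ⟨w0, hw0⟩ := (hg.and (hs γ hγ)).and (ev_tame (θ := 1) hr.pos one_pos one_pos 0)
  set w : ℕ := w0 + 10 + ∑ l, h l + 1 with hw
  obtain ⟨x0, hx0⟩ := hw0 w (by omega)
  obtain ⟨a, ha⟩ := exists_residue h adm w
  have hlt : ∀ l, h l < w := fun l => by
    have : h l ≤ ∑ l, h l := Finset.single_le_sum (f := h) (fun _ _ => Nat.zero_le _) (mem_univ l)
    omega
  obtain ⟨A, hA⟩ : ∃ A : ℕ, A = 3 ^ (j + 1) * 2 ^ j := ⟨_, rfl⟩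
  have hA1 : 1 ≤ A := by rw [hA]; exact Nat.one_le_iff_ne_zero.2 (by positivity)
  have hAR : (1 : ℝ) ≤ A := by exact_mod_cast hA1
  obtain ⟨N0, hN0⟩ : ∃ N0 : ℕ, N0 = ⌈4 * (C * (2 * A + 4 * (1 + (w : ℝ)))) / δ⌉₊ + 2 := ⟨_, rfl⟩
  have hcw := cW_pos w
  have hWp : (0 : ℝ) < primorial w := by exact_mod_cast primorial_pos w
  obtain ⟨Z, hZ⟩ : ∃ Z : ℝ, Z = ((j + 1 : ℕ) : ℝ) ^ 4 * K * (2 * c.nu * Cm) ^ 8 *
    (cW w / c.nu) ^ 4 := ⟨_, rfl⟩
  have hZ0 : 0 < Z := by rw [hZ]; positivity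
  obtain ⟨κ, hκ, hκ1, hκ2⟩ : ∃ κ : ℝ, 0 < κ ∧ κ ≤ δ / (4 * C * A) ∧
      κ * Z ≤ C * γ / primorial w := by
    refine ⟨min (δ / (4 * C * A)) (C * γ / primorial w / Z),
      lt_min (by positivity) (by positivity), min_le_left _ _, ?_⟩
    exact (le_div_iff₀ hZ0).1 (min_le_right _ _)
  refine ⟨κ, hκ, x0 + w + N0 ^ (j + 1), fun x hx => ?_⟩
  obtain ⟨N, n1, n2⟩ := pc_root (k := j + 1) (by omega) x
  have hN : N0 < N + 1 := lt_of_pow_lt_pow_left₀ (j + 1) (Nat.zero_le _) (by omega)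
  have hN2 : 2 ≤ N := by omega
  have hNR : (2 : ℝ) ≤ N := by exact_mod_cast hN2
  have hbig : 4 * (C * (2 * A + 4 * (1 + (w : ℝ)))) ≤ δ * N := by
    have e0 : ⌈4 * (C * (2 * A + 4 * (1 + (w : ℝ)))) / δ⌉₊ ≤ N := by omega
    have e1 : 4 * (C * (2 * A + 4 * (1 + (w : ℝ)))) / δ ≤ (N : ℝ) :=
      (Nat.le_ceil _).trans (Nat.cast_le.2 e0)
    rwa [div_le_iff₀ hδ, mul_comm (N : ℝ)] at e1
  let E : Env := ⟨h, w, a, x, x⟩
  have hE : E.Good := ⟨hinj, hlt, ha, show 10 ≤ w by omega, show w ≤ x by omega, le_rfl⟩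
  obtain ⟨⟨b1, b2⟩, -, -, -, hL, -⟩ := hx0 E rfl (show x0 ≤ x by omega) hE (by simp [E])
  have hW : (0 : ℝ) < E.W := hWp
  obtain ⟨D, hD⟩ : ∃ D : ℝ, D = E.L c.nu ^ 4 / E.W := ⟨_, rfl⟩
  have hD0 : 0 < D := by
    rw [hD]
    have : 0 < E.L c.nu := by linarith
    positivity
  have h2x : 2 * x ≤ (2 * N) ^ (j + 1) := by
    have := pc_two (k := j + 1) (by omega) hN2
    omega
  have hx10 : (10 : ℝ) ≤ x := by exact_mod_cast (by omega : 10 ≤ x)
  have hk0 : (0 : ℝ) < ((j + 1 : ℕ) : ℝ) := by positivity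
  obtain ⟨h45, h15⟩ := pc_pow hj hx10 h2x hγ hγg
  have hb : ∀ y Y : ℕ, g * (N : ℝ) ^ j ≤ Y →
      ∑ n ∈ cls y Y E.W a, ff c E n ≤ C * D * Y := by
    intro y Y hY
    refine (b2 y Y (h45.trans hY)).trans (le_of_eq ?_)
    rw [hD]
    ring
  have hNj : (0 : ℝ) ≤ (N : ℝ) ^ j := by positivity
  obtain ⟨X0, hX0⟩ : ∃ X0 : ℕ, X0 = ⌈g * (N : ℝ) ^ j⌉₊ + w := ⟨_, rfl⟩
  have hX1 : g * (N : ℝ) ^ j ≤ X0 := by
    rw [hX0]
    push_cast
    have := Nat.le_ceil (g * (N : ℝ) ^ j)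
    have : (0 : ℝ) ≤ w := Nat.cast_nonneg _
    linarith
  have hx0' : (0 : ℝ) < x := lt_of_lt_of_le (by norm_num) hx10
  have hlx : 0 < Real.log x := Real.log_pos (lt_of_lt_of_le (by norm_num) hx10)
  obtain ⟨hLx, hM⟩ := pc_mert hν hCm hmert E hE.wx hx10
  have hM0 : 0 ≤ mert E.P := pc_mert_nonneg fun q hq => (erra_memP hq).1
  set V : ℕ → Set ℕ := fun n => {m : ℕ | n ^ (j + 1) < m ∧ (∀ l, m + h l < (n + 1) ^ (j + 1)) ∧
    ArithmeticFunction.cardFactors (∏ l, (m + h l)) < R} with hV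
  have hVf : ∀ n, (V n).Finite := fun n => (Set.finite_Iic ((n + 1) ^ (j + 1))).subset
    fun m hm => (Nat.le_add_right m (h 0)).trans (hm.2.1 0).le
  have hfin : Set.Finite {n : ℕ | x ≤ n ^ (j + 1) ∧ (n + 1) ^ (j + 1) ≤ 2 * x ∧
      κ * (n : ℝ) ^ j / Real.log n ^ 4 ≤ Set.ncard (V n)} := by
    refine (Set.finite_Iic (2 * x)).subset fun n hn => ?_
    exact ((Nat.le_succ n).trans (Nat.le_self_pow (by omega) _)).trans hn.2.1
  have hc := pc_count (ff_nonneg c E)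
    (fun m => ArithmeticFunction.cardFactors (∏ l, (m + h l)) < R) h (k := j + 1) (x := x)
    (N := N) (W := E.W) (a := a) (X0 := X0) (Y0 := A * N ^ j) (B1 := C * D * (A * (N : ℝ) ^ j))
    (B2 := C * D * X0) (by omega) (by positivity) (by positivity) (by omega) n1 n2 h2x
    (fun l => by have := hlt l; omega)
    (fun n k1 k2 => by
      have a1 := pc_gap j k1
      have a2 : n ^ j ≤ (2 * N) ^ j := Nat.pow_le_pow_left k2.le j
      have a3 := Nat.mul_le_mul_left (3 ^ (j + 1)) a2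
      rw [mul_pow, ← mul_assoc, ← hA] at a3
      omega)
    (fun y => by
      have := hb y (A * N ^ j) (by
        push_cast
        exact mul_le_mul_of_nonneg_right (hg1.trans hAR) hNj)
      simpa using this)
    (fun y => hb y X0 hX1) hfin.toFinset
    (fun n => if x ≤ n ^ (j + 1) ∧ (n + 1) ^ (j + 1) ≤ 2 * x then (hVf n).toFinset else ∅)
    (fun n m k1 k2 k3 k4 k5 => by
      rw [if_pos ⟨k1, k2⟩]
      exact (hVf n).mem_toFinset.2 ⟨k4, k5, (mem_filter.1 k3).2⟩)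
    (fun n k1 k2 => by
      split_ifs with k3
      · have a1 : (Set.ncard (V n) : ℝ) ≤ κ * (n : ℝ) ^ j / Real.log n ^ 4 :=
          le_of_not_ge fun hc => k2 (hfin.mem_toFinset.2 ⟨k3.1, k3.2, hc⟩)
        have a2 : Real.log x ≤ ((j + 1 : ℕ) : ℝ) * Real.log n := by
          rw [← Real.log_pow]
          exact Real.log_le_log hx0' (by exact_mod_cast k3.1)
        have a3 : 0 < Real.log n := (mul_pos_iff_of_pos_left hk0).1 (hlx.trans_le a2)
        have a4 : κ * (n : ℝ) ^ j / Real.log n ^ 4 ≤ κ * (2 * (N : ℝ)) ^ j / Real.log n ^ 4 := by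
          have a7 : (n : ℝ) ≤ 2 * N := by exact_mod_cast k1.le
          exact div_le_div_of_nonneg_right (mul_le_mul_of_nonneg_left
            (pow_le_pow_left₀ (Nat.cast_nonneg n) a7 j) hκ.le) (pow_pos a3 4).le
        have a5 := pc_thin (Q := C * γ / primorial w) hκ.le hK.le
          (pow_nonneg (mul_nonneg zero_le_two (Nat.cast_nonneg N)) j) a3 (div_pos hcw hν).le hlx.le
          (a1.trans a4) hM0 hM a2 hLx (by rw [hZ] at hκ2; exact hκ2)
        have a6 : ∑ m ∈ (hVf n).toFinset, ff c E m ≤ Set.ncard (V n) * (K * mert E.P ^ 8) := by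
          rw [Set.ncard_eq_toFinset_card _ (hVf n), ← nsmul_eq_mul]
          refine sum_le_card_nsmul _ _ _ fun m hm => ?_
          have hm' := (hVf n).mem_toFinset.1 hm
          exact hff E m (Nat.zero_lt_of_lt hm'.1) hm'.2.2
        refine a6.trans (a5.trans (le_trans (le_of_eq ?_)
          (mul_le_mul_of_nonneg_left hX1 (by positivity : 0 ≤ C * D))))
        rw [hD, mul_pow, ← hγg]
        show _ = C * (E.L c.nu ^ 4 / primorial w) * _
        ring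
      · rw [sum_empty]
        positivity)
  have hSc : E.Sc c.nu = x * D := by
    rw [hD]
    show (x : ℝ) / E.W * E.L c.nu ^ 4 = _
    ring
  rw [hSc] at b1
  have key := pc_arith (s := hfin.toFinset.card) (w := w) (X0 := X0) (x := x) (t := (N : ℝ) ^ j)
    hC hD0 hδ (by linarith : (0 : ℝ) < A) hg2 (by linarith : (1 : ℝ) ≤ N) (Nat.cast_nonneg _)
    (le_self_pow₀ (by linarith) (by omega))
    (by rw [← pow_succ']; exact_mod_cast n1)
    (by
      rw [hX0]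
      push_cast
      have := Nat.ceil_lt_add_one (show 0 ≤ g * (N : ℝ) ^ j by positivity)
      linarith) hbig (b1.trans hc)
  rw [Set.ncard_eq_toFinset_card _ hfin]
  exact (mul_le_mul hκ1 h15 (by positivity) (by positivity)).trans key

end Pool.Agent.Lib.MP_c03ca8_nt.Q
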