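import Pool.Agent.Lib.MP_c03ca8_nt.Q.PosC
import Pool.Agent.Lib.MP_c03ca8_nt.Q.CertB

/-! The certificate put into `pc_core`, and the admissibility of the pattern of the problem. -/

set_option autoImplicit false

namespace Pool.Agent.Lib.MP_c03ca8_nt.Q

theorem pd_count (k : ℕ) (hk : 4 ≤ k) (h : Fin 4 → ℕ) (hinj : Function.Injective h)
    (adm : ∀ p : ℕ, p.Prime → ∃ a : ℕ, ∀ l, ¬ p ∣ a + h l) :
    ∃ c : ℝ, 0 < c ∧ ∃ x0 : ℕ, ∀ x : ℕ, x0 ≤ x →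
      c * (x : ℝ) ^ (1 / (k : ℝ)) ≤ Set.ncard {n : ℕ | x ≤ n ^ k ∧ (n + 1) ^ k ≤ 2 * x ∧
        c * (n : ℝ) ^ (k - 1) / Real.log n ^ 4 ≤ Set.ncard {m : ℕ | n ^ k < m ∧
          (∀ l, m + h l < (n + 1) ^ k) ∧
            ArithmeticFunction.cardFactors (∏ l, (m + h l)) ≤ 10}} := by
  obtain ⟨j, rfl⟩ : ∃ j, k = j + 1 := ⟨k - 1, by omega⟩
  have hr : Rng ((zc1.nuN : ℝ) / 10) 1 zc1.T1 zc1.T2 zc1.M := by
    constructor <;> norm_num [zc1]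
  have hU : ((2 * zc1.U + 8 : ℕ) : ℝ) < 3 / 4 * ((zc1.nuN : ℝ) / 10) := by norm_num [zc1]
  obtain ⟨c, hc, x0, hx0⟩ := pc_core zc1.toCert (valid_of_ok1 zc1 zc1_ok1) hr hU zc1.R
    (ineq_of_ok zc1 zc1_ok1 zc1_ok2) j (by omega) h hinj adm
  refine ⟨c, hc, x0, fun x hx => (hx0 x hx).trans (le_of_eq ?_)⟩
  have e : ∀ k : ℕ, k < zc1.R ↔ k ≤ 10 := fun k => Nat.lt_succ_iff
  simp only [e, Nat.add_sub_cancel]

theorem pd_adm (p : ℕ) (hp : p.Prime) :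
    ∃ a : ℕ, ∀ l, ¬ p ∣ a + (![0, 2, 6, 8] : Fin 4 → ℕ) l := by
  by_cases h : p = 11 ∨ p = 13 ∨ p = 17 ∨ p = 19
  · refine ⟨101, fun l => ?_⟩
    rcases h with rfl | rfl | rfl | rfl <;> fin_cases l <;> decide
  · refine ⟨11, fun l hl => h ?_⟩
    fin_cases l
    · exact Or.inl ((Nat.prime_dvd_prime_iff_eq hp (by norm_num)).1 hl)
    · exact Or.inr (Or.inl ((Nat.prime_dvd_prime_iff_eq hp (by norm_num)).1 hl))
    · exact Or.inr (Or.inr (Or.inl ((Nat.prime_dvd_prime_iff_eq hp (by norm_num)).1 hl)))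
    · exact Or.inr (Or.inr (Or.inr ((Nat.prime_dvd_prime_iff_eq hp (by norm_num)).1 hl)))

theorem pd_lt (m y : ℕ) : (∀ l, m + (![0, 2, 6, 8] : Fin 4 → ℕ) l < y) ↔ m + 8 < y := by
  refine ⟨fun h => h 3, fun h l => ?_⟩
  fin_cases l <;> simp <;> omega

theorem pd_prod (m : ℕ) :
    ∏ l, (m + (![0, 2, 6, 8] : Fin 4 → ℕ) l) = m * (m + 2) * (m + 6) * (m + 8) := by
  simp [Fin.prod_univ_four]

end Pool.Agent.Lib.MP_c03ca8_nt.Q
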