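import Pool.Agent.Lib.MP_c03ca8_nt.Q.Defs

/-!
Integer certificates, evaluated by the kernel. Tables are stored in base `2 ^ 24`.
-/

set_option autoImplicit false

namespace Pool.Agent.Lib.MP_c03ca8_nt.Q

/-- Digit `i` of `t` in base `2 ^ 24`. -/
def tb (t i : ℕ) : ℕ := Nat.mod (Nat.shiftRight t (Nat.mul 24 i)) 16777216

def sumTo (n : ℕ) (f : ℕ → ℕ) : ℕ := Nat.rec 0 (fun k acc => Nat.add acc (f k)) n

def allTo (n : ℕ) (f : ℕ → Bool) : Bool := Nat.rec true (fun k acc => acc && f k) n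

def mx (a b : ℕ) : ℕ := cond (Nat.ble a b) b a

def mn (a b : ℕ) : ℕ := cond (Nat.ble a b) a b

/-- Lower bound for `10 ^ 6 log (1 + 1 / m)`. -/
def wlo (m : ℕ) : ℕ :=
  cond (Nat.beq m 0) 0 (1000000 * (6 * (2 * m + 1) ^ 2 + 2) / (3 * (2 * m + 1) ^ 3))

/-- Upper bound for `10 ^ 6 log (1 + 1 / m)`. -/
def whi (m : ℕ) : ℕ :=
  cond (Nat.beq m 0) 0
    (1000000 * (6 * (2 * m + 1) ^ 2 - 4) / (3 * (2 * m + 1) * ((2 * m + 1) ^ 2 - 1)) + 1)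

/-- `nu = nuN / 10`; `ell` and `D` are stored times `1000`. -/
structure ZC where
  nuN : ℕ
  T1 : ℕ
  T2 : ℕ
  U : ℕ
  M : ℕ
  R : ℕ
  tg : ℕ
  tom : ℕ
  tls : ℕ
  tph : ℕ
  tps : ℕ

namespace ZC

variable (c : ZC)

def EE : ℕ := c.nuN * 1000

def lb (β u : ℕ) : ℕ := 1000 + tb c.tph β * tb c.tps u / 1000

def ell (β σ : ℕ) : ℕ := mx (tb c.tls σ) (c.lb β (β + σ))

def D (m β σ : ℕ) : ℕ :=
  mn (cond (Nat.ble (mx (c.T2 - 5 - β) (c.T1 - 8 - m - (β + σ))) c.U)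
      (c.lb (c.T2 - 5 - β) (mx (c.T2 - 5 - β) (c.T1 - 8 - m - (β + σ)))) 1000000000)
    (cond (Nat.ble (c.T1 - 2 - m - σ + 1) c.M) (tb c.tls (c.T1 - 2 - m - σ)) 1000000000)

/-- Number of cells in the row `β`. -/
def len (β : ℕ) : ℕ := mn c.M (c.U + 1 - β)

def G (β σ : ℕ) : ℕ := cond (Nat.ble (σ + 1) (c.len β)) (tb c.tg (β + σ) * tb c.tom σ) 0

def Mb (β : ℕ) : ℕ :=
  sumTo c.M fun a => sumTo c.M fun b =>
    cond (Nat.ble (a + b) β && Nat.ble (β - (a + b) + 1) c.M)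
      ((tb c.tom a * tb c.tom b * tb c.tom (β - (a + b))) ^ 2) 0

def rI (β : ℕ) : ℕ := sumTo (c.len β) fun σ => c.G β σ ^ 2

def rB (β : ℕ) : ℕ := sumTo (c.len β) fun σ => c.ell β σ * c.G β σ ^ 2

/-- Positive part of `EE` times the shift form with kernel `1 - y min ell ell'`. -/
def sP (β m k : ℕ) : ℕ :=
  sumTo (c.len β) fun ρ => c.EE * (c.G β ρ ^ 2 + c.G β (ρ + k) ^ 2) +
    20 * m * mn (c.ell β ρ) (c.ell β (ρ + k)) * (c.G β ρ * c.G β (ρ + k))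

/-- Negative part. -/
def sN (β m k : ℕ) : ℕ :=
  sumTo (c.len β) fun ρ => 2 * c.EE * (c.G β ρ * c.G β (ρ + k)) +
    10 * m * (c.ell β ρ * c.G β ρ ^ 2 + c.ell β (ρ + k) * c.G β (ρ + k) ^ 2)

def zP (β m : ℕ) : ℕ := (m + 1) * c.sP β m m + m * c.sN β m (m + 1)

def zN (β m : ℕ) : ℕ := (m + 1) * c.sN β m m + m * c.sP β m (m + 1)

def smP (β m : ℕ) : ℕ :=
  whi m * (c.zP β m - c.zN β m) + 1000000 * (c.sP β m (m + 1) + c.sN β m m)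

def smN (β m : ℕ) : ℕ :=
  wlo m * (c.zN β m - c.zP β m) + 1000000 * (c.sN β m (m + 1) + c.sP β m m)

def kn (m β σ : ℕ) : Bool :=
  Nat.ble (m + 2 * (β + σ) + 9) c.T1 ||
    (Nat.ble (2 * β + 6) c.T2 && Nat.ble (2 * σ + m + 3) c.T1)

/-- `EE * NN`. -/
def ed (m β σ : ℕ) : ℕ := 10 * m * mx (c.ell β σ) (c.D m β σ) - c.EE

def gP (m β σ : ℕ) : ℕ :=
  cond (c.kn m β σ && Nat.ble (10 * m * c.ell β σ) c.EE)
    (whi m * (c.EE - 10 * m * c.ell β σ) * (c.ed m β σ + (c.EE - 10 * m * c.ell β σ)) /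
      c.ed m β σ + 1) 0

def gN (m β σ : ℕ) : ℕ :=
  cond (c.kn m β σ)
    (wlo m * (10 * m * c.ell β σ - c.EE) * (c.ed m β σ - (10 * m * c.ell β σ - c.EE)) /
      c.ed m β σ) 0

def lgP (β : ℕ) : ℕ :=
  sumTo (c.len β) fun σ => c.G β σ ^ 2 * sumTo (c.T1 - 2 - c.M) fun t => c.gP (c.M + t) β σ

def lgN (β : ℕ) : ℕ :=
  sumTo (c.len β) fun σ => c.G β σ ^ 2 * sumTo (c.T1 - 2 - c.M) fun t => c.gN (c.M + t) β σ

def rowP (β : ℕ) : ℕ :=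
  c.Mb β * (4 * (c.nuN * 1000000 * c.rB β + sumTo c.M (c.smP β) + c.lgP β))

def rowN (β : ℕ) : ℕ :=
  c.Mb β * (4 * (sumTo c.M (c.smN β) + c.lgN β) + c.R * (c.EE * 1000000) * c.rI β)

/-- The checks behind `Cert.Valid`. -/
def ok1 : Bool :=
  Nat.ble 1 c.nuN && Nat.ble (c.M + 2 * c.U + 8) c.T1 &&
    allTo c.U (fun u => Nat.ble (tb c.tph u) (tb c.tph (u + 1)) &&
      Nat.ble (tb c.tps u) (tb c.tps (u + 1))) &&
    allTo (c.M - 1) (fun σ => Nat.ble (tb c.tls σ) (tb c.tls (σ + 1))) &&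
    Nat.ble c.EE (10 * (c.T1 - 2) * tb c.tls 0) &&
    allTo (c.U + 1) fun β => allTo (c.len β) fun σ => allTo (c.T1 - 2 - c.M) fun t =>
      Nat.ble 1 (c.ed (c.M + t) β σ)

/-- The final inequality. -/
def ok2 : Bool := Nat.ble (sumTo (c.U + 1) c.rowP + 1) (sumTo (c.U + 1) c.rowN)

noncomputable def toCert : Cert where
  nu := c.nuN / 10
  T1 := c.T1
  T2 := c.T2
  U := c.U
  M := c.M
  g u := tb c.tg u
  om σ := tb c.tom σ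
  ell β σ := c.ell β σ / 1000
  D m β σ := c.D m β σ / 1000

end ZC

end Pool.Agent.Lib.MP_c03ca8_nt.Q
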