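import Pool.Agent.Lib.MP_c03ca8_nt.Q.ZDefs

set_option autoImplicit false

noncomputable section

namespace Pool.Agent.Lib.MP_c03ca8_nt.Q

open Finset Real

theorem sumTo_eq (n : ℕ) (f : ℕ → ℕ) : sumTo n f = ∑ k ∈ range n, f k := by
  induction n with
  | zero => rfl
  | succ n ih =>
    rw [Finset.sum_range_succ, ← ih]
    rfl

theorem allTo_iff (n : ℕ) (f : ℕ → Bool) : allTo n f = true ↔ ∀ k < n, f k = true := by
  induction n with
  | zero => simp [allTo]
  | succ n ih =>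
    have e : allTo (n + 1) f = (allTo n f && f n) := rfl
    rw [e, Bool.and_eq_true, ih]
    constructor
    · rintro ⟨h1, h2⟩ k hk
      rcases Nat.lt_succ_iff_lt_or_eq.1 hk with h | rfl
      · exact h1 k h
      · exact h2
    · intro h
      exact ⟨fun k hk => h k (by omega), h n (by omega)⟩

theorem zval_cond {α : Type} (a b : ℕ) (x y : α) :
    cond (Nat.ble a b) x y = if a ≤ b then x else y := by
  by_cases h : a ≤ b
  · rw [if_pos h, Nat.ble_eq_true_of_le h]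
    rfl
  · have : Nat.ble a b = false := by
      rw [← Bool.not_eq_true, Nat.ble_eq]
      exact h
    rw [if_neg h, this]
    rfl

theorem mx_eq (a b : ℕ) : mx a b = max a b := by
  rw [mx, zval_cond]
  split_ifs <;> omega

theorem mn_eq (a b : ℕ) : mn a b = min a b := by
  rw [mn, zval_cond]
  split_ifs <;> omega

theorem lt_len (c : ZC) (β σ : ℕ) : σ < c.len β ↔ σ < c.M ∧ β + σ ≤ c.U := by
  rw [ZC.len, mn_eq]
  omega

theorem Gf_eq (c : ZC) (β σ : ℕ) : c.toCert.Gf β σ = c.G β σ := by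
  have h := lt_len c β σ
  rw [ZC.G, zval_cond, Cert.Gf]
  by_cases h1 : σ < c.len β
  · rw [if_pos (show σ + 1 ≤ c.len β from h1), if_pos (by exact h.1 h1)]
    simp [ZC.toCert]
  · rw [if_neg (show ¬ σ + 1 ≤ c.len β from h1), if_neg (by exact fun h2 => h1 (h.2 h2))]
    simp

theorem Mb_eq (c : ZC) (β : ℕ) : c.toCert.Mb β = c.Mb β := by
  rw [Cert.Mb, ZC.Mb, sumTo_eq, Nat.cast_sum]
  refine Finset.sum_congr rfl fun a _ => ?_
  rw [sumTo_eq, Nat.cast_sum]
  refine Finset.sum_congr rfl fun b _ => ?_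
  by_cases h1 : a + b ≤ β
  · have e : ∀ d, (a + b + d = β) ↔ (d = β - (a + b)) := fun d => by omega
    simp only [e]
    rw [Finset.sum_ite_eq', Nat.ble_eq_true_of_le h1, Bool.true_and, zval_cond]
    have e2 : (β - (a + b) ∈ range c.toCert.M) ↔ β - (a + b) + 1 ≤ c.M := by
      rw [Finset.mem_range]
      exact Iff.rfl
    simp only [e2]
    split_ifs
    · simp [ZC.toCert]
    · simp
  · have : Nat.ble (a + b) β = false := by
      rw [← Bool.not_eq_true, Nat.ble_eq]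
      exact h1
    rw [this, Bool.false_and, Finset.sum_eq_zero fun d _ => if_neg (by omega)]
    simp

theorem zval_log {a : ℝ} (ha : 0 < a) :
    2 / (2 * a + 1) + 2 / (3 * (2 * a + 1) ^ 3) ≤ Real.log (1 + 1 / a) ∧
      Real.log (1 + 1 / a) ≤ 2 / (2 * a + 1) + 2 / (3 * (2 * a + 1) * ((2 * a + 1) ^ 2 - 1)) := by
  have h := Real.hasSum_log_one_add_inv ha
  rw [← one_div] at h
  have hs : 1 < 2 * a + 1 := by linarith
  generalize 2 * a + 1 = s at h hs ⊢
  have hs0 : 0 < s := by linarith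
  have hz0 : 0 ≤ (1 / s) ^ 2 := by positivity
  have hz1 : (1 / s) ^ 2 < 1 := pow_lt_one₀ (by positivity) ((div_lt_one hs0).2 hs) two_ne_zero
  constructor
  · refine le_trans (le_of_eq ?_) (sum_le_hasSum (range 2) (fun k _ => by positivity) h)
    simp only [Finset.sum_range_succ, Finset.sum_range_zero]
    push_cast
    field_simp
    ring
  · have h1 := (hasSum_nat_add_iff' 1).2 h
    have h2 := (hasSum_geometric_of_lt_one hz0 hz1).mul_left (2 / 3 * (1 / s) ^ 3)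
    have h3 := hasSum_le (fun k => ?_) h1 h2
    · have hs2 : 0 < s ^ 2 - 1 := by nlinarith
      have e1 : 2 / 3 * (1 / s) ^ 3 * (1 - (1 / s) ^ 2)⁻¹ = 2 / (3 * s * (s ^ 2 - 1)) := by
        have : 1 - (1 / s) ^ 2 = (s ^ 2 - 1) / s ^ 2 := by field_simp
        rw [this]
        field_simp
      have e2 : ∑ i ∈ range 1, (2 : ℝ) * (1 / (2 * (i : ℝ) + 1)) * (1 / s) ^ (2 * i + 1) =
          2 / s := by
        simp [div_eq_mul_inv]
      rw [e1, e2] at h3
      linarith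
    · have e : (1 / s) ^ (2 * (k + 1) + 1) = (1 / s) ^ 3 * ((1 / s) ^ 2) ^ k := by ring
      rw [e, ← mul_assoc]
      refine mul_le_mul_of_nonneg_right (mul_le_mul_of_nonneg_right ?_ (by positivity))
        (by positivity)
      have hk : (0 : ℝ) ≤ k := Nat.cast_nonneg k
      push_cast
      rw [mul_one_div, div_le_div_iff₀ (by positivity) (by positivity)]
      linarith

/-- `Real.hasSum_log_one_add_inv`: with `z = 1 / (2 m + 1)`,
`2 z + 2 z ^ 3 / 3 ≤ log (1 + 1 / m) ≤ 2 z + 2 z ^ 3 / (3 (1 - z ^ 2))`. For `m = 0` all three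
numbers are `0`. -/
theorem log_bounds (m : ℕ) : (wlo m : ℝ) ≤ 1000000 * Real.log (1 + 1 / (m : ℝ)) ∧
    1000000 * Real.log (1 + 1 / (m : ℝ)) ≤ whi m := by
  rcases Nat.eq_zero_or_pos m with rfl | hm
  · simp [wlo, whi]
  have hb : Nat.beq m 0 = false := by
    rw [← Bool.not_eq_true, Nat.beq_eq]
    omega
  have hmR : (0 : ℝ) < m := by exact_mod_cast hm
  obtain ⟨h1, h2⟩ := zval_log hmR
  have hs : (1 : ℝ) < 2 * m + 1 := by linarith
  have hs2 : (0 : ℝ) < (2 * m + 1) ^ 2 - 1 := by nlinarith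
  rw [wlo, whi, hb, cond_false, cond_false]
  constructor
  · refine Nat.cast_div_le.trans (le_trans (le_of_eq ?_)
      (mul_le_mul_of_nonneg_left h1 (by norm_num)))
    push_cast
    field_simp
    ring
  · have n1 : 1 < (2 * m + 1) ^ 2 := by nlinarith
    have n2 : 0 < 3 * (2 * m + 1) * ((2 * m + 1) ^ 2 - 1) :=
      Nat.mul_pos (by positivity) (by omega)
    have n3 := Nat.lt_mul_div_succ (1000000 * (6 * (2 * m + 1) ^ 2 - 4)) n2
    have n4 : ((1000000 * (6 * (2 * m + 1) ^ 2 - 4) : ℕ) : ℝ) <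
        ((3 * (2 * m + 1) * ((2 * m + 1) ^ 2 - 1) : ℕ) : ℝ) *
          ((1000000 * (6 * (2 * m + 1) ^ 2 - 4) / (3 * (2 * m + 1) * ((2 * m + 1) ^ 2 - 1)) + 1 :
            ℕ) : ℝ) := by exact_mod_cast n3
    generalize ((1000000 * (6 * (2 * m + 1) ^ 2 - 4) /
      (3 * (2 * m + 1) * ((2 * m + 1) ^ 2 - 1)) + 1 : ℕ) : ℝ) = Z at n4 ⊢
    rw [Nat.cast_mul, Nat.cast_mul, Nat.cast_sub (by omega), Nat.cast_sub n1.le] at n4
    push_cast at n4
    refine (mul_le_mul_of_nonneg_left h2 (by norm_num)).trans ?_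
    have e : (1000000 : ℝ) * (2 / (2 * m + 1) + 2 / (3 * (2 * m + 1) * ((2 * m + 1) ^ 2 - 1))) =
        1000000 * (6 * (2 * m + 1) ^ 2 - 4) / (3 * (2 * m + 1) * ((2 * m + 1) ^ 2 - 1)) := by
      field_simp
      ring
    rw [e, div_le_iff₀ (by positivity)]
    linarith

/-- `EE * NN = ed` when `ed ≥ 1`. -/
theorem NN_eq (c : ZC) (hnu : 1 ≤ c.nuN) {m β σ : ℕ} (hm : c.M ≤ m) (h : 1 ≤ c.ed m β σ) :
    c.toCert.NN m β σ = c.ed m β σ / c.EE := by
  have hn : (0 : ℝ) < c.nuN := by exact_mod_cast hnu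
  rw [ZC.ed] at h
  rw [Cert.NN, if_neg (show ¬ m < c.toCert.M from not_lt.2 hm), ZC.ed, Nat.cast_sub (by omega),
    mx_eq]
  simp only [Cert.yy, ZC.toCert, ZC.EE]
  rw [max_div_div_right (by norm_num)]
  push_cast
  field_simp

theorem zval_mono {f : ℕ → ℕ} {n : ℕ} (h : ∀ k < n, f k ≤ f (k + 1)) {a b : ℕ} (hab : a ≤ b)
    (hb : b ≤ n) : f a ≤ f b := by
  induction b, hab using Nat.le_induction with
  | base => exact le_rfl
  | succ b _ ih => exact (ih (by omega)).trans (h b (by omega))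

theorem zval_ok1 (c : ZC) (h : c.ok1 = true) : 1 ≤ c.nuN ∧ c.M + 2 * c.U + 8 ≤ c.T1 ∧
    (∀ u < c.U, tb c.tph u ≤ tb c.tph (u + 1) ∧ tb c.tps u ≤ tb c.tps (u + 1)) ∧
    (∀ σ < c.M - 1, tb c.tls σ ≤ tb c.tls (σ + 1)) ∧ c.EE ≤ 10 * (c.T1 - 2) * tb c.tls 0 ∧
    ∀ β < c.U + 1, ∀ σ < c.len β, ∀ t < c.T1 - 2 - c.M, 1 ≤ c.ed (c.M + t) β σ := by
  simp only [ZC.ok1, Bool.and_eq_true, allTo_iff, Nat.ble_eq] at h
  obtain ⟨⟨⟨⟨⟨h1, h2⟩, h3⟩, h4⟩, h5⟩, h6⟩ := h
  exact ⟨h1, h2, h3, h4, h5, h6⟩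

theorem zval_ed (c : ZC) (h : c.ok1 = true) {m β σ : ℕ} (hm : c.M ≤ m) (hm' : m + 3 ≤ c.T1)
    (hσ : σ < c.len β) : 1 ≤ c.ed m β σ := by
  obtain ⟨-, -, -, -, -, h6⟩ := zval_ok1 c h
  have h1 := (lt_len c β σ).1 hσ
  have := h6 β (by omega) σ hσ (m - c.M) (by omega)
  rwa [Nat.add_sub_cancel' hm] at this

/-- `hD`: an unknown partner has `β' + σ' ≥ T1 - 8 - m - (β + σ)` and either `β' ≥ T2 - 5 - β`
(use that `tph`, `tps` are monotone on `[0, U]`) or `σ' ≥ T1 - 2 - m - σ` (`tls` is monotone on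
`[0, M)`). `top`: `ell ≥ tls σ ≥ tls 0`. -/
theorem valid_of_ok1 (c : ZC) (h : c.ok1 = true) : c.toCert.Valid := by
  obtain ⟨h1, h2, h3, h4, h5, -⟩ := zval_ok1 c h
  have hn : (0 : ℝ) < c.nuN := by exact_mod_cast h1
  refine ⟨by simp only [ZC.toCert]; positivity, h2, ?_, ?_, ?_⟩
  · intro m β σ β' σ' hm hm' hσ hu hσ' hu' hk
    simp only [Cert.known, ZC.toCert] at hm hm' hσ hu hσ' hu' hk ⊢
    refine div_le_div_of_nonneg_right (Nat.cast_le.2 ?_) (by norm_num)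
    rw [ZC.D, ZC.ell, mn_eq, mx_eq, mx_eq, zval_cond, zval_cond]
    by_cases hb : c.T2 - 5 - β ≤ β'
    · refine (min_le_left _ _).trans (le_trans ?_ (le_max_right _ _))
      rw [if_pos (by omega), ZC.lb, ZC.lb]
      refine Nat.add_le_add_left (Nat.div_le_div_right (Nat.mul_le_mul ?_ ?_)) _
      · exact zval_mono (fun k hk => (h3 k hk).1) hb (by omega)
      · exact zval_mono (fun k hk => (h3 k hk).2) (by omega) hu'
    · refine (min_le_right _ _).trans (le_trans ?_ (le_max_left _ _))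
      rw [if_pos (by omega)]
      exact zval_mono h4 (by omega) (by omega)
  · intro m β σ hm hm' hσ hu
    have h7 := zval_ed c h hm hm' ((lt_len c β σ).2 ⟨hσ, hu⟩)
    rw [NN_eq c h1 hm h7]
    refine div_pos (by exact_mod_cast h7) ?_
    rw [ZC.EE]
    push_cast
    positivity
  · intro β σ hσ hu
    simp only [Cert.yy, ZC.toCert] at hσ hu ⊢
    have h7 : tb c.tls 0 ≤ c.ell β σ := by
      rw [ZC.ell, mx_eq]
      exact (zval_mono h4 (Nat.zero_le σ) (by omega)).trans (le_max_left _ _)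
    have h8 : c.nuN * 1000 ≤ 10 * (c.T1 - 2) * c.ell β σ := h5.trans (Nat.mul_le_mul_left _ h7)
    have h9 : (c.nuN : ℝ) * 1000 ≤ 10 * ((c.T1 - 2 : ℕ) : ℝ) * c.ell β σ := by exact_mod_cast h8
    rw [div_mul_div_comm, le_div_iff₀ (by positivity)]
    linarith

theorem ed_pos (c : ZC) (h : c.ok1 = true) {m β σ : ℕ} (hm : c.M ≤ m) (hm' : m + 3 ≤ c.T1)
    (hσ : σ < c.len β) : 1 ≤ c.ed m β σ :=
  zval_ed c h hm hm' hσ

end Pool.Agent.Lib.MP_c03ca8_nt.Q
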